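import Pool.Agent.Lib.MP_79a223_al.FM.COD

/-!
# Module A7: A_7 on 15 points
-/

open Equiv

set_option maxRecDepth 100000

namespace Pool.Agent.Lib.MP_79a223_al.FM

namespace A7M

def w_a : ℕ := 4010001008007002014003013009005012011006000

def w_b : ℕ := 1003000009014010002006004013008012007011005

def c_two : ℕ := 2001001002001002002001001002002001002001000

def p_two : ℕ := 8006003002013005011010001004014007002001000

def d_two : ℕ := 3002006001003006002004001005004005000000000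

def r_two : ℕ := 2001000

def f_two : ℕ → ℕ → ℕ
  | _ => fun z => dig w_b (dig w_b z)

def m_two : ℕ → ℕ → ℕ → ℕ := fun k i j => ((([[[0, 1, 0], [1, 0, 0], [0, 0, 1]]] : List (List (List ℕ))).getD k []).getD i []).getD j 0

def u_two : ℕ → ℕ := fun i => ([1, 1, 0] : List ℕ).getD i 0

def t_two : List (List (List ℕ × ℕ)) := [
  [([], 1), ([0], 1)],
  [([], 1)],
  [([], 1), ([0], 1)],
  [([], 1)]]

def c_thr : ℕ := 2001001002001002002001001002002001002001000

def p_thr : ℕ := 8006003002013005011010001004014007002001000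

def d_thr : ℕ := 3002006001003006002004001005004005000000000

def r_thr : ℕ := 2001000

def f_thr : ℕ → ℕ → ℕ
  | _ => fun z => dig w_b z

def m_thr : ℕ → ℕ → ℕ → ℕ := fun k i j => ((([[[0, 0, 1], [1, 0, 0], [0, 1, 0]]] : List (List (List ℕ))).getD k []).getD i []).getD j 0

def u_thr : ℕ → ℕ := fun _ => 1

def t_thr : List (List (List ℕ × ℕ)) := [
  [([], 1), ([0], 1), ([0, 0], 1)],
  [([], 2), ([0], 2), ([0, 0], 2)],
  [([], 1), ([0], 2)],
  [([], 2), ([0], 2), ([0, 0], 2)],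
  [([], 1)],
  [([], 1), ([0], 1), ([0, 0], 1)],
  [([], 2), ([0], 1)],
  [([], 1), ([0], 1), ([0, 0], 1)],
  [([], 2), ([0], 2), ([0, 0], 2)]]

def w_t_0 : ℕ := 5007006014003011004012010002009001008013000

def w_t : ℕ := 13001000011005003008010009007004006012014002

def w_v_0 : ℕ := 11012005010001014007004008003002000006009013

def w_v_1 : ℕ := 9000013014011001006008002012007005004010003

def w_v_2 : ℕ := 7011010006008004009005000001012013014002003

def w_v_3 : ℕ := 2013003004007008014000012011009010005006001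

def w_v_4 : ℕ := 9007006014000005002010013008011003004012001

def w_v_5 : ℕ := 11000012002010004009003007005008006014013001

def w_v_6 : ℕ := 8010013009003014011006000004005012002007001

def w_v : ℕ := 5003007011006002008012010014004013009000001

def w_aa_0 : ℕ := 6012000002004007011013005010014001003008009

def w_aa_1 : ℕ := 8001009007006004003005014012011000013002010

def w_aa_2 : ℕ := 11006002003005013008000001004012009007014010

def w_aa : ℕ := 12005014008000007011009006013004002003001010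

def w_ti : ℕ := 1014002011007006008005003010004009000013012

def w_tv : ℕ := 7006010011009012008000005013004001003002014

def w_v2 : ℕ := 2007003011000005008013001009004012014006010

def c_sw : ℕ := 3000000002000000000001000000000000

def p_sw : ℕ := 2014002011000002008012010010004012000000000

def d_sw : ℕ := 2003002000001002000003002002000003001001000

def r_sw : ℕ := 11008004000

end A7M

open A7M CODM in
theorem specA7 (hCRD : SpecCRD) (hTRE : SpecTRE) (hHEC : SpecHEC) (hLCK : SpecLCK) (hSWP : SpecSWP) :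
    SpecA7 := by
  intro H p hpf h2 hgen
  have hp : p.Prime := hpf.out
  obtain ⟨a, h_a, a_a⟩ : ∃ s ∈ H, Acts s (dig w_a) := hgen w_a (by decide +kernel)
  obtain ⟨b, h_b, a_b⟩ : ∃ s ∈ H, Acts s (dig w_b) := hgen w_b (by decide +kernel)
  by_cases hp2 : p = 2
  · subst hp2
    have pc_two0 : PC 2 [a] := by
      refine PC.cons a [] 7 PC.nil ?_ ⟨[], by simp, relp 7 a_a .nil (by decide +kernel)⟩ (by norm_num)
      exact List.forall_mem_nil _
    have hlH : ∀ x ∈ [a], x ∈ H := by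
      refine List.forall_mem_cons.2 ⟨h_a, ?_⟩
      exact List.forall_mem_nil _
    have hF : ∀ k < 1, ∃ g ∈ H, Acts g (f_two k) := by
      intro k hk
      interval_cases k
      · have h := (acts_mul a_b a_b)
        exact ⟨_, (H.mul_mem h_b h_b), h⟩
    have key := hecke hCRD hTRE hHEC hLCK (p := 2) h2 (fs := [dig w_a]) (.cons a_a .nil) hlH pc_two0 (dig c_two) (dig r_two) (dig p_two)
      (dig d_two) (by decide +kernel) (by decide +kernel) 3 (by norm_num) 0 (by decide +kernel) (by decide +kernel)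
      (by decide +kernel) 1 f_two hF m_two (by decide +kernel) u_two (fun t => t_two.getD t []) (by decide +kernel)
      (tab_ok (by decide +kernel))
    intro C hC0 hC
    rcases key C hC0 hC with h | h
    · left; exact h
    · right
      intro g hg
      unfold spF at hg
      rw [if_pos rfl] at hg
      exact images_mem hC (w := fun x => u_two (dig c_two x)) (by decide +kernel) h g hg
  have hF0 : spF H [0, 1, 3, 6, 7, 10, 12, 13] 2 p = sumZ (Fin 15) p := by
    unfold spF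
    rw [if_neg hp2]
  rw [hF0]
  by_cases hp3 : p = 3
  · subst hp3
    have pc_thr0 : PC 3 [a] := by
      refine PC.cons a [] 7 PC.nil ?_ ⟨[], by simp, relp 7 a_a .nil (by decide +kernel)⟩ (by norm_num)
      exact List.forall_mem_nil _
    have hlH : ∀ x ∈ [a], x ∈ H := by
      refine List.forall_mem_cons.2 ⟨h_a, ?_⟩
      exact List.forall_mem_nil _
    have hF : ∀ k < 1, ∃ g ∈ H, Acts g (f_thr k) := by
      intro k hk
      interval_cases k
      · have h := a_b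
        exact ⟨_, h_b, h⟩
    have key := hecke hCRD hTRE hHEC hLCK (p := 3) h2 (fs := [dig w_a]) (.cons a_a .nil) hlH pc_thr0 (dig c_thr) (dig r_thr) (dig p_thr)
      (dig d_thr) (by decide +kernel) (by decide +kernel) 3 (by norm_num) 0 (by decide +kernel) (by decide +kernel)
      (by decide +kernel) 1 f_thr hF m_thr (by decide +kernel) u_thr (fun t => t_thr.getD t []) (by decide +kernel)
      (tab_ok (by decide +kernel))
    intro C hC0 hC
    left
    rcases key C hC0 hC with h | h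
    · exact h
    · simpa [u_thr] using h
  obtain ⟨t_0, h_t_0, a_t_0⟩ := has_mul ⟨a, h_a, a_a⟩ ⟨a, h_a, a_a⟩ (dig w_t_0) (by decide +kernel)
  obtain ⟨t, h_t, a_t⟩ := has_mul ⟨t_0, h_t_0, a_t_0⟩ ⟨b, h_b, a_b⟩ (dig w_t) (by decide +kernel)
  obtain ⟨v_0, h_v_0, a_v_0⟩ := has_mul ⟨b, h_b, a_b⟩ ⟨b, h_b, a_b⟩ (dig w_v_0) (by decide +kernel)
  obtain ⟨v_1, h_v_1, a_v_1⟩ := has_mul ⟨v_0, h_v_0, a_v_0⟩ ⟨b, h_b, a_b⟩ (dig w_v_1) (by decide +kernel)
  obtain ⟨v_2, h_v_2, a_v_2⟩ := has_mul ⟨v_1, h_v_1, a_v_1⟩ ⟨a, h_a, a_a⟩ (dig w_v_2) (by decide +kernel)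
  obtain ⟨v_3, h_v_3, a_v_3⟩ := has_mul ⟨v_2, h_v_2, a_v_2⟩ ⟨b, h_b, a_b⟩ (dig w_v_3) (by decide +kernel)
  obtain ⟨v_4, h_v_4, a_v_4⟩ := has_mul ⟨v_3, h_v_3, a_v_3⟩ ⟨a, h_a, a_a⟩ (dig w_v_4) (by decide +kernel)
  obtain ⟨v_5, h_v_5, a_v_5⟩ := has_mul ⟨v_4, h_v_4, a_v_4⟩ ⟨a, h_a, a_a⟩ (dig w_v_5) (by decide +kernel)
  obtain ⟨v_6, h_v_6, a_v_6⟩ := has_mul ⟨v_5, h_v_5, a_v_5⟩ ⟨a, h_a, a_a⟩ (dig w_v_6) (by decide +kernel)
  obtain ⟨v, h_v, a_v⟩ := has_mul ⟨v_6, h_v_6, a_v_6⟩ ⟨a, h_a, a_a⟩ (dig w_v) (by decide +kernel)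
  obtain ⟨aa_0, h_aa_0, a_aa_0⟩ := has_mul ⟨a, h_a, a_a⟩ ⟨b, h_b, a_b⟩ (dig w_aa_0) (by decide +kernel)
  obtain ⟨aa_1, h_aa_1, a_aa_1⟩ := has_mul ⟨aa_0, h_aa_0, a_aa_0⟩ ⟨b, h_b, a_b⟩ (dig w_aa_1) (by decide +kernel)
  obtain ⟨aa_2, h_aa_2, a_aa_2⟩ := has_mul ⟨aa_1, h_aa_1, a_aa_1⟩ ⟨a, h_a, a_a⟩ (dig w_aa_2) (by decide +kernel)
  obtain ⟨aa, h_aa, a_aa⟩ := has_mul ⟨aa_2, h_aa_2, a_aa_2⟩ ⟨a, h_a, a_a⟩ (dig w_aa) (by decide +kernel)
  obtain ⟨ti, h_ti, a_ti⟩ := has_inv ⟨t, h_t, a_t⟩ (dig w_ti) (by decide +kernel)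
  obtain ⟨tv, h_tv, a_tv⟩ := has_mul ⟨t, h_t, a_t⟩ ⟨v, h_v, a_v⟩ (dig w_tv) (by decide +kernel)
  obtain ⟨v2, h_v2, a_v2⟩ := has_mul ⟨tv, h_tv, a_tv⟩ ⟨ti, h_ti, a_ti⟩ (dig w_v2) (by decide +kernel)
  have pc_sw0 : PC p [v] := by
    refine PC.cons v [] 2 PC.nil ?_ ⟨[], by simp, relp 2 a_v .nil (by decide +kernel)⟩ (nd24 hp hp2 hp3 (by norm_num))
    exact List.forall_mem_nil _
  have pc_sw1 : PC p [v2, v] := by
    refine PC.cons v2 [v] 2 pc_sw0 ?_ ⟨[], by simp, relp 2 a_v2 .nil (by decide +kernel)⟩ (nd24 hp hp2 hp3 (by norm_num))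
    refine List.forall_mem_cons.2 ⟨⟨[v], by simp, rel a_v2 a_v (.cons a_v .nil) (by decide +kernel)⟩, ?_⟩
    exact List.forall_mem_nil _
  have pc_sw2 : PC p [t, v2, v] := by
    refine PC.cons t [v2, v] 3 pc_sw1 ?_ ⟨[], by simp, relp 3 a_t .nil (by decide +kernel)⟩ (nd24 hp hp2 hp3 (by norm_num))
    refine List.forall_mem_cons.2 ⟨⟨[v, v2], by simp, rel a_t a_v2 (.cons a_v (.cons a_v2 .nil)) (by decide +kernel)⟩, ?_⟩
    refine List.forall_mem_cons.2 ⟨⟨[v2], by simp, rel a_t a_v (.cons a_v2 .nil) (by decide +kernel)⟩, ?_⟩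
    exact List.forall_mem_nil _
  have hlH : ∀ x ∈ [t, v2, v], x ∈ H := by
    refine List.forall_mem_cons.2 ⟨h_t, ?_⟩
    refine List.forall_mem_cons.2 ⟨h_v2, ?_⟩
    refine List.forall_mem_cons.2 ⟨h_v, ?_⟩
    exact List.forall_mem_nil _
  exact swap hSWP hCRD hTRE h2 (fs := [dig w_t, dig w_v2, dig w_v]) (.cons a_t (.cons a_v2 (.cons a_v .nil))) hlH pc_sw2 h_aa a_aa (dig c_sw) (dig r_sw) (dig p_sw) (dig d_sw)
    (by decide +kernel) (by decide +kernel) 11 8 (by decide +kernel) (by decide +kernel)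

end Pool.Agent.Lib.MP_79a223_al.FM
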