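import Pool.Agent.Lib.MP_79a223_al.FM.SpecS

/-!
MP_79a223_al, module AFF: 2-transitive groups with a nontrivial soluble normal subgroup.
-/

open Equiv

namespace Pool.Agent.Lib.MP_79a223_al.FM

namespace AFFM

lemma one_mem {D : Type} {p : ℕ} [Fact p.Prime] {C : Submodule (ZMod p) (D → ZMod p)}
    {f : D → ZMod p} (hf : f ∈ C) (h0 : f ≠ 0) (hc : ∃ c, ∀ x, f x = c) :
    (fun _ => 1 : D → ZMod p) ∈ C := by
  obtain ⟨c, hc⟩ := hc
  have hc0 : c ≠ 0 := by
    rintro rfl
    exact h0 (funext hc)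
  have e : (fun _ => 1 : D → ZMod p) = c⁻¹ • f := by
    funext x
    rw [Pi.smul_apply, hc x, smul_eq_mul, inv_mul_cancel₀ hc0]
  rw [e]
  exact C.smul_mem _ hf

/-- The primary part of an abelian subgroup. -/
def prim {K : Type} [Group K] (A : Subgroup K) (hc : ∀ a ∈ A, ∀ b ∈ A, a * b = b * a) (p : ℕ) :
    Subgroup K where
  carrier := {a | a ∈ A ∧ ∃ k : ℕ, a ^ (p ^ k) = 1}
  one_mem' := ⟨A.one_mem, 0, by simp⟩
  mul_mem' := by
    rintro a b ⟨ha, k, hk⟩ ⟨hb, l, hl⟩
    refine ⟨A.mul_mem ha hb, k + l, ?_⟩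
    have e1 : a ^ (p ^ (k + l)) = 1 := by rw [pow_add, pow_mul, hk, one_pow]
    have e2 : b ^ (p ^ (k + l)) = 1 := by rw [pow_add, mul_comm, pow_mul, hl, one_pow]
    rw [(show Commute a b from hc a ha b hb).mul_pow, e1, e2, one_mul]
  inv_mem' := by
    rintro a ⟨ha, k, hk⟩
    exact ⟨A.inv_mem ha, k, by rw [inv_pow, hk, inv_one]⟩

lemma prim_normal {K : Type} [Group K] (A : Subgroup K) (hA : A.Normal)
    (hc : ∀ a ∈ A, ∀ b ∈ A, a * b = b * a) (p : ℕ) : (prim A hc p).Normal := by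
  refine ⟨?_⟩
  rintro a ⟨ha, k, hk⟩ g
  refine ⟨hA.conj_mem a ha g, k, ?_⟩
  rw [conj_pow, hk]
  simp

end AFFM

open AFFM in
theorem specAFF (hPGF : SpecPGF) : SpecAFF := by
  classical
  intro D _ H p _ h2 hs C hC hInv
  by_cases hp : p ∣ Fintype.card D
  · left
    obtain ⟨A, hAn, hAne, hAc⟩ := exists_abelian hs
    have h2' : ∀ a b c d : D, a ≠ b → c ≠ d → ∃ s : H, H.subtype s a = c ∧ H.subtype s b = d := by
      intro a b c d hab hcd
      obtain ⟨s, hs, h1, h2⟩ := h2.2 a b c d hab hcd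
      exact ⟨⟨s, hs⟩, h1, h2⟩
    have hreg := regular_of_twoTransitive H.subtype H.subtype_injective h2' A hAn hAne hAc
    obtain ⟨⟨o, o', hoo⟩, h2t⟩ := h2
    -- the order of `A`
    have hcard : Nat.card A = Nat.card D := by
      refine Nat.card_congr (Equiv.ofBijective (fun a : A => ((a : H) : Perm D) o) ⟨?_, ?_⟩)
      · intro a b hab
        obtain ⟨c, -, hc⟩ := hreg o (((b : H) : Perm D) o)
        apply Subtype.ext
        exact (hc a ⟨a.2, hab⟩).trans (hc b ⟨b.2, rfl⟩).symm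
      · intro y
        obtain ⟨c, ⟨hc1, hc2⟩, -⟩ := hreg o y
        exact ⟨⟨c, hc1⟩, hc2⟩
    have hdvd : p ∣ Nat.card A := by
      rw [hcard, Nat.card_eq_fintype_card]
      exact hp
    obtain ⟨a, ha⟩ := exists_prime_orderOf_dvd_card' p hdvd
    have hBne : prim A hAc p ≠ ⊥ := by
      intro hbot
      have h1 : (a : H) ∈ prim A hAc p := by
        refine ⟨a.2, 1, ?_⟩
        rw [pow_one]
        have h3 : a ^ p = 1 := by
          rw [← ha]
          exact pow_orderOf_eq_one a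
        have h4 := congrArg (Subtype.val) h3
        simpa using h4
      rw [hbot, Subgroup.mem_bot] at h1
      have h2 : a = 1 := Subtype.ext h1
      rw [h2, orderOf_one] at ha
      exact (Fact.out : p.Prime).one_lt.ne ha
    have hBc : ∀ a ∈ prim A hAc p, ∀ b ∈ prim A hAc p, a * b = b * a :=
      fun a ha b hb => hAc a ha.1 b hb.1
    have hBreg := regular_of_twoTransitive H.subtype H.subtype_injective h2' (prim A hAc p)
      (prim_normal A hAn hAc p) hBne hBc
    -- the fixed function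
    have hPg : IsPGroup p ((prim A hAc p).map H.subtype) := by
      rintro ⟨s, hs⟩
      obtain ⟨b, hb, rfl⟩ := Subgroup.mem_map.1 hs
      obtain ⟨-, k, hk⟩ := hb
      refine ⟨k, ?_⟩
      apply Subtype.ext
      show (H.subtype b) ^ (p ^ k) = 1
      rw [← map_pow, hk, map_one]
    obtain ⟨f, hf, hf0, hfix⟩ := hPGF D ((prim A hAc p).map H.subtype) p C hPg hC (by
      intro s hs
      obtain ⟨b, hb, rfl⟩ := Subgroup.mem_map.1 hs
      exact hInv _ b.2)
    refine AFFM.one_mem hf hf0 ⟨f o, fun y => ?_⟩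
    obtain ⟨b, ⟨hb1, hb2⟩, -⟩ := hBreg o y
    have h5 := congrFun (hfix _ (Subgroup.mem_map_of_mem H.subtype hb1)) y
    rw [rho_apply] at h5
    rw [← h5]
    congr 1
    have h6 : H.subtype b o = y := hb2
    rw [← h6]
    exact (H.subtype b).symm_apply_apply o
  · rcases invariant_submodule hp H h2 hs C hInv with h | h
    · left
      obtain ⟨f, hf, hf0⟩ := Submodule.exists_mem_ne_zero_of_ne_bot hC
      refine AFFM.one_mem hf hf0 ?_
      have h7 := h hf
      rw [consts, Submodule.mem_span_singleton] at h7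
      obtain ⟨c, rfl⟩ := h7
      exact ⟨c, fun x => by simp⟩
    · right
      exact fun g hg => h g hg

end Pool.Agent.Lib.MP_79a223_al.FM
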