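import Pool.Agent.Lib.MP_79a223_al.FM.Spec

/-!
# Module ALT: invariant codes of a group which contains all 3-cycles
-/

open Equiv

namespace Pool.Agent.Lib.MP_79a223_al.FM

namespace ALTM

/-- a 3-cycle of the group together with the values of its inverse -/
lemma cyc {D : Type} {H : Subgroup (Perm D)} (h : HasThreeCycles H) {a b c : D} (hab : a ≠ b)
    (hbc : b ≠ c) (hac : a ≠ c) : ∃ s ∈ H, s⁻¹ b = a ∧ s⁻¹ c = b ∧ s⁻¹ a = c ∧
      ∀ x, x ≠ a → x ≠ b → x ≠ c → s⁻¹ x = x := by
  classical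
  have e1 : (swap a c * swap a b) a = b := by
    rw [Perm.mul_apply, swap_apply_left, swap_apply_of_ne_of_ne hab.symm hbc]
  have e2 : (swap a c * swap a b) b = c := by
    rw [Perm.mul_apply, swap_apply_right, swap_apply_left]
  have e3 : (swap a c * swap a b) c = a := by
    rw [Perm.mul_apply, swap_apply_of_ne_of_ne hac.symm hbc.symm, swap_apply_right]
  have e4 : ∀ x, x ≠ a → x ≠ b → x ≠ c → (swap a c * swap a b) x = x := by
    intro x h1 h2 h3
    rw [Perm.mul_apply, swap_apply_of_ne_of_ne h1 h2, swap_apply_of_ne_of_ne h1 h3]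
  refine ⟨swap a c * swap a b, h _ a b c hab hbc hac e1 e2 e3 e4, ?_, ?_, ?_, ?_⟩
  · rw [Perm.inv_eq_iff_eq, e1]
  · rw [Perm.inv_eq_iff_eq, e2]
  · rw [Perm.inv_eq_iff_eq, e3]
  · intro x h1 h2 h3
    rw [Perm.inv_eq_iff_eq, e4 x h1 h2 h3]

end ALTM

/-- ALT. -/
theorem specALT (hDIF : SpecDIF) : SpecALT := by
  classical
  intro D _ H p _ h2 h5 h3 C hC hinv
  by_cases hc : ∀ c ∈ C, ∀ i j, c i = c j
  · left
    obtain ⟨c, hcC, hc0⟩ := Submodule.exists_mem_ne_zero_of_ne_bot hC
    obtain ⟨i, hi⟩ := Function.ne_iff.1 hc0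
    have e : (fun _ => 1 : D → ZMod p) = (c i)⁻¹ • c := by
      ext j
      rw [Pi.smul_apply, smul_eq_mul, hc c hcC j i, inv_mul_cancel₀ hi]
    rw [e]
    exact C.smul_mem _ hcC
  · right
    push Not at hc
    obtain ⟨c, hcC, i, j, hij⟩ := hc
    have hij' : i ≠ j := fun h => hij (by rw [h])
    -- further points
    obtain ⟨l, hl⟩ : ∃ l, l ∉ ({i, j} : Finset D) := by
      by_contra hcon
      push Not at hcon
      have h6 : Fintype.card D ≤ ({i, j} : Finset D).card := by
        rw [← Finset.card_univ]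
        exact Finset.card_le_card fun x _ => hcon x
      have h7 := Finset.card_le_two (a := i) (b := j)
      omega
    obtain ⟨m, hm⟩ : ∃ m, m ∉ ({i, j, l} : Finset D) := by
      by_contra hcon
      push Not at hcon
      have h6 : Fintype.card D ≤ ({i, j, l} : Finset D).card := by
        rw [← Finset.card_univ]
        exact Finset.card_le_card fun x _ => hcon x
      have h7 := Finset.card_le_three (a := i) (b := j) (c := l)
      omega
    obtain ⟨m', hm'⟩ : ∃ m', m' ∉ ({i, j, l, m} : Finset D) := by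
      by_contra hcon
      push Not at hcon
      have h6 : Fintype.card D ≤ ({i, j, l, m} : Finset D).card := by
        rw [← Finset.card_univ]
        exact Finset.card_le_card fun x _ => hcon x
      have h7 := Finset.card_le_four (a := i) (b := j) (c := l) (d := m)
      omega
    simp only [Finset.mem_insert, Finset.mem_singleton, not_or] at hl hm hm'
    obtain ⟨hli, hlj⟩ := hl
    obtain ⟨hmi, hmj, hml⟩ := hm
    obtain ⟨hmi', hmj', hml', hmm⟩ := hm'
    obtain ⟨s, hs, s1, s2, s3, s4⟩ := ALTM.cyc h3 hij' (Ne.symm hlj) (Ne.symm hli)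
    obtain ⟨t, ht, t1, t2, t3, t4⟩ := ALTM.cyc h3 (Ne.symm hmj) (Ne.symm hmm) (Ne.symm hmj')
    -- first difference
    obtain ⟨f, hf⟩ : ∃ f : D → ZMod p, f = c - rho p s c := ⟨_, rfl⟩
    have hfC : f ∈ C := by
      rw [hf]
      exact C.sub_mem hcC (hinv s hs c hcC)
    have hfx : ∀ x, f x = c x - c (s⁻¹ x) := fun x => by
      rw [hf, Pi.sub_apply, rho_apply]
    have hfj : f j ≠ 0 := by
      rw [hfx, s1]
      exact sub_ne_zero.2 (Ne.symm hij)
    have hf0 : ∀ x, x ≠ i → x ≠ j → x ≠ l → f x = 0 := by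
      intro x h6 h7 h8
      rw [hfx, s4 x h6 h7 h8, sub_self]
    -- second difference
    have hgC : f - rho p t f ∈ C := C.sub_mem hfC (hinv t ht f hfC)
    have hg : (Pi.single j 1 - Pi.single m 1 : D → ZMod p) = (f j)⁻¹ • (f - rho p t f) := by
      ext x
      rw [Pi.smul_apply, smul_eq_mul, Pi.sub_apply, Pi.sub_apply, rho_apply]
      by_cases h6 : x = j
      · subst h6
        rw [t3, hf0 m' hmi' hmj' hml', sub_zero, inv_mul_cancel₀ hfj, Pi.single_eq_same,
          Pi.single_eq_of_ne (Ne.symm hmj), sub_zero]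
      by_cases h7 : x = m
      · subst h7
        rw [t1, hf0 x hmi hmj hml, zero_sub, mul_neg, inv_mul_cancel₀ hfj, Pi.single_eq_same,
          Pi.single_eq_of_ne h6, zero_sub]
      rw [Pi.single_eq_of_ne h6, Pi.single_eq_of_ne h7, sub_zero]
      by_cases h8 : x = m'
      · subst h8
        rw [t2, hf0 x hmi' hmj' hml', hf0 m hmi hmj hml, sub_zero, mul_zero]
      · rw [t4 x h6 h7 h8, sub_self, mul_zero]
    refine hDIF D H p C h2 hinv ⟨j, m, Ne.symm hmj, ?_⟩
    rw [hg]
    exact C.smul_mem _ hgC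

end Pool.Agent.Lib.MP_79a223_al.FM
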