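import Pool.Agent.Lib.MP_79a223_al.FM.Spec

/-!
# Module BWD: the listed groups are primitive with the suborbit
-/

set_option autoImplicit false

open Equiv

namespace Pool.Agent.Lib.MP_79a223_al.FM

namespace BWDM

section aff

variable {X Γ V : Type} [Group Γ] [AddCommGroup V]

/-- the permutation `v ↦ s v + w`, transported by `e` -/
def aff (A : Γ → V →+ V) (hA1 : ∀ v, A 1 v = v) (hAm : ∀ s t v, A (s * t) v = A s (A t v))
    (e : X ≃ V) (s : Γ) (w : V) : Perm X where
  toFun x := e.symm (A s (e x) + w)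
  invFun x := e.symm (A s⁻¹ (e x - w))
  left_inv x := by
    simp only [Equiv.apply_symm_apply, add_sub_cancel_right]
    rw [← hAm, inv_mul_cancel, hA1, Equiv.symm_apply_apply]
  right_inv x := by
    simp only [Equiv.apply_symm_apply]
    rw [← hAm, mul_inv_cancel, hA1, sub_add_cancel, Equiv.symm_apply_apply]

variable {A : Γ → V →+ V} {hA1 : ∀ v, A 1 v = v} {hAm : ∀ s t v, A (s * t) v = A s (A t v)}

lemma aff_apply (e : X ≃ V) (s : Γ) (w : V) (x : X) :
    e (aff A hA1 hAm e s w x) = A s (e x) + w := e.apply_symm_apply _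

lemma eq_aff (e : X ≃ V) (s : Γ) (w : V) (g : Perm X) (h : ∀ x, e (g x) = A s (e x) + w) :
    g = aff A hA1 hAm e s w := by
  ext x
  apply e.injective
  rw [h, aff_apply]

lemma aff_mul (e : X ≃ V) (s t : Γ) (v w : V) :
    aff A hA1 hAm e s v * aff A hA1 hAm e t w = aff A hA1 hAm e (s * t) (A s w + v) := by
  apply eq_aff
  intro x
  rw [Perm.mul_apply, aff_apply, aff_apply, map_add, hAm, add_assoc]

lemma aff_one (e : X ≃ V) : aff A hA1 hAm e (1 : Γ) 0 = 1 := by
  refine (eq_aff e 1 0 1 fun x => ?_).symm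
  rw [hA1, add_zero, Perm.one_apply]

lemma aff_inj (e : X ≃ V) {s : Γ} {v w : V} (h : aff A hA1 hAm e s v = aff A hA1 hAm e s w) :
    v = w := by
  have h1 := aff_apply (hA1 := hA1) (hAm := hAm) e s v (e.symm 0)
  rw [h, aff_apply, Equiv.apply_symm_apply, map_zero, zero_add, zero_add] at h1
  exact h1.symm

theorem regular_aff (A : Γ → V →+ V) (hA1 : ∀ v, A 1 v = v)
    (hAm : ∀ s t v, A (s * t) v = A s (A t v))
    (hfaith : ∀ s, (∀ v, A s v = v) → s = 1)
    (hirr : ∀ W : AddSubgroup V, (∀ s, ∀ w ∈ W, A s w ∈ W) → W = ⊥ ∨ W = ⊤)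
    (v₀ : V) (hv₀ : v₀ ≠ 0) (e : X ≃ V) (G : Subgroup (Perm X))
    (hG : ∀ g : Perm X, g ∈ G ↔ ∃ s w, ∀ x, e (g x) = A s (e x) + w) :
    ∃ N : Subgroup G, RegularSocle G N := by
  classical
  let af := aff A hA1 hAm e
  have af_apply : ∀ s w x, e (af s w x) = A s (e x) + w := fun s w x => aff_apply e s w x
  have af_mul : ∀ s t v w, af s v * af t w = af (s * t) (A s w + v) := fun s t v w => aff_mul e s t v w
  have af_one : af 1 0 = 1 := aff_one e
  have hmem : ∀ s w, af s w ∈ G := fun s w => (hG _).2 ⟨s, w, af_apply s w⟩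
  have hdec : ∀ g ∈ G, ∃ s w, g = af s w := by
    intro g hg
    obtain ⟨s, w, h⟩ := (hG g).1 hg
    exact ⟨s, w, eq_aff e s w g h⟩
  let T : V → G := fun w => ⟨af 1 w, hmem 1 w⟩
  let Q : Γ → G := fun s => ⟨af s 0, hmem s 0⟩
  have hTQ : ∀ g : G, ∃ w s, g = T w * Q s := by
    rintro ⟨g, hg⟩
    obtain ⟨s, w, rfl⟩ := hdec g hg
    refine ⟨w, s, Subtype.ext ?_⟩
    show af s w = af 1 w * af s 0
    rw [af_mul, one_mul, hA1, zero_add]
  have hTT : ∀ v w, T v * T w = T (v + w) := by
    intro v w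
    apply Subtype.ext
    show af 1 v * af 1 w = af 1 (v + w)
    rw [af_mul, one_mul, hA1, add_comm]
  have hT0 : T 0 = 1 := Subtype.ext af_one
  have hTinv : ∀ v, (T v)⁻¹ = T (-v) := by
    intro v
    rw [inv_eq_iff_mul_eq_one, hTT, add_neg_cancel, hT0]
  have hQT : ∀ (s : Γ) w, Q s * T w = T (A s w) * Q s := by
    intro s w
    apply Subtype.ext
    show af s 0 * af 1 w = af 1 (A s w) * af s 0
    rw [af_mul, af_mul, mul_one, one_mul, map_zero, zero_add, add_zero]
  have hTinj : ∀ v w, T v = T w → v = w := fun v w h =>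
    aff_inj (hA1 := hA1) (hAm := hAm) e (congrArg Subtype.val h)
  have hconj : ∀ (s : Γ) w v, (T v * Q s) * T w * (T v * Q s)⁻¹ = T (A s w) := by
    intro s w v
    rw [mul_assoc (T v), hQT, mul_inv_rev, ← mul_assoc (T v), hTT, add_comm, ← hTT]
    group
  -- the invariant subgroup attached to a subgroup
  have key : ∀ L : Subgroup G, (∀ s : Γ, ∀ w, T w ∈ L → T (A s w) ∈ L) →
      (∃ w, w ≠ 0 ∧ T w ∈ L) → ∀ w, T w ∈ L := by
    intro L hL hne w
    let W : AddSubgroup V :=
      { carrier := {w | T w ∈ L}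
        add_mem' := by
          intro a b ha hb
          show T (a + b) ∈ L
          rw [← hTT]
          exact L.mul_mem ha hb
        zero_mem' := by
          show T 0 ∈ L
          rw [hT0]
          exact L.one_mem
        neg_mem' := by
          intro a ha
          show T (-a) ∈ L
          rw [← hTinv]
          exact L.inv_mem ha }
    rcases hirr W (fun s w hw => hL s w hw) with h | h
    · exfalso
      obtain ⟨v, hv, hvL⟩ := hne
      have : v ∈ W := hvL
      rw [h] at this
      exact hv (AddSubgroup.mem_bot.1 this)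
    · have : w ∈ W := by rw [h]; exact AddSubgroup.mem_top w
      exact this
  set α : X := e.symm 0 with hα
  have heα : e α = 0 := e.apply_symm_apply 0
  have hntX : Nontrivial X := ⟨e.symm v₀, α, fun h => hv₀ (by
    have := congrArg e h
    rwa [Equiv.apply_symm_apply, heα] at this)⟩
  set K := MulAction.stabilizer G α with hK
  have hKmem : ∀ g : G, g ∈ K ↔ (g : Perm X) α = α := fun g => Iff.rfl
  have hTα : ∀ w, e ((T w).1 α) = w := by
    intro w
    show e (af 1 w α) = w
    rw [af_apply, heα, map_zero, zero_add]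
  have hQα : ∀ s, Q s ∈ K := by
    intro s
    rw [hKmem]
    apply e.injective
    show e (af s 0 α) = e α
    rw [af_apply, heα, map_zero, zero_add]
  have hTK : ∀ w, T w ∈ K → w = 0 := by
    intro w hw
    rw [hKmem] at hw
    have := hTα w
    rw [hw, heα] at this
    exact this.symm
  have hpre : MulAction.IsPretransitive G X := by
    refine ⟨fun x y => ⟨T (e y - e x), ?_⟩⟩
    apply e.injective
    show e (af 1 (e y - e x) x) = e y
    rw [af_apply, hA1, add_sub_cancel]
  let N : Subgroup G :=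
    { carrier := {g | ∃ w, g = T w}
      mul_mem' := by
        rintro _ _ ⟨v, rfl⟩ ⟨w, rfl⟩
        exact ⟨v + w, hTT v w⟩
      one_mem' := ⟨0, hT0.symm⟩
      inv_mem' := by
        rintro _ ⟨v, rfl⟩
        exact ⟨-v, hTinv v⟩ }
  have hNmem : ∀ g, g ∈ N ↔ ∃ w, g = T w := fun g => Iff.rfl
  refine ⟨N, ?_, ⟨?_⟩, ?_, ?_, ?_⟩
  · rw [← MulAction.isCoatom_stabilizer_iff_preprimitive G α]
    constructor
    · intro h
      apply hv₀
      apply hTK
      show T v₀ ∈ MulAction.stabilizer G α
      rw [h]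
      exact Subgroup.mem_top _
    · intro L hL
      rw [eq_top_iff]
      obtain ⟨g, hgL, hgK⟩ := SetLike.exists_of_lt hL
      have hall := key L (fun s w hw => by
        have h1 : T (A s w) = Q s * T w * (Q s)⁻¹ := by rw [hQT]; group
        rw [h1]
        exact L.mul_mem (L.mul_mem (hL.le (hQα s)) hw) (L.inv_mem (hL.le (hQα s)))) (by
        obtain ⟨w, s, rfl⟩ := hTQ g
        refine ⟨w, ?_, ?_⟩
        · rintro rfl
          apply hgK
          rw [hT0, one_mul]
          exact hQα s
        · have h1 := L.mul_mem hgL (L.inv_mem (hL.le (hQα s)))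
          rwa [mul_inv_cancel_right] at h1)
      intro g' _
      obtain ⟨w, s, rfl⟩ := hTQ g'
      exact L.mul_mem (hall w) (hL.le (hQα s))
  · rintro _ ⟨w, rfl⟩ g
    obtain ⟨v, s, rfl⟩ := hTQ g
    exact ⟨_, hconj s w v⟩
  · intro h
    have h1 : T v₀ ∈ N := ⟨_, rfl⟩
    rw [h, Subgroup.mem_bot, ← hT0] at h1
    exact hv₀ (hTinj _ _ h1)
  · intro M hM hMne
    obtain ⟨⟨m, hmM⟩, hm1⟩ := Subgroup.ne_bot_iff_exists_ne_one.1 hMne
    have hm1 : m ≠ 1 := fun h => hm1 (Subtype.ext h)
    have hall := key M (fun s w hw => by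
      rw [← hconj s w 0]
      exact hM.conj_mem _ hw _) (by
      obtain ⟨w, s, rfl⟩ := hTQ m
      by_cases hall : ∀ v, A s v = v
      · have hs1 : s = 1 := hfaith s hall
        have hQ1 : Q s = 1 := by rw [hs1]; exact Subtype.ext af_one
        rw [hQ1, mul_one] at hmM hm1
        refine ⟨w, ?_, hmM⟩
        rintro rfl
        exact hm1 hT0
      · push Not at hall
        obtain ⟨v, hv⟩ := hall
        refine ⟨A s v - v, sub_ne_zero.2 hv, ?_⟩
        have h1 : T (A s v - v) = (T w * Q s) * (T v * (T w * Q s)⁻¹ * (T v)⁻¹) := by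
          rw [sub_eq_add_neg, ← hTT, ← hconj s v w, hTinv]
          group
        rw [h1]
        exact M.mul_mem hmM (hM.conj_mem _ (M.inv_mem hmM) _))
    rintro _ ⟨w, rfl⟩
    exact hall w
  · intro x y
    refine ⟨T (e y - e x), ⟨⟨_, rfl⟩, ?_⟩, ?_⟩
    · apply e.injective
      show e (af 1 (e y - e x) x) = e y
      rw [af_apply, hA1, add_sub_cancel]
    · rintro _ ⟨⟨w, rfl⟩, hw⟩
      have h1 : e x + w = e y := by
        rw [← hw]
        show e x + w = e (af 1 w x)
        rw [af_apply, hA1]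
      rw [← h1, add_sub_cancel_left]

end aff

end BWDM

open BWDM in
theorem specBWD (hDUA : SpecDUA) : SpecBWD := by
  intro X D _ _ p _ G H F h2 hF hg hD hsum hG
  classical
  obtain ⟨dua1, -, dua3, -⟩ := hDUA D p
  have hinv : Inv H p (perp p F) := dua3 H F hF
  set M := perp p F with hM
  obtain ⟨e, he⟩ := hG
  -- the action
  let A : H → ((D → ZMod p) ⧸ M) →+ ((D → ZMod p) ⧸ M) := fun s =>
    (M.mapQ M (rho p (s : Perm D)) (fun f hf => hinv s s.2 f hf)).toAddMonoidHom
  have hAmk : ∀ (s : H) (f : D → ZMod p), A s (Submodule.Quotient.mk f) =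
      Submodule.Quotient.mk (rho p (s : Perm D) f) := fun s f => rfl
  have hA1 : ∀ v, A 1 v = v := by
    intro v
    obtain ⟨f, rfl⟩ := Submodule.Quotient.mk_surjective _ v
    rw [hAmk, Subgroup.coe_one, rho_one]
  have hAm : ∀ s t v, A (s * t) v = A s (A t v) := by
    intro s t v
    obtain ⟨f, rfl⟩ := Submodule.Quotient.mk_surjective _ v
    rw [hAmk, hAmk, hAmk, Subgroup.coe_mul, rho_mul]
  -- the classes of the unit vectors
  let c : D → (D → ZMod p) ⧸ M := fun d => Submodule.Quotient.mk (Pi.single d 1)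
  have hAc : ∀ (s : H) (d : D), A s (c d) = c ((s : Perm D) d) := by
    intro s d
    show A s (Submodule.Quotient.mk _) = _
    rw [hAmk, rho_single]
  obtain ⟨⟨a, b, hab⟩, h2t⟩ := h2
  have hcinj : Function.Injective c := by
    intro x y hxy
    by_contra hne
    obtain ⟨g, hgF, x', y', hgxy⟩ := hg
    have hne' : x' ≠ y' := fun h => hgxy (by rw [h])
    obtain ⟨s, hs, hs1, hs2⟩ := h2t x y x' y' hne hne'
    have h1 : c x' = c y' := by
      rw [← hs1, ← hs2]
      have h3 := hAc ⟨s, hs⟩ x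
      have h4 := hAc ⟨s, hs⟩ y
      rw [hxy] at h3
      exact h3.symm.trans h4
    have h5 := (Submodule.Quotient.eq _).1 h1
    have h6 : ∑ z, ((Pi.single x' 1 - Pi.single y' 1 : D → ZMod p)) z * g z = 0 := h5 g hgF
    apply hgxy
    simp only [Pi.sub_apply, sub_mul, Finset.sum_sub_distrib, Pi.single_apply, ite_mul, one_mul, zero_mul,
      Finset.sum_ite_eq', Finset.mem_univ, if_true] at h6
    exact sub_eq_zero.1 h6
  have hc0 : ∀ d, c d ≠ 0 := by
    intro d hd
    have hall : ∀ d', c d' = 0 := by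
      intro d'
      obtain ⟨z, hz⟩ : ∃ z, d ≠ z := by
        by_cases h : d = a
        · exact ⟨b, fun h' => hab (h.symm.trans h')⟩
        · exact ⟨a, h⟩
      obtain ⟨w, hw⟩ : ∃ w, d' ≠ w := by
        by_cases h : d' = a
        · exact ⟨b, fun h' => hab (h.symm.trans h')⟩
        · exact ⟨a, h⟩
      obtain ⟨s, hs, hs1, -⟩ := h2t d z d' w hz hw
      have h3 := hAc ⟨s, hs⟩ d
      rw [hd, map_zero] at h3
      rw [← hs1]
      exact h3.symm
    exact hab (hcinj ((hall a).trans (hall b).symm))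
  have hfaith : ∀ s : H, (∀ v, A s v = v) → s = 1 := by
    intro s hs
    apply Subtype.ext
    ext d
    have h1 := hs (c d)
    rw [hAc] at h1
    exact hcinj h1
  have hirr : ∀ W : AddSubgroup ((D → ZMod p) ⧸ M), (∀ s, ∀ w ∈ W, A s w ∈ W) → W = ⊥ ∨ W = ⊤ := by
    intro W hW
    let M' : Submodule (ZMod p) (D → ZMod p) :=
      { carrier := {f | (Submodule.Quotient.mk f : (D → ZMod p) ⧸ M) ∈ W}
        add_mem' := by
          intro f g hf hg
          show (Submodule.Quotient.mk (f + g) : (D → ZMod p) ⧸ M) ∈ W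
          rw [Submodule.Quotient.mk_add]
          exact W.add_mem hf hg
        zero_mem' := W.zero_mem
        smul_mem' := by
          intro k f hf
          show (Submodule.Quotient.mk (k • f) : (D → ZMod p) ⧸ M) ∈ W
          have hk : k • f = k.val • f := by
            funext x
            simp only [Pi.smul_apply, smul_eq_mul, nsmul_eq_mul, ZMod.natCast_zmod_val]
          rw [hk, Submodule.Quotient.mk_smul]
          exact W.nsmul_mem hf _ }
    have hM'mem : ∀ f, f ∈ M' ↔ (Submodule.Quotient.mk f : (D → ZMod p) ⧸ M) ∈ W := fun f => Iff.rfl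
    have hMM' : M ≤ M' := by
      intro f hf
      rw [hM'mem, (Submodule.Quotient.mk_eq_zero _).2 hf]
      exact W.zero_mem
    by_cases htop : M' = ⊤
    · right
      rw [eq_top_iff]
      intro v _
      obtain ⟨f, rfl⟩ := Submodule.Quotient.mk_surjective _ v
      have : f ∈ M' := by rw [htop]; trivial
      exact this
    · left
      have h1 := dua1 M' htop
      have h3 : Inv H p (perp p (M' : Set (D → ZMod p))) :=
        dua3 H _ fun s hs g hg => by
          have h4 := hW ⟨s, hs⟩ _ hg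
          rw [hAmk] at h4
          exact h4
      rcases hD _ h1 h3 with h5 | h5
      · exfalso
        obtain ⟨f, hf, hf0⟩ := hsum
        apply hf0
        have h6 : ∑ x, (fun _ : D => (1 : ZMod p)) x * f x = 0 := h5 f (hMM' hf)
        simpa using h6
      · have h6 : M' ≤ M := by
          intro f hf g hg
          have h7 : ∑ x, g x * f x = 0 := h5 g hg f hf
          rw [← h7]
          exact Finset.sum_congr rfl fun x _ => mul_comm _ _
        rw [eq_bot_iff]
        intro v hv
        obtain ⟨f, rfl⟩ := Submodule.Quotient.mk_surjective _ v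
        rw [AddSubgroup.mem_bot]
        exact (Submodule.Quotient.mk_eq_zero _).2 (h6 hv)
  have hG' : ∀ g : Perm X, g ∈ G ↔ ∃ (s : H) (w : (D → ZMod p) ⧸ M), ∀ x, e (g x) = A s (e x) + w := by
    intro g
    rw [he g]
    constructor
    · rintro ⟨s, hs, w, h⟩
      refine ⟨⟨s, hs⟩, w, fun x => ?_⟩
      obtain ⟨f, hf⟩ := Submodule.Quotient.mk_surjective _ (e x)
      rw [← hf, hAmk]
      exact h x f hf.symm
    · rintro ⟨s, w, h⟩
      refine ⟨s, s.2, w, fun x f hf => ?_⟩
      rw [h x, hf, hAmk]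
  obtain ⟨N, hN⟩ := regular_aff A hA1 hAm hfaith hirr (c a) (hc0 a) e G hG'
  refine ⟨?_, N, e.symm 0, {x | ∃ d, e x = c d}, hN, ?_, ?_⟩
  · have : Finite ((D → ZMod p) ⧸ M) := Quotient.finite _
    refine ⟨Module.finrank (ZMod p) ((D → ZMod p) ⧸ M), ?_⟩
    rw [Nat.card_congr e, Module.natCard_eq_pow_finrank (K := ZMod p), Nat.card_zmod]
  · rintro ⟨d, hd⟩
    rw [Equiv.apply_symm_apply] at hd
    exact hc0 d hd.symm
  · let ι : D ≃ {x | ∃ d, e x = c d} := Equiv.ofBijective
      (fun d : D => (⟨e.symm (c d), d, e.apply_symm_apply _⟩ : {x | ∃ d, e x = c d})) ⟨by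
        intro d d' h
        exact hcinj (e.symm.injective (congrArg Subtype.val h)), by
        rintro ⟨x, d, hd⟩
        refine ⟨d, Subtype.ext ?_⟩
        show e.symm (c d) = x
        rw [← hd, Equiv.symm_apply_apply]⟩
    have hι : ∀ d, (ι d : X) = e.symm (c d) := fun d => rfl
    refine ⟨ι, ?_, ?_⟩
    · intro g hg hα
      obtain ⟨s, w, h⟩ := (hG' g).1 hg
      have hw : w = 0 := by
        have h1 := h (e.symm 0)
        rw [hα, Equiv.apply_symm_apply, map_zero, zero_add] at h1
        exact h1.symm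
      refine ⟨s, s.2, fun d => ?_⟩
      apply e.injective
      rw [h, hι, hι, Equiv.apply_symm_apply, Equiv.apply_symm_apply, hAc, hw, add_zero]
    · intro s hs
      refine ⟨aff A hA1 hAm e ⟨s, hs⟩ 0, (hG' _).2 ⟨⟨s, hs⟩, 0, fun x => aff_apply e _ _ x⟩, ?_, ?_⟩
      · apply e.injective
        rw [aff_apply, Equiv.apply_symm_apply, map_zero, zero_add]
      · intro d
        apply e.injective
        rw [aff_apply, hι, hι, Equiv.apply_symm_apply, Equiv.apply_symm_apply, hAc, add_zero]

end Pool.Agent.Lib.MP_79a223_al.FM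

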