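import Pool.Agent.Lib.MP_79a223_al.FM.SpecU

/-!
# Codes of permutations, and the two methods (swap, averaging) in terms of codes
-/

open Equiv

namespace Pool.Agent.Lib.MP_79a223_al.FM

namespace CODM

lemma allB_iff {n : ℕ} {f : ℕ → Bool} : allB n f = true ↔ ∀ i < n, f i = true := by
  induction n with
  | zero => simp [allB]
  | succ n ih =>
    have h : allB (n + 1) f = (f n && allB n f) := rfl
    rw [h, Bool.and_eq_true, ih]
    constructor
    · rintro ⟨h1, h2⟩ i hi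
      rcases Nat.lt_succ_iff_lt_or_eq.1 hi with h | h
      · exact h2 i h
      · rw [h]; exact h1
    · intro h
      exact ⟨h n (Nat.lt_succ_self n), fun i hi => h i (Nat.lt_succ_of_lt hi)⟩

lemma acts_mul {n : ℕ} {s t : Perm (Fin n)} {f g : ℕ → ℕ} (hs : Acts s f) (ht : Acts t g) :
    Acts (s * t) (fun i => f (g i)) := by
  intro i
  show ((s (t i) : Fin n) : ℕ) = f (g i)
  rw [hs, ht]

lemma acts_congr {n : ℕ} {s : Perm (Fin n)} {f g : ℕ → ℕ} (hs : Acts s f)
    (h : allB n (fun i => f i == g i) = true) : Acts s g := by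
  intro i
  rw [hs i]
  exact eq_of_beq (allB_iff.1 h i i.2)

lemma acts_inv {n : ℕ} {s : Perm (Fin n)} {f g : ℕ → ℕ} (hs : Acts s f)
    (h : allB n (fun i => g (f i) == i) = true) : Acts s⁻¹ g := by
  intro i
  obtain ⟨j, rfl⟩ := s.surjective i
  rw [pinv, hs j]
  exact (eq_of_beq (allB_iff.1 h j j.2)).symm

lemma acts_eq {n : ℕ} {s t : Perm (Fin n)} {f g : ℕ → ℕ} (hs : Acts s f) (ht : Acts t g)
    (h : allB n (fun i => f i == g i) = true) : s = t := by
  ext i
  rw [hs i, ht i]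
  exact eq_of_beq (allB_iff.1 h i i.2)

lemma acts_pow {n : ℕ} {s : Perm (Fin n)} {f : ℕ → ℕ} (hs : Acts s f) (m : ℕ) :
    Acts (s ^ m) (f^[m]) := by
  induction m with
  | zero => intro i; rfl
  | succ m ih =>
    rw [pow_succ]
    intro i
    show ((s ^ m) (s i) : ℕ) = f^[m + 1] i
    rw [ih (s i), Function.iterate_succ_apply, hs i]

/-- composition of a list of functions -/
def compL (fs : List (ℕ → ℕ)) (i : ℕ) : ℕ := fs.foldr (fun f x => f x) i

lemma acts_prod {n : ℕ} {ss : List (Perm (Fin n))} {fs : List (ℕ → ℕ)}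
    (h : List.Forall₂ Acts ss fs) : Acts ss.prod (compL fs) := by
  induction h with
  | nil => intro i; rfl
  | cons h1 _ ih =>
    intro i
    rw [List.prod_cons]
    show ((_ * _ : Perm (Fin n)) i : ℕ) = _
    rw [Perm.mul_apply, h1, ih]
    rfl

/-- the relation `s x = ws.prod s` -/
lemma rel {n : ℕ} {s x : Perm (Fin n)} {ws : List (Perm (Fin n))} {f g : ℕ → ℕ}
    {fs : List (ℕ → ℕ)} (hs : Acts s f) (hx : Acts x g) (hw : List.Forall₂ Acts ws fs)
    (h : allB n (fun i => f (g i) == compL fs (f i)) = true) : s * x = ws.prod * s :=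
  acts_eq (acts_mul hs hx) (acts_mul (acts_prod hw) hs) h

/-- the relation `s ^ m = ws.prod` -/
lemma relp {n : ℕ} {s : Perm (Fin n)} {ws : List (Perm (Fin n))} {f : ℕ → ℕ}
    {fs : List (ℕ → ℕ)} (m : ℕ) (hs : Acts s f) (hw : List.Forall₂ Acts ws fs)
    (h : allB n (fun i => f^[m] i == compL fs i) = true) : s ^ m = ws.prod :=
  acts_eq (acts_pow hs m) (acts_prod hw) h

/-- the two hypotheses of TRE -/
lemma tre (hTRE : SpecTRE) {n : ℕ} {l : List (Perm (Fin n))} {fs : List (ℕ → ℕ)}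
    (hl : List.Forall₂ Acts l fs) (col rep par dep : ℕ → ℕ)
    (h1 : allB n (fun i => fs.all (fun f => col (f i) == col i)) = true)
    (h2 : allB n (fun i => (i == rep (col i)) || ((par i).blt n && (dep (par i)).blt (dep i) &&
      fs.any (fun f => f (par i) == i))) = true) :
    (∀ s ∈ Subgroup.closure {x | x ∈ l}, ∀ i : Fin n, col (s i) = col i) ∧
    ∀ i j : Fin n, col i = col j → ∃ s ∈ Subgroup.closure {x | x ∈ l}, s i = j := by
  apply hTRE n l col rep dep
  · intro s hs i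
    have h3 := allB_iff.1 h1 i i.2
    obtain ⟨k, hk, rfl⟩ := List.mem_iff_getElem.1 hs
    have hk' : k < fs.length := hl.length_eq ▸ hk
    have h4 : Acts l[k] fs[k] := (List.forall₂_iff_get.1 hl).2 k hk hk'
    have h5 := List.all_eq_true.1 h3 fs[k] (List.getElem_mem hk')
    rw [h4 i]
    exact eq_of_beq h5
  · intro i
    have h3 := allB_iff.1 h2 i i.2
    rw [Bool.or_eq_true, Bool.and_eq_true, Bool.and_eq_true] at h3
    rcases h3 with h3 | ⟨⟨h3, h4⟩, h5⟩
    · left; exact eq_of_beq h3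
    · right
      rw [Nat.blt_eq] at h3 h4
      refine ⟨⟨par i, h3⟩, h4, ?_⟩
      obtain ⟨f, hf, hfi⟩ := List.any_eq_true.1 h5
      obtain ⟨k, hk, rfl⟩ := List.mem_iff_getElem.1 hf
      have hk' : k < l.length := hl.length_eq ▸ hk
      refine ⟨l[k], List.getElem_mem hk', ?_⟩
      have h6 : Acts l[k] fs[k] := (List.forall₂_iff_get.1 hl).2 k hk' hk
      apply Fin.ext
      rw [h6]
      exact eq_of_beq hfi

lemma closure_le {n : ℕ} {H : Subgroup (Perm (Fin n))} {l : List (Perm (Fin n))}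
    (hl : ∀ x ∈ l, x ∈ H) : Subgroup.closure {x | x ∈ l} ≤ H :=
  (Subgroup.closure_le H).2 hl

/-- the swap method -/
lemma swap (hSWP : SpecSWP) (hCRD : SpecCRD) (hTRE : SpecTRE) {n p : ℕ} [Fact p.Prime]
    {H : Subgroup (Perm (Fin n))} (h2 : TwoTransitive H) {l : List (Perm (Fin n))}
    {fs : List (ℕ → ℕ)} (hl : List.Forall₂ Acts l fs) (hlH : ∀ x ∈ l, x ∈ H) (hPC : PC p l)
    {a : Perm (Fin n)} {fa : ℕ → ℕ} (haH : a ∈ H) (ha : Acts a fa) (col rep par dep : ℕ → ℕ)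
    (h1 : allB n (fun i => fs.all (fun f => col (f i) == col i)) = true)
    (h3 : allB n (fun i => (i == rep (col i)) || ((par i).blt n && (dep (par i)).blt (dep i) &&
      fs.any (fun f => f (par i) == i))) = true) (x y : Fin n)
    (h4 : ((x : ℕ) != y && fs.all (fun f => f x == x && f y == y) && fa x == y && fa y == x) = true)
    (h5 : allB n (fun i => i == x || i == y || col i == col (fa i)) = true) :
    Dich H p (sumZ (Fin n) p) := by
  obtain ⟨t1, t2⟩ := tre hTRE hl col rep par dep h1 h3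
  rw [Bool.and_eq_true, Bool.and_eq_true, Bool.and_eq_true] at h4
  obtain ⟨⟨⟨hxy, hfix⟩, hax⟩, hay⟩ := h4
  have hfix' : ∀ s ∈ l, s x = x ∧ s y = y := by
    intro s hs
    obtain ⟨k, hk, rfl⟩ := List.mem_iff_getElem.1 hs
    have hk' : k < fs.length := hl.length_eq ▸ hk
    have h4 : Acts l[k] fs[k] := (List.forall₂_iff_get.1 hl).2 k hk hk'
    have h5 := List.all_eq_true.1 hfix fs[k] (List.getElem_mem hk')
    rw [Bool.and_eq_true] at h5
    exact ⟨Fin.ext ((h4 x).trans (eq_of_beq h5.1)), Fin.ext ((h4 y).trans (eq_of_beq h5.2))⟩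
  refine hSWP (Fin n) H p h2 ⟨Subgroup.closure {x | x ∈ l}, a, x, y, closure_le hlH, haH, ?_, ?_,
    hCRD _ p l Fact.out hPC, Fin.ext ((ha x).trans (eq_of_beq hax)),
    Fin.ext ((ha y).trans (eq_of_beq hay)), ?_⟩
  · intro h
    rw [h] at hxy
    simp at hxy
  · intro b hb
    induction hb using Subgroup.closure_induction with
    | mem s hs => exact hfix' s hs
    | one => exact ⟨rfl, rfl⟩
    | mul s t _ _ ihs iht =>
      exact ⟨by rw [Perm.mul_apply, iht.1, ihs.1], by rw [Perm.mul_apply, iht.2, ihs.2]⟩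
    | inv s _ ihs =>
      exact ⟨by rw [Perm.inv_eq_iff_eq, ihs.1], by rw [Perm.inv_eq_iff_eq, ihs.2]⟩
  · intro z hzx hzy
    have h6 := allB_iff.1 h5 z z.2
    rw [Bool.or_eq_true, Bool.or_eq_true] at h6
    rcases h6 with (h6 | h6) | h6
    · exact absurd (Fin.ext (eq_of_beq h6)) hzx
    · exact absurd (Fin.ext (eq_of_beq h6)) hzy
    · obtain ⟨b, hb, hbz⟩ := t2 z (a z) (by rw [ha z]; exact eq_of_beq h6)
      exact ⟨b, hb, hbz.symm⟩

/-- the averaging method -/
lemma hecke (hCRD : SpecCRD) (hTRE : SpecTRE) (hHEC : SpecHEC) (hLCK : SpecLCK) {n p : ℕ}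
    [Fact p.Prime] {H : Subgroup (Perm (Fin n))} (h2 : TwoTransitive H) {l : List (Perm (Fin n))}
    {fs : List (ℕ → ℕ)} (hl : List.Forall₂ Acts l fs) (hlH : ∀ x ∈ l, x ∈ H) (hPC : PC p l)
    (col rep par dep : ℕ → ℕ)
    (h1 : allB n (fun i => fs.all (fun f => col (f i) == col i)) = true)
    (h3 : allB n (fun i => (i == rep (col i)) || ((par i).blt n && (dep (par i)).blt (dep i) &&
      fs.any (fun f => f (par i) == i))) = true)
    (r : ℕ) (hr : 0 < r) (δ : Fin n) (h4 : allB n (fun i => (col i).blt r) = true)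
    (h5 : allB n (fun i => (col i == 0) == (i == δ)) = true)
    (h6 : allB r (fun i => !(cnt n (fun z => col z == i) % p == 0)) = true)
    (K : ℕ) (F : ℕ → ℕ → ℕ) (hF : ∀ k < K, ∃ g ∈ H, Acts g (F k)) (Ms : ℕ → ℕ → ℕ → ℕ)
    (h7 : allB K (fun k => allB r (fun i => allB r (fun j =>
      (cnt n (fun z => col z == i) * Ms k i j) % p ==
        cnt n (fun z => col z == i && col (F k z) == j) % p))) = true)
    (w : ℕ → ℕ) (tab : ℕ → List (List ℕ × ℕ)) (h8 : chkL p r Ms w tab = true)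
    (h9 : ∀ t, ∀ x ∈ tab t, ∀ k ∈ x.1, k < K) :
    ∀ C : Submodule (ZMod p) (Fin n → ZMod p), C ≠ ⊥ → Inv H p C →
      (fun _ => 1) ∈ C ∨ (fun x : Fin n => (w (col x) : ZMod p)) ∈ C := by
  intro C hC0 hC
  obtain ⟨t1, t2⟩ := tre hTRE hl col rep par dep h1 h3
  have hcol : ∀ i : Fin n, col i < r := fun i => by
    have := allB_iff.1 h4 i i.2
    rwa [Nat.blt_eq] at this
  obtain ⟨L, hL, hne, hM⟩ := hHEC n r p H (Subgroup.closure {x | x ∈ l}) col δ h2 (closure_le hlH)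
    (hCRD _ p l Fact.out hPC) t1 t2 hcol
    (fun i => by
      have h := eq_of_beq (allB_iff.1 h5 i i.2)
      constructor
      · intro h0
        rw [h0] at h
        exact Fin.ext (eq_of_beq (h.symm.trans rfl))
      · intro h0
        rw [h0] at h
        have h' : ((δ : ℕ) == (δ : ℕ)) = true := beq_self_eq_true _
        rw [h0, ]
        exact eq_of_beq (h.trans h'))
    (fun i hi hdvd => by
      have h := allB_iff.1 h6 i hi
      rw [Nat.dvd_iff_mod_eq_zero] at hdvd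
      rw [hdvd] at h
      simp at h) C hC0 hC
  have hext : ∀ α β : ℕ → ZMod p, (∀ i < r, α i = β i) → α ∈ L → β ∈ L := by
    intro α β hαβ hα
    rw [hL] at hα ⊢
    have : (fun x : Fin n => β (col x)) = fun x : Fin n => α (col x) :=
      funext fun x => (hαβ _ (hcol x)).symm
    rw [this]
    exact hα
  rcases hLCK r p K Ms w tab hr h8 h9 L hext (fun k hk α hα => by
      obtain ⟨g, hg, hgF⟩ := hF k hk
      refine hM g hg (F k) hgF (Ms k) (fun i hi j hj => ?_) α hα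
      exact eq_of_beq (allB_iff.1 (allB_iff.1 (allB_iff.1 h7 k hk) i hi) j hj)) hne with h | h
  · left; exact (hL _).1 h
  · right; exact (hL _).1 h

/-- from one function to all the images -/
lemma images_mem {n p : ℕ} {H : Subgroup (Perm (Fin n))} {B : List ℕ}
    {C : Submodule (ZMod p) (Fin n → ZMod p)} (hC : Inv H p C) {w : ℕ → ℕ}
    (hB : allB n (fun x => w x == if x ∈ B then 1 else 0) = true)
    (h : (fun x : Fin n => (w x : ZMod p)) ∈ C) : ∀ g ∈ images H B p, g ∈ C := by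
  rintro g ⟨s, hs, hg⟩
  have h1 : g = rho p s (fun x : Fin n => (w x : ZMod p)) := by
    funext x
    obtain ⟨y, rfl⟩ := s.surjective x
    rw [hg y, rho_apply, pinv, eq_of_beq (allB_iff.1 hB y y.2)]
    split_ifs <;> simp
  rw [h1]
  exact hC s hs _ h

lemma has_mul {n : ℕ} {H : Subgroup (Perm (Fin n))} {f g : ℕ → ℕ} (hf : ∃ s ∈ H, Acts s f)
    (hg : ∃ s ∈ H, Acts s g) (w : ℕ → ℕ) (h : allB n (fun i => f (g i) == w i) = true) :
    ∃ s ∈ H, Acts s w := by
  obtain ⟨s, hs, as⟩ := hf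
  obtain ⟨t, ht, at'⟩ := hg
  exact ⟨s * t, H.mul_mem hs ht, acts_congr (acts_mul as at') h⟩

lemma has_inv {n : ℕ} {H : Subgroup (Perm (Fin n))} {f : ℕ → ℕ} (hf : ∃ s ∈ H, Acts s f)
    (w : ℕ → ℕ) (h : allB n (fun i => w (f i) == i) = true) : ∃ s ∈ H, Acts s w := by
  obtain ⟨s, hs, as⟩ := hf
  exact ⟨s⁻¹, H.inv_mem hs, acts_inv as h⟩

lemma tab_ok {K : ℕ} {tb : List (List (List ℕ × ℕ))}
    (h : tb.all (fun c => c.all (fun x => x.1.all (fun k => k.blt K))) = true) :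
    ∀ t, ∀ x ∈ tb.getD t [], ∀ k ∈ x.1, k < K := by
  intro t x hx k hk
  by_cases ht : t < tb.length
  · rw [List.getD_eq_getElem _ _ ht] at hx
    have h1 := List.all_eq_true.1 h _ (List.getElem_mem ht)
    have h2 := List.all_eq_true.1 h1 x hx
    have h3 := List.all_eq_true.1 h2 k hk
    rwa [Nat.blt_eq] at h3
  · rw [List.getD_eq_default _ _ (not_lt.1 ht)] at hx
    simp at hx

lemma nd24 {p : ℕ} (hp : p.Prime) (h2 : p ≠ 2) (h3 : p ≠ 3) {m : ℕ} (hm : m ∣ 24) : ¬ p ∣ m := by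
  intro h
  have h4 : p ∣ 2 ^ 3 * 3 := h.trans hm
  rcases hp.dvd_mul.1 h4 with h5 | h5
  · exact h2 ((Nat.prime_dvd_prime_iff_eq hp Nat.prime_two).1 (hp.dvd_of_dvd_pow h5))
  · exact h3 ((Nat.prime_dvd_prime_iff_eq hp Nat.prime_three).1 h5)

lemma nd4 {p : ℕ} (hp : p.Prime) (h2 : p ≠ 2) : ¬ p ∣ 4 := by
  intro h
  have h4 : p ∣ 2 ^ 2 := h
  exact h2 ((Nat.prime_dvd_prime_iff_eq hp Nat.prime_two).1 (hp.dvd_of_dvd_pow h4))

lemma nd3 {p : ℕ} (hp : p.Prime) (h3 : p ≠ 3) : ¬ p ∣ 3 := fun h =>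
  h3 ((Nat.prime_dvd_prime_iff_eq hp Nat.prime_three).1 h)

end CODM

end Pool.Agent.Lib.MP_79a223_al.FM
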