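import Pool.Agent.Lib.MP_79a223_al.FM.SpecU

/-!
# Module CRD: the order of a group with a polycyclic sequence
-/

namespace Pool.Agent.Lib.MP_79a223_al.FM
namespace CRDM

/-- One step: `P` is generated by `S`, `s` normalises `P` and `s ^ m ∈ P`. -/
theorem step {G : Type} [Group G] [Finite G] {p : ℕ} (hp : p.Prime) (S : Set G) (s : G) (m : ℕ)
    (h1 : ∀ x ∈ S, s * x * s⁻¹ ∈ Subgroup.closure S) (h2 : s ^ m ∈ Subgroup.closure S)
    (hm : ¬ p ∣ m) (hP : ¬ p ∣ Nat.card (Subgroup.closure S)) :
    ¬ p ∣ Nat.card (Subgroup.closure (insert s S)) := by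
  set P : Subgroup G := Subgroup.closure S with hPdef
  set Q : Subgroup G := Subgroup.closure (insert s S) with hQdef
  have hPQ : P ≤ Q := Subgroup.closure_mono (Set.subset_insert s S)
  have hsQ : s ∈ Q := Subgroup.subset_closure (Set.mem_insert s S)
  -- conjugation by s maps P to P
  have hmap : P.map (MulAut.conj s).toMonoidHom ≤ P := by
    rw [Subgroup.map_le_iff_le_comap, hPdef, Subgroup.closure_le]
    intro x hx
    exact h1 x hx
  have hmapeq : P.map (MulAut.conj s).toMonoidHom = P := by
    apply Subgroup.eq_of_le_of_card_ge hmap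
    rw [Subgroup.card_map_of_injective]
    exact (MulAut.conj s).injective
  have hconj : ∀ x : G, x ∈ P ↔ s * x * s⁻¹ ∈ P := by
    intro x
    constructor
    · intro hx
      exact hmap ⟨x, hx, rfl⟩
    · intro hx
      rw [← hmapeq] at hx
      obtain ⟨y, hy, hyx⟩ := hx
      have : y = x := by
        have h := hyx
        simp only [MulEquiv.toMonoidHom_eq_coe, MonoidHom.coe_coe, MulAut.conj_apply] at h
        exact mul_left_cancel (mul_right_cancel h)
      rw [← this]
      exact hy
  have hnorm : ∀ g ∈ Q, ∀ x : G, x ∈ P ↔ g * x * g⁻¹ ∈ P := by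
    intro g hg
    induction hg using Subgroup.closure_induction with
    | mem y hy =>
      intro x
      rcases hy with rfl | hy
      · exact hconj x
      · have hyP : y ∈ P := Subgroup.subset_closure hy
        constructor
        · intro hx
          exact P.mul_mem (P.mul_mem hyP hx) (P.inv_mem hyP)
        · intro hx
          have := P.mul_mem (P.mul_mem (P.inv_mem hyP) hx) hyP
          simpa [mul_assoc] using this
    | one => intro x; simp
    | mul a b _ _ ha hb =>
      intro x
      rw [hb x, ha (b * x * b⁻¹)]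
      simp [mul_assoc]
    | inv a _ ha =>
      intro x
      rw [ha (a⁻¹ * x * a⁻¹⁻¹)]
      simp [mul_assoc]
  have hnormal : (P.subgroupOf Q).Normal := by
    constructor
    intro n hn g
    rw [Subgroup.mem_subgroupOf] at hn ⊢
    exact (hnorm g g.2 n).1 hn
  -- every element of Q has its m-th power in P
  set f : Q →* Q ⧸ P.subgroupOf Q := QuotientGroup.mk' _ with hf
  have hall : ∀ x (hx : x ∈ Q), f ⟨x, hx⟩ ∈ Subgroup.zpowers (f ⟨s, hsQ⟩) := by
    intro x hx
    induction hx using Subgroup.closure_induction with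
    | mem y hy =>
      rcases hy with rfl | hy
      · exact Subgroup.mem_zpowers _
      · have hyP : y ∈ P := Subgroup.subset_closure hy
        have : f ⟨y, Subgroup.subset_closure (Set.mem_insert_of_mem s hy)⟩ = 1 := by
          rw [hf, QuotientGroup.mk'_apply, QuotientGroup.eq_one_iff, Subgroup.mem_subgroupOf]
          exact hyP
        rw [this]
        exact Subgroup.one_mem _
    | one =>
      have : f ⟨1, Q.one_mem⟩ = 1 := map_one f
      rw [this]
      exact Subgroup.one_mem _
    | mul a b ha hb iha ihb =>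
      have : f ⟨a * b, Q.mul_mem ha hb⟩ = f ⟨a, ha⟩ * f ⟨b, hb⟩ := by
        rw [← map_mul]; rfl
      rw [this]
      exact Subgroup.mul_mem _ iha ihb
    | inv a ha iha =>
      have : f ⟨a⁻¹, Q.inv_mem ha⟩ = (f ⟨a, ha⟩)⁻¹ := by
        rw [← map_inv]; rfl
      rw [this]
      exact Subgroup.inv_mem _ iha
  have hsm : (f ⟨s, hsQ⟩) ^ m = 1 := by
    rw [← map_pow, hf, QuotientGroup.mk'_apply, QuotientGroup.eq_one_iff, Subgroup.mem_subgroupOf]
    exact h2
  have hpow : ∀ q : Q ⧸ P.subgroupOf Q, q ^ m = 1 := by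
    intro q
    obtain ⟨⟨x, hx⟩, rfl⟩ := QuotientGroup.mk'_surjective _ q
    obtain ⟨k, hk⟩ := hall x hx
    have hk' : (f ⟨s, hsQ⟩) ^ k = f ⟨x, hx⟩ := hk
    change (f ⟨x, hx⟩) ^ m = 1
    rw [← hk', ← zpow_natCast, ← zpow_mul, mul_comm, zpow_mul, zpow_natCast, hsm, one_zpow]
  intro hdvd
  rw [Subgroup.card_eq_card_quotient_mul_card_subgroup (P.subgroupOf Q)] at hdvd
  have hc : Nat.card (P.subgroupOf Q) = Nat.card P :=
    Nat.card_congr (Subgroup.subgroupOfEquivOfLe hPQ).toEquiv
  rw [hc] at hdvd
  rcases (Nat.Prime.dvd_mul hp).1 hdvd with h | h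
  · have : Fact p.Prime := ⟨hp⟩
    obtain ⟨q, hq⟩ := exists_prime_orderOf_dvd_card' p h
    have := orderOf_dvd_of_pow_eq_one (hpow q)
    rw [hq] at this
    exact hm this
  · exact hP h

end CRDM

open CRDM in
theorem specCRD : SpecCRD := by
  intro G _ _ p l hp h
  induction h with
  | nil =>
    have : (Subgroup.closure {x : G | x ∈ ([] : List G)}) = ⊥ := by
      simp
    rw [this, Subgroup.card_bot]
    intro h
    exact hp.one_lt.ne' (Nat.dvd_one.1 h)
  | cons s l m _ h1 h2 hm ih =>
    have hset : {x : G | x ∈ s :: l} = insert s {x : G | x ∈ l} := by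
      ext x
      simp
    rw [hset]
    have hprod : ∀ ws : List G, (∀ w ∈ ws, w ∈ l) → ws.prod ∈ Subgroup.closure {x : G | x ∈ l} := by
      intro ws hws
      apply Subgroup.list_prod_mem
      intro w hw
      exact Subgroup.subset_closure (hws w hw)
    apply step hp _ s m _ _ hm ih
    · intro x hx
      obtain ⟨ws, hws, he⟩ := h1 x hx
      rw [he, mul_inv_cancel_right]
      exact hprod ws hws
    · obtain ⟨ws, hws, he⟩ := h2
      rw [he]
      exact hprod ws hws

end Pool.Agent.Lib.MP_79a223_al.FM
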