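import Pool.Agent.Lib.MP_79a223_al.FM.Spec

/-!
# DIF: differences of points give all functions with sum zero
-/

open Equiv

namespace Pool.Agent.Lib.MP_79a223_al.FM

theorem specDIF : SpecDIF := by
  intro D _ _ H p C h2 hinv hxy g hg
  obtain ⟨x, y, hne, hC⟩ := hxy
  have hall : ∀ a b : D, a ≠ b → (Pi.single a 1 - Pi.single b 1 : D → ZMod p) ∈ C := by
    intro a b hab
    obtain ⟨s, hs, h1, h3⟩ := h2.2 x y a b hne hab
    have h4 := hinv s hs _ hC
    rw [map_sub, rho_single, rho_single, h1, h3] at h4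
    exact h4
  have hsum : ∑ z, g z = 0 := hg
  have hrepr : g = ∑ z, g z • (Pi.single z 1 - Pi.single x 1 : D → ZMod p) := by
    funext w
    have h5 : (∑ z, g z • (Pi.single z 1 - Pi.single x 1 : D → ZMod p)) w =
        ∑ z, (g z * (Pi.single z (1 : ZMod p) : D → ZMod p) w -
          g z * (Pi.single x (1 : ZMod p) : D → ZMod p) w) := by
      rw [Finset.sum_apply]
      refine Finset.sum_congr rfl fun z _ => ?_
      rw [Pi.smul_apply, Pi.sub_apply, smul_eq_mul, mul_sub]
    rw [h5, Finset.sum_sub_distrib, ← Finset.sum_mul, hsum, zero_mul, sub_zero]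
    rw [Finset.sum_eq_single w]
    · rw [Pi.single_eq_same, mul_one]
    · intro z _ hz
      rw [Pi.single_eq_of_ne (Ne.symm hz), mul_zero]
    · intro h
      exact absurd (Finset.mem_univ w) h
  rw [hrepr]
  refine Submodule.sum_mem _ fun z _ => Submodule.smul_mem _ _ ?_
  by_cases hz : z = x
  · rw [hz, sub_self]
    exact C.zero_mem
  · exact hall z x hz

end Pool.Agent.Lib.MP_79a223_al.FM
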