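import Pool.Agent.Lib.MP_79a223_al.FM.Spec

/-!
# DUA: duality of codes
-/

open Equiv

namespace Pool.Agent.Lib.MP_79a223_al.FM

namespace DUAM

/-- the coordinates of a functional -/
theorem functional {D : Type} [Fintype D] [DecidableEq D] {p : ℕ} (l : (D → ZMod p) →ₗ[ZMod p] ZMod p)
    (f : D → ZMod p) : l f = ∑ x, f x * l (Pi.single x 1) := by
  have h1 : f = ∑ x, f x • (Pi.single x (1 : ZMod p) : D → ZMod p) := by
    funext w
    rw [Finset.sum_apply, Finset.sum_eq_single w]
    · rw [Pi.smul_apply, Pi.single_eq_same, smul_eq_mul, mul_one]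
    · intro z _ hz
      rw [Pi.smul_apply, Pi.single_eq_of_ne (Ne.symm hz), smul_zero]
    · intro h
      exact absurd (Finset.mem_univ w) h
  conv_lhs => rw [h1]
  rw [map_sum]
  refine Finset.sum_congr rfl fun x _ => ?_
  rw [map_smul, smul_eq_mul]

end DUAM

open DUAM

theorem specDUA : SpecDUA := by
  classical
  intro D _ p _
  refine ⟨?_, ?_, ?_, ?_⟩
  · intro M hM hbot
    obtain ⟨l, hl, hle⟩ := Submodule.exists_le_ker_of_lt_top M (lt_top_iff_ne_top.2 hM)
    have hmem : (fun x => l (Pi.single x 1)) ∈ perp p (M : Set (D → ZMod p)) := by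
      intro g hg
      have h1 : l g = 0 := LinearMap.mem_ker.1 (hle hg)
      rw [functional l g] at h1
      rw [← h1]
      refine Finset.sum_congr rfl fun x _ => ?_
      exact mul_comm _ _
    rw [hbot, Submodule.mem_bot] at hmem
    apply hl
    ext x
    have h2 := congrFun hmem x
    simpa using h2
  · intro F hF g hg
    funext x
    have h1 : (Pi.single x (1 : ZMod p) : D → ZMod p) ∈ perp p F := by
      rw [hF]
      exact Submodule.mem_top
    have h2 := h1 g hg
    rw [Finset.sum_eq_single x] at h2
    · rw [Pi.single_eq_same, one_mul] at h2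
      exact h2
    · intro z _ hz
      rw [Pi.single_eq_of_ne hz, zero_mul]
    · intro h
      exact absurd (Finset.mem_univ x) h
  · intro H F hF s hs f hf g hg
    have h1 := hf _ (hF s⁻¹ (H.inv_mem hs) g hg)
    rw [← h1]
    refine Fintype.sum_equiv s⁻¹ _ _ fun x => ?_
    rw [rho_apply, rho_apply, inv_inv, pinv']
  · ext f
    constructor
    · intro hf
      have hconst : ∀ x y : D, f x = f y := by
        intro x y
        by_cases hxy : x = y
        · rw [hxy]
        have h1 : (Pi.single x 1 - Pi.single y 1 : D → ZMod p) ∈ sumZ D p := by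
          change ∑ z, (Pi.single x 1 - Pi.single y 1 : D → ZMod p) z = 0
          simp only [Pi.sub_apply, Finset.sum_sub_distrib, Finset.sum_pi_single', Finset.mem_univ, if_true,
            sub_self]
        have h2 := hf _ h1
        simp only [Pi.sub_apply, mul_sub, Finset.sum_sub_distrib] at h2
        rw [Finset.sum_eq_single x, Finset.sum_eq_single y, Pi.single_eq_same, Pi.single_eq_same, mul_one,
          mul_one] at h2
        · exact sub_eq_zero.1 h2
        · intro z _ hz
          rw [Pi.single_eq_of_ne hz, mul_zero]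
        · intro h
          exact absurd (Finset.mem_univ y) h
        · intro z _ hz
          rw [Pi.single_eq_of_ne hz, mul_zero]
        · intro h
          exact absurd (Finset.mem_univ x) h
      rw [mem_consts]
      rcases isEmpty_or_nonempty D with hD | ⟨⟨o⟩⟩
      · exact ⟨0, fun x => isEmptyElim x⟩
      · exact ⟨f o, fun x => hconst x o⟩
    · intro hf g hg
      rw [mem_consts] at hf
      obtain ⟨c, hc⟩ := hf
      have h1 : ∀ x, f x * g x = c * g x := fun x => by rw [hc x]
      rw [Finset.sum_congr rfl fun x _ => h1 x, ← Finset.mul_sum, show ∑ x, g x = 0 from hg, mul_zero]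

end Pool.Agent.Lib.MP_79a223_al.FM
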