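import Pool.Agent.Lib.MP_79a223_al.Defs2

/-!
# Primitive groups with a 2-transitive suborbit and an abelian regular socle: the families of suborbits
-/

open Equiv

namespace Pool.Agent.Lib.MP_79a223_al.FM

/-- The stabiliser of `α` in `G` maps `S` onto itself and acts on `S` as `H` acts on `D`: some bijection
`ι` from `D` to `S` turns the permutations of `S` induced by the stabiliser into the elements of `H`. -/
def ActsAs {X D : Type} (G : Subgroup (Perm X)) (α : X) (S : Set X) (H : Subgroup (Perm D)) : Prop :=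
  ∃ ι : D ≃ S, (∀ g ∈ G, g α = α → ∃ s ∈ H, ∀ d, g (ι d : X) = ι (s d)) ∧
    ∀ s ∈ H, ∃ g ∈ G, g α = α ∧ ∀ d, g (ι d : X) = ι (s d)

/-- `G` is primitive on a set whose size is a power of `p`, has a unique minimal normal subgroup,
which is regular, and some point stabiliser acts on one of its orbits `S`, not containing the point,
as `H` acts on `D`. -/
def HasSuborbit {X D : Type} (G : Subgroup (Perm X)) (H : Subgroup (Perm D)) (p : ℕ) : Prop :=
  (∃ m, Nat.card X = p ^ m) ∧ ∃ (N : Subgroup G) (α : X) (S : Set X), RegularSocle G N ∧ α ∉ S ∧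
    ActsAs G α S H

/-- After a bijection from `X` to `V = F_p^D / M`, the group `G` consists of the maps
`v ↦ s v + w`, `s ∈ H`, `w ∈ V`. -/
def IsAff {X D : Type} (G : Subgroup (Perm X)) (H : Subgroup (Perm D)) (p : ℕ)
    (M : Submodule (ZMod p) (D → ZMod p)) : Prop :=
  ∃ e : X ≃ (D → ZMod p) ⧸ M, ∀ g : Perm X, g ∈ G ↔ ∃ s ∈ H, ∃ w : (D → ZMod p) ⧸ M,
    ∀ (x : X) (f : D → ZMod p), e x = Submodule.Quotient.mk f →
      e (g x) = Submodule.Quotient.mk (rho p s f) + w

/-- The functions orthogonal to all functions of a set. -/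
def perp {D : Type} [Fintype D] (p : ℕ) (F : Set (D → ZMod p)) : Submodule (ZMod p) (D → ZMod p) where
  carrier := {f | ∀ g ∈ F, ∑ x, f x * g x = 0}
  add_mem' := by
    intro a b ha hb g hg
    simp only [Pi.add_apply, add_mul, Finset.sum_add_distrib]
    rw [ha g hg, hb g hg, add_zero]
  zero_mem' := by
    intro g _
    simp
  smul_mem' := by
    intro c a ha g hg
    simp only [Pi.smul_apply, smul_eq_mul, mul_assoc]
    rw [← Finset.mul_sum, ha g hg, mul_zero]

/-- `π` identifies the points of the projective space of `k^n` with `D`: `π v` is the point of the vector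
`v ≠ 0`. -/
def IsPoints {k D : Type} [Field k] {n : ℕ} (π : (Fin n → k) → D) : Prop :=
  (∀ x : D, ∃ v, v ≠ 0 ∧ π v = x) ∧
    ∀ v w : Fin n → k, v ≠ 0 → w ≠ 0 → (π v = π w ↔ ∃ a : k, w = a • v)

/-- `H` contains all transvections `v ↦ v + φ(v) w`, `φ(w) = 0`, of the projective space. -/
def HasTransvections {k D : Type} [Field k] {n : ℕ} (π : (Fin n → k) → D)
    (H : Subgroup (Perm D)) : Prop :=
  ∀ (φ : (Fin n → k) →ₗ[k] k) (w : Fin n → k), φ w = 0 →
    ∃ s ∈ H, ∀ v, v ≠ 0 → s (π v) = π (v + φ v • w)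

/-- The elements of `H` map hyperplanes to hyperplanes. -/
def MapsHyperplanes {k D : Type} [Field k] {n : ℕ} (π : (Fin n → k) → D)
    (H : Subgroup (Perm D)) : Prop :=
  ∀ s ∈ H, ∀ φ : (Fin n → k) →ₗ[k] k, φ ≠ 0 → ∃ ψ : (Fin n → k) →ₗ[k] k, ψ ≠ 0 ∧
    ∀ v w, v ≠ 0 → w ≠ 0 → s (π v) = π w → (φ v = 0 ↔ ψ w = 0)

/-- The indicator functions of the complements of the hyperplanes. -/
def offs {k D : Type} [Field k] {n : ℕ} (π : (Fin n → k) → D) (p : ℕ) : Set (D → ZMod p) :=
  {g | ∃ φ : (Fin n → k) →ₗ[k] k, φ ≠ 0 ∧ ∀ v, v ≠ 0 → (φ v = 0 → g (π v) = 0) ∧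
    (φ v ≠ 0 → g (π v) = 1)}

/-- `D` is a set of quadratic forms on `F_2^n` which have the same nondegenerate polarisation `B`, and `H`
contains the maps `θ ↦ θ ∘ t` for all symplectic transvections `t : x ↦ x + B(x, v) v`. -/
def IsSymplectic {D : Type} (H : Subgroup (Perm D)) : Prop :=
  ∃ (n : ℕ) (B : (Fin n → ZMod 2) →ₗ[ZMod 2] (Fin n → ZMod 2) →ₗ[ZMod 2] ZMod 2)
    (Θ : D → (Fin n → ZMod 2) → ZMod 2), Function.Injective Θ ∧
    (∀ d x y, Θ d (x + y) = Θ d x + Θ d y + B x y) ∧ (∀ x, x ≠ 0 → ∃ y, B x y ≠ 0) ∧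
    ∀ v, ∃ s ∈ H, ∀ d x, Θ (s d) x = Θ d (x + B x v • v)

/-- Subgroups `A`, `P` of `H` fix a point `δ`, the products `a b` (`a ∈ A`, `b ∈ P`) are transitive on the
other points, `P` is a `p`-group which normalises `A`, and `p` does not divide the order of `A`. -/
def IsNilpotentType {D : Type} (H : Subgroup (Perm D)) (p : ℕ) : Prop :=
  ∃ (A P : Subgroup (Perm D)) (δ : D), A ≤ H ∧ P ≤ H ∧ (∀ s ∈ A, s δ = δ) ∧ (∀ s ∈ P, s δ = δ) ∧
    (∀ b ∈ P, ∀ a ∈ A, b * a * b⁻¹ ∈ A) ∧ ¬ p ∣ Nat.card A ∧ IsPGroup p P ∧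
    ∀ x y, x ≠ δ → y ≠ δ → ∃ a ∈ A, ∃ b ∈ P, a (b x) = y

/-- An element `a` of `H` swaps two points `x`, `y`, and maps to itself every other orbit of a subgroup `B`
of `H` which fixes `x` and `y` and whose order is not divisible by `p`. -/
def HasSwap {D : Type} (H : Subgroup (Perm D)) (p : ℕ) : Prop :=
  ∃ (B : Subgroup (Perm D)) (a : Perm D) (x y : D), B ≤ H ∧ a ∈ H ∧ x ≠ y ∧
    (∀ b ∈ B, b x = x ∧ b y = y) ∧ ¬ p ∣ Nat.card B ∧ a x = y ∧ a y = x ∧
    ∀ z, z ≠ x → z ≠ y → ∃ b ∈ B, a z = b z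

/-- `H` contains all 3-cycles (so all even permutations). -/
def HasThreeCycles {D : Type} (H : Subgroup (Perm D)) : Prop :=
  ∀ (s : Perm D) (a b c : D), a ≠ b → b ≠ c → a ≠ c → s a = b → s b = c → s c = a →
    (∀ x, x ≠ a → x ≠ b → x ≠ c → s x = x) → s ∈ H

/-- The groups `H`, the primes `p` and the subspaces `M` of the classification. -/
inductive Listed {D : Type} [Fintype D] (H : Subgroup (Perm D)) (p : ℕ) :
    Submodule (ZMod p) (D → ZMod p) → Prop
  /-- `|D| ≥ 5` and `H` contains all 3-cycles (so all even permutations). -/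
  | alternating : 5 ≤ Fintype.card D → HasThreeCycles H → Listed H p (consts D p)
  /-- See `IsNilpotentType`. -/
  | nilpotent : IsNilpotentType H p → Listed H p (consts D p)
  /-- See `HasSwap`. -/
  | swap : HasSwap H p → Listed H p (consts D p)
  /-- `D` is a set of quadratic forms, see `IsSymplectic`, and `p` is odd. -/
  | symplectic : p ≠ 2 → IsSymplectic H → Listed H p (consts D p)
  /-- `D` is the set of points of a projective space over a finite field of another characteristic and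
  `H` contains all transvections. -/
  | projective (k : Type) [Field k] [Fintype k] (n : ℕ) (π : (Fin n → k) → D) :
      IsPoints π → ¬ p ∣ Fintype.card k → HasTransvections π H → Listed H p (consts D p)
  /-- `D` is the set of points of a projective space over a finite field of characteristic `p`, and `H`
  contains all transvections and maps hyperplanes to hyperplanes. -/
  | projectiveChar (k : Type) [Field k] [Fintype k] (n : ℕ) (π : (Fin n → k) → D) :
      IsPoints π → p ∣ Fintype.card k → HasTransvections π H → MapsHyperplanes π H →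
      Listed H p (perp p (offs π p))

end Pool.Agent.Lib.MP_79a223_al.FM
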