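import Pool.Agent.Lib.MP_79a223_al.FM.Defs

/-!
# Primitive groups with a 2-transitive suborbit and a regular socle: twisted wreath products and the
infinite families of suborbits
-/

open Equiv

namespace Pool.Agent.Lib.MP_79a223_al.FM

/-- The twisted base group: the functions `f` from `H` to `T` with `f (h q) = φ(q)⁻¹ (f h)` for all `h ∈ H`,
`q ∈ Q`. -/
def twBase {H T : Type} [Group H] [Group T] (Q : Subgroup H) (φ : Q →* MulAut T) :
    Subgroup (H → T) where
  carrier := {f | ∀ (h : H) (q : Q), f (h * q) = (φ q)⁻¹ (f h)}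
  mul_mem' := by
    intro a b ha hb h q
    simp only [Pi.mul_apply, map_mul]
    rw [ha h q, hb h q]
  one_mem' := by
    intro h q
    simp
  inv_mem' := by
    intro a ha h q
    simp only [Pi.inv_apply, map_inv]
    rw [ha h q]

/-- The function `x ↦ f (s⁻¹ x)`. -/
def tr {H T : Type} [Group H] (s : H) (f : H → T) : H → T := fun x => f (s⁻¹ * x)

/-- `T` is a nonabelian simple group; no subgroup of `T` except `1` and `T` is invariant under `φ(Q)`; `φ`
has no extension to a homomorphism from a larger subgroup of `H` to `Aut T`; and `Q ≠ H`, or `φ(H)`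
contains no inner automorphism except `1`. -/
structure TwPrim {H T : Type} [Group H] [Group T] (Q : Subgroup H) (φ : Q →* MulAut T) : Prop where
  simple : IsSimpleGroup T
  nonab : ∃ a b : T, a * b ≠ b * a
  inv : ∀ U : Subgroup T, (∀ q : Q, ∀ u ∈ U, φ q u ∈ U) → U = ⊥ ∨ U = ⊤
  ext : ∀ (L : Subgroup H) (ψ : L →* MulAut T) (hQ : Q ≤ L),
    (∀ q : Q, ψ ⟨q, hQ q.2⟩ = φ q) → L = Q
  inner : Q ≠ ⊤ ∨ ∀ (q : Q) (t : T), (∀ u, φ q u = t * u * t⁻¹) → t = 1

/-- The twisted base group as a type. -/
abbrev TwB {K T : Type} [Group K] [Group T] (Q : Subgroup K) (φ : Q →* MulAut T) : Type := twBase Q φ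

/-- `v' = w (s v)`, that is `v' h = w h * v (s⁻¹ h)` for all `h`. -/
abbrev TwMap {K T : Type} [Group K] [Group T] {Q : Subgroup K} {φ : Q →* MulAut T} (s : K)
    (w v v' : TwB Q φ) : Prop :=
  ∀ h : K, (v' : K → T) h = (w : K → T) h * (v : K → T) (s⁻¹ * h)

/-- After the bijection `e` from `X` to the twisted base group, `g` is one of the maps `v ↦ w (s v)`. -/
abbrev TwGen {X K T : Type} [Group K] [Group T] {Q : Subgroup K} {φ : Q →* MulAut T}
    (e : X ≃ TwB Q φ) (g : Perm X) : Prop :=
  ∃ (s : K) (w : TwB Q φ), ∀ x : X, TwMap s w (e x) (e (g x))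

/-- After a bijection from `X` to the twisted base group, `G` is the group of all maps `v ↦ w (s v)`. -/
abbrev TwAct {X K T : Type} [Group K] [Group T] (G : Subgroup (Perm X)) (Q : Subgroup K)
    (φ : Q →* MulAut T) : Prop :=
  ∃ e : X ≃ TwB Q φ, ∀ g : Perm X, g ∈ G ↔ TwGen e g

/-- For some point `δ` of `D` some `t ≠ 1` in `T` is fixed by `φ(q)` for all `q ∈ Q` with `q δ = δ`. -/
abbrev TwFix {D T : Type} [Group T] {H : Subgroup (Perm D)} (Q : Subgroup H)
    (φ : Q →* MulAut T) : Prop :=
  ∃ (δ : D) (t : T), t ≠ 1 ∧ ∀ q : Q, ((q : H) : Perm D) δ = δ → φ q t = t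

/-- `IsTW` with a given group `T`. -/
abbrev TwOver {X D : Type} (G : Subgroup (Perm X)) (H : Subgroup (Perm D)) (T : Type)
    [Group T] : Prop :=
  ∃ (Q : Subgroup H) (φ : Q →* MulAut T), TwPrim Q φ ∧ TwFix Q φ ∧ TwAct G Q φ

/-- After a bijection from `X` to a twisted base group `B`, `G` is the twisted wreath product
`{v ↦ w (s v) | s ∈ H, w ∈ B}`; the data satisfy `TwPrim` and `TwFix`. -/
def IsTW {X D : Type} (G : Subgroup (Perm X)) (H : Subgroup (Perm D)) : Prop :=
  ∃ (T : Type) (_ : Group T) (_ : Finite T), TwOver G H T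

/-- For some prime `r` an `r`-subgroup of `H` fixes a point and is transitive on the other points. -/
def IsUnipotentType {D : Type} (H : Subgroup (Perm D)) : Prop :=
  ∃ (r : ℕ) (P : Subgroup (Perm D)) (δ : D), r.Prime ∧ IsPGroup r P ∧ P ≤ H ∧ (∀ s ∈ P, s δ = δ) ∧
    ∀ x y, x ≠ δ → y ≠ δ → ∃ s ∈ P, s x = y

/-- `D` is the set of the quadratic forms `θ(x, y) = x·y + a·x + b·y` on `F_2^m × F_2^m`, `m ≥ 2`, with
`a·b = ε` (the forms of one type with the standard polarisation), and `H` contains the maps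
`θ ↦ θ + (θ(v) + 1) B(·, v)`, that is `θ ↦ θ ∘ t`, `t` the symplectic transvection of `v = (x, y)`. -/
def IsSp {D : Type} (H : Subgroup (Perm D)) : Prop :=
  ∃ (m : ℕ) (ε : ZMod 2) (Θ : D → (Fin m → ZMod 2) × (Fin m → ZMod 2)), 2 ≤ m ∧
    Function.Injective Θ ∧ (∀ a b, (∃ d, Θ d = (a, b)) ↔ dotProduct a b = ε) ∧
    ∀ x y, ∃ s ∈ H, ∀ d, Θ (s d) = Θ d +
      (dotProduct x y + dotProduct (Θ d).1 x + dotProduct (Θ d).2 y + 1) • (y, x)

/-- The infinite families of 2-transitive groups `H`, with the subspaces `M p` of `F_p^D`: affine groups;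
groups containing all 3-cycles; groups with an `r`-subgroup which fixes a point and is transitive on the
others (`PSL_2(q)`, `PSU_3(q)`, `Sz(q)`, `Ree(q)`); `Sp_2m(2)` on quadratic forms; groups between
`PSL_n(q)` and `PΓL_n(q)` on points. -/
inductive Family {D : Type} [Fintype D] (H : Subgroup (Perm D)) :
    (∀ p : ℕ, Submodule (ZMod p) (D → ZMod p)) → Prop
  | affine : HasSolubleNormal H → Family H (fun p => consts D p)
  | alternating : 5 ≤ Fintype.card D → HasThreeCycles H → Family H (fun p => consts D p)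
  | unipotent : IsUnipotentType H → Family H (fun p => consts D p)
  | symplectic : IsSp H → Family H (fun p => consts D p)
  | projective (k : Type) [Field k] [Fintype k] (n : ℕ) (π : (Fin n → k) → D) :
      IsPoints π → HasTransvections π H → MapsHyperplanes π H →
      Family H (fun p => if p ∣ Fintype.card k then perp p (offs π p) else consts D p)

end Pool.Agent.Lib.MP_79a223_al.FM
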