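import Pool.Agent.Lib.MP_79a223_al.FM.Spec

/-!
# Module FIN: assembly
-/

open Equiv

namespace Pool.Agent.Lib.MP_79a223_al.FM

namespace FINM

lemma sumZ_inv {D : Type} [Fintype D] (H : Subgroup (Perm D)) (p : ℕ) :
    ∀ s ∈ H, ∀ g ∈ sumZ D p, rho p s g ∈ sumZ D p := by
  intro s _ g hg
  have h1 : ∑ x, rho p s g x = ∑ x, g x := Equiv.sum_comp s⁻¹ g
  show ∑ x, rho p s g x = 0
  rw [h1]
  exact hg

lemma single_sub_mem {D : Type} [Fintype D] [DecidableEq D] (p : ℕ) (x y : D) :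
    (Pi.single x 1 - Pi.single y 1 : D → ZMod p) ∈ sumZ D p := by
  show ∑ z, (Pi.single x 1 - Pi.single y 1 : D → ZMod p) z = 0
  simp [Finset.sum_sub_distrib, Pi.single_apply]

lemma sumZ_ne {D : Type} [Fintype D] (p : ℕ) [Fact p.Prime] (h : ∃ x y : D, x ≠ y) :
    ∃ g ∈ sumZ D p, g ≠ 0 := by
  classical
  obtain ⟨x, y, hxy⟩ := h
  refine ⟨_, single_sub_mem p x y, ?_⟩
  intro h0
  have := congrFun h0 x
  simp [hxy] at this

lemma sumZ_nonconst {D : Type} [Fintype D] (p : ℕ) [Fact p.Prime] (h : ∃ x y : D, x ≠ y)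
    (hc : (Fintype.card D : ZMod p) ≠ 0) : ∃ g ∈ sumZ D p, ∃ x y, g x ≠ g y := by
  classical
  obtain ⟨x, y, hxy⟩ := h
  by_contra hcon
  push Not at hcon
  have h1 := hcon _ (single_sub_mem p x y)
  have h2 : ∀ z, (Pi.single x 1 - Pi.single y 1 : D → ZMod p) z = 1 := by
    intro z
    rw [h1 z x]
    simp [hxy]
  have h3 : ∑ z, (Pi.single x 1 - Pi.single y 1 : D → ZMod p) z = 0 := single_sub_mem p x y
  rw [Finset.sum_congr rfl (fun z _ => h2 z)] at h3
  simp only [Finset.sum_const, Finset.card_univ, nsmul_eq_mul, mul_one] at h3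
  exact hc h3

lemma charP_of_dvd {k : Type} [Field k] [Fintype k] {p : ℕ} (hp : p.Prime)
    (h : p ∣ Fintype.card k) : CharP k p := by
  obtain ⟨r, hr⟩ := CharP.exists k
  obtain ⟨n, hrp, hn⟩ := FiniteField.card k r
  rw [hn] at h
  have h1 : p = r := (Nat.prime_dvd_prime_iff_eq hp hrp).1 (hp.dvd_of_dvd_pow h)
  rw [h1]
  exact hr

end FINM

open FINM in
theorem specFIN (hDUA : SpecDUA) (hALT : SpecALT)
    (hNIL : SpecNIL) (hSWP : SpecSWP) (hTRV : SpecTRV) (hSYM : SpecSYM) (hPRO : SpecPRO)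
    (hPRL : SpecPRL) (hPDA : SpecPDA) (hPDB : SpecPDB) (hPDC : SpecPDC) (hPDG : SpecPDG)
    (hFWD : SpecFWD) (hBWD : SpecBWD) : SpecFIN := by
  intro X D _ _ p hp H M hH hM G
  have : Fact p.Prime := ⟨hp⟩
  -- the case of the constants
  have hconst : Dich H p (sumZ D p) → (HasSuborbit G H p ↔
      ((∃ f ∈ consts D p, ∑ x, f x ≠ 0) ∧ IsAff G H p (consts D p))) := by
    intro hD
    have hperp := (hDUA D p).2.2.2
    constructor
    · intro h
      have h1 := hFWD X D p G H (sumZ D p) hH (sumZ_inv H p) (sumZ_ne p hH.1) hD h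
      rwa [hperp] at h1
    · rintro ⟨hf, hA⟩
      have hc : (Fintype.card D : ZMod p) ≠ 0 := by
        obtain ⟨f, hf, hs⟩ := hf
        obtain ⟨c, hc⟩ := mem_consts.1 hf
        intro h0
        apply hs
        rw [Finset.sum_congr rfl (fun x _ => hc x), Finset.sum_const, Finset.card_univ,
          nsmul_eq_mul, h0, zero_mul]
      rw [← hperp] at hf hA
      exact hBWD X D p G H (sumZ D p) hH (sumZ_inv H p) (sumZ_nonconst p hH.1 hc) hD hf hA
  cases hM with
  | alternating h5 h3 => exact hconst (hALT D H p hH h5 h3)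
  | nilpotent hN => exact hconst (hNIL D H p hH hN)
  | swap hS => exact hconst (hSWP D H p hH hS)
  | symplectic h2 hS => exact hconst (hTRV D H p hH h2 (hSYM D H hH hS))
  | projective k n π hπ hk hT =>
    rcases Nat.lt_or_ge 2 n with hn | hn
    · exact hconst (hPRO k n D π H p hH hn hπ hT hk)
    · exact hconst (hPRL k n D π H p hH hn hπ hT hk)
  | projectiveChar k n π hπ hk hT hM =>
    have hch : CharP k p := charP_of_dvd hp hk
    obtain ⟨hg1, hg2, hg3, hg4⟩ := hPDG k n D π H p hH.1 hπ hch hM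
    have hD : Dich H p (offs π p) := by
      intro C hC hinv
      obtain ⟨f, hfC, hf0, hf⟩ := hPDA k n D π H p hπ hT hch C hC hinv
      rcases hPDB k n D π H p hπ hT hch C hinv f hfC hf0 hf with h | ⟨φ, g, hφ, hgC, hg⟩
      · exact Or.inl h
      · exact Or.inr (hPDC k n D π H p hπ hT C hinv φ g hφ hgC hg)
    constructor
    · intro h
      obtain ⟨g, hg, x, y, hxy⟩ := hg3
      exact hFWD X D p G H (offs π p) hH hg4 ⟨g, hg, by rintro rfl; exact hxy rfl⟩ hD h
    · rintro ⟨hf, hA⟩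
      exact hBWD X D p G H (offs π p) hH hg4 hg3 hD hf hA

end Pool.Agent.Lib.MP_79a223_al.FM
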