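import Pool.Agent.Lib.MP_79a223_al.FM.SpecS
import Pool.Agent.Lib.MP_79a223_al.FM.FIN

/-!
# Module FI2: the final theorem
-/

open Equiv

namespace Pool.Agent.Lib.MP_79a223_al.FM

namespace FI2M

/-- the case of the constants -/
lemma const_iff (hDUA : SpecDUA) (hFWD : SpecFWD) (hBWD : SpecBWD) {X D : Type} [Finite X] [Fintype D]
    {p : ℕ} (hp : p.Prime) {H : Subgroup (Perm D)} (hH : TwoTransitive H) (G : Subgroup (Perm X))
    (hD : Dich H p (sumZ D p)) :
    HasSuborbit G H p ↔ ((∃ f ∈ consts D p, ∑ x, f x ≠ 0) ∧ IsAff G H p (consts D p)) := by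
  have : Fact p.Prime := ⟨hp⟩
  have hperp := (hDUA D p).2.2.2
  constructor
  · intro h
    have h1 := hFWD X D p G H (sumZ D p) hH (FINM.sumZ_inv H p) (FINM.sumZ_ne p hH.1) hD h
    rwa [hperp] at h1
  · rintro ⟨hf, hA⟩
    have hc : (Fintype.card D : ZMod p) ≠ 0 := by
      obtain ⟨f, hf, hs⟩ := hf
      obtain ⟨c, hc⟩ := mem_consts.1 hf
      intro h0
      apply hs
      rw [Finset.sum_congr rfl (fun x _ => hc x), Finset.sum_const, Finset.card_univ,
        nsmul_eq_mul, h0, zero_mul]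
    rw [← hperp] at hf hA
    exact hBWD X D p G H (sumZ D p) hH (FINM.sumZ_inv H p) (FINM.sumZ_nonconst p hH.1 hc) hD hf hA

/-- groups of unipotent type are of nilpotent type for every prime -/
lemma nilpotent_of_unipotent {D : Type} [Fintype D] {H : Subgroup (Perm D)}
    (h : IsUnipotentType H) {p : ℕ} (hp : p.Prime) : IsNilpotentType H p := by
  classical
  obtain ⟨r, P, δ, hr, hP, hPH, hfix, htr⟩ := h
  have : Fact r.Prime := ⟨hr⟩
  by_cases hpr : p = r
  · subst hpr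
    refine ⟨⊥, P, δ, bot_le, hPH, ?_, hfix, ?_, ?_, hP, ?_⟩
    · intro s hs
      rw [Subgroup.mem_bot.1 hs]
      rfl
    · intro b _ a ha
      rw [Subgroup.mem_bot] at ha ⊢
      rw [ha, mul_one, mul_inv_cancel]
    · rw [Subgroup.card_bot]
      intro h1
      exact hp.one_lt.ne' (Nat.dvd_one.1 h1)
    · intro x y hx hy
      obtain ⟨s, hs, hsx⟩ := htr x y hx hy
      exact ⟨1, Subgroup.one_mem _, s, hs, hsx⟩
  · refine ⟨P, ⊥, δ, hPH, bot_le, hfix, ?_, ?_, ?_, ?_, ?_⟩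
    · intro s hs
      rw [Subgroup.mem_bot.1 hs]
      rfl
    · intro b hb a ha
      rw [Subgroup.mem_bot.1 hb]
      simpa using ha
    · obtain ⟨n, hn⟩ := IsPGroup.iff_card.1 hP
      rw [hn]
      intro h1
      exact hpr ((Nat.prime_dvd_prime_iff_eq hp hr).1 (hp.dvd_of_dvd_pow h1))
    · exact IsPGroup.of_bot
    · intro x y hx hy
      obtain ⟨s, hs, hsx⟩ := htr x y hx hy
      exact ⟨s, hs, 1, Subgroup.one_mem _, hsx⟩

/-- an abelian regular unique minimal normal subgroup: the degree is a power of a prime -/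
lemma card_of_abelian {X : Type} [Finite X] (G : Subgroup (Perm X)) (N : Subgroup G)
    (hN : RegularSocle G N) (hab : ∀ a ∈ N, ∀ b ∈ N, a * b = b * a) :
    ∃ p : ℕ, p.Prime ∧ ∃ m, Nat.card X = p ^ m := by
  classical
  obtain ⟨-, hnorm, hne, hmin, hreg⟩ := hN
  obtain ⟨⟨n0, hn0⟩, hn1⟩ := Subgroup.ne_bot_iff_exists_ne_one.1 hne
  have hnt : Nontrivial N := ⟨⟨n0, hn0⟩, 1, hn1⟩
  obtain ⟨p, hp, hpN⟩ := Nat.exists_prime_and_dvd (Finite.one_lt_card (α := N)).ne'
  have : Fact p.Prime := ⟨hp⟩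
  refine ⟨p, hp, ?_⟩
  let M : Subgroup G :=
    { carrier := {n | n ∈ N ∧ n ^ p = 1}
      mul_mem' := by
        rintro x y ⟨hx, hx1⟩ ⟨hy, hy1⟩
        refine ⟨N.mul_mem hx hy, ?_⟩
        have h1 : Commute x y := hab x hx y hy
        rw [h1.mul_pow, hx1, hy1, one_mul]
      one_mem' := ⟨N.one_mem, one_pow p⟩
      inv_mem' := by
        rintro x ⟨hx, hx1⟩
        exact ⟨N.inv_mem hx, by rw [inv_pow, hx1, inv_one]⟩ }
  have hMn : M.Normal := by
    constructor
    rintro n ⟨hn, hn1⟩ g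
    refine ⟨hnorm.conj_mem n hn g, ?_⟩
    rw [conj_pow, hn1, mul_one, mul_inv_cancel]
  have hMne : M ≠ ⊥ := by
    obtain ⟨x, hx⟩ := exists_prime_orderOf_dvd_card' p hpN
    intro h
    have h2 : (x : G) ∈ M := by
      refine ⟨x.2, ?_⟩
      have h3 : x ^ p = 1 := by rw [← hx, pow_orderOf_eq_one]
      have := congrArg Subtype.val h3
      simpa using this
    rw [h, Subgroup.mem_bot] at h2
    have h4 : x = 1 := Subtype.ext h2
    rw [h4, orderOf_one] at hx
    exact hp.one_lt.ne hx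
  have hle : N ≤ M := hmin M hMn hMne
  have hpg : IsPGroup p N := by
    intro n
    refine ⟨1, ?_⟩
    have h1 := (hle n.2).2
    apply Subtype.ext
    simpa using h1
  obtain ⟨m, hm⟩ := IsPGroup.iff_card.1 hpg
  refine ⟨m, ?_⟩
  rw [← hm]
  -- the regular action
  have hXne : Nonempty X := by
    by_contra hX
    rw [not_nonempty_iff] at hX
    apply hn1
    apply Subtype.ext
    apply Subtype.ext
    ext x
    exact (hX.false x).elim
  obtain ⟨α⟩ := hXne
  symm
  refine Nat.card_congr (Equiv.ofBijective (fun n : N => ((n : G) : Perm X) α) ⟨?_, ?_⟩)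
  · intro a b hab'
    obtain ⟨c, -, hc⟩ := hreg α (((b : G) : Perm X) α)
    exact Subtype.ext ((hc a ⟨a.2, hab'⟩).trans (hc b ⟨b.2, rfl⟩).symm)
  · intro y
    obtain ⟨c, ⟨hc1, hc2⟩, -⟩ := hreg α y
    exact ⟨⟨c, hc1⟩, hc2⟩

end FI2M

open FI2M in
theorem specFI2 (hFIN : SpecFIN) (hDUA : SpecDUA) (hFWD : SpecFWD) (hBWD : SpecBWD)
    (hTRV : SpecTRV) (hAFF : SpecAFF) (hSPO : SpecSPO) (hSPF : SpecSPF) (hTWN : SpecTWN)
    (hTWF : SpecTWF) : SpecFI2 := by
  intro X D _ _ H M hH hM G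
  have key : ∀ p : ℕ, p.Prime → (HasSuborbit G H p ↔
      ((∃ f ∈ M p, ∑ x, f x ≠ 0) ∧ IsAff G H p (M p))) := by
    intro p hp
    have : Fact p.Prime := ⟨hp⟩
    cases hM with
    | affine h => exact const_iff hDUA hFWD hBWD hp hH G (hAFF D H p hH h)
    | alternating h5 h3 => exact hFIN X D p hp H _ hH (Listed.alternating h5 h3) G
    | unipotent h => exact hFIN X D p hp H _ hH (Listed.nilpotent (nilpotent_of_unipotent h hp)) G
    | symplectic h =>
      obtain ⟨m, ε, Θ, h2, hinj, htype, htv⟩ := h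
      have hS : SpData H m ε Θ := ⟨h2, hinj, htype, htv⟩
      by_cases hp2 : p = 2
      · subst hp2
        exact const_iff hDUA hFWD hBWD hp hH G (hSPF D H m ε Θ hS)
      · exact const_iff hDUA hFWD hBWD hp hH G (hTRV D H p hH hp2 (hSPO D H m ε Θ hS))
    | projective k n π hπ hT hMH =>
      by_cases hk : p ∣ Fintype.card k
      · have h1 := hFIN X D p hp H _ hH (Listed.projectiveChar k n π hπ hk hT hMH) G
        simpa only [if_pos hk] using h1
      · have h1 := hFIN X D p hp H _ hH (Listed.projective k n π hπ hk hT) G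
        simpa only [if_neg hk] using h1
  constructor
  · rintro ⟨N, α, S, hN, hα, hS⟩
    by_cases hab : ∀ a ∈ N, ∀ b ∈ N, a * b = b * a
    · left
      obtain ⟨p, hp, hm⟩ := card_of_abelian G N hN hab
      exact ⟨p, hp, (key p hp).1 ⟨hm, N, α, S, hN, hα, hS⟩⟩
    · right
      push Not at hab
      exact hTWF X D G H hH ⟨N, α, S, hN, hab, hα, hS⟩
  · rintro (⟨p, hp, h⟩ | h)
    · obtain ⟨-, N, α, S, h1, h2, h3⟩ := (key p hp).2 h
      exact ⟨N, α, S, h1, h2, h3⟩
    · obtain ⟨N, α, S, h1, -, h2, h3⟩ := hTWN X D G H hH h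
      exact ⟨N, α, S, h1, h2, h3⟩

end Pool.Agent.Lib.MP_79a223_al.FM
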