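import Pool.Agent.Lib.MP_79a223_al.FM.SpecU
import Pool.Agent.Lib.MP_79a223_al.FM.FI2

/-!
# Module FI3: the final theorem for all families and the sporadic groups
-/

open Equiv

namespace Pool.Agent.Lib.MP_79a223_al.FM

namespace FI3M

lemma images_inv {n : ℕ} (H : Subgroup (Perm (Fin n))) (B : List ℕ) (p : ℕ) :
    ∀ s ∈ H, ∀ g ∈ images H B p, rho p s g ∈ images H B p := by
  rintro s hs g ⟨t, ht, hg⟩
  refine ⟨s * t, H.mul_mem hs ht, fun x => ?_⟩
  rw [rho_apply, Perm.mul_apply, pinv, hg]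

lemma images_nonconst {n : ℕ} (H : Subgroup (Perm (Fin n))) (B : List ℕ) (p : ℕ) [Fact p.Prime]
    (a b : Fin n) (ha : (a : ℕ) ∈ B) (hb : (b : ℕ) ∉ B) :
    ∃ g ∈ images H B p, ∃ x y, g x ≠ g y := by
  refine ⟨fun x => if (x : ℕ) ∈ B then 1 else 0, ⟨1, H.one_mem, fun x => rfl⟩, a, b, ?_⟩
  show (if (a : ℕ) ∈ B then (1 : ZMod p) else 0) ≠ (if (b : ℕ) ∈ B then 1 else 0)
  rw [if_pos ha, if_neg hb]
  exact one_ne_zero

/-- the special prime -/
lemma special_iff (hFWD : SpecFWD) (hBWD : SpecBWD) {X : Type} [Finite X] {n p : ℕ} (hp : p.Prime)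
    {H : Subgroup (Perm (Fin n))} (hH : TwoTransitive H) (G : Subgroup (Perm X)) {B : List ℕ}
    (a b : Fin n) (ha : (a : ℕ) ∈ B) (hb : (b : ℕ) ∉ B) (hD : Dich H p (images H B p)) :
    HasSuborbit G H p ↔ ((∃ f ∈ perp p (images H B p), ∑ x, f x ≠ 0) ∧
      IsAff G H p (perp p (images H B p))) := by
  have : Fact p.Prime := ⟨hp⟩
  have hnc := images_nonconst H B p a b ha hb
  have hne : ∃ g ∈ images H B p, g ≠ 0 := by
    obtain ⟨g, hg, x, y, hxy⟩ := hnc
    refine ⟨g, hg, ?_⟩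
    rintro rfl
    exact hxy rfl
  constructor
  · intro h
    exact hFWD X (Fin n) p G H _ hH (images_inv H B p) hne hD h
  · rintro ⟨hf, hA⟩
    exact hBWD X (Fin n) p G H _ hH (images_inv H B p) hnc hD hf hA

/-- both cases -/
lemma sp_iff (hDUA : SpecDUA) (hFWD : SpecFWD) (hBWD : SpecBWD) {X : Type} [Finite X] {n q : ℕ}
    {H : Subgroup (Perm (Fin n))} (hH : TwoTransitive H) (G : Subgroup (Perm X)) {B : List ℕ}
    (a b : Fin n) (ha : (a : ℕ) ∈ B) (hb : (b : ℕ) ∉ B)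
    (hD : ∀ (p : ℕ) [Fact p.Prime], Dich H p (spF H B q p)) (p : ℕ) (hp : p.Prime) :
    HasSuborbit G H p ↔
      ((∃ f ∈ (if p = q then perp p (images H B p) else consts (Fin n) p), ∑ x, f x ≠ 0) ∧
      IsAff G H p (if p = q then perp p (images H B p) else consts (Fin n) p)) := by
  have : Fact p.Prime := ⟨hp⟩
  have h := hD p
  unfold spF at h
  by_cases hpq : p = q
  · rw [if_pos hpq] at h
    simp only [if_pos hpq]
    exact special_iff hFWD hBWD hp hH G a b ha hb h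
  · rw [if_neg hpq] at h
    simp only [if_neg hpq]
    exact FI2M.const_iff hDUA hFWD hBWD hp hH G h

/-- the last step -/
lemma last (hTWN : SpecTWN) (hTWF : SpecTWF) {X D : Type} [Finite X] [Fintype D]
    {H : Subgroup (Perm D)} {M : ∀ p : ℕ, Submodule (ZMod p) (D → ZMod p)} (hH : TwoTransitive H)
    (G : Subgroup (Perm X)) (key : ∀ p : ℕ, p.Prime → (HasSuborbit G H p ↔
      ((∃ f ∈ M p, ∑ x, f x ≠ 0) ∧ IsAff G H p (M p)))) :
    (∃ (N : Subgroup G) (α : X) (S : Set X), RegularSocle G N ∧ α ∉ S ∧ ActsAs G α S H) ↔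
      (∃ p : ℕ, p.Prime ∧ (∃ f ∈ M p, ∑ x, f x ≠ 0) ∧ IsAff G H p (M p)) ∨ IsTW G H := by
  constructor
  · rintro ⟨N, α, S, hN, hα, hS⟩
    by_cases hab : ∀ a ∈ N, ∀ b ∈ N, a * b = b * a
    · left
      obtain ⟨p, hp, hm⟩ := FI2M.card_of_abelian G N hN hab
      exact ⟨p, hp, (key p hp).1 ⟨hm, N, α, S, hN, hα, hS⟩⟩
    · right
      push Not at hab
      exact hTWF X D G H hH ⟨N, α, S, hN, hab, hα, hS⟩
  · rintro (⟨p, hp, h⟩ | h)
    · obtain ⟨-, N, α, S, h1, h2, h3⟩ := (key p hp).2 h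
      exact ⟨N, α, S, h1, h2, h3⟩
    · obtain ⟨N, α, S, h1, -, h2, h3⟩ := hTWN X D G H hH h
      exact ⟨N, α, S, h1, h2, h3⟩

end FI3M

open FI3M in
theorem specFI3 (hDUA : SpecDUA) (hFWD : SpecFWD) (hBWD : SpecBWD) (hTWN : SpecTWN)
    (hTWF : SpecTWF) (hFI2 : SpecFI2) (hL11 : SpecL11) (hM11 : SpecM11) (hA7 : SpecA7)
    (hM22 : SpecM22) (hM23 : SpecM23) (hHS : SpecHS) (hCO3 : SpecCO3) : SpecFI3 := by
  intro X D _ _ H M h2 hM G
  cases hM with
  | family h => exact hFI2 X D H M h2 h G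
  | sporadic h =>
    refine last hTWN hTWF h2 G ?_
    cases h with
    | psl211 _ hg =>
      exact fun p hp => sp_iff hDUA hFWD hBWD h2 G 0 1 (by decide) (by decide)
        (fun p _ => hL11 _ p h2 hg) p hp
    | mathieu11 _ hg =>
      exact fun p hp => FI2M.const_iff hDUA hFWD hBWD hp h2 G
        (by have : Fact p.Prime := ⟨hp⟩; exact hM11 _ p h2 hg)
    | alt7 _ hg =>
      exact fun p hp => sp_iff hDUA hFWD hBWD h2 G 0 2 (by decide) (by decide)
        (fun p _ => hA7 _ p h2 hg) p hp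
    | mathieu22 _ hg =>
      exact fun p hp => sp_iff hDUA hFWD hBWD h2 G 0 1 (by decide) (by decide)
        (fun p _ => hM22 _ p h2 hg) p hp
    | mathieu23 _ hg =>
      exact fun p hp => sp_iff hDUA hFWD hBWD h2 G 0 5 (by decide) (by decide)
        (fun p _ => hM23 _ p h2 hg) p hp
    | higmanSims _ hg =>
      exact fun p hp => sp_iff hDUA hFWD hBWD h2 G 0 1 (by decide) (by decide +kernel)
        (fun p _ => hHS _ p h2 hg) p hp
    | conway3 _ hg =>
      exact fun p hp => sp_iff hDUA hFWD hBWD h2 G 0 1 (by decide) (by decide +kernel)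
        (fun p _ => hCO3 _ p h2 hg) p hp

end Pool.Agent.Lib.MP_79a223_al.FM
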