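import Pool.Agent.Lib.MP_79a223_al.FM.Spec
import Pool.Agent.Lib.MP_79a223_al.Core

/-!
# Module FWD: from the group to the quotient of the permutation module
-/

open Equiv

namespace Pool.Agent.Lib.MP_79a223_al.FM

theorem specFWD (hLIN : SpecLIN) : SpecFWD := by
  classical
  intro X D _ _ p _ G H F h2 hFinv hFne hD hSub
  obtain ⟨⟨mm, hmm⟩, N, α, S, hN, hαS, ι, hι1, hι2⟩ := hSub
  obtain ⟨hprim, hNn, hNne, -, hreg⟩ := hN
  obtain ⟨⟨d0, d1, hd01⟩, h2t⟩ := h2
  have hntX : Nontrivial X := ⟨(ι d0 : X), (ι d1 : X), fun h => hd01 (ι.injective (Subtype.ext h))⟩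
  set K := MulAction.stabilizer G α with hK
  have hKmem : ∀ g : G, g ∈ K ↔ (g : Perm X) α = α := fun g => Iff.rfl
  let iA : MulDistribMulAction K N :=
    MulDistribMulAction.compHom N ((MulAut.conjNormal : G →* MulAut N).comp K.subtype)
  have hsm : ∀ (k : K) (n : N), (((k • n : N) : G) : Perm X) = (k : G) * (n : G) * ((k : G) : Perm X)⁻¹ := by
    intro k n
    rfl
  have hsmG : ∀ (k : K) (n : N), ((k • n : N) : G) = k * n * (k : G)⁻¹ := fun k n => rfl
  have hki : ∀ k : K, ((k : G) : Perm X)⁻¹ α = α := by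
    intro k
    rw [Perm.inv_eq_iff_eq]
    exact ((hKmem _).1 k.2).symm
  have hsmα : ∀ (k : K) (n : N), ((k • n : N) : G).1 α = (k : G).1 ((n : G).1 α) := by
    intro k n
    rw [hsm, Perm.mul_apply, Perm.mul_apply, hki]
  have huniq : ∀ m n : N, (m : G).1 α = (n : G).1 α → m = n := by
    intro m n hmn
    obtain ⟨c, -, hc⟩ := hreg α ((n : G).1 α)
    exact Subtype.ext ((hc m ⟨m.2, hmn⟩).trans (hc n ⟨n.2, rfl⟩).symm)
  have hex : ∀ y, ∃ n : N, (n : G).1 α = y := by
    intro y
    obtain ⟨c, ⟨hc1, hc2⟩, -⟩ := hreg α y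
    exact ⟨⟨c, hc1⟩, hc2⟩
  let β : N ≃ X := Equiv.ofBijective (fun n => (n : G).1 α) ⟨fun m n h => huniq m n h, hex⟩
  have hβ : ∀ n, β n = (n : G).1 α := fun n => rfl
  -- decomposition
  have hdec : ∀ g : G, ∃ (n : N) (k : K), g = n * k := by
    intro g
    obtain ⟨n, hn⟩ := hex (g.1 α)
    refine ⟨n, ⟨(n : G)⁻¹ * g, ?_⟩, by simp⟩
    rw [hKmem, Subgroup.coe_mul, Perm.mul_apply, ← hn, Subgroup.coe_inv, pinv]
  have hirr : ∀ M : Subgroup N, (∀ k : K, ∀ m ∈ M, k • m ∈ M) → M = ⊥ ∨ M = ⊤ := by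
    intro M hM
    let L : Subgroup G :=
      { carrier := {g | ∃ m ∈ M, ∃ k : K, g = m * k}
        mul_mem' := by
          rintro _ _ ⟨m, hm, k, rfl⟩ ⟨m', hm', k', rfl⟩
          refine ⟨m * k • m', M.mul_mem hm (hM _ _ hm'), k * k', ?_⟩
          rw [Subgroup.coe_mul, hsmG, Subgroup.coe_mul]
          group
        one_mem' := ⟨1, M.one_mem, 1, by simp⟩
        inv_mem' := by
          rintro _ ⟨m, hm, k, rfl⟩
          refine ⟨k⁻¹ • m⁻¹, hM _ _ (M.inv_mem hm), k⁻¹, ?_⟩
          rw [hsmG, Subgroup.coe_inv, Subgroup.coe_inv]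
          group }
    have hLmem : ∀ g, g ∈ L ↔ ∃ m ∈ M, ∃ k : K, g = m * k := fun g => Iff.rfl
    have hKL : K ≤ L := by
      intro k hk
      exact ⟨1, M.one_mem, ⟨k, hk⟩, by simp⟩
    have hcoat : IsCoatom K := MulAction.IsPreprimitive.isCoatom_stabilizer_of_isPreprimitive G α
    rcases hcoat.le_iff.1 hKL with h | h
    · right
      rw [eq_top_iff]
      intro n _
      have : (n : G) ∈ L := by rw [h]; exact Subgroup.mem_top _
      obtain ⟨m, hm, k, hk⟩ := this
      have h1 : n = m := by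
        apply huniq
        rw [hk, Subgroup.coe_mul, Perm.mul_apply]
        congr 1
        exact (hKmem _).1 k.2
      rw [h1]
      exact hm
    · left
      rw [eq_bot_iff]
      intro m hm
      have : (m : G) ∈ L := ⟨m, hm, 1, by simp⟩
      rw [h, hKmem] at this
      exact Subgroup.mem_bot.2 (huniq m 1 this)
  have : Finite N := Finite.of_equiv X β.symm
  have hntN : Nontrivial N := β.nontrivial
  have hcardN : Nat.card N = p ^ mm := by
    rw [← hmm]
    exact Nat.card_congr β
  obtain ⟨hcomm, hexp⟩ := elementary hirr p (IsPGroup.of_card hcardN)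
  -- the action on `D`
  have hσex : ∀ k : K, ∃ s, s ∈ H ∧ ∀ d, (k : G).1 (ι d : X) = ι (s d) := by
    intro k
    obtain ⟨s, hs, hs'⟩ := hι1 (k : G).1 (k : G).2 ((hKmem _).1 k.2)
    exact ⟨s, hs, hs'⟩
  choose s0 hs0 hs0' using hσex
  have hsuniq : ∀ (k : K) (s : Perm D), (∀ d, (k : G).1 (ι d : X) = ι (s d)) → s0 k = s := by
    intro k s hs
    ext d
    apply ι.injective
    apply Subtype.ext
    rw [← hs0', ← hs]
  let σ : K →* Perm D :=
    { toFun := s0
      map_one' := hsuniq 1 1 (fun d => rfl)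
      map_mul' := by
        intro k k'
        apply hsuniq
        intro d
        rw [Perm.mul_apply, ← hs0', ← hs0']
        rfl }
  have hσ : ∀ (k : K) d, (k : G).1 (ι d : X) = ι (σ k d) := hs0'
  have hσr : σ.range = H := by
    ext s
    constructor
    · rintro ⟨k, rfl⟩
      exact hs0 k
    · intro hs
      obtain ⟨g, hg, hgα, hgd⟩ := hι2 s hs
      exact ⟨⟨⟨g, hg⟩, hgα⟩, hsuniq _ _ hgd⟩
  -- generation
  let ιN : D → N := fun d => β.symm (ι d : X)
  have hιN : ∀ d, ((ιN d : N) : G).1 α = (ι d : X) := fun d => β.apply_symm_apply _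
  have hιNs : ∀ (k : K) d, k • ιN d = ιN (σ k d) := by
    intro k d
    apply huniq
    rw [hsmα, hιN, hιN, hσ]
  have hcl : Subgroup.closure (Set.range ιN) = ⊤ := by
    rcases hirr (Subgroup.closure (Set.range ιN)) (by
      intro h m hm
      have h3 : (Subgroup.closure (Set.range ιN)) ≤
          (Subgroup.closure (Set.range ιN)).comap (MulDistribMulAction.toMonoidHom N h) := by
        rw [Subgroup.closure_le]
        rintro _ ⟨d, rfl⟩
        exact Subgroup.subset_closure ⟨σ h d, (hιNs h d).symm⟩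
      exact h3 hm) with h | h
    · exfalso
      have h4 : ιN d0 ∈ Subgroup.closure (Set.range ιN) := Subgroup.subset_closure ⟨d0, rfl⟩
      rw [h, Subgroup.mem_bot] at h4
      have h5 := hιN d0
      rw [h4] at h5
      apply hαS
      have h6 : (ι d0 : X) = α := h5.symm
      rw [← h6]
      exact (ι d0).2
    · exact h
  -- linear algebra
  let iC : AddCommGroup (Additive N) :=
    { (inferInstance : AddGroup (Additive N)) with
      add_comm := fun a b => congrArg Additive.ofMul (hcomm a.toMul b.toMul) }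
  let L : K → (Additive N →+ Additive N) := fun h =>
    { toFun := fun v => Additive.ofMul (h • v.toMul)
      map_zero' := congrArg Additive.ofMul (smul_one h)
      map_add' := fun a b => congrArg Additive.ofMul (smul_mul' h a.toMul b.toMul) }
  let ιA : D → Additive N := fun d => Additive.ofMul (ιN d)
  have hιA : Function.Injective ιA := fun a b hab =>
    ι.injective (Subtype.ext (β.symm.injective (Additive.ofMul.injective hab)))
  have hgen : AddSubgroup.closure (Set.range ιA) = ⊤ := by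
    rw [eq_top_iff]
    intro v _
    have h4 : v.toMul ∈ Subgroup.closure (Set.range ιN) := by rw [hcl]; exact Subgroup.mem_top _
    have h5 : ∀ n ∈ Subgroup.closure (Set.range ιN),
        Additive.ofMul n ∈ AddSubgroup.closure (Set.range ιA) := by
      intro n hn
      induction hn using Subgroup.closure_induction with
      | mem x hx =>
        obtain ⟨d, rfl⟩ := hx
        exact AddSubgroup.subset_closure ⟨d, rfl⟩
      | one => exact AddSubgroup.zero_mem _
      | mul x y _ _ hx hy => exact AddSubgroup.add_mem _ hx hy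
      | inv x _ hx => exact AddSubgroup.neg_mem _ hx
    exact h5 _ h4
  have hirrA : ∀ W : AddSubgroup (Additive N), (∀ h, ∀ w ∈ W, L h w ∈ W) → W = ⊥ ∨ W = ⊤ := by
    intro W hW
    let M : Subgroup N :=
      { carrier := {n | Additive.ofMul n ∈ W}
        mul_mem' := fun {a b} ha hb => W.add_mem ha hb
        one_mem' := W.zero_mem
        inv_mem' := fun {a} ha => W.neg_mem ha }
    rcases hirr M (fun h m hm => hW h _ hm) with h | h
    · left
      rw [eq_bot_iff]
      intro v hv
      have h8 : v.toMul ∈ M := hv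
      rw [h, Subgroup.mem_bot] at h8
      exact AddSubgroup.mem_bot.2 (congrArg Additive.ofMul h8)
    · right
      rw [eq_top_iff]
      intro v _
      have h8 : v.toMul ∈ M := by rw [h]; exact Subgroup.mem_top _
      exact h8
  obtain ⟨hf0, ε, hε1, hε2⟩ := hLIN K (Additive N) D p σ ιA L F
    (fun v => congrArg Additive.ofMul (hexp v.toMul)) hιA
    (fun h d => congrArg Additive.ofMul (hιNs h d)) hgen hirrA ⟨d0, d1, hd01⟩
    (by rw [hσr]; exact hFinv) hFne (by rw [hσr]; exact hD)
  refine ⟨hf0, ?_⟩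
  let ε' : N ≃ (D → ZMod p) ⧸ perp p F := Additive.ofMul.trans ε
  have hε1' : ∀ m n : N, ε' (m * n) = ε' m + ε' n := fun m n => hε1 _ _
  have hε2' : ∀ (h : K) (n : N) (f : D → ZMod p), ε' n = Submodule.Quotient.mk f →
      ε' (h • n) = Submodule.Quotient.mk (rho p (σ h) f) := fun h n f hf => hε2 h _ f hf
  have hcomp : ∀ (n : N) (k : K) (x : X) (f : D → ZMod p),
      (β.symm.trans ε') x = Submodule.Quotient.mk f →
      (β.symm.trans ε') (((n : G).1 * (k : G).1) x) =
        Submodule.Quotient.mk (rho p (σ k) f) + ε' n := by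
    intro n k x f hf
    obtain ⟨m, rfl⟩ := β.surjective x
    have h1 : ((n : G).1 * (k : G).1) (β m) = β (n * k • m) := by
      rw [hβ, hβ, Subgroup.coe_mul, Subgroup.coe_mul, Perm.mul_apply, Perm.mul_apply, hsmα]
    rw [Equiv.trans_apply, Equiv.symm_apply_apply] at hf
    rw [h1, Equiv.trans_apply, Equiv.symm_apply_apply, hε1', hε2' k m f hf, add_comm]
  refine ⟨β.symm.trans ε', ?_⟩
  intro g
  constructor
  · intro hg
    obtain ⟨n, k, hnk⟩ := hdec ⟨g, hg⟩
    have hg' : g = (n : G).1 * (k : G).1 := congrArg Subtype.val hnk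
    exact ⟨σ k, hs0 k, ε' n, fun x f hf => by rw [hg', hcomp n k x f hf]⟩
  · rintro ⟨s, hs, w, hw⟩
    rw [← hσr] at hs
    obtain ⟨k, rfl⟩ := hs
    have hg' : g = (ε'.symm w : G).1 * (k : G).1 := by
      ext x
      apply (β.symm.trans ε').injective
      obtain ⟨f, hf⟩ := Submodule.Quotient.mk_surjective _ ((β.symm.trans ε') x)
      rw [hw x f hf.symm, hcomp _ k x f hf.symm, Equiv.apply_symm_apply]
    rw [hg']
    exact G.mul_mem (Subtype.prop _) (Subtype.prop _)

end Pool.Agent.Lib.MP_79a223_al.FM
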