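import Pool.Agent.Lib.MP_79a223_al.FM.SpecU

/-!
# MP_79a223_al : module HEC (averaging over a subgroup of a point stabiliser)
-/

set_option autoImplicit false

open Equiv

namespace Pool.Agent.Lib.MP_79a223_al.FM

namespace HECM

lemma cnt_eq (n : ℕ) (f : ℕ → Bool) :
    cnt n f = (Finset.univ.filter (fun z : Fin n => f z = true)).card := by
  rw [Finset.card_filter, ← Finset.sum_range (fun i => if f i = true then 1 else 0)]
  induction n with
  | zero => rfl
  | succ k ih =>
    rw [Finset.sum_range_succ, ← ih]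
    show (bif f k then cnt k f + 1 else cnt k f) = _
    cases f k <;> simp

variable {n p : ℕ}

/-- the colour class -/
def cls (col : ℕ → ℕ) (n i : ℕ) : Finset (Fin n) := Finset.univ.filter (fun z => col z = i)

lemma cnt_cls (col : ℕ → ℕ) (n i : ℕ) : cnt n (fun z => col z == i) = (cls col n i).card := by
  rw [cnt_eq, cls]
  congr 1
  ext z
  simp

lemma cnt_cls2 (col f : ℕ → ℕ) (n i j : ℕ) : cnt n (fun z => col z == i && col (f z) == j) =
    ((cls col n i).filter (fun z : Fin n => col (f z) = j)).card := by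
  rw [cnt_eq, cls]
  congr 1
  ext z
  simp

lemma comp_mem {H : Subgroup (Perm (Fin n))} {C : Submodule (ZMod p) (Fin n → ZMod p)}
    (hC : Inv H p C) {s : Perm (Fin n)} (hs : s ∈ H) {c : Fin n → ZMod p} (hc : c ∈ C) :
    (fun x => c (s x)) ∈ C := by
  have h := hC s⁻¹ (H.inv_mem hs) c hc
  have e : rho p s⁻¹ c = fun x => c (s x) := by
    funext x
    simp [rho, LinearMap.funLeft_apply]
  rwa [e] at h

noncomputable local instance fintypeSub (A : Subgroup (Perm (Fin n))) : Fintype A :=
  Fintype.ofFinite A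

/-- the sum over the translates -/
noncomputable def avg (A : Subgroup (Perm (Fin n))) (c : Fin n → ZMod p) : Fin n → ZMod p :=
  ∑ a : A, fun x => c ((a : Perm (Fin n)) x)

lemma avg_apply (A : Subgroup (Perm (Fin n))) (c : Fin n → ZMod p) (x : Fin n) :
    avg A c x = ∑ a : A, c ((a : Perm (Fin n)) x) := by
  rw [avg, Finset.sum_apply]

lemma avg_mem {H A : Subgroup (Perm (Fin n))} (hA : A ≤ H)
    {C : Submodule (ZMod p) (Fin n → ZMod p)} (hC : Inv H p C) {c : Fin n → ZMod p}
    (hc : c ∈ C) : avg A c ∈ C := by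
  rw [avg]
  exact Submodule.sum_mem _ fun a _ => comp_mem hC (hA a.2) hc

lemma avg_smul (A : Subgroup (Perm (Fin n))) (c : Fin n → ZMod p) {b : Perm (Fin n)}
    (hb : b ∈ A) (x : Fin n) : avg A c (b x) = avg A c x := by
  rw [avg_apply, avg_apply]
  exact Fintype.sum_equiv (Equiv.mulRight (⟨b, hb⟩ : A)) _ _ (fun a => rfl)

lemma key {A : Subgroup (Perm (Fin n))} {col : ℕ → ℕ}
    (h1 : ∀ s ∈ A, ∀ i : Fin n, col (s i) = col i)
    (h2 : ∀ i j : Fin n, col i = col j → ∃ s ∈ A, s i = j) (c : Fin n → ZMod p) (x : Fin n) :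
    ((cls col n (col x)).card : ZMod p) * avg A c x =
      (Nat.card A : ZMod p) * ∑ z ∈ cls col n (col x), c z := by
  classical
  have e1 : ∑ z ∈ cls col n (col x), avg A c z =
      ((cls col n (col x)).card : ZMod p) * avg A c x := by
    rw [← nsmul_eq_mul, ← Finset.sum_const]
    apply Finset.sum_congr rfl
    intro z hz
    rw [cls, Finset.mem_filter] at hz
    obtain ⟨s, hs, hsz⟩ := h2 x z hz.2.symm
    rw [← hsz, avg_smul A c hs]
  rw [← e1]
  simp only [avg_apply]
  rw [Finset.sum_comm]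
  have e2 : ∀ a : A, ∑ z ∈ cls col n (col x), c ((a : Perm (Fin n)) z) =
      ∑ z ∈ cls col n (col x), c z := by
    intro a
    apply Finset.sum_nbij' (fun z => (a : Perm (Fin n)) z) (fun z => (a : Perm (Fin n))⁻¹ z)
    · intro z hz
      rw [cls, Finset.mem_filter] at hz ⊢
      exact ⟨Finset.mem_univ _, by rw [h1 a a.2, hz.2]⟩
    · intro z hz
      rw [cls, Finset.mem_filter] at hz ⊢
      exact ⟨Finset.mem_univ _, by rw [h1 _ (A.inv_mem a.2), hz.2]⟩
    · intro z _
      simp
    · intro z _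
      simp
    · intro z _
      rfl
  rw [Finset.sum_congr rfl (fun a _ => e2 a), Finset.sum_const, nsmul_eq_mul, Finset.card_univ,
    Nat.card_eq_fintype_card]

/-- the vector of the class means -/
noncomputable def mean (col : ℕ → ℕ) (c : Fin n → ZMod p) : ℕ → ZMod p :=
  fun i => ((cls col n i).card : ZMod p)⁻¹ * ∑ z ∈ cls col n i, c z

lemma mean_mem [Fact p.Prime] {H A : Subgroup (Perm (Fin n))} (hA : A ≤ H) {col : ℕ → ℕ} {r : ℕ}
    (hp : ¬ p ∣ Nat.card A)
    (h1 : ∀ s ∈ A, ∀ i : Fin n, col (s i) = col i)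
    (h2 : ∀ i j : Fin n, col i = col j → ∃ s ∈ A, s i = j) (hr : ∀ i : Fin n, col i < r)
    (hn : ∀ i < r, ((cls col n i).card : ZMod p) ≠ 0)
    {C : Submodule (ZMod p) (Fin n → ZMod p)} (hC : Inv H p C) {c : Fin n → ZMod p}
    (hc : c ∈ C) : (fun x : Fin n => mean col c (col x)) ∈ C := by
  have hA0 : (Nat.card A : ZMod p) ≠ 0 := by
    rwa [Ne, ZMod.natCast_eq_zero_iff]
  have e : (fun x : Fin n => mean col c (col x)) = (Nat.card A : ZMod p)⁻¹ • avg A c := by
    funext x
    have h0 := hn _ (hr x)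
    have hk := key h1 h2 c x
    rw [Pi.smul_apply, smul_eq_mul, mean]
    rw [inv_mul_eq_iff_eq_mul₀ h0, ← mul_assoc, mul_comm _ (Nat.card A : ZMod p)⁻¹, mul_assoc, hk,
      ← mul_assoc, inv_mul_cancel₀ hA0, one_mul]
  rw [e]
  exact C.smul_mem _ (avg_mem hA hC hc)

end HECM

open HECM in
theorem specHEC : SpecHEC := by
  intro n r p _ H A col δ hH hA hp h1 h2 hr h0 hn C hCne hC
  have hn' : ∀ i < r, ((cls col n i).card : ZMod p) ≠ 0 := by
    intro i hi
    rw [Ne, ZMod.natCast_eq_zero_iff, ← cnt_cls]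
    exact hn i hi
  refine ⟨C.comap (LinearMap.funLeft (ZMod p) (ZMod p) (fun x : Fin n => col x)),
    fun α => Iff.rfl, ?_, ?_⟩
  · obtain ⟨c, hc, hc0⟩ := Submodule.exists_mem_ne_zero_of_ne_bot hCne
    obtain ⟨x, hx⟩ : ∃ x, c x ≠ 0 := by
      by_contra hcon
      push Not at hcon
      exact hc0 (funext hcon)
    have hne : ∀ u : Fin n, ∃ v : Fin n, u ≠ v := by
      intro u
      obtain ⟨a, b, hab⟩ := hH.1
      by_cases hua : u = a
      · exact ⟨b, by rw [hua]; exact hab⟩
      · exact ⟨a, hua⟩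
    obtain ⟨y, hy⟩ := hne δ
    obtain ⟨y', hy'⟩ := hne x
    obtain ⟨s, hs, hsx, -⟩ := hH.2 δ y x y' hy hy'
    refine ⟨mean col (fun x => c (s x)), mean_mem hA hp h1 h2 hr hn' hC (comp_mem hC hs hc), ?_⟩
    have hcl : cls col n 0 = {δ} := by
      ext z
      rw [cls, Finset.mem_filter, Finset.mem_singleton, ← h0 z]
      simp
    rw [mean, hcl]
    simp [hsx, hx]
  · intro g hg f hf M hM α hα
    have hm := mean_mem hA hp h1 h2 hr hn' hC (comp_mem hC hg hα)
    have e : (fun x : Fin n => ∑ j ∈ Finset.range r, (M (col x) j : ZMod p) * α j) =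
        (fun x : Fin n => mean col (fun z => (LinearMap.funLeft (ZMod p) (ZMod p)
          (fun x : Fin n => col x)) α (g z)) (col x)) := by
      funext x
      have h3 := hn' _ (hr x)
      rw [mean, eq_comm, inv_mul_eq_iff_eq_mul₀ h3, Finset.mul_sum]
      have e3 : ∀ j ∈ Finset.range r, ((cls col n (col x)).card : ZMod p) *
          ((M (col x) j : ZMod p) * α j) =
          ∑ z ∈ (cls col n (col x)).filter (fun z : Fin n => col (f z) = j), α (col (g z)) := by
        intro j hj
        have h4 := hM (col x) (hr x) j (Finset.mem_range.1 hj)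
        rw [cnt_cls, cnt_cls2] at h4
        have h5 : (((cls col n (col x)).card * M (col x) j : ℕ) : ZMod p) =
            (((cls col n (col x)).filter (fun z : Fin n => col (f z) = j)).card : ZMod p) :=
          (ZMod.natCast_eq_natCast_iff' _ _ _).2 h4
        rw [← mul_assoc, ← Nat.cast_mul, h5, ← nsmul_eq_mul, ← Finset.sum_const]
        apply Finset.sum_congr rfl
        intro z hz
        rw [hf z, (Finset.mem_filter.1 hz).2]
      rw [Finset.sum_congr rfl e3]
      rw [Finset.sum_fiberwise_of_maps_to]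
      · rfl
      · intro z _
        rw [← hf z]
        exact Finset.mem_range.2 (hr _)
    show (fun x : Fin n => ∑ j ∈ Finset.range r, (M (col x) j : ZMod p) * α j) ∈ C
    rw [e]
    exact hm

end Pool.Agent.Lib.MP_79a223_al.FM
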