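import Pool.Agent.Lib.MP_79a223_al.FM.SpecT

set_option autoImplicit false
set_option linter.unusedSectionVars false

open Equiv

namespace Pool.Agent.Lib.MP_79a223_al.FM

namespace INNM

section

variable {H T : Type} [Group H] [Group T] {Q : Subgroup H} {φ : Q →* MulAut T}

theorem tr_mem {f : H → T} (hf : f ∈ twBase Q φ) (s : H) : tr s f ∈ twBase Q φ := by
  intro h q
  change f (s⁻¹ * (h * q)) = (φ q)⁻¹ (f (s⁻¹ * h))
  rw [← mul_assoc]
  exact hf (s⁻¹ * h) q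

theorem at_mem {f : H → T} (hf : f ∈ twBase Q φ) (q : Q) : f (q : H) = (φ q)⁻¹ (f 1) := by
  have h := hf 1 q
  rwa [one_mul] at h

theorem tr_tr (s t : H) (f : H → T) : tr s (tr t f) = tr (s * t) f := by
  funext x
  change f (t⁻¹ * (s⁻¹ * x)) = f ((s * t)⁻¹ * x)
  rw [mul_inv_rev, mul_assoc]

theorem tr_one (f : H → T) : tr (1 : H) f = f := by
  funext x
  change f (1⁻¹ * x) = f x
  rw [inv_one, one_mul]

theorem tr_conj (g : H) (w f : H → T) : tr g (w * f * w⁻¹) = tr g w * tr g f * (tr g w)⁻¹ := rfl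

/-- the conjugation by `w` is the action of `s` -/
def Inn (Q : Subgroup H) (φ : Q →* MulAut T) (s : H) (w : H → T) : Prop :=
  ∀ f ∈ twBase Q φ, tr s f = w * f * w⁻¹

theorem inn_conj {s : H} {w : H → T} (h : Inn Q φ s w) (g : H) :
    Inn Q φ (g * s * g⁻¹) (tr g w) := by
  intro f hf
  rw [← tr_tr, ← tr_tr, h _ (tr_mem hf g⁻¹), tr_conj, tr_tr, mul_inv_cancel, tr_one]

/-- the elements of the base group whose conjugation is the action of an element of `H` -/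
def W (Q : Subgroup H) (φ : Q →* MulAut T) : Subgroup (H → T) where
  carrier := {w | w ∈ twBase Q φ ∧ ∃ s : H, Inn Q φ s w}
  mul_mem' := by
    rintro w w' ⟨hw, s, hs⟩ ⟨hw', s', hs'⟩
    refine ⟨(twBase Q φ).mul_mem hw hw', s * s', fun f hf => ?_⟩
    rw [← tr_tr, hs _ (tr_mem hf s'), hs' f hf]
    group
  one_mem' := ⟨(twBase Q φ).one_mem, 1, fun f _ => by rw [tr_one]; group⟩
  inv_mem' := by
    rintro w ⟨hw, s, hs⟩
    refine ⟨(twBase Q φ).inv_mem hw, s⁻¹, fun f hf => ?_⟩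
    have h := hs _ (tr_mem hf s⁻¹)
    rw [tr_tr, mul_inv_cancel, tr_one] at h
    calc tr s⁻¹ f = w⁻¹ * (w * tr s⁻¹ f * w⁻¹) * w⁻¹⁻¹ := by group
      _ = w⁻¹ * f * w⁻¹⁻¹ := by rw [← h]

theorem mem_W {w : H → T} : w ∈ W Q φ ↔ w ∈ twBase Q φ ∧ ∃ s : H, Inn Q φ s w := Iff.rfl

theorem W_le : W Q φ ≤ twBase Q φ := fun _ hw => hw.1

theorem W_inv (g : H) (w : H → T) (hw : w ∈ W Q φ) : tr g w ∈ W Q φ := by
  obtain ⟨h1, s, hs⟩ := hw
  exact ⟨tr_mem h1 g, g * s * g⁻¹, inn_conj hs g⟩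

open Classical in
/-- the element of the base group with support in `Q` and value `t` at `1` -/
noncomputable def bump (Q : Subgroup H) (φ : Q →* MulAut T) (t : T) : H → T :=
  fun x => if hx : x ∈ Q then (φ ⟨x, hx⟩)⁻¹ t else 1

theorem bump_off (t : T) {x : H} (hx : x ∉ Q) : bump Q φ t x = 1 := dif_neg hx

theorem bump_one (t : T) : bump Q φ t 1 = t := by
  unfold bump
  rw [dif_pos Q.one_mem]
  have h : (⟨1, Q.one_mem⟩ : Q) = 1 := rfl
  rw [h, map_one, inv_one]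
  rfl

theorem bump_mem (t : T) : bump Q φ t ∈ twBase Q φ := by
  intro h q
  by_cases hh : h ∈ Q
  · have hq : h * q ∈ Q := Q.mul_mem hh q.2
    unfold bump
    rw [dif_pos hq, dif_pos hh]
    have e : (⟨h * q, hq⟩ : Q) = ⟨h, hh⟩ * q := rfl
    rw [e, map_mul, mul_inv_rev]
    rfl
  · have hq : h * q ∉ Q := fun hc => hh ((Subgroup.mul_mem_cancel_right Q q.2).1 hc)
    rw [bump_off t hq, bump_off t hh, map_one]

/-- where the conjugate of `n` by `w` differs from `n` -/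
def dif (f g : H → T) : Set H := {x | f x ≠ g x}

theorem dif_tr [Finite H] (s : H) (f g : H → T) :
    (dif (tr s f) (tr s g)).ncard = (dif f g).ncard := by
  have h : dif (tr s f) (tr s g) = (fun x => s * x) '' dif f g := by
    ext x
    constructor
    · intro hx
      exact ⟨s⁻¹ * x, hx, mul_inv_cancel_left s x⟩
    · rintro ⟨y, hy, rfl⟩
      change f (s⁻¹ * (s * y)) ≠ g (s⁻¹ * (s * y))
      rw [inv_mul_cancel_left]
      exact hy
  rw [h]
  exact Set.ncard_image_of_injective _ (mul_right_injective s)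

theorem Q_sub {n w : H → T} (hn : n ∈ twBase Q φ) (hw : w ∈ twBase Q φ)
    (h : w 1 * n 1 ≠ n 1 * w 1) : (Q : Set H) ⊆ dif (w * n * w⁻¹) n := by
  intro y hy hc
  apply h
  have e1 := at_mem hn ⟨y, hy⟩
  have e2 := at_mem hw ⟨y, hy⟩
  change n y = _ at e1
  change w y = _ at e2
  change w y * n y * (w y)⁻¹ = n y at hc
  rw [mul_inv_eq_iff_eq_mul, e1, e2, ← map_mul, ← map_mul] at hc
  exact ((φ ⟨y, hy⟩)⁻¹).injective hc

theorem centre (hs : IsSimpleGroup T) (hab : ∃ a b : T, a * b ≠ b * a) {t : T} (ht : t ≠ 1) :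
    ∃ u : T, u * t ≠ t * u := by
  by_contra hcon
  push Not at hcon
  have hc : t ∈ Subgroup.center T := by
    rw [Subgroup.mem_center_iff]
    exact hcon
  rcases (inferInstance : (Subgroup.center T).Normal).eq_bot_or_eq_top with h | h
  · rw [h, Subgroup.mem_bot] at hc
    exact ht hc
  · obtain ⟨a, b, hab⟩ := hab
    have hb : b ∈ Subgroup.center T := by rw [h]; trivial
    exact hab (Subgroup.mem_center_iff.1 hb a)

end

section

variable {D T : Type} [Group T] {H : Subgroup (Perm D)} {Q : Subgroup H} {φ : Q →* MulAut T}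

theorem of_one {ν : D → H → T} (hν : ∀ d, ν d ∈ twBase Q φ)
    (heq : ∀ (s : H) (d : D), ν ((s : Perm D) d) = tr s (ν d)) (hinj : Function.Injective ν)
    {s : H} {w : H → T} (hw : w = 1) (h : Inn Q φ s w) : s = 1 := by
  apply Subtype.ext
  ext d
  apply hinj
  rw [heq, h _ (hν d), hw, one_mul, inv_one, mul_one]
  rfl

theorem case_top {ν : D → H → T} (hT : TwPrim Q φ) (hν : ∀ d, ν d ∈ twBase Q φ)
    (heq : ∀ (s : H) (d : D), ν ((s : Perm D) d) = tr s (ν d)) (hinj : Function.Injective ν)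
    (hQ : Q = ⊤) {s : H} {w : H → T} (hwB : w ∈ twBase Q φ) (h : Inn Q φ s w) : s = 1 := by
  have hin := hT.inner.resolve_left (fun hc => hc hQ)
  have hall : ∀ x : H, x ∈ Q := fun x => by rw [hQ]; trivial
  have hw1 : w 1 = 1 := by
    apply hin ⟨s, hall s⟩
    intro u
    have h1 := congrFun (h _ (bump_mem u)) 1
    change bump Q φ u (s⁻¹ * 1) = w 1 * bump Q φ u 1 * (w 1)⁻¹ at h1
    rw [bump_one, mul_one] at h1
    rw [← h1]
    have h2 := at_mem (bump_mem (φ := φ) u) (⟨s, hall s⟩ : Q)⁻¹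
    rw [Subgroup.coe_inv, bump_one, map_inv, inv_inv] at h2
    exact h2.symm
  apply of_one hν heq hinj _ h
  funext x
  have h3 := at_mem hwB ⟨x, hall x⟩
  rw [hw1, map_one] at h3
  exact h3

/-- for all `d ≠ d'` some inner `j` maps `d` to `d'` -/
theorem move (h2 : TwoTransitive H) (hab : ∃ a b : T, a * b ≠ b * a)
    (hW : W Q φ = twBase Q φ) {d d' : D} (hd : d ≠ d') :
    ∃ (j : H) (w : H → T), Inn Q φ j w ∧ (j : Perm D) d = d' := by
  obtain ⟨a, b, hab⟩ := hab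
  have ha : bump Q φ a ∈ W Q φ := by rw [hW]; exact bump_mem a
  obtain ⟨-, s, hs⟩ := ha
  have hs1 : s ≠ 1 := by
    intro hs1
    have h := congrFun (hs _ (bump_mem b)) 1
    rw [hs1, tr_one] at h
    change bump Q φ b 1 = bump Q φ a 1 * bump Q φ b 1 * (bump Q φ a 1)⁻¹ at h
    rw [bump_one, bump_one, eq_mul_inv_iff_mul_eq] at h
    exact hab h.symm
  have hc : ∃ c : D, (s : Perm D) c ≠ c := by
    by_contra hcon
    push Not at hcon
    apply hs1
    apply Subtype.ext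
    ext c
    exact hcon c
  obtain ⟨c, hc⟩ := hc
  obtain ⟨g, hg, hg1, hg2⟩ := h2.2 c ((s : Perm D) c) d d' (Ne.symm hc) hd
  refine ⟨⟨g, hg⟩ * s * ⟨g, hg⟩⁻¹, tr ⟨g, hg⟩ (bump Q φ a), inn_conj hs _, ?_⟩
  change g ((s : Perm D) (g⁻¹ d)) = d'
  have e : g⁻¹ d = c := by rw [← hg1]; exact Equiv.symm_apply_apply g c
  rw [e, hg2]

/-- full support -/
theorem supp {ν : D → H → T} (h2 : TwoTransitive H) (hab : ∃ a b : T, a * b ≠ b * a)
    (hν : ∀ d, ν d ∈ twBase Q φ) (heq : ∀ (s : H) (d : D), ν ((s : Perm D) d) = tr s (ν d))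
    (hne : ∀ d, ν d ≠ 1) (hW : W Q φ = twBase Q φ) (d : D) (z : H) : ν d z ≠ 1 := by
  have hy : ∃ y, ν d y ≠ 1 := by
    by_contra hcon
    push Not at hcon
    exact hne d (funext hcon)
  obtain ⟨y, hy⟩ := hy
  -- a point whose function is not `1` at `z`
  have h1 : ν (((z * y⁻¹ : H) : Perm D) d) z ≠ 1 := by
    rw [heq]
    change ν d ((z * y⁻¹)⁻¹ * z) ≠ 1
    have e : (z * y⁻¹)⁻¹ * z = y := by group
    rw [e]
    exact hy
  by_cases hd : ((z * y⁻¹ : H) : Perm D) d = d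
  · rwa [hd] at h1
  · obtain ⟨j, w, hj, hjd⟩ := move h2 hab hW hd
    intro hc
    apply h1
    rw [← hjd, heq, hj _ (hν _)] at hc
    change w z * ν _ z * (w z)⁻¹ = 1 at hc
    exact conj_eq_one_iff.1 hc

theorem const [Finite H] {ν : D → H → T} (h2 : TwoTransitive H)
    (heq : ∀ (s : H) (d : D), ν ((s : Perm D) d) = tr s (ν d)) {a b c d : D} (hab : a ≠ b)
    (hcd : c ≠ d) : (dif (ν a) (ν b)).ncard = (dif (ν c) (ν d)).ncard := by
  obtain ⟨s, hs, h1, h3⟩ := h2.2 a b c d hab hcd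
  rw [← h1, ← h3]
  have e1 := heq ⟨s, hs⟩ a
  have e2 := heq ⟨s, hs⟩ b
  change ν (s a) = _ at e1
  change ν (s b) = _ at e2
  rw [e1, e2, dif_tr]

theorem case_all [Finite H] {ν : D → H → T} (hT : TwPrim Q φ) (h2 : TwoTransitive H)
    (hν : ∀ d, ν d ∈ twBase Q φ) (heq : ∀ (s : H) (d : D), ν ((s : Perm D) d) = tr s (ν d))
    (hne : ∀ d, ν d ≠ 1) (hW : W Q φ = twBase Q φ) (hQ : Q ≠ ⊤) : False := by
  have hx : ∃ x : H, x ∉ Q := by
    by_contra hcon
    push Not at hcon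
    exact hQ ((Subgroup.eq_top_iff' Q).2 hcon)
  obtain ⟨x, hx⟩ := hx
  obtain ⟨d, -, -⟩ := h2.1
  have hn1 := supp h2 hT.nonab hν heq hne hW d 1
  have hnx := supp h2 hT.nonab hν heq hne hW d x
  obtain ⟨u, hu⟩ := centre hT.simple hT.nonab hn1
  obtain ⟨v, hv⟩ := centre hT.simple hT.nonab hnx
  -- for each `w` in the base group with `w 1` not commuting with `ν d 1`
  have key : ∀ w ∈ twBase Q φ, w 1 * ν d 1 ≠ ν d 1 * w 1 →
      ∃ d' : D, d' ≠ d ∧ ν d' = w * ν d * w⁻¹ := by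
    intro w hw hw1
    have hwW : w ∈ W Q φ := by rw [hW]; exact hw
    obtain ⟨-, s, hs⟩ := hwW
    refine ⟨(s : Perm D) d, ?_, by rw [heq, hs _ (hν d)]⟩
    intro hc
    have h1 : (1 : H) ∈ dif (w * ν d * w⁻¹) (ν d) := Q_sub (hν d) hw hw1 Q.one_mem
    apply h1
    rw [← hs _ (hν d), ← heq, hc]
  -- first `w`
  set w₁ : H → T := bump Q φ u with hw₁
  have hw₁B : w₁ ∈ twBase Q φ := bump_mem u
  have hw₁1 : w₁ 1 * ν d 1 ≠ ν d 1 * w₁ 1 := by rw [hw₁, bump_one]; exact hu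
  obtain ⟨d₁, hd₁, he₁⟩ := key w₁ hw₁B hw₁1
  have hdif₁ : dif (ν d₁) (ν d) = (Q : Set H) := by
    apply Set.Subset.antisymm
    · intro y hy
      by_contra hyQ
      apply hy
      rw [he₁]
      change w₁ y * ν d y * (w₁ y)⁻¹ = ν d y
      rw [hw₁, bump_off u hyQ, one_mul, inv_one, mul_one]
    · rw [he₁]
      exact Q_sub (hν d) hw₁B hw₁1
  -- second `w`
  have hx' : x⁻¹ ∉ Q := fun hc => hx (by simpa using Q.inv_mem hc)
  set w₂ : H → T := bump Q φ u * tr x (bump Q φ v) with hw₂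
  have hw₂B : w₂ ∈ twBase Q φ := (twBase Q φ).mul_mem (bump_mem u) (tr_mem (bump_mem v) x)
  have hw₂1 : w₂ 1 = u := by
    change bump Q φ u 1 * bump Q φ v (x⁻¹ * 1) = u
    rw [bump_one, mul_one, bump_off v hx', mul_one]
  have hw₂x : w₂ x = v := by
    change bump Q φ u x * bump Q φ v (x⁻¹ * x) = v
    rw [bump_off u hx, inv_mul_cancel, bump_one, one_mul]
  have hw₂c : w₂ 1 * ν d 1 ≠ ν d 1 * w₂ 1 := by rw [hw₂1]; exact hu
  obtain ⟨d₂, hd₂, he₂⟩ := key w₂ hw₂B hw₂c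
  have hsub : (Q : Set H) ⊂ dif (ν d₂) (ν d) := by
    rw [he₂, Set.ssubset_iff_of_subset (Q_sub (hν d) hw₂B hw₂c)]
    refine ⟨x, ?_, hx⟩
    intro hc
    change w₂ x * ν d x * (w₂ x)⁻¹ = ν d x at hc
    rw [hw₂x, mul_inv_eq_iff_eq_mul] at hc
    exact hv hc
  have hlt := Set.ncard_lt_ncard hsub (Set.toFinite _)
  rw [← hdif₁, const h2 heq hd₁ hd₂] at hlt
  exact lt_irrefl _ hlt

end

end INNM

open INNM in
theorem specINN : SpecINN := by
  intro D T _ _ _ H Q φ ν h2 hT hirr hν heq hinj hne s w hw h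
  classical
  by_cases hQ : Q = ⊤
  · exact case_top hT hν heq hinj hQ hw h
  have hwW : w ∈ W Q φ := ⟨hw, s, h⟩
  rcases hirr (W Q φ) W_le W_inv with hW | hW
  · rw [hW, Subgroup.mem_bot] at hwW
    exact of_one hν heq hinj hwW h
  · exact (case_all hT h2 hν heq hne hW hQ).elim

end Pool.Agent.Lib.MP_79a223_al.FM
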