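import Pool.Agent.Lib.MP_79a223_al.FM.SpecT

/-!
# Module IRA
-/

open Equiv

namespace Pool.Agent.Lib.MP_79a223_al.FM

namespace IRAM

variable {H T : Type} [Group H] [Group T]

open Classical in
/-- The function `x ↦ ψ(x)⁻¹ t` on `L`, `1` off `L`. -/
noncomputable def ft (L : Subgroup H) (ψ : L →* MulAut T) (t : T) : H → T := fun x =>
  if hx : x ∈ L then (ψ ⟨x, hx⟩)⁻¹ t else 1

theorem ft_one (L : Subgroup H) (ψ : L →* MulAut T) (t : T) : ft L ψ t 1 = t := by
  have h1 : (1 : H) ∈ L := L.one_mem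
  have h2 : (⟨1, h1⟩ : L) = 1 := rfl
  simp [ft, h1, h2]

theorem ft_of_mem (L : Subgroup H) (ψ : L →* MulAut T) (t : T) {x : H} (hx : x ∈ L) :
    ft L ψ t x = (ψ ⟨x, hx⟩)⁻¹ t := by
  simp [ft, hx]

theorem ft_of_notMem (L : Subgroup H) (ψ : L →* MulAut T) (t : T) {x : H} (hx : x ∉ L) :
    ft L ψ t x = 1 := by
  simp [ft, hx]

theorem mem_tw {Q : Subgroup H} {φ : Q →* MulAut T} {f : H → T} :
    f ∈ twBase Q φ ↔ ∀ (h : H) (q : Q), f (h * q) = (φ q)⁻¹ (f h) := Iff.rfl

theorem ft_mem (L : Subgroup H) (ψ : L →* MulAut T) (t : T) : ft L ψ t ∈ twBase L ψ := by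
  rw [mem_tw]
  intro h q
  by_cases hh : h ∈ L
  · have hq : h * (q : H) ∈ L := L.mul_mem hh q.2
    rw [ft_of_mem L ψ t hh, ft_of_mem L ψ t hq]
    have h3 : (⟨h * (q : H), hq⟩ : L) = ⟨h, hh⟩ * q := rfl
    rw [h3, map_mul, mul_inv_rev]
    rfl
  · have hq : h * (q : H) ∉ L := by
      intro hq
      apply hh
      have := L.mul_mem hq (L.inv_mem q.2)
      simpa using this
    rw [ft_of_notMem L ψ t hh, ft_of_notMem L ψ t hq, map_one]

theorem tr_mem {Q : Subgroup H} {φ : Q →* MulAut T} (s : H) {f : H → T} (hf : f ∈ twBase Q φ) :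
    tr s f ∈ twBase Q φ := by
  rw [mem_tw] at hf ⊢
  intro h q
  unfold tr
  rw [← mul_assoc]
  exact hf (s⁻¹ * h) q

end IRAM

open IRAM in
theorem specIRA : SpecIRA := by
  intro H T _ _ _ Q φ hirr
  refine ⟨?_, ?_⟩
  · intro U hU
    have hU' : ∀ q : Q, ∀ u ∈ U, (φ q)⁻¹ u ∈ U := by
      intro q u hu
      rw [← map_inv]
      exact hU q⁻¹ u hu
    have hfu : ∀ u ∈ U, ∀ x, ft Q φ u x ∈ U := by
      intro u hu x
      by_cases hx : x ∈ Q
      · rw [ft_of_mem Q φ u hx]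
        exact hU' _ u hu
      · rw [ft_of_notMem Q φ u hx]
        exact U.one_mem
    let M : Subgroup (H → T) := twBase Q φ ⊓ Subgroup.pi Set.univ (fun _ => U)
    have hMmem : ∀ f, f ∈ M ↔ f ∈ twBase Q φ ∧ ∀ x, f x ∈ U := by
      intro f
      simp [M, Subgroup.mem_inf, Subgroup.mem_pi]
    rcases hirr M inf_le_left (by
      intro s f hf
      rw [hMmem] at hf ⊢
      exact ⟨tr_mem s hf.1, fun x => hf.2 _⟩) with h | h
    · left
      rw [Subgroup.eq_bot_iff_forall]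
      intro u hu
      have h1 : ft Q φ u ∈ M := (hMmem _).2 ⟨ft_mem Q φ u, hfu u hu⟩
      rw [h, Subgroup.mem_bot] at h1
      have h2 := congrFun h1 1
      rw [ft_one] at h2
      simpa using h2
    · right
      rw [Subgroup.eq_top_iff']
      intro t
      have h1 : ft Q φ t ∈ M := by
        rw [h]
        exact ft_mem Q φ t
      have h2 := ((hMmem _).1 h1).2 1
      rwa [ft_one] at h2
  · intro L ψ hQ hext
    obtain ⟨t, ht⟩ := exists_ne (1 : T)
    have hle : twBase L ψ ≤ twBase Q φ := by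
      intro f hf
      rw [mem_tw] at hf ⊢
      intro h q
      have h1 := hf h ⟨q, hQ q.2⟩
      rw [hext q] at h1
      exact h1
    rcases hirr (twBase L ψ) hle (fun s f hf => tr_mem s hf) with h | h
    · exfalso
      have h1 : ft L ψ t ∈ twBase L ψ := ft_mem L ψ t
      rw [h, Subgroup.mem_bot] at h1
      have h2 := congrFun h1 1
      rw [ft_one] at h2
      exact ht (by simpa using h2)
    · apply le_antisymm _ hQ
      intro l hl
      by_contra hlQ
      have h1 : ft Q φ t ∈ twBase L ψ := by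
        rw [h]
        exact ft_mem Q φ t
      rw [mem_tw] at h1
      have h2 := h1 1 ⟨l, hl⟩
      rw [ft_one] at h2
      simp only [one_mul] at h2
      rw [ft_of_notMem Q φ t hlQ] at h2
      apply ht
      have h3 : (ψ ⟨l, hl⟩)⁻¹ t = (ψ ⟨l, hl⟩)⁻¹ 1 := by
        rw [map_one]
        exact h2.symm
      exact (ψ ⟨l, hl⟩)⁻¹.injective h3

end Pool.Agent.Lib.MP_79a223_al.FM
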