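import Pool.Agent.Lib.MP_79a223_al.FM.SpecT

set_option autoImplicit false

open Equiv

namespace Pool.Agent.Lib.MP_79a223_al.FM

namespace IRBM

section

variable {H T : Type} [Group H] [Group T] {Q : Subgroup H} {φ : Q →* MulAut T}

theorem tr_mem {f : H → T} (hf : f ∈ twBase Q φ) (s : H) : tr s f ∈ twBase Q φ := by
  intro h q
  change f (s⁻¹ * (h * q)) = (φ q)⁻¹ (f (s⁻¹ * h))
  rw [← mul_assoc]
  exact hf (s⁻¹ * h) q

theorem at_mem {f : H → T} (hf : f ∈ twBase Q φ) (q : Q) : f (q : H) = (φ q)⁻¹ (f 1) := by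
  have h := hf 1 q
  rwa [one_mul] at h

/-- values at `1` of the elements of `M` which are `1` on `F` -/
def U (M : Subgroup (H → T)) (F : Set H) : Subgroup T where
  carrier := {t | ∃ f ∈ M, (∀ x ∈ F, f x = 1) ∧ f 1 = t}
  mul_mem' := by
    rintro a b ⟨f, hf, hf1, rfl⟩ ⟨g, hg, hg1, rfl⟩
    refine ⟨f * g, M.mul_mem hf hg, fun x hx => ?_, rfl⟩
    rw [Pi.mul_apply, hf1 x hx, hg1 x hx, one_mul]
  one_mem' := ⟨1, M.one_mem, fun _ _ => rfl, rfl⟩
  inv_mem' := by
    rintro a ⟨f, hf, hf1, rfl⟩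
    refine ⟨f⁻¹, M.inv_mem hf, fun x hx => ?_, rfl⟩
    rw [Pi.inv_apply, hf1 x hx, inv_one]

theorem mem_U {M : Subgroup (H → T)} {F : Set H} {t : T} :
    t ∈ U M F ↔ ∃ f ∈ M, (∀ x ∈ F, f x = 1) ∧ f 1 = t := Iff.rfl

theorem U_inv {M : Subgroup (H → T)} (hM : M ≤ twBase Q φ)
    (htr : ∀ s : H, ∀ f ∈ M, tr s f ∈ M) {F : Set H}
    (hF : ∀ q : Q, ∀ x ∈ F, (q : H)⁻¹ * x ∈ F) :
    ∀ q : Q, ∀ u ∈ U M F, φ q u ∈ U M F := by
  rintro q u ⟨f, hf, hf1, rfl⟩
  refine ⟨tr (q : H) f, htr _ f hf, fun x hx => hf1 _ (hF q x hx), ?_⟩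
  change f ((q : H)⁻¹ * 1) = φ q (f 1)
  rw [mul_one]
  have h := at_mem (hM hf) q⁻¹
  rw [Subgroup.coe_inv] at h
  rw [h, map_inv, inv_inv]

theorem U_empty {M : Subgroup (H → T)} (hT : TwPrim Q φ) (hM : M ≤ twBase Q φ)
    (htr : ∀ s : H, ∀ f ∈ M, tr s f ∈ M) (hne : M ≠ ⊥) : U M ∅ = ⊤ := by
  rcases hT.inv (U M ∅) (U_inv hM htr (by simp)) with h | h
  · exfalso
    apply hne
    rw [Subgroup.eq_bot_iff_forall]
    intro f hf
    funext x
    have h1 : f x ∈ U M (∅ : Set H) := by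
      refine ⟨tr x⁻¹ f, htr _ f hf, by simp, ?_⟩
      change f (x⁻¹⁻¹ * 1) = f x
      rw [inv_inv, mul_one]
    rw [h, Subgroup.mem_bot] at h1
    exact h1
  · exact h

theorem surj {M : Subgroup (H → T)} (htr : ∀ s : H, ∀ f ∈ M, tr s f ∈ M)
    (hU : U M ∅ = ⊤) (h : H) (t : T) : ∃ f ∈ M, f h = t := by
  have h1 : t ∈ U M (∅ : Set H) := by rw [hU]; trivial
  obtain ⟨f, hf, -, hft⟩ := h1
  refine ⟨tr h f, htr h f hf, ?_⟩
  change f (h⁻¹ * h) = t
  rw [inv_mul_cancel, hft]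

theorem U_normal {M : Subgroup (H → T)} (hU : U M ∅ = ⊤) (F : Set H) : (U M F).Normal := by
  constructor
  rintro t ⟨f, hf, hf1, rfl⟩ s
  have h1 : s ∈ U M (∅ : Set H) := by rw [hU]; trivial
  obtain ⟨g, hg, -, rfl⟩ := h1
  refine ⟨g * f * g⁻¹, M.mul_mem (M.mul_mem hg hf) (M.inv_mem hg), fun x hx => ?_, rfl⟩
  rw [Pi.mul_apply, Pi.mul_apply, Pi.inv_apply, hf1 x hx, mul_one, mul_inv_cancel]

/-- part (ii) -/
theorem full [Finite H] {M : Subgroup (H → T)} (hM : M ≤ twBase Q φ)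
    (htr : ∀ s : H, ∀ f ∈ M, tr s f ∈ M) (hU : U M {x | x ∉ Q} = ⊤) : M = twBase Q φ := by
  classical
  apply le_antisymm hM
  -- functions supported in `Q`
  have h1 : ∀ g ∈ twBase Q φ, (∀ x, x ∉ Q → g x = 1) → g ∈ M := by
    intro g hg hg1
    have ht : g 1 ∈ U M {x | x ∉ Q} := by rw [hU]; trivial
    obtain ⟨f, hf, hf1, hfg⟩ := ht
    have : g = f := by
      funext x
      by_cases hx : x ∈ Q
      · have e1 := at_mem hg ⟨x, hx⟩
        have e2 := at_mem (hM hf) ⟨x, hx⟩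
        change g x = _ at e1
        change f x = _ at e2
        rw [e1, e2, hfg]
      · rw [hg1 x hx, hf1 x hx]
    rw [this]
    exact hf
  -- functions supported in one coset
  have h2 : ∀ (h : H), ∀ g ∈ twBase Q φ, (∀ x, h⁻¹ * x ∉ Q → g x = 1) → g ∈ M := by
    intro h g hg hg1
    have h3 : tr h⁻¹ g ∈ M := by
      apply h1 _ (tr_mem hg _)
      intro x hx
      change g (h⁻¹⁻¹ * x) = 1
      apply hg1
      rwa [inv_inv, inv_mul_cancel_left]
    have h4 := htr h _ h3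
    have h5 : tr h (tr h⁻¹ g) = g := by
      funext x
      change g (h⁻¹⁻¹ * (h⁻¹ * x)) = g x
      rw [inv_inv, mul_inv_cancel_left]
    rwa [h5] at h4
  -- induction on the support
  have h3 : ∀ n : ℕ, ∀ f ∈ twBase Q φ, {x | f x ≠ 1}.ncard < n → f ∈ M := by
    intro n
    induction n with
    | zero => intro f _ h; exact absurd h (Nat.not_lt_zero _)
    | succ n ih =>
      intro f hf hn
      by_cases hf1 : f = 1
      · rw [hf1]; exact M.one_mem
      have hex : ∃ h, f h ≠ 1 := by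
        by_contra hcon
        push Not at hcon
        exact hf1 (funext hcon)
      obtain ⟨h, hh⟩ := hex
      set g : H → T := fun x => if h⁻¹ * x ∈ Q then f x else 1 with hg
      have hgB : g ∈ twBase Q φ := by
        intro x q
        have e : h⁻¹ * (x * q) ∈ Q ↔ h⁻¹ * x ∈ Q := by
          rw [← mul_assoc]
          exact Subgroup.mul_mem_cancel_right Q q.2
        simp only [hg, e]
        split_ifs
        · exact hf x q
        · rw [map_one]
      have hgM : g ∈ M := h2 h g hgB (fun x hx => by simp only [hg, if_neg hx])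
      have hval : ∀ x, (f * g⁻¹) x = if h⁻¹ * x ∈ Q then 1 else f x := by
        intro x
        rw [Pi.mul_apply, Pi.inv_apply]
        simp only [hg]
        split_ifs
        · exact mul_inv_cancel _
        · rw [inv_one, mul_one]
      have hlt : {x | (f * g⁻¹) x ≠ 1}.ncard < {x | f x ≠ 1}.ncard := by
        apply Set.ncard_lt_ncard _ (Set.toFinite _)
        rw [Set.ssubset_iff_of_subset]
        · refine ⟨h, hh, ?_⟩
          intro hcon
          apply hcon
          rw [hval, if_pos]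
          rw [inv_mul_cancel]
          exact Q.one_mem
        · intro x hx
          have hx' : (f * g⁻¹) x ≠ 1 := hx
          rw [hval] at hx'
          split_ifs at hx' with hc
          · exact absurd rfl hx'
          · exact hx'
      have h4 : f * g⁻¹ ∈ M :=
        ih _ ((twBase Q φ).mul_mem hf ((twBase Q φ).inv_mem hgB)) (by omega)
      have h5 := M.mul_mem h4 hgM
      rwa [inv_mul_cancel_right] at h5
  intro f hf
  exact h3 _ f hf (Nat.lt_succ_self _)

/-- part (iii) -/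
theorem exists_bad [Finite H] {M : Subgroup (H → T)} (hT : TwPrim Q φ) (hM : M ≤ twBase Q φ)
    (htr : ∀ s : H, ∀ f ∈ M, tr s f ∈ M) (hU : U M ∅ = ⊤) (hne : M ≠ twBase Q φ) :
    ∃ x, x ∉ Q ∧ ∀ f ∈ M, f x = 1 → f 1 = 1 := by
  classical
  have hs := hT.simple
  by_contra hcon
  push Not at hcon
  obtain ⟨a, b, hab⟩ := hT.nonab
  have key : ∀ F : Finset H, (∀ x ∈ F, x ∉ Q) → U M (F : Set H) = ⊤ := by
    intro F
    induction F using Finset.induction_on with
    | empty =>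
      intro _
      rw [Finset.coe_empty]
      exact hU
    | insert x F hx ih =>
      intro hF
      have hF' : U M (F : Set H) = ⊤ := ih (fun y hy => hF y (Finset.mem_insert_of_mem hy))
      have hxQ : x ∉ Q := hF x (Finset.mem_insert_self _ _)
      have hUx : U M ({x} : Set H) = ⊤ := by
        have hn := U_normal hU ({x} : Set H)
        rcases hn.eq_bot_or_eq_top with h | h
        · exfalso
          obtain ⟨f, hf, hfx, hf1⟩ := hcon x hxQ
          have h1 : f 1 ∈ U M ({x} : Set H) := ⟨f, hf, by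
            intro y hy
            rw [Set.mem_singleton_iff] at hy
            rw [hy, hfx], rfl⟩
          rw [h, Subgroup.mem_bot] at h1
          exact hf1 h1
        · exact h
      have ha : a ∈ U M (F : Set H) := by rw [hF']; trivial
      have hb : b ∈ U M ({x} : Set H) := by rw [hUx]; trivial
      obtain ⟨f, hf, hf1, rfl⟩ := ha
      obtain ⟨g, hg, hg1, rfl⟩ := hb
      have hc : f 1 * g 1 * (f 1)⁻¹ * (g 1)⁻¹ ∈ U M ((insert x F : Finset H) : Set H) := by
        refine ⟨f * g * f⁻¹ * g⁻¹, M.mul_mem (M.mul_mem (M.mul_mem hf hg) (M.inv_mem hf))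
          (M.inv_mem hg), ?_, rfl⟩
        intro y hy
        rw [Finset.mem_coe, Finset.mem_insert] at hy
        simp only [Pi.mul_apply, Pi.inv_apply]
        rcases hy with rfl | hy
        · rw [hg1 y rfl]
          simp
        · rw [hf1 y hy]
          simp
      have hn := U_normal hU ((insert x F : Finset H) : Set H)
      rcases hn.eq_bot_or_eq_top with h | h
      · exfalso
        rw [h, Subgroup.mem_bot] at hc
        apply hab
        have e : f 1 * g 1 * (f 1)⁻¹ = g 1 := mul_inv_eq_one.1 hc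
        exact mul_inv_eq_iff_eq_mul.1 e
      · exact h
  apply hne
  apply full hM htr
  have hfin : ({x | x ∉ Q} : Set H).Finite := Set.toFinite _
  have h := key hfin.toFinset (fun x hx => by
    rw [Set.Finite.mem_toFinset] at hx
    exact hx)
  rwa [Set.Finite.coe_toFinset] at h

/-- part (iv) -/
theorem contra [Finite T] {M : Subgroup (H → T)} (hT : TwPrim Q φ) (hM : M ≤ twBase Q φ)
    (htr : ∀ s : H, ∀ f ∈ M, tr s f ∈ M) (hU : U M ∅ = ⊤) {x : H} (hxQ : x ∉ Q)
    (hx : ∀ f ∈ M, f x = 1 → f 1 = 1) : False := by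
  classical
  let L : Subgroup H :=
    { carrier := {l | ∃ θ : MulAut T, ∀ f ∈ M, f 1 = θ (f l)}
      mul_mem' := by
        rintro l l' ⟨θ, hθ⟩ ⟨θ', hθ'⟩
        refine ⟨θ * θ', fun f hf => ?_⟩
        have h1 := hθ' (tr l⁻¹ f) (htr _ f hf)
        change f (l⁻¹⁻¹ * 1) = θ' (f (l⁻¹⁻¹ * l')) at h1
        rw [inv_inv, mul_one] at h1
        rw [hθ f hf, h1]
        rfl
      one_mem' := ⟨1, fun f _ => rfl⟩
      inv_mem' := by
        rintro l ⟨θ, hθ⟩
        refine ⟨θ⁻¹, fun f hf => ?_⟩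
        have h1 := hθ (tr l f) (htr _ f hf)
        change f (l⁻¹ * 1) = θ (f (l⁻¹ * l)) at h1
        rw [mul_one, inv_mul_cancel] at h1
        rw [h1]
        exact (MulAut.inv_apply_self T θ (f 1)).symm }
  have hL : ∀ l : H, l ∈ L ↔ ∃ θ : MulAut T, ∀ f ∈ M, f 1 = θ (f l) := fun l => Iff.rfl
  have huniq : ∀ (l : H) (θ θ' : MulAut T), (∀ f ∈ M, f 1 = θ (f l)) →
      (∀ f ∈ M, f 1 = θ' (f l)) → θ = θ' := by
    intro l θ θ' h1 h2
    ext t
    obtain ⟨f, hf, rfl⟩ := surj htr hU l t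
    rw [← h1 f hf, ← h2 f hf]
  choose θ hθ using fun l : L => (hL l).1 l.2
  let ψ : L →* MulAut T := MonoidHom.mk' θ (by
    intro l l'
    apply huniq ((l * l' : L) : H) _ _ (hθ (l * l'))
    intro f hf
    have h1 := hθ l' (tr (l : H)⁻¹ f) (htr _ f hf)
    change f ((l : H)⁻¹⁻¹ * 1) = θ l' (f ((l : H)⁻¹⁻¹ * l')) at h1
    rw [inv_inv, mul_one] at h1
    rw [hθ l f hf, h1]
    rfl)
  have hφ : ∀ q : Q, ∀ f ∈ M, f 1 = φ q (f (q : H)) := by
    intro q f hf
    rw [at_mem (hM hf) q]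
    exact (MulAut.apply_inv_self T (φ q) (f 1)).symm
  have hQL : Q ≤ L := fun q hq => ⟨φ ⟨q, hq⟩, hφ ⟨q, hq⟩⟩
  have hLQ : L = Q := by
    apply hT.ext L ψ hQL
    intro q
    exact huniq (q : H) _ _ (hθ ⟨q, hQL q.2⟩) (hφ q)
  apply hxQ
  rw [← hLQ]
  -- the automorphism at `x`
  choose F hFM hFx using fun t : T => surj htr hU x t
  have hwd : ∀ f ∈ M, ∀ g ∈ M, f x = g x → f 1 = g 1 := by
    intro f hf g hg h
    have h1 := hx (f * g⁻¹) (M.mul_mem hf (M.inv_mem hg)) (by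
      rw [Pi.mul_apply, Pi.inv_apply, h, mul_inv_cancel])
    rw [Pi.mul_apply, Pi.inv_apply] at h1
    exact mul_inv_eq_one.1 h1
  let κ : T →* T := MonoidHom.mk' (fun t => F t 1) (by
    intro s t
    change F (s * t) 1 = (F s * F t) 1
    apply hwd _ (hFM _) _ (M.mul_mem (hFM s) (hFM t))
    rw [hFx, Pi.mul_apply, hFx, hFx])
  have hκ : ∀ f ∈ M, f 1 = κ (f x) := by
    intro f hf
    exact hwd f hf _ (hFM _) (hFx _).symm
  have hsurj : Function.Surjective κ := by
    intro t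
    obtain ⟨f, hf, rfl⟩ := surj htr hU 1 t
    exact ⟨f x, (hκ f hf).symm⟩
  have hbij : Function.Bijective κ := ⟨Finite.injective_iff_surjective.2 hsurj, hsurj⟩
  exact ⟨MulEquiv.ofBijective κ hbij, hκ⟩

end

end IRBM

open IRBM in
theorem specIRB : SpecIRB := by
  intro H T _ _ _ _ Q φ hT M hM htr
  by_cases hbot : M = ⊥
  · exact Or.inl hbot
  right
  by_contra hne
  have hU := U_empty hT hM htr hbot
  obtain ⟨x, hxQ, hx⟩ := exists_bad hT hM htr hU hne
  exact contra hT hM htr hU hxQ hx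

end Pool.Agent.Lib.MP_79a223_al.FM
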