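import Pool.Agent.Lib.MP_79a223_al.FM.COD

/-!
# Module L11: PSL_2(11) on 11 points
-/

open Equiv

set_option maxRecDepth 100000

namespace Pool.Agent.Lib.MP_79a223_al.FM

namespace L11M

def w_c : ℕ := 10009008007006005004003002001

def w_s : ℕ := 8005002010007004001009006003000

def w_b : ℕ := 9010006004008002007003005001000

def c_thr : ℕ := 2001002002002001001001002001000

def p_thr : ℕ := 7003010006002009005001002001000

def d_thr : ℕ := 3002004002001003004001000000000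

def r_thr : ℕ := 2001000

def f_thr : ℕ → ℕ → ℕ
  | _ => fun z => dig w_c (dig w_b z)

def m_thr : ℕ → ℕ → ℕ → ℕ := fun k i j => ((([[[0, 1, 0], [2, 1, 1], [0, 1, 0]]] : List (List (List ℕ))).getD k []).getD i []).getD j 0

def u_thr : ℕ → ℕ := fun i => ([1, 0, 1] : List ℕ).getD i 0

def t_thr : List (List (List ℕ × ℕ)) := [
  [([0, 0], 2)],
  [([0], 1)],
  [([0, 0], 1)],
  [([], 1)],
  [([], 1)],
  [([0], 2)],
  [([0, 0], 1)],
  [([0, 0], 2)],
  [([0], 2)]]

def w_b3_0 : ℕ := 5008007001002006010009004003000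

def w_b3 : ℕ := 5008007001002006010009004003

def w_a3_0 : ℕ := 6002005009004007001010008003000

def w_a3_1 : ℕ := 5007008006009001003002004010000

def w_a3 : ℕ := 5007008006009001003002004010

def c_sw : ℕ := 4002001003004003000004003000

def p_sw : ℕ := 3002008007004009001000002001000

def d_sw : ℕ := 2001000000002002001001000000000

def r_sw : ℕ := 2001008007000

end L11M

open L11M CODM in
theorem specL11 (hCRD : SpecCRD) (hTRE : SpecTRE) (hHEC : SpecHEC) (hLCK : SpecLCK) (hSWP : SpecSWP) :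
    SpecL11 := by
  intro H p hpf h2 hgen
  have hp : p.Prime := hpf.out
  obtain ⟨c, h_c, a_c⟩ : ∃ s ∈ H, Acts s (dig w_c) := hgen w_c (by decide +kernel)
  obtain ⟨s, h_s, a_s⟩ : ∃ s ∈ H, Acts s (dig w_s) := hgen w_s (by decide +kernel)
  obtain ⟨b, h_b, a_b⟩ : ∃ s ∈ H, Acts s (dig w_b) := hgen w_b (by decide +kernel)
  by_cases hp3 : p = 3
  · subst hp3
    have pc_thr0 : PC 3 [s] := by
      refine PC.cons s [] 5 PC.nil ?_ ⟨[], by simp, relp 5 a_s .nil (by decide +kernel)⟩ (by norm_num)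
      exact List.forall_mem_nil _
    have hlH : ∀ x ∈ [s], x ∈ H := by
      refine List.forall_mem_cons.2 ⟨h_s, ?_⟩
      exact List.forall_mem_nil _
    have hF : ∀ k < 1, ∃ g ∈ H, Acts g (f_thr k) := by
      intro k hk
      interval_cases k
      · have h := (acts_mul a_c a_b)
        exact ⟨_, (H.mul_mem h_c h_b), h⟩
    have key := hecke hCRD hTRE hHEC hLCK (p := 3) h2 (fs := [dig w_s]) (.cons a_s .nil) hlH pc_thr0 (dig c_thr) (dig r_thr) (dig p_thr)
      (dig d_thr) (by decide +kernel) (by decide +kernel) 3 (by norm_num) 0 (by decide +kernel) (by decide +kernel)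
      (by decide +kernel) 1 f_thr hF m_thr (by decide +kernel) u_thr (fun t => t_thr.getD t []) (by decide +kernel)
      (tab_ok (by decide +kernel))
    intro C hC0 hC
    rcases key C hC0 hC with h | h
    · left; exact h
    · right
      intro g hg
      unfold spF at hg
      rw [if_pos rfl] at hg
      exact images_mem hC (w := fun x => u_thr (dig c_thr x)) (by decide +kernel) h g hg
  have hF0 : spF H [0, 2, 6, 7, 8, 10] 3 p = sumZ (Fin 11) p := by
    unfold spF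
    rw [if_neg hp3]
  rw [hF0]
  obtain ⟨b3_0, h_b3_0, a_b3_0⟩ := has_mul ⟨s, h_s, a_s⟩ ⟨b, h_b, a_b⟩ (dig w_b3_0) (by decide +kernel)
  obtain ⟨b3, h_b3, a_b3⟩ := has_mul ⟨b3_0, h_b3_0, a_b3_0⟩ ⟨c, h_c, a_c⟩ (dig w_b3) (by decide +kernel)
  obtain ⟨a3_0, h_a3_0, a_a3_0⟩ := has_mul ⟨b, h_b, a_b⟩ ⟨s, h_s, a_s⟩ (dig w_a3_0) (by decide +kernel)
  obtain ⟨a3_1, h_a3_1, a_a3_1⟩ := has_mul ⟨a3_0, h_a3_0, a_a3_0⟩ ⟨s, h_s, a_s⟩ (dig w_a3_1) (by decide +kernel)
  obtain ⟨a3, h_a3, a_a3⟩ := has_mul ⟨a3_1, h_a3_1, a_a3_1⟩ ⟨c, h_c, a_c⟩ (dig w_a3) (by decide +kernel)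
  have pc_sw0 : PC p [b3] := by
    refine PC.cons b3 [] 3 PC.nil ?_ ⟨[], by simp, relp 3 a_b3 .nil (by decide +kernel)⟩ (nd3 hp hp3)
    exact List.forall_mem_nil _
  have hlH : ∀ x ∈ [b3], x ∈ H := by
    refine List.forall_mem_cons.2 ⟨h_b3, ?_⟩
    exact List.forall_mem_nil _
  exact swap hSWP hCRD hTRE h2 (fs := [dig w_b3]) (.cons a_b3 .nil) hlH pc_sw0 h_a3 a_a3 (dig c_sw) (dig r_sw) (dig p_sw) (dig d_sw)
    (by decide +kernel) (by decide +kernel) 7 8 (by decide +kernel) (by decide +kernel)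

end Pool.Agent.Lib.MP_79a223_al.FM
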