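import Pool.Agent.Lib.MP_79a223_al.FM.SpecU

/-!
# Module LCK: the check of the vectors with first entry 1
-/

namespace Pool.Agent.Lib.MP_79a223_al.FM
namespace LCKM

theorem allB_iff (n : ℕ) (f : ℕ → Bool) : allB n f = true ↔ ∀ i < n, f i = true := by
  induction n with
  | zero => simp [allB]
  | succ n ih =>
    have : allB (n + 1) f = (f n && allB n f) := rfl
    rw [this, Bool.and_eq_true, ih]
    constructor
    · rintro ⟨h1, h2⟩ i hi
      rcases Nat.lt_succ_iff_lt_or_eq.1 hi with h | rfl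
      · exact h2 i h
      · exact h1
    · intro h
      exact ⟨h n (Nat.lt_succ_self n), fun i hi => h i (Nat.lt_succ_of_lt hi)⟩

theorem sumN_eq (n : ℕ) (f : ℕ → ℕ) : sumN n f = ∑ i ∈ Finset.range n, f i := by
  induction n with
  | zero => simp [sumN]
  | succ n ih =>
    have : sumN (n + 1) f = sumN n f + f n := rfl
    rw [this, ih, Finset.sum_range_succ]

theorem digits (p : ℕ) (n : ℕ) : ∀ a : ℕ → ℕ, (∀ i < n, a i < p) →
    ∃ t < p ^ n, ∀ i < n, t / p ^ i % p = a i := by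
  induction n with
  | zero => intro a _; exact ⟨0, by simp, by simp⟩
  | succ n ih =>
    intro a ha
    obtain ⟨t, ht, h⟩ := ih (fun i => a (i + 1)) (fun i hi => ha (i + 1) (by omega))
    have h0 : a 0 < p := ha 0 (by omega)
    have hp : 0 < p := by omega
    refine ⟨a 0 + p * t, ?_, ?_⟩
    · calc a 0 + p * t < p + p * t := by omega
        _ = p * (t + 1) := by ring
        _ ≤ p * p ^ n := Nat.mul_le_mul_left p ht
        _ = p ^ (n + 1) := by ring
    · intro i hi
      rcases i with _ | j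
      · simp [Nat.mod_eq_of_lt h0]
      · rw [pow_succ', ← Nat.div_div_eq_div_mul, Nat.add_mul_div_left _ _ hp,
          Nat.div_eq_of_lt h0, zero_add]
        exact h j (by omega)

theorem vec {p : ℕ} (r : ℕ) (v : ℕ → ℕ) (h0 : v 0 = 1) (hv : ∀ i < r, v i < p) (hr : 0 < r) :
    ∃ t < p ^ (r - 1), ∀ i < r, vecN p t i = v i := by
  obtain ⟨t, ht, h⟩ := digits p (r - 1) (fun i => v (i + 1)) (fun i hi => hv (i + 1) (by omega))
  refine ⟨t, ht, ?_⟩
  intro i hi
  unfold vecN
  rcases i with _ | j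
  · simp [h0]
  · simp only [Nat.succ_ne_zero, if_false, Nat.add_sub_cancel]
    exact h j (by omega)

theorem cast_mulV {p : ℕ} (r : ℕ) (M : ℕ → ℕ → ℕ) (v : ℕ → ℕ) (i : ℕ) :
    ((mulV p r M v i : ℕ) : ZMod p) = ∑ j ∈ Finset.range r, (M i j : ZMod p) * (v j : ZMod p) := by
  unfold mulV
  rw [ZMod.natCast_mod, sumN_eq]
  push_cast
  rfl

theorem word_mem {p : ℕ} {r K : ℕ} {Ms : ℕ → ℕ → ℕ → ℕ} (L : Submodule (ZMod p) (ℕ → ZMod p))
    (h2 : ∀ k < K, ∀ α ∈ L, (fun i => ∑ j ∈ Finset.range r, (Ms k i j : ZMod p) * α j) ∈ L)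
    (v : ℕ → ℕ) (hv : (fun i => (v i : ZMod p)) ∈ L) (u : List ℕ) (hu : ∀ k ∈ u, k < K) :
    (fun i => ((wordV p r Ms u v i : ℕ) : ZMod p)) ∈ L := by
  induction u with
  | nil => exact hv
  | cons k u ih =>
    have h := h2 k (hu k (by simp)) _ (ih (fun k' hk' => hu k' (by simp [hk'])))
    have e : (fun i => ((wordV p r Ms (k :: u) v i : ℕ) : ZMod p)) =
        (fun i => ∑ j ∈ Finset.range r, (Ms k i j : ZMod p) * ((wordV p r Ms u v j : ℕ) : ZMod p)) := by
      funext i
      exact cast_mulV r (Ms k) (wordV p r Ms u v) i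
    rw [e]
    exact h

theorem comb_mem {p : ℕ} {r K : ℕ} {Ms : ℕ → ℕ → ℕ → ℕ} (L : Submodule (ZMod p) (ℕ → ZMod p))
    (h2 : ∀ k < K, ∀ α ∈ L, (fun i => ∑ j ∈ Finset.range r, (Ms k i j : ZMod p) * α j) ∈ L)
    (v : ℕ → ℕ) (hv : (fun i => (v i : ZMod p)) ∈ L) (c : List (List ℕ × ℕ))
    (hc : ∀ x ∈ c, ∀ k ∈ x.1, k < K) :
    (fun i => ((combV p r Ms c v i : ℕ) : ZMod p)) ∈ L := by
  induction c with
  | nil =>
    have e : (fun i => ((combV p r Ms [] v i : ℕ) : ZMod p)) = 0 := by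
      funext i
      simp [combV]
    rw [e]
    exact L.zero_mem
  | cons x c ih =>
    have e : (fun i => ((combV p r Ms (x :: c) v i : ℕ) : ZMod p)) =
        (x.2 : ZMod p) • (fun i => ((wordV p r Ms x.1 v i : ℕ) : ZMod p)) +
          (fun i => ((combV p r Ms c v i : ℕ) : ZMod p)) := by
      funext i
      simp [combV]
    rw [e]
    exact L.add_mem (L.smul_mem _ (word_mem L h2 v hv x.1 (hc x (by simp))))
      (ih (fun y hy => hc y (by simp [hy])))

end LCKM

open LCKM in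
theorem specLCK : SpecLCK := by
  intro r p K hpf Ms w tab hr hchk htab L h1 h2 hex
  obtain ⟨α, hα, hα0⟩ := hex
  have hp : 1 < p := hpf.out.one_lt
  have : Fact (1 < p) := ⟨hp⟩
  set β : ℕ → ZMod p := (α 0)⁻¹ • α with hβ
  have hβL : β ∈ L := L.smul_mem _ hα
  have hβ0 : β 0 = 1 := by
    simp only [hβ, Pi.smul_apply, smul_eq_mul]
    exact inv_mul_cancel₀ hα0
  obtain ⟨t, ht, htv⟩ := vec (p := p) r (fun i => (β i).val)
    (by show (β 0).val = 1; rw [hβ0]; exact ZMod.val_one p) (fun i _ => ZMod.val_lt (β i)) hr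
  have hv : (fun i => ((vecN p t i : ℕ) : ZMod p)) ∈ L := by
    refine h1 β _ ?_ hβL
    intro i hi
    rw [htv i hi]
    exact (ZMod.natCast_zmod_val (β i)).symm
  have hc := comb_mem L h2 (vecN p t) hv (tab t) (htab t)
  have hok : okV p r Ms w (tab t) (vecN p t) = true := (allB_iff _ _).1 hchk t ht
  unfold okV at hok
  rw [Bool.or_eq_true, allB_iff, allB_iff] at hok
  rcases hok with h | h
  · left
    refine h1 _ _ ?_ hc
    intro i hi
    have h' : combV p r Ms (tab t) (vecN p t) i % p = 1 % p := by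
      simpa using h i hi
    have := (ZMod.natCast_eq_natCast_iff' _ _ p).2 h'
    simpa using this
  · right
    refine h1 _ _ ?_ hc
    intro i hi
    have h' : combV p r Ms (tab t) (vecN p t) i % p = w i % p := by
      simpa using h i hi
    exact (ZMod.natCast_eq_natCast_iff' _ _ p).2 h'

end Pool.Agent.Lib.MP_79a223_al.FM
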