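import Pool.Agent.Lib.MP_79a223_al.FM.Spec

/-!
# Primitive groups with a 2-transitive suborbit and an abelian regular socle: module LIN
-/

open Equiv

namespace Pool.Agent.Lib.MP_79a223_al.FM

namespace LINM

section

variable {K V D : Type} [Group K] [AddCommGroup V] [Fintype D] {p : ℕ} [Fact p.Prime] [Module (ZMod p) V]

lemma psi_single (ι : D → V) (d : D) [DecidableEq D] (c : ZMod p) :
    Fintype.linearCombination (ZMod p) ι (Pi.single d c) = c • ι d :=
  Fintype.linearCombination_apply_single (ZMod p) _ d c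

lemma psi_equi (σ : K →* Perm D) (ι : D → V) (L : K → (V →+ V)) (hL : ∀ h d, L h (ι d) = ι (σ h d))
    (h : K) (f : D → ZMod p) :
    Fintype.linearCombination (ZMod p) ι (rho p (σ h) f) = L h (Fintype.linearCombination (ZMod p) ι f) := by
  classical
  have : Fintype.linearCombination (ZMod p) ι ∘ₗ rho p (σ h) =
      AddMonoidHom.toZModLinearMap p (L h) ∘ₗ Fintype.linearCombination (ZMod p) ι := by
    apply LinearMap.pi_ext
    intro d c
    rw [LinearMap.comp_apply, LinearMap.comp_apply, rho_single, psi_single, psi_single, map_smul,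
      AddMonoidHom.coe_toZModLinearMap, hL]
  exact LinearMap.congr_fun this f

lemma psi_surj (ι : D → V) (hgen : AddSubgroup.closure (Set.range ι) = ⊤) :
    Function.Surjective (Fintype.linearCombination (ZMod p) ι) := by
  classical
  intro v
  have h4 : v ∈ AddSubgroup.closure (Set.range ι) := by rw [hgen]; exact AddSubgroup.mem_top _
  induction h4 using AddSubgroup.closure_induction with
  | mem x hx =>
    obtain ⟨d, rfl⟩ := hx
    exact ⟨Pi.single d 1, by rw [psi_single, one_smul]⟩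
  | zero => exact ⟨0, map_zero _⟩
  | add x y _ _ hx hy =>
    obtain ⟨f, hf⟩ := hx
    obtain ⟨g, hg⟩ := hy
    exact ⟨f + g, by rw [map_add, hf, hg]⟩
  | neg x _ hx =>
    obtain ⟨f, hf⟩ := hx
    exact ⟨-f, by rw [map_neg, hf]⟩

/-- maximality of the kernel among the invariant subspaces -/
lemma maxi (σ : K →* Perm D) (ι : D → V) (L : K → (V →+ V)) (hL : ∀ h d, L h (ι d) = ι (σ h d))
    (hirr : ∀ W : AddSubgroup V, (∀ h, ∀ w ∈ W, L h w ∈ W) → W = ⊥ ∨ W = ⊤)
    (W : Submodule (ZMod p) (D → ZMod p)) (hW : Inv σ.range p W)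
    (hMW : LinearMap.ker (Fintype.linearCombination (ZMod p) ι) ≤ W) :
    W = LinearMap.ker (Fintype.linearCombination (ZMod p) ι) ∨ W = ⊤ := by
  have hmem : ∀ v, v ∈ (W.map (Fintype.linearCombination (ZMod p) ι)).toAddSubgroup ↔
      ∃ f ∈ W, Fintype.linearCombination (ZMod p) ι f = v := fun v => Iff.rfl
  rcases hirr (W.map (Fintype.linearCombination (ZMod p) ι)).toAddSubgroup (by
    intro h w hw
    rw [hmem] at hw ⊢
    obtain ⟨f, hf, rfl⟩ := hw
    exact ⟨rho p (σ h) f, hW _ ⟨h, rfl⟩ f hf, psi_equi σ ι L hL h f⟩) with h0 | h1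
  · left
    apply le_antisymm _ hMW
    intro f hf
    have h2 : Fintype.linearCombination (ZMod p) ι f ∈
        (W.map (Fintype.linearCombination (ZMod p) ι)).toAddSubgroup := (hmem _).2 ⟨f, hf, rfl⟩
    rw [h0, AddSubgroup.mem_bot] at h2
    exact h2
  · right
    rw [eq_top_iff]
    intro f _
    have h2 : Fintype.linearCombination (ZMod p) ι f ∈
        (W.map (Fintype.linearCombination (ZMod p) ι)).toAddSubgroup := by
      rw [h1]; exact AddSubgroup.mem_top _
    rw [hmem] at h2
    obtain ⟨g, hg, hgf⟩ := h2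
    have h3 : f - g ∈ W := hMW (by rw [LinearMap.mem_ker, map_sub, hgf, sub_self])
    have h4 := W.add_mem h3 hg
    rwa [sub_add_cancel] at h4

/-- the isomorphism with the quotient by the kernel -/
lemma iso (σ : K →* Perm D) (ι : D → V) (L : K → (V →+ V)) (hL : ∀ h d, L h (ι d) = ι (σ h d))
    (hgen : AddSubgroup.closure (Set.range ι) = ⊤) (M : Submodule (ZMod p) (D → ZMod p))
    (hM : M = LinearMap.ker (Fintype.linearCombination (ZMod p) ι)) :
    ∃ ε : V ≃ (D → ZMod p) ⧸ M,
      (∀ v w, ε (v + w) = ε v + ε w) ∧ ∀ (h : K) (v : V) (f : D → ZMod p),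
        ε v = Submodule.Quotient.mk f → ε (L h v) = Submodule.Quotient.mk (rho p (σ h) f) := by
  let ℓ : ((D → ZMod p) ⧸ M) →ₗ[ZMod p] V := M.liftQ (Fintype.linearCombination (ZMod p) ι) hM.le
  have hℓ : ∀ f, ℓ (Submodule.Quotient.mk f) = Fintype.linearCombination (ZMod p) ι f := fun f => rfl
  have hℓb : Function.Bijective ℓ := by
    constructor
    · rw [injective_iff_map_eq_zero]
      intro v hv
      obtain ⟨f, rfl⟩ := Submodule.Quotient.mk_surjective _ v
      rw [hℓ] at hv
      rw [Submodule.Quotient.mk_eq_zero, hM]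
      exact hv
    · intro v
      obtain ⟨f, hf⟩ := psi_surj (p := p) ι hgen v
      exact ⟨Submodule.Quotient.mk f, hf⟩
  let ε : V ≃ (D → ZMod p) ⧸ M := (Equiv.ofBijective ℓ hℓb).symm
  have hε : ∀ n, ℓ (ε n) = n := fun n => Equiv.ofBijective_apply_symm_apply ℓ hℓb _
  refine ⟨ε, ?_, ?_⟩
  · intro m n
    apply hℓb.1
    rw [hε, map_add ℓ, hε, hε]
  · intro h v f hvf
    apply hℓb.1
    rw [hε, hℓ, psi_equi σ ι L hL, ← hℓ, ← hvf, hε]

lemma main (hDUA : SpecDUA) (σ : K →* Perm D) (ι : D → V) (L : K → (V →+ V)) (F : Set (D → ZMod p))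
    (hι : Function.Injective ι) (hL : ∀ h d, L h (ι d) = ι (σ h d))
    (hgen : AddSubgroup.closure (Set.range ι) = ⊤)
    (hirr : ∀ W : AddSubgroup V, (∀ h, ∀ w ∈ W, L h w ∈ W) → W = ⊥ ∨ W = ⊤) (hne : ∃ a b : D, a ≠ b)
    (hF : ∀ s ∈ σ.range, ∀ g ∈ F, rho p s g ∈ F) (hFne : ∃ g ∈ F, g ≠ 0) (hD : Dich σ.range p F) :
    (∃ f ∈ perp p F, ∑ x, f x ≠ 0) ∧ ∃ ε : V ≃ (D → ZMod p) ⧸ perp p F,
      (∀ v w, ε (v + w) = ε v + ε w) ∧ ∀ (h : K) (v : V) (f : D → ZMod p),
        ε v = Submodule.Quotient.mk f → ε (L h v) = Submodule.Quotient.mk (rho p (σ h) f) := by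
  classical
  obtain ⟨hD1, hD2, hD3, -⟩ := hDUA D p
  obtain ⟨a, b, hab⟩ := hne
  set M : Submodule (ZMod p) (D → ZMod p) := LinearMap.ker (Fintype.linearCombination (ZMod p) ι) with hM
  have hMmem : ∀ f : D → ZMod p, f ∈ M ↔ Fintype.linearCombination (ZMod p) ι f = 0 := fun f => LinearMap.mem_ker
  have hMne : M ≠ ⊤ := by
    intro h
    have h1 : ∀ d, ι d = 0 := by
      intro d
      have h2 : (Pi.single d 1 : D → ZMod p) ∈ M := by rw [h]; exact Submodule.mem_top
      rw [hMmem, psi_single, one_smul] at h2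
      exact h2
    exact hab (hι (by rw [h1, h1]))
  have hMinv : ∀ s ∈ σ.range, ∀ g ∈ (M : Set (D → ZMod p)), rho p s g ∈ (M : Set (D → ZMod p)) := by
    rintro s ⟨h, rfl⟩ g hg
    rw [SetLike.mem_coe, hMmem] at hg ⊢
    rw [psi_equi σ ι L hL, hg, map_zero]
  have hC := hD1 M hMne
  have hCinv := hD3 σ.range (M : Set (D → ZMod p)) hMinv
  -- the functions of sum zero
  have hmax := maxi (p := p) σ ι L hL hirr
  have h1 : ∃ f ∈ M, ∑ x, f x ≠ 0 := by
    by_contra hcon
    push Not at hcon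
    let Z : Submodule (ZMod p) (D → ZMod p) := perp p {fun _ => 1}
    have hZ : ∀ f, f ∈ Z ↔ ∑ x, f x = 0 := by
      intro f
      constructor
      · intro h
        have := h (fun _ => 1) rfl
        simpa using this
      · intro h g hg
        rw [Set.mem_singleton_iff] at hg
        rw [hg]
        simpa using h
    have hZinv : Inv σ.range p Z := hD3 σ.range _ (by
      intro s _ g hg
      rw [Set.mem_singleton_iff] at hg ⊢
      rw [hg]
      rfl)
    rcases hmax Z hZinv (fun f hf => (hZ f).2 (hcon f hf)) with h | h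
    · have h2 : (Pi.single a 1 - Pi.single b 1 : D → ZMod p) ∈ Z := by
        rw [hZ]
        simp [Finset.sum_sub_distrib, Pi.single_apply]
      rw [h, LinearMap.mem_ker, map_sub, psi_single, psi_single, one_smul, one_smul, sub_eq_zero] at h2
      exact hab (hι h2)
    · have h2 : (Pi.single a 1 : D → ZMod p) ∈ Z := by rw [h]; exact Submodule.mem_top
      rw [hZ] at h2
      simp [Pi.single_apply] at h2
  obtain ⟨f0, hf0, hf0s⟩ := h1
  have h2 : ∀ g ∈ F, g ∈ perp p (M : Set (D → ZMod p)) := by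
    rcases hD _ hC hCinv with h | h
    · exfalso
      apply hf0s
      have := h f0 hf0
      simpa using this
    · exact h
  have h3 : perp p F = M := by
    rcases hmax (perp p F) (hD3 σ.range F hF) (by
      intro f hf g hg
      have := h2 g hg f hf
      rw [← this]
      exact Finset.sum_congr rfl fun x _ => mul_comm _ _) with h | h
    · exact h
    · exfalso
      obtain ⟨g, hg, hg0⟩ := hFne
      exact hg0 (hD2 F h g hg)
  refine ⟨⟨f0, by rw [h3]; exact hf0, hf0s⟩, ?_⟩
  exact iso (p := p) σ ι L hL hgen (perp p F) h3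

end

end LINM

theorem specLIN (hDUA : SpecDUA) : SpecLIN := by
  intro K V D _ _ _ _ p _ σ ι L F hp hι hL hgen hirr hne hF hFne hD
  let _ : Module (ZMod p) V := AddCommGroup.zmodModule hp
  exact LINM.main hDUA σ ι L F hι hL hgen hirr hne hF hFne hD

end Pool.Agent.Lib.MP_79a223_al.FM
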