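import Pool.Agent.Lib.MP_79a223_al.FM.COD

/-!
# Module M11: M_11 on 11 points
-/

open Equiv

set_option maxRecDepth 100000

namespace Pool.Agent.Lib.MP_79a223_al.FM

namespace M11M

def w_c : ℕ := 10009008007006005004003002001

def w_d : ℕ := 7004008002010003005009006001000

def w_b3_0 : ℕ := 7004008002010003005009006001

def w_b3 : ℕ := 8003004009000005010007002006001

def w_a3_0 : ℕ := 8005009003000004006010007002001

def w_a3_1 : ℕ := 1008005009003000004006010007002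

def w_a3_2 : ℕ := 2001008005009003000004006010007

def w_a3_3 : ℕ := 7002001008005009003000004006010

def w_a3_4 : ℕ := 10007002001008005009003000004006

def w_a3_5 : ℕ := 6010007002001008005009003000004

def w_a3_6 : ℕ := 2005007003006009008010001000004

def w_a3_7 : ℕ := 3008007001002010009005006000004

def w_a3 : ℕ := 4003008007001002010009005006000

def c_sb : ℕ := 4003004003000002004003001000000

def p_sb : ℕ := 4007010003001005004003002000000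

def d_sb : ℕ := 1002002001002000000000000001000

def r_sb : ℕ := 4003005002000

def w_b4_0 : ℕ := 7004008002010003005009006001

def w_b4_1 : ℕ := 8003004009000005010007002006001

def w_b4_2 : ℕ := 1008003004009000005010007002006

def w_b4_3 : ℕ := 4005003007001010000008009002006

def w_b4_4 : ℕ := 6004005003007001010000008009002

def w_b4_5 : ℕ := 2006004005003007001010000008009

def w_b4_6 : ℕ := 9002006004005003007001010000008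

def w_b4 : ℕ := 8009002006004005003007001010000

def w_a4 : ℕ := 2005008006007009003004010001000

def c_sa : ℕ := 3002003004004001004004003003000

def p_sa : ℕ := 1009010003007005006003008001000

def d_sa : ℕ := 1000002001002000003000003000000

def r_sa : ℕ := 3001009005000

end M11M

open M11M CODM in
theorem specM11 (hCRD : SpecCRD) (hTRE : SpecTRE) (_hHEC : SpecHEC) (_hLCK : SpecLCK) (hSWP : SpecSWP) :
    SpecM11 := by
  intro H p hpf h2 hgen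
  have hp : p.Prime := hpf.out
  obtain ⟨c, h_c, a_c⟩ : ∃ s ∈ H, Acts s (dig w_c) := hgen w_c (by decide +kernel)
  obtain ⟨d, h_d, a_d⟩ : ∃ s ∈ H, Acts s (dig w_d) := hgen w_d (by decide +kernel)
  by_cases hp2 : p = 2
  · subst hp2
    obtain ⟨b3_0, h_b3_0, a_b3_0⟩ := has_mul ⟨d, h_d, a_d⟩ ⟨c, h_c, a_c⟩ (dig w_b3_0) (by decide +kernel)
    obtain ⟨b3, h_b3, a_b3⟩ := has_mul ⟨b3_0, h_b3_0, a_b3_0⟩ ⟨d, h_d, a_d⟩ (dig w_b3) (by decide +kernel)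
    obtain ⟨a3_0, h_a3_0, a_a3_0⟩ := has_mul ⟨c, h_c, a_c⟩ ⟨d, h_d, a_d⟩ (dig w_a3_0) (by decide +kernel)
    obtain ⟨a3_1, h_a3_1, a_a3_1⟩ := has_mul ⟨a3_0, h_a3_0, a_a3_0⟩ ⟨c, h_c, a_c⟩ (dig w_a3_1) (by decide +kernel)
    obtain ⟨a3_2, h_a3_2, a_a3_2⟩ := has_mul ⟨a3_1, h_a3_1, a_a3_1⟩ ⟨c, h_c, a_c⟩ (dig w_a3_2) (by decide +kernel)
    obtain ⟨a3_3, h_a3_3, a_a3_3⟩ := has_mul ⟨a3_2, h_a3_2, a_a3_2⟩ ⟨c, h_c, a_c⟩ (dig w_a3_3) (by decide +kernel)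
    obtain ⟨a3_4, h_a3_4, a_a3_4⟩ := has_mul ⟨a3_3, h_a3_3, a_a3_3⟩ ⟨c, h_c, a_c⟩ (dig w_a3_4) (by decide +kernel)
    obtain ⟨a3_5, h_a3_5, a_a3_5⟩ := has_mul ⟨a3_4, h_a3_4, a_a3_4⟩ ⟨c, h_c, a_c⟩ (dig w_a3_5) (by decide +kernel)
    obtain ⟨a3_6, h_a3_6, a_a3_6⟩ := has_mul ⟨a3_5, h_a3_5, a_a3_5⟩ ⟨d, h_d, a_d⟩ (dig w_a3_6) (by decide +kernel)
    obtain ⟨a3_7, h_a3_7, a_a3_7⟩ := has_mul ⟨a3_6, h_a3_6, a_a3_6⟩ ⟨d, h_d, a_d⟩ (dig w_a3_7) (by decide +kernel)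
    obtain ⟨a3, h_a3, a_a3⟩ := has_mul ⟨a3_7, h_a3_7, a_a3_7⟩ ⟨c, h_c, a_c⟩ (dig w_a3) (by decide +kernel)
    have pc_sb0 : PC 2 [b3] := by
      refine PC.cons b3 [] 3 PC.nil ?_ ⟨[], by simp, relp 3 a_b3 .nil (by decide +kernel)⟩ (by norm_num)
      exact List.forall_mem_nil _
    have hlH : ∀ x ∈ [b3], x ∈ H := by
      refine List.forall_mem_cons.2 ⟨h_b3, ?_⟩
      exact List.forall_mem_nil _
    exact swap hSWP hCRD hTRE h2 (fs := [dig w_b3]) (.cons a_b3 .nil) hlH pc_sb0 h_a3 a_a3 (dig c_sb) (dig r_sb) (dig p_sb) (dig d_sb)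
      (by decide +kernel) (by decide +kernel) 5 2 (by decide +kernel) (by decide +kernel)
  obtain ⟨b4_0, h_b4_0, a_b4_0⟩ := has_mul ⟨d, h_d, a_d⟩ ⟨c, h_c, a_c⟩ (dig w_b4_0) (by decide +kernel)
  obtain ⟨b4_1, h_b4_1, a_b4_1⟩ := has_mul ⟨b4_0, h_b4_0, a_b4_0⟩ ⟨d, h_d, a_d⟩ (dig w_b4_1) (by decide +kernel)
  obtain ⟨b4_2, h_b4_2, a_b4_2⟩ := has_mul ⟨b4_1, h_b4_1, a_b4_1⟩ ⟨c, h_c, a_c⟩ (dig w_b4_2) (by decide +kernel)
  obtain ⟨b4_3, h_b4_3, a_b4_3⟩ := has_mul ⟨b4_2, h_b4_2, a_b4_2⟩ ⟨d, h_d, a_d⟩ (dig w_b4_3) (by decide +kernel)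
  obtain ⟨b4_4, h_b4_4, a_b4_4⟩ := has_mul ⟨b4_3, h_b4_3, a_b4_3⟩ ⟨c, h_c, a_c⟩ (dig w_b4_4) (by decide +kernel)
  obtain ⟨b4_5, h_b4_5, a_b4_5⟩ := has_mul ⟨b4_4, h_b4_4, a_b4_4⟩ ⟨c, h_c, a_c⟩ (dig w_b4_5) (by decide +kernel)
  obtain ⟨b4_6, h_b4_6, a_b4_6⟩ := has_mul ⟨b4_5, h_b4_5, a_b4_5⟩ ⟨c, h_c, a_c⟩ (dig w_b4_6) (by decide +kernel)
  obtain ⟨b4, h_b4, a_b4⟩ := has_mul ⟨b4_6, h_b4_6, a_b4_6⟩ ⟨c, h_c, a_c⟩ (dig w_b4) (by decide +kernel)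
  obtain ⟨a4, h_a4, a_a4⟩ := has_mul ⟨d, h_d, a_d⟩ ⟨d, h_d, a_d⟩ (dig w_a4) (by decide +kernel)
  have pc_sa0 : PC p [b4] := by
    refine PC.cons b4 [] 4 PC.nil ?_ ⟨[], by simp, relp 4 a_b4 .nil (by decide +kernel)⟩ (nd4 hp hp2)
    exact List.forall_mem_nil _
  have hlH : ∀ x ∈ [b4], x ∈ H := by
    refine List.forall_mem_cons.2 ⟨h_b4, ?_⟩
    exact List.forall_mem_nil _
  exact swap hSWP hCRD hTRE h2 (fs := [dig w_b4]) (.cons a_b4 .nil) hlH pc_sa0 h_a4 a_a4 (dig c_sa) (dig r_sa) (dig p_sa) (dig d_sa)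
    (by decide +kernel) (by decide +kernel) 9 5 (by decide +kernel) (by decide +kernel)

end Pool.Agent.Lib.MP_79a223_al.FM
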