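import Pool.Agent.Lib.MP_79a223_al.FM.COD

/-!
# Module M22: M_22
-/

open Equiv

set_option maxRecDepth 100000

namespace Pool.Agent.Lib.MP_79a223_al.FM

namespace M22M

def w_s : ℕ := 6013003019005009017016011018014015007012020001021002004008010000

def w_a : ℕ := 21001019018013011015014017003016004008009002006000010012007020005

def w_b : ℕ := 9020003006013011008012010019002004015021016018000017014007001005

def c_two : ℕ := 1003002002001003001003003002003001003002003001001002002002001000

def p_two : ℕ := 5007018012015014010011020008013001016002007021017003019002001000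

def d_two : ℕ := 5001004003003005002004002002003001006001000006004006005000000000

def r_two : ℕ := 7002001000

def f_two : ℕ → ℕ → ℕ
  | 0 => fun z => dig w_a z
  | _ => fun z => dig w_b (dig w_s (dig w_a z))

def m_two : ℕ → ℕ → ℕ → ℕ := fun k i j => ((([[[0, 1, 0, 0], [1, 1, 1, 0], [0, 1, 0, 0], [0, 0, 0, 1]], [[0, 0, 0, 1], [0, 1, 0, 0], [0, 0, 0, 1], [1, 0, 1, 1]]] : List (List (List ℕ))).getD k []).getD i []).getD j 0

def u_two : ℕ → ℕ := fun i => ([1, 0, 1, 0] : List ℕ).getD i 0

def t_two : List (List (List ℕ × ℕ)) := [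
  [([0, 0], 1), ([1], 1)],
  [([0], 1), ([1], 1)],
  [([], 1)],
  [([], 1), ([1], 1)],
  [([0, 0], 1)],
  [([0, 0], 1), ([1], 1)],
  [([], 1), ([0], 1)],
  [([], 1)]]

def c_sw : ℕ := 7002005003006004007005006005004006007007004003000006005004001000

def p_sw : ℕ := 8020012006004007009003017014016013021008002006000004003002001000

def d_sw : ℕ := 1000003001001002003001002002003003002000001000001000000000000000

def r_sw : ℕ := 8004003002006020001000

end M22M

open M22M CODM in
theorem specM22 (hCRD : SpecCRD) (hTRE : SpecTRE) (hHEC : SpecHEC) (hLCK : SpecLCK) (hSWP : SpecSWP) :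
    SpecM22 := by
  intro H p hpf h2 hgen
  have hp : p.Prime := hpf.out
  obtain ⟨s, h_s, a_s⟩ : ∃ s ∈ H, Acts s (dig w_s) := hgen w_s (by decide +kernel)
  obtain ⟨a, h_a, a_a⟩ : ∃ s ∈ H, Acts s (dig w_a) := hgen w_a (by decide +kernel)
  obtain ⟨b, h_b, a_b⟩ : ∃ s ∈ H, Acts s (dig w_b) := hgen w_b (by decide +kernel)
  by_cases hp2 : p = 2
  · subst hp2
    have pc_two0 : PC 2 [s] := by
      refine PC.cons s [] 7 PC.nil ?_ ⟨[], by simp, relp 7 a_s .nil (by decide +kernel)⟩ (by norm_num)
      exact List.forall_mem_nil _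
    have hlH : ∀ x ∈ [s], x ∈ H := by
      refine List.forall_mem_cons.2 ⟨h_s, ?_⟩
      exact List.forall_mem_nil _
    have hF : ∀ k < 2, ∃ g ∈ H, Acts g (f_two k) := by
      intro k hk
      interval_cases k
      · have h := a_a
        exact ⟨_, h_a, h⟩
      · have h := (acts_mul a_b (acts_mul a_s a_a))
        exact ⟨_, (H.mul_mem h_b (H.mul_mem h_s h_a)), h⟩
    have key := hecke hCRD hTRE hHEC hLCK (p := 2) h2 (fs := [dig w_s]) (.cons a_s .nil) hlH pc_two0 (dig c_two) (dig r_two) (dig p_two)
      (dig d_two) (by decide +kernel) (by decide +kernel) 4 (by norm_num) 0 (by decide +kernel) (by decide +kernel)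
      (by decide +kernel) 2 f_two hF m_two (by decide +kernel) u_two (fun t => t_two.getD t []) (by decide +kernel)
      (tab_ok (by decide +kernel))
    intro C hC0 hC
    rcases key C hC0 hC with h | h
    · left; exact h
    · right
      intro g hg
      unfold spF at hg
      rw [if_pos rfl] at hg
      exact images_mem hC (w := fun x => u_two (dig c_two x)) (by decide +kernel) h g hg
  have hF0 : spF H [0, 2, 3, 4, 8, 12, 18, 19] 2 p = sumZ (Fin 22) p := by
    unfold spF
    rw [if_neg hp2]
  rw [hF0]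
  have pc_sw0 : PC p [b] := by
    refine PC.cons b [] 4 PC.nil ?_ ⟨[], by simp, relp 4 a_b .nil (by decide +kernel)⟩ (nd4 hp hp2)
    exact List.forall_mem_nil _
  have hlH : ∀ x ∈ [b], x ∈ H := by
    refine List.forall_mem_cons.2 ⟨h_b, ?_⟩
    exact List.forall_mem_nil _
  exact swap hSWP hCRD hTRE h2 (fs := [dig w_b]) (.cons a_b .nil) hlH pc_sw0 h_a a_a (dig c_sw) (dig r_sw) (dig p_sw) (dig d_sw)
    (by decide +kernel) (by decide +kernel) 1 20 (by decide +kernel) (by decide +kernel)

end Pool.Agent.Lib.MP_79a223_al.FM
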