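import Pool.Agent.Lib.MP_79a223_al.FM.COD

/-!
# Module M23: M_23
-/

open Equiv

set_option maxRecDepth 100000

namespace Pool.Agent.Lib.MP_79a223_al.FM

namespace M23M

def w_c : ℕ := 22021020019018017016015014013012011010009008007006005004003002001

def w_s : ℕ := 21019017015013011009007005003001022020018016014012010008006004002000

def w_a : ℕ := 10002003019013017014015016018009011022012005007006008004020021000001

def w_b : ℕ := 2010012014011016019015017006009013022003005004018008007020021001000

def c_two : ℕ := 2002002002001002001002002001001002002001001002001002001001001001000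

def p_two : ℕ := 11022010021009020008019007018006017005016004015003005002013001001000

def d_two : ℕ := 5006002007006003004008010007010004001005003009009000002008001000000

def r_two : ℕ := 5001000

def f_two : ℕ → ℕ → ℕ
  | _ => fun z => dig w_a z

def m_two : ℕ → ℕ → ℕ → ℕ := fun k i j => ((([[[0, 1, 0], [1, 0, 0], [0, 0, 1]]] : List (List (List ℕ))).getD k []).getD i []).getD j 0

def u_two : ℕ → ℕ := fun i => ([1, 1, 0] : List ℕ).getD i 0

def t_two : List (List (List ℕ × ℕ)) := [
  [([], 1), ([0], 1)],
  [([], 1)],
  [([], 1), ([0], 1)],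
  [([], 1)]]

def c_sw : ℕ := 5005006008007008008002008007006007005006004003007004003006005001000

def p_sw : ℕ := 10002003016006014017015014011020018021012005004006005004003002001000

def d_sw : ℕ := 3001001003001001002000000003002002002003001001000000000000000000000

def r_sw : ℕ := 14006003002005004015001000

end M23M

open M23M CODM in
theorem specM23 (hCRD : SpecCRD) (hTRE : SpecTRE) (hHEC : SpecHEC) (hLCK : SpecLCK) (hSWP : SpecSWP) :
    SpecM23 := by
  intro H p hpf h2 hgen
  have hp : p.Prime := hpf.out
  obtain ⟨c, h_c, a_c⟩ : ∃ s ∈ H, Acts s (dig w_c) := hgen w_c (by decide +kernel)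
  obtain ⟨s, h_s, a_s⟩ : ∃ s ∈ H, Acts s (dig w_s) := hgen w_s (by decide +kernel)
  obtain ⟨a, h_a, a_a⟩ : ∃ s ∈ H, Acts s (dig w_a) := hgen w_a (by decide +kernel)
  obtain ⟨b, h_b, a_b⟩ : ∃ s ∈ H, Acts s (dig w_b) := hgen w_b (by decide +kernel)
  by_cases hp2 : p = 2
  · subst hp2
    have pc_two0 : PC 2 [s] := by
      refine PC.cons s [] 11 PC.nil ?_ ⟨[], by simp, relp 11 a_s .nil (by decide +kernel)⟩ (by norm_num)
      exact List.forall_mem_nil _
    have hlH : ∀ x ∈ [s], x ∈ H := by
      refine List.forall_mem_cons.2 ⟨h_s, ?_⟩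
      exact List.forall_mem_nil _
    have hF : ∀ k < 1, ∃ g ∈ H, Acts g (f_two k) := by
      intro k hk
      interval_cases k
      · have h := a_a
        exact ⟨_, h_a, h⟩
    have key := hecke hCRD hTRE hHEC hLCK (p := 2) h2 (fs := [dig w_s]) (.cons a_s .nil) hlH pc_two0 (dig c_two) (dig r_two) (dig p_two)
      (dig d_two) (by decide +kernel) (by decide +kernel) 3 (by norm_num) 0 (by decide +kernel) (by decide +kernel)
      (by decide +kernel) 1 f_two hF m_two (by decide +kernel) u_two (fun t => t_two.getD t []) (by decide +kernel)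
      (tab_ok (by decide +kernel))
    intro C hC0 hC
    rcases key C hC0 hC with h | h
    · left; exact h
    · right
      intro g hg
      unfold spF at hg
      rw [if_pos rfl] at hg
      exact images_mem hC (w := fun x => u_two (dig c_two x)) (by decide +kernel) h g hg
  have hF0 : spF H [0, 1, 2, 3, 4, 6, 8, 9, 12, 13, 16, 18] 2 p = sumZ (Fin 23) p := by
    unfold spF
    rw [if_neg hp2]
  rw [hF0]
  have pc_sw0 : PC p [b] := by
    refine PC.cons b [] 4 PC.nil ?_ ⟨[], by simp, relp 4 a_b .nil (by decide +kernel)⟩ (nd4 hp hp2)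
    exact List.forall_mem_nil _
  have hlH : ∀ x ∈ [b], x ∈ H := by
    refine List.forall_mem_cons.2 ⟨h_b, ?_⟩
    exact List.forall_mem_nil _
  exact swap hSWP hCRD hTRE h2 (fs := [dig w_b]) (.cons a_b .nil) hlH pc_sw0 h_a a_a (dig c_sw) (dig r_sw) (dig p_sw) (dig d_sw)
    (by decide +kernel) (by decide +kernel) 0 1 (by decide +kernel) (by decide +kernel)

end Pool.Agent.Lib.MP_79a223_al.FM
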