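import Pool.Agent.Lib.MP_79a223_al.FM.Spec

/-!
# Module NIL: the criterion with a normalising p-group
-/

open Equiv

namespace Pool.Agent.Lib.MP_79a223_al.FM

namespace NILM

/-- a 2-transitive group is transitive -/
lemma trans {D : Type} {H : Subgroup (Perm D)} (h2 : TwoTransitive H) (x y : D) :
    ∃ s ∈ H, s x = y := by
  obtain ⟨⟨a, b, hab⟩, h⟩ := h2
  have hex : ∀ z : D, ∃ w, z ≠ w := by
    intro z
    by_cases hz : z = a
    · exact ⟨b, by rw [hz]; exact hab⟩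
    · exact ⟨a, hz⟩
  obtain ⟨x', hx'⟩ := hex x
  obtain ⟨y', hy'⟩ := hex y
  obtain ⟨s, hs, h1, -⟩ := h x x' y y' hx' hy'
  exact ⟨s, hs, h1⟩

/-- the fixed functions of `A` in `C` -/
def fixed {D : Type} (A : Subgroup (Perm D)) (p : ℕ) (C : Submodule (ZMod p) (D → ZMod p)) :
    Submodule (ZMod p) (D → ZMod p) where
  carrier := {f | f ∈ C ∧ ∀ a ∈ A, rho p a f = f}
  add_mem' := by
    rintro f g ⟨hf, hf'⟩ ⟨hg, hg'⟩
    refine ⟨C.add_mem hf hg, fun a ha => ?_⟩
    rw [map_add, hf' a ha, hg' a ha]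
  zero_mem' := ⟨C.zero_mem, fun a _ => map_zero _⟩
  smul_mem' := by
    rintro c f ⟨hf, hf'⟩
    refine ⟨C.smul_mem c hf, fun a ha => ?_⟩
    rw [map_smul, hf' a ha]

lemma mem_fixed {D : Type} {A : Subgroup (Perm D)} {p : ℕ} {C : Submodule (ZMod p) (D → ZMod p)}
    {f : D → ZMod p} : f ∈ fixed A p C ↔ f ∈ C ∧ ∀ a ∈ A, rho p a f = f := Iff.rfl

end NILM

open NILM in
/-- NIL. -/
theorem specNIL (hDIF : SpecDIF) (hPGF : SpecPGF) : SpecNIL := by
  classical
  intro D _ H p _ h2 hN C hC hinv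
  obtain ⟨A, P, δ, hA, hP, hAδ, hPδ, hnorm, hpA, hPp, htr⟩ := hN
  -- an element of `C` which does not vanish at `δ`
  obtain ⟨c, hcC, hcδ⟩ : ∃ c ∈ C, c δ ≠ 0 := by
    obtain ⟨c, hcC, hc0⟩ := Submodule.exists_mem_ne_zero_of_ne_bot hC
    obtain ⟨y, hy⟩ := Function.ne_iff.1 hc0
    obtain ⟨s, hs, hsy⟩ := trans h2 y δ
    refine ⟨rho p s c, hinv s hs c hcC, ?_⟩
    rw [rho_apply, ← hsy, pinv]
    exact hy
  -- the fixed functions of `A`
  let _ : Fintype A := Fintype.ofFinite A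
  obtain ⟨c₁, hc₁⟩ : ∃ c₁ : D → ZMod p, c₁ = ∑ a : A, rho p (a : Perm D) c := ⟨_, rfl⟩
  have hc₁A : c₁ ∈ fixed A p C := by
    refine mem_fixed.2 ⟨?_, ?_⟩
    · rw [hc₁]
      exact Submodule.sum_mem _ fun a _ => hinv a (hA a.2) c hcC
    · intro b hb
      rw [hc₁, map_sum]
      refine Fintype.sum_equiv (Equiv.mulLeft (⟨b, hb⟩ : A)) _ _ fun a => ?_
      rw [← rho_mul]
      rfl
  have hc₁δ : c₁ δ ≠ 0 := by
    have e : c₁ δ = (Fintype.card A : ZMod p) * c δ := by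
      rw [hc₁, Finset.sum_apply]
      have h3 : ∀ a : A, rho p (a : Perm D) c δ = c δ := by
        intro a
        rw [rho_apply]
        congr 1
        exact hAδ _ (A.inv_mem a.2)
      rw [Finset.sum_congr rfl fun a _ => h3 a, Finset.sum_const, Finset.card_univ, nsmul_eq_mul]
    rw [e]
    refine mul_ne_zero ?_ hcδ
    rw [Ne, ZMod.natCast_eq_zero_iff, ← Nat.card_eq_fintype_card]
    exact hpA
  have hne : fixed A p C ≠ ⊥ := by
    intro h
    rw [h, Submodule.mem_bot] at hc₁A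
    exact hc₁δ (by rw [hc₁A]; rfl)
  have hinvP : Inv P p (fixed A p C) := by
    intro s hs f hf
    obtain ⟨hf1, hf2⟩ := mem_fixed.1 hf
    refine mem_fixed.2 ⟨hinv s (hP hs) f hf1, fun a ha => ?_⟩
    have h3 : s⁻¹ * a * s ∈ A := by
      have := hnorm s⁻¹ (P.inv_mem hs) a ha
      rwa [inv_inv] at this
    have e : a * s = s * (s⁻¹ * a * s) := by group
    rw [← rho_mul, e, rho_mul, hf2 _ h3]
  obtain ⟨f, hfA, hf0, hfP⟩ := hPGF D P p (fixed A p C) hPp hne hinvP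
  obtain ⟨hfC, hfA'⟩ := mem_fixed.1 hfA
  have hfa : ∀ a ∈ A, ∀ z, f (a z) = f z := by
    intro a ha z
    have h3 := congrFun (hfA' a ha) (a z)
    rw [rho_apply, pinv] at h3
    exact h3.symm
  have hfb : ∀ b ∈ P, ∀ z, f (b z) = f z := by
    intro b hb z
    have h3 := congrFun (hfP b hb) (b z)
    rw [rho_apply, pinv] at h3
    exact h3.symm
  have hconst : ∀ x y, x ≠ δ → y ≠ δ → f x = f y := by
    intro x y hx hy
    obtain ⟨a, ha, b, hb, hab⟩ := htr x y hx hy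
    rw [← hab, hfa a ha, hfb b hb]
  obtain ⟨x, hx⟩ : ∃ x, x ≠ δ := by
    obtain ⟨⟨a, b, hab⟩, -⟩ := h2
    by_cases ha : a = δ
    · exact ⟨b, fun hb => hab (by rw [ha, hb])⟩
    · exact ⟨a, ha⟩
  by_cases hfd : f δ = f x
  · left
    have hall : ∀ y, f y = f δ := by
      intro y
      by_cases hy : y = δ
      · rw [hy]
      · rw [hfd]
        exact hconst y x hy hx
    have hδ : f δ ≠ 0 := by
      intro h3
      apply hf0
      ext y
      rw [hall y, h3]
      rfl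
    have e : (fun _ => 1 : D → ZMod p) = (f δ)⁻¹ • f := by
      ext y
      rw [Pi.smul_apply, smul_eq_mul, hall y, inv_mul_cancel₀ hδ]
    rw [e]
    exact C.smul_mem _ hfC
  · right
    obtain ⟨s, hs, hsδ⟩ := trans h2 δ x
    have hd : f δ - f x ≠ 0 := sub_ne_zero.2 hfd
    have hsx : s⁻¹ x = δ := by rw [Perm.inv_eq_iff_eq, hsδ]
    have e : (Pi.single x 1 - Pi.single δ 1 : D → ZMod p) =
        (f δ - f x)⁻¹ • (rho p s f - f) := by
      ext y
      rw [Pi.smul_apply, smul_eq_mul, Pi.sub_apply, Pi.sub_apply, rho_apply]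
      by_cases h3 : y = x
      · subst h3
        rw [hsx, inv_mul_cancel₀ hd, Pi.single_eq_same, Pi.single_eq_of_ne hx, sub_zero]
      have h4 : s⁻¹ y ≠ δ := by
        intro h5
        rw [Perm.inv_eq_iff_eq, hsδ] at h5
        exact h3 h5
      rw [hconst _ x h4 hx]
      by_cases h5 : y = δ
      · subst h5
        have h6 : f x - f y = -(f y - f x) := by ring
        rw [h6, mul_neg, inv_mul_cancel₀ hd, Pi.single_eq_of_ne h3, Pi.single_eq_same, zero_sub]
      · rw [hconst y x h5 hx, sub_self, mul_zero, Pi.single_eq_of_ne h3, Pi.single_eq_of_ne h5,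
          sub_zero]
    refine hDIF D H p C h2 hinv ⟨x, δ, hx, ?_⟩
    rw [e]
    exact C.smul_mem _ (C.sub_mem (hinv s hs f hfC) hfC)

end Pool.Agent.Lib.MP_79a223_al.FM
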