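import Pool.Agent.Lib.MP_79a223_al.FM.SpecT

/-!
# Module NRA: a nonabelian regular socle from an irreducible group
-/

set_option autoImplicit false

open Equiv

namespace Pool.Agent.Lib.MP_79a223_al.FM

namespace NRAM

section aff

variable {X K V : Type} [Group V] [Group K] [MulDistribMulAction K V]

/-- the permutation `v ↦ w (s v)`, transported by `e` -/
def aff (e : X ≃ V) (s : K) (w : V) : Perm X where
  toFun x := e.symm (w * s • e x)
  invFun x := e.symm (s⁻¹ • (w⁻¹ * e x))
  left_inv x := by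
    simp only [Equiv.apply_symm_apply, inv_mul_cancel_left, inv_smul_smul, Equiv.symm_apply_apply]
  right_inv x := by
    simp only [Equiv.apply_symm_apply, smul_inv_smul, mul_inv_cancel_left, Equiv.symm_apply_apply]

lemma aff_apply (e : X ≃ V) (s : K) (w : V) (x : X) :
    e (aff e s w x) = w * s • e x := e.apply_symm_apply _

lemma eq_aff (e : X ≃ V) (s : K) (w : V) (g : Perm X) (h : ∀ x, e (g x) = w * s • e x) :
    g = aff e s w := by
  ext x
  apply e.injective
  rw [h, aff_apply]

lemma aff_mul (e : X ≃ V) (s t : K) (v w : V) :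
    aff e s v * aff e t w = aff e (s * t) (v * s • w) := by
  apply eq_aff
  intro x
  rw [Perm.mul_apply, aff_apply, aff_apply, smul_mul', mul_smul, mul_assoc]

lemma aff_one (e : X ≃ V) : aff e (1 : K) 1 = 1 := by
  refine (eq_aff e 1 1 1 fun x => ?_).symm
  rw [one_smul, one_mul, Perm.one_apply]

lemma aff_inj (e : X ≃ V) {s : K} {v w : V} (h : aff e s v = aff e s w) : v = w := by
  have h1 := aff_apply e s v (e.symm 1)
  rw [h, aff_apply, Equiv.apply_symm_apply, smul_one, mul_one, mul_one] at h1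
  exact h1.symm

theorem main (e : X ≃ V) (G : Subgroup (Perm X)) (hirr : IrrAct K V)
    (hnc : ∃ a b : V, a * b ≠ b * a)
    (hinn : ∀ (k : K) (w : V), (∀ v, k • v = w * v * w⁻¹) → k = 1)
    (hG : ∀ g : Perm X, g ∈ G ↔ ∃ (k : K) (w : V), ∀ x, e (g x) = w * k • e x) :
    ∃ N : Subgroup G, RegularSocle G N ∧ ∃ a ∈ N, ∃ b ∈ N, a * b ≠ b * a := by
  classical
  obtain ⟨a₀, b₀, hab₀⟩ := hnc
  have ha₀ : a₀ ≠ 1 := by
    rintro rfl
    exact hab₀ (by rw [one_mul, mul_one])
  have hmem : ∀ (s : K) w, aff e s w ∈ G := fun s w => (hG _).2 ⟨s, w, aff_apply e s w⟩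
  have hdec : ∀ g ∈ G, ∃ (s : K) (w : V), g = aff e s w := by
    intro g hg
    obtain ⟨s, w, h⟩ := (hG g).1 hg
    exact ⟨s, w, eq_aff e s w g h⟩
  let T : V → G := fun w => ⟨aff e (1 : K) w, hmem 1 w⟩
  let Q : K → G := fun s => ⟨aff e s 1, hmem s 1⟩
  have hTQ : ∀ g : G, ∃ w s, g = T w * Q s := by
    rintro ⟨g, hg⟩
    obtain ⟨s, w, rfl⟩ := hdec g hg
    refine ⟨w, s, Subtype.ext ?_⟩
    show aff e s w = aff e (1 : K) w * aff e s 1
    rw [aff_mul, one_mul, one_smul, mul_one]
  have hTT : ∀ v w, T v * T w = T (v * w) := by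
    intro v w
    apply Subtype.ext
    show aff e (1 : K) v * aff e (1 : K) w = aff e (1 : K) (v * w)
    rw [aff_mul, one_mul, one_smul]
  have hT0 : T 1 = 1 := Subtype.ext (aff_one e)
  have hTinv : ∀ v, (T v)⁻¹ = T v⁻¹ := by
    intro v
    rw [inv_eq_iff_mul_eq_one, hTT, mul_inv_cancel, hT0]
  have hQT : ∀ (s : K) w, Q s * T w = T (s • w) * Q s := by
    intro s w
    apply Subtype.ext
    show aff e s 1 * aff e (1 : K) w = aff e (1 : K) (s • w) * aff e s 1
    rw [aff_mul, aff_mul, mul_one, one_mul, one_mul, smul_one, mul_one]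
  have hTinj : ∀ v w, T v = T w → v = w := fun v w h => aff_inj e (congrArg Subtype.val h)
  have hconj : ∀ (s : K) w v, (T v * Q s) * T w * (T v * Q s)⁻¹ = T (v * s • w * v⁻¹) := by
    intro s w v
    rw [mul_assoc (T v), hQT, mul_inv_rev, ← hTT, ← hTT, ← hTinv]
    group
  have hconj1 : ∀ (s : K) w, Q s * T w * (Q s)⁻¹ = T (s • w) := by
    intro s w
    rw [hQT]; group
  -- the invariant subgroup attached to a subgroup
  have key : ∀ L : Subgroup G, (∀ s : K, ∀ w, T w ∈ L → T (s • w) ∈ L) →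
      (∃ w, w ≠ 1 ∧ T w ∈ L) → ∀ w, T w ∈ L := by
    intro L hL hne w
    let W : Subgroup V :=
      { carrier := {w | T w ∈ L}
        mul_mem' := by
          intro a b ha hb
          show T (a * b) ∈ L
          rw [← hTT]
          exact L.mul_mem ha hb
        one_mem' := by
          show T 1 ∈ L
          rw [hT0]
          exact L.one_mem
        inv_mem' := by
          intro a ha
          show T a⁻¹ ∈ L
          rw [← hTinv]
          exact L.inv_mem ha }
    rcases hirr W (fun s w hw => hL s w hw) with h | h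
    · exfalso
      obtain ⟨v, hv, hvL⟩ := hne
      have : v ∈ W := hvL
      rw [h] at this
      exact hv (Subgroup.mem_bot.1 this)
    · have : w ∈ W := by rw [h]; exact Subgroup.mem_top w
      exact this
  set α : X := e.symm 1 with hα
  have heα : e α = 1 := e.apply_symm_apply 1
  have hntX : Nontrivial X := ⟨e.symm a₀, α, fun h => ha₀ (by
    have := congrArg e h
    rwa [Equiv.apply_symm_apply, heα] at this)⟩
  have hKmem : ∀ g : G, g ∈ MulAction.stabilizer G α ↔ (g : Perm X) α = α := fun g => Iff.rfl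
  have hTα : ∀ w, e ((T w).1 α) = w := by
    intro w
    show e (aff e (1 : K) w α) = w
    rw [aff_apply, heα, smul_one, mul_one]
  have hQα : ∀ s, Q s ∈ MulAction.stabilizer G α := by
    intro s
    rw [hKmem]
    apply e.injective
    show e (aff e s 1 α) = e α
    rw [aff_apply, heα, smul_one, mul_one]
  have hTK : ∀ w, T w ∈ MulAction.stabilizer G α → w = 1 := by
    intro w hw
    rw [hKmem] at hw
    have := hTα w
    rw [hw, heα] at this
    exact this.symm
  have hTxy : ∀ x y : X, ((T (e y * (e x)⁻¹) : G) : Perm X) x = y := by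
    intro x y
    apply e.injective
    show e (aff e (1 : K) (e y * (e x)⁻¹) x) = e y
    rw [aff_apply, one_smul, inv_mul_cancel_right]
  have hpre : MulAction.IsPretransitive G X := ⟨fun x y => ⟨T (e y * (e x)⁻¹), hTxy x y⟩⟩
  let N : Subgroup G :=
    { carrier := {g | ∃ w, g = T w}
      mul_mem' := by
        rintro _ _ ⟨v, rfl⟩ ⟨w, rfl⟩
        exact ⟨v * w, hTT v w⟩
      one_mem' := ⟨1, hT0.symm⟩
      inv_mem' := by
        rintro _ ⟨v, rfl⟩
        exact ⟨v⁻¹, hTinv v⟩ }
  have hNmem : ∀ g, g ∈ N ↔ ∃ w, g = T w := fun g => Iff.rfl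
  refine ⟨N, ⟨?_, ⟨?_⟩, ?_, ?_, ?_⟩, T a₀, ⟨_, rfl⟩, T b₀, ⟨_, rfl⟩, ?_⟩
  · rw [← MulAction.isCoatom_stabilizer_iff_preprimitive G α]
    constructor
    · intro h
      apply ha₀
      apply hTK
      rw [h]
      exact Subgroup.mem_top _
    · intro L hL
      rw [eq_top_iff]
      obtain ⟨g, hgL, hgK⟩ := SetLike.exists_of_lt hL
      have hall := key L (fun s w hw => by
        rw [← hconj1 s w]
        exact L.mul_mem (L.mul_mem (hL.le (hQα s)) hw) (L.inv_mem (hL.le (hQα s)))) (by
        obtain ⟨w, s, rfl⟩ := hTQ g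
        refine ⟨w, ?_, ?_⟩
        · rintro rfl
          apply hgK
          rw [hT0, one_mul]
          exact hQα s
        · have h1 := L.mul_mem hgL (L.inv_mem (hL.le (hQα s)))
          rwa [mul_inv_cancel_right] at h1)
      intro g' _
      obtain ⟨w, s, rfl⟩ := hTQ g'
      exact L.mul_mem (hall w) (hL.le (hQα s))
  · rintro _ ⟨w, rfl⟩ g
    obtain ⟨v, s, rfl⟩ := hTQ g
    exact ⟨_, hconj s w v⟩
  · intro h
    have h1 : T a₀ ∈ N := ⟨_, rfl⟩
    rw [h, Subgroup.mem_bot, ← hT0] at h1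
    exact ha₀ (hTinj _ _ h1)
  · intro M hM hMne
    have hMinv : ∀ s : K, ∀ w, T w ∈ M → T (s • w) ∈ M := by
      intro s w hw
      rw [← hconj1 s w]
      exact hM.conj_mem _ hw _
    by_cases hex : ∃ w, w ≠ 1 ∧ T w ∈ M
    · have hall := key M hMinv hex
      rintro _ ⟨w, rfl⟩
      exact hall w
    · exfalso
      push Not at hex
      obtain ⟨⟨m, hmM⟩, hm1⟩ := Subgroup.ne_bot_iff_exists_ne_one.1 hMne
      have hm1 : m ≠ 1 := fun h => hm1 (Subtype.ext h)
      obtain ⟨w, s, rfl⟩ := hTQ m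
      have hcomm : ∀ v, s • v = w⁻¹ * v * w⁻¹⁻¹ := by
        intro v
        have h1 : T (w * s • v * w⁻¹ * v⁻¹) ∈ M := by
          have h2 : T (w * s • v * w⁻¹ * v⁻¹) =
              (T w * Q s) * (T v * (T w * Q s)⁻¹ * (T v)⁻¹) := by
            rw [← hTT (w * s • v * w⁻¹), ← hconj s v w, hTinv]
            group
          rw [h2]
          exact M.mul_mem hmM (hM.conj_mem _ (M.inv_mem hmM) _)
        have h3 : w * s • v * w⁻¹ * v⁻¹ = 1 := by
          by_contra h
          exact hex _ h h1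
        have h4 : w * s • v * w⁻¹ = v := by
          rw [mul_inv_eq_one] at h3
          exact h3
        rw [inv_inv]
        calc s • v = w⁻¹ * (w * s • v * w⁻¹) * w := by group
          _ = w⁻¹ * v * w := by rw [h4]
      have hs1 : s = 1 := hinn s w⁻¹ hcomm
      have hQ1 : Q s = 1 := by rw [hs1]; exact Subtype.ext (aff_one e)
      rw [hQ1, mul_one] at hmM hm1
      by_cases hw : w = 1
      · rw [hw, hT0] at hm1
        exact hm1 rfl
      · exact hex w hw hmM
  · intro x y
    refine ⟨T (e y * (e x)⁻¹), ⟨⟨_, rfl⟩, hTxy x y⟩, ?_⟩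
    rintro _ ⟨⟨w, rfl⟩, hw⟩
    have h1 : w * e x = e y := by
      rw [← hw]
      show w * e x = e (aff e (1 : K) w x)
      rw [aff_apply, one_smul]
    rw [← h1, mul_inv_cancel_right]
  · rw [hTT, hTT]
    intro h
    exact hab₀ (hTinj _ _ h)

end aff

end NRAM

theorem specNRA : SpecNRA := by
  intro X V K _ _ _ _ e G h1 h2 h3 h4
  exact NRAM.main e G h1 h2 h3 h4

end Pool.Agent.Lib.MP_79a223_al.FM
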