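import Pool.Agent.Lib.MP_79a223_al.FM.Spec

/-!
# OPP: the averaging operator of the transvections with centre `u` fixing `x`
-/

open Equiv

namespace Pool.Agent.Lib.MP_79a223_al.FM

namespace OPPM

/-- An invariant code contains `c ∘ s`. -/
lemma comp_mem {D : Type} {H : Subgroup (Perm D)} {p : ℕ} {C : Submodule (ZMod p) (D → ZMod p)}
    (hC : Inv H p C) {s : Perm D} (hs : s ∈ H) {c : D → ZMod p} (hc : c ∈ C) :
    (fun d => c (s d)) ∈ C := by
  have h := hC s⁻¹ (H.inv_mem hs) c hc
  have h2 : rho p s⁻¹ c = fun d => c (s d) := by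
    funext d
    rw [rho_apply, inv_inv]
  rw [← h2]
  exact h

/-- A functional which vanishes on a subspace and has a given value at a vector outside. -/
lemma exists_functional {k V : Type} [Field k] [AddCommGroup V] [Module k V] (W : Submodule k V) (v : V)
    (hv : v ∉ W) (a : k) : ∃ φ : V →ₗ[k] k, (∀ w ∈ W, φ w = 0) ∧ φ v = a := by
  obtain ⟨f, hf, hW⟩ := Submodule.exists_le_ker_of_notMem hv
  refine ⟨(a * (f v)⁻¹) • f, ?_, ?_⟩
  · intro w hw
    have := hW hw
    rw [LinearMap.mem_ker] at this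
    rw [LinearMap.smul_apply, this, smul_zero]
  · rw [LinearMap.smul_apply, smul_eq_mul, mul_assoc, inv_mul_cancel₀ hf, mul_one]

/-- The functionals which vanish at `u` and `x`. -/
def ann {k V : Type} [Field k] [AddCommGroup V] [Module k V] (x u : V) : Submodule k (V →ₗ[k] k) where
  carrier := {φ | φ u = 0 ∧ φ x = 0}
  add_mem' := by
    rintro a b ⟨ha, ha'⟩ ⟨hb, hb'⟩
    exact ⟨by rw [LinearMap.add_apply, ha, hb, add_zero], by rw [LinearMap.add_apply, ha', hb', add_zero]⟩
  zero_mem' := ⟨rfl, rfl⟩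
  smul_mem' := by
    rintro a b ⟨hb, hb'⟩
    exact ⟨by rw [LinearMap.smul_apply, hb, smul_zero], by rw [LinearMap.smul_apply, hb', smul_zero]⟩

end OPPM

open OPPM in
theorem specOPP : SpecOPP := by
  classical
  intro k _ _ n D _ π H p hp hπ hH hk C hC c hc x u hlin
  have hpair := LinearIndependent.pair_iff.1 hlin
  haveI : Finite ((Fin n → k) →ₗ[k] k) := Module.finite_of_finite k
  haveI : Finite (ann (k := k) x u) := inferInstance
  haveI : Fintype (ann (k := k) x u) := Fintype.ofFinite _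
  have hcard : ((Fintype.card (ann (k := k) x u) : ℕ) : ZMod p) ≠ 0 := by
    rw [Ne, ZMod.natCast_eq_zero_iff, Module.card_eq_pow_finrank (K := k)]
    intro h
    exact hk (hp.out.dvd_of_dvd_pow h)
  have hu0 : u ≠ 0 := by
    rintro rfl
    have := hpair 0 1 (by simp)
    exact one_ne_zero this.2
  have hxa : ∀ a : k, x + a • u ≠ 0 := by
    intro a h
    have := hpair 1 a (by rw [one_smul]; exact h)
    exact one_ne_zero this.1
  have hxu : x ∉ Submodule.span k {u} := by
    intro h
    obtain ⟨a, ha⟩ := Submodule.mem_span_singleton.1 h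
    exact hxa (-a) (by rw [← ha, neg_smul, add_neg_cancel])
  have huW : u ∈ Submodule.span k {x, u} := Submodule.subset_span (by simp)
  have hxW : x ∈ Submodule.span k {x, u} := Submodule.subset_span (by simp)
  -- the permutations
  have hs : ∀ φ : ann (k := k) x u, ∃ s ∈ H, ∀ v, v ≠ 0 → s (π v) = π (v + (φ : (Fin n → k) →ₗ[k] k) v • u) :=
    fun φ => hH φ.1 u φ.2.1
  choose s hsH hsv using hs
  let c₁ : D → ZMod p := ∑ φ : ann (k := k) x u, fun d => c (s φ d)
  have hc₁ : c₁ ∈ C := C.sum_mem fun φ _ => comp_mem hC (hsH φ) hc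
  have hval : ∀ v, v ≠ 0 → c₁ (π v) = ∑ φ : ann (k := k) x u, c (π (v + (φ : (Fin n → k) →ₗ[k] k) v • u)) := by
    intro v hv
    simp only [c₁, Finset.sum_apply]
    refine Finset.sum_congr rfl fun φ _ => ?_
    rw [hsv φ v hv]
  have hsp : ∀ v ∈ Submodule.span k {x, u}, ∀ φ : ann (k := k) x u, (φ : (Fin n → k) →ₗ[k] k) v = 0 := by
    intro v hv φ
    have hle : Submodule.span k {x, u} ≤ LinearMap.ker (φ : (Fin n → k) →ₗ[k] k) := by
      rw [Submodule.span_le]
      intro w hw
      rcases hw with rfl | hw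
      · exact φ.2.2
      · rw [Set.mem_singleton_iff] at hw
        subst hw
        exact φ.2.1
    exact LinearMap.mem_ker.1 (hle hv)
  have h1 : ∀ v, v ≠ 0 → v ∈ Submodule.span k {x, u} →
      c₁ (π v) = (Fintype.card (ann (k := k) x u) : ZMod p) * c (π v) := by
    intro v hv0 hv
    rw [hval v hv0]
    have : ∀ φ ∈ (Finset.univ : Finset (ann (k := k) x u)),
        c (π (v + (φ : (Fin n → k) →ₗ[k] k) v • u)) = c (π v) := by
      intro φ _
      rw [hsp v hv φ, zero_smul, add_zero]
    rw [Finset.sum_congr rfl this, Finset.sum_const, Finset.card_univ, nsmul_eq_mul]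
  have h2 : ∀ v, v ∉ Submodule.span k {x, u} → ∀ a : k, c₁ (π (v + a • u)) = c₁ (π v) := by
    intro v hv a
    obtain ⟨f, hfW, hfv⟩ := exists_functional (Submodule.span k {x, u}) v hv a
    have hv0 : v ≠ 0 := by
      rintro rfl
      exact hv (Submodule.zero_mem _)
    have hva : v + a • u ≠ 0 := by
      intro h
      apply hv
      have : v = -(a • u) := eq_neg_of_add_eq_zero_left h
      rw [this]
      exact Submodule.neg_mem _ (Submodule.smul_mem _ _ huW)
    let φ₀ : ann (k := k) x u := ⟨f, hfW u huW, hfW x hxW⟩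
    rw [hval _ hva, hval v hv0]
    refine Fintype.sum_equiv (Equiv.addRight φ₀) _ _ fun φ => ?_
    have e1 : (φ : (Fin n → k) →ₗ[k] k) (v + a • u) = (φ : (Fin n → k) →ₗ[k] k) v := by
      rw [map_add, map_smul, φ.2.1, smul_zero, add_zero]
    have e2 : ((Equiv.addRight φ₀ φ : ann (k := k) x u) : (Fin n → k) →ₗ[k] k) v =
        (φ : (Fin n → k) →ₗ[k] k) v + a := by
      rw [Equiv.coe_addRight, Submodule.coe_add, LinearMap.add_apply, ← hfv]
    rw [e1, e2, add_smul]
    congr 2
    abel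
  -- the second permutation
  obtain ⟨ψ, hψ, hψx⟩ := exists_functional (Submodule.span k {u}) x hxu (-1 : k)
  have hψu : ψ u = 0 := hψ u (Submodule.mem_span_singleton_self u)
  obtain ⟨t, htH, ht⟩ := hH ψ u hψu
  refine ⟨(Fintype.card (ann (k := k) x u) : ZMod p)⁻¹ • (c₁ - fun d => c₁ (t d)),
    C.smul_mem _ (C.sub_mem hc₁ (comp_mem hC htH hc₁)), ?_, ?_, ?_⟩
  · intro v hv
    have hv0 : v ≠ 0 := by
      rintro rfl
      exact hv (Submodule.zero_mem _)
    rw [Pi.smul_apply, Pi.sub_apply, ht v hv0, h2 v hv, sub_self, smul_zero]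
  · rw [Pi.smul_apply, Pi.sub_apply, ht u hu0, hψu, zero_smul, add_zero, sub_self, smul_zero]
  · intro a
    have e1 : x + a • u + ψ (x + a • u) • u = x + (a - 1) • u := by
      rw [map_add, map_smul, hψx, hψu, smul_zero, add_zero, add_assoc, ← add_smul, ← sub_eq_add_neg]
    have e3 : ∀ b : k, x + b • u ∈ Submodule.span k {x, u} := fun b =>
      Submodule.add_mem _ hxW (Submodule.smul_mem _ _ huW)
    rw [Pi.smul_apply, Pi.sub_apply, ht _ (hxa a), e1, h1 _ (hxa a) (e3 a), h1 _ (hxa _) (e3 _), smul_eq_mul,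
      ← mul_sub, ← mul_assoc, inv_mul_cancel₀ hcard, one_mul]

end Pool.Agent.Lib.MP_79a223_al.FM
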