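import Pool.Agent.Lib.MP_79a223_al.FM.Spec

/-!
# PDA: a code invariant under the transvections contains a function of the height
-/

open Equiv

namespace Pool.Agent.Lib.MP_79a223_al.FM

namespace PDAM

variable {k : Type} [Field k] {n : ℕ} {D : Type}

theorem add_ne {v w : Fin n → k} {j : Fin n} (hv : v ≠ 0) (hw : w j = 0) : v + v j • w ≠ 0 := by
  intro h
  have h1 : v j = 0 := by
    have h2 := congrFun h j
    simpa [hw] using h2
  rw [h1, zero_smul, add_zero] at h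
  exact hv h

theorem coord {v w : Fin n → k} {j i : Fin n} (hw : w i = 0) : (v + v j • w) i = v i := by
  simp [hw]

/-- the permutations induced by `v ↦ v + v j • w`, `w` supported below `j` -/
def AG (π : (Fin n → k) → D) (j : Fin n) : Subgroup (Perm D) where
  carrier := {s | ∃ w : Fin n → k, (∀ i, j ≤ i → w i = 0) ∧ ∀ v, v ≠ 0 → s (π v) = π (v + v j • w)}
  one_mem' := ⟨0, fun _ _ => rfl, fun v _ => by simp⟩
  mul_mem' := by
    rintro s t ⟨w, hw, hs⟩ ⟨w', hw', ht⟩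
    refine ⟨w' + w, fun i hi => by simp [hw i hi, hw' i hi], fun v hv => ?_⟩
    rw [Perm.mul_apply, ht v hv, hs _ (add_ne hv (hw' j le_rfl)), coord (hw' j le_rfl), smul_add, add_assoc]
  inv_mem' := by
    rintro s ⟨w, hw, hs⟩
    refine ⟨-w, fun i hi => by simp [hw i hi], fun v hv => ?_⟩
    rw [Perm.inv_eq_iff_eq]
    have hne : v + v j • (-w) ≠ 0 := add_ne hv (by simp [hw j le_rfl])
    rw [hs _ hne, coord (by simp [hw j le_rfl] : (-w) j = 0)]
    congr 1
    rw [smul_neg]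
    abel

theorem mem_AG {π : (Fin n → k) → D} {j : Fin n} {s : Perm D} : s ∈ AG π j ↔
    ∃ w : Fin n → k, (∀ i, j ≤ i → w i = 0) ∧ ∀ v, v ≠ 0 → s (π v) = π (v + v j • w) := Iff.rfl

theorem exists_trans {π : (Fin n → k) → D} {H : Subgroup (Perm D)}
    (hT : HasTransvections π H) {j : Fin n} {w : Fin n → k} (hw : ∀ i, j ≤ i → w i = 0) :
    ∃ s ∈ H, s ∈ AG π j ∧ ∀ v, v ≠ 0 → s (π v) = π (v + v j • w) := by
  obtain ⟨s, hs, h1⟩ := hT (LinearMap.proj j) w (by simpa using hw j le_rfl)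
  have h2 : ∀ v, v ≠ 0 → s (π v) = π (v + v j • w) := fun v hv => by
    simpa using h1 v hv
  exact ⟨s, hs, ⟨w, hw, h2⟩, h2⟩

theorem AG_le {π : (Fin n → k) → D} {H : Subgroup (Perm D)} (hπ : IsPoints π)
    (hT : HasTransvections π H) (j : Fin n) : AG π j ≤ H := by
  intro s hs
  obtain ⟨w, hw, h1⟩ := mem_AG.1 hs
  obtain ⟨t, ht, -, h2⟩ := exists_trans hT hw
  have : s = t := by
    ext x
    obtain ⟨v, hv, rfl⟩ := hπ.1 x
    rw [h1 v hv, h2 v hv]
  rw [this]
  exact ht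

theorem AG_pow {π : (Fin n → k) → D} {j : Fin n} {s : Perm D} {w : Fin n → k}
    (hw : ∀ i, j ≤ i → w i = 0) (hs : ∀ v, v ≠ 0 → s (π v) = π (v + v j • w)) (m : ℕ) :
    ∀ v, v ≠ 0 → (s ^ m) (π v) = π (v + v j • ((m : k) • w)) := by
  induction m with
  | zero => intro v _; simp
  | succ m ih =>
    intro v hv
    have hw' : ((m : k) • w) j = 0 := by simp [hw j le_rfl]
    rw [pow_succ', Perm.mul_apply, ih v hv, hs _ (add_ne hv hw'), coord hw']
    congr 1
    rw [add_assoc, ← smul_add]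
    congr 2
    rw [Nat.cast_succ, add_smul, one_smul]

theorem AG_pgroup {π : (Fin n → k) → D} (hπ : IsPoints π) (j : Fin n) (p : ℕ) [CharP k p] :
    IsPGroup p (AG π j) := by
  intro g
  refine ⟨1, ?_⟩
  rw [pow_one]
  apply Subtype.ext
  obtain ⟨w, hw, h1⟩ := mem_AG.1 g.2
  ext x
  obtain ⟨v, hv, rfl⟩ := hπ.1 x
  have h2 := AG_pow hw h1 p v hv
  rw [CharP.cast_eq_zero, zero_smul, smul_zero, add_zero] at h2
  rw [SubmonoidClass.coe_pow, h2]
  rfl

/-- the codes of the induction -/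
def Cm {p : ℕ} (π : (Fin n → k) → D) (C : Submodule (ZMod p) (D → ZMod p)) (m : ℕ) :
    Submodule (ZMod p) (D → ZMod p) where
  carrier := {f | f ∈ C ∧ ∀ j : Fin n, m ≤ j.1 → ∀ v w : Fin n → k, SameHt j v w → f (π v) = f (π w)}
  add_mem' := by
    rintro a b ⟨ha, ha'⟩ ⟨hb, hb'⟩
    refine ⟨C.add_mem ha hb, fun j hj v w h => ?_⟩
    rw [Pi.add_apply, Pi.add_apply, ha' j hj v w h, hb' j hj v w h]
  zero_mem' := ⟨C.zero_mem, fun _ _ _ _ _ => rfl⟩
  smul_mem' := by
    rintro c a ⟨ha, ha'⟩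
    refine ⟨C.smul_mem c ha, fun j hj v w h => ?_⟩
    rw [Pi.smul_apply, Pi.smul_apply, ha' j hj v w h]

theorem mem_Cm {p : ℕ} {π : (Fin n → k) → D} {C : Submodule (ZMod p) (D → ZMod p)} {m : ℕ} {f : D → ZMod p} :
    f ∈ Cm π C m ↔ f ∈ C ∧ ∀ j : Fin n, m ≤ j.1 → ∀ v w : Fin n → k, SameHt j v w → f (π v) = f (π w) :=
  Iff.rfl

end PDAM

open PDAM

theorem specPDA (hPGF : SpecPGF) : SpecPDA := by
  intro k _ _ n D _ π H p _ hπ hT _ C hC hinv
  have key : ∀ i : ℕ, i ≤ n → Cm π C (n - i) ≠ ⊥ := by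
    intro i
    induction i with
    | zero =>
      intro _ hbot
      apply hC
      rw [eq_bot_iff] at hbot ⊢
      intro f hf
      refine hbot (mem_Cm.2 ⟨hf, fun j hj => ?_⟩)
      have := j.2
      omega
    | succ i ih =>
      intro hi
      have h1 := ih (by omega)
      obtain ⟨j0, hj0⟩ : ∃ j0, n - i = j0 + 1 := ⟨n - i - 1, by omega⟩
      have hj0' : n - (i + 1) = j0 := by omega
      rw [hj0] at h1
      rw [hj0']
      set j : Fin n := ⟨j0, by omega⟩ with hj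
      have hle := AG_le hπ hT j
      have hinvA : Inv (AG π j) p (Cm π C (j0 + 1)) := by
        intro s hs f hf
        obtain ⟨hf1, hf2⟩ := mem_Cm.1 hf
        refine mem_Cm.2 ⟨hinv s (hle hs) f hf1, fun j' hj' v w hvw => ?_⟩
        obtain ⟨u, hu, h3⟩ := mem_AG.1 ((AG π j).inv_mem hs)
        have hv0 : v ≠ 0 := fun h => hvw.1 (by rw [h]; rfl)
        have hw0 : w ≠ 0 := fun h => hvw.2.1 (by rw [h]; rfl)
        rw [rho_apply, rho_apply, h3 v hv0, h3 w hw0]
        have hjj' : j ≤ j' := by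
          rw [Fin.le_def]
          change j0 ≤ j'.1
          omega
        refine hf2 j' hj' _ _ ⟨?_, ?_, fun i' hi' => ⟨?_, ?_⟩⟩
        · rw [coord (hu j' hjj')]; exact hvw.1
        · rw [coord (hu j' hjj')]; exact hvw.2.1
        · rw [coord (hu i' (hjj'.trans hi'.le))]; exact (hvw.2.2 i' hi').1
        · rw [coord (hu i' (hjj'.trans hi'.le))]; exact (hvw.2.2 i' hi').2
      obtain ⟨f, hf, hf0, hfix⟩ := hPGF D (AG π j) p (Cm π C (j0 + 1)) (AG_pgroup hπ j p) h1 hinvA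
      obtain ⟨hf1, hf2⟩ := mem_Cm.1 hf
      intro hbot
      apply hf0
      rw [eq_bot_iff] at hbot
      have : f ∈ Cm π C j0 := by
        refine mem_Cm.2 ⟨hf1, fun j' hj' v w hvw => ?_⟩
        rcases Nat.lt_or_ge j0 j'.1 with hlt | hge
        · exact hf2 j' hlt v w hvw
        have hjj : j' = j := Fin.ext (by
          change j'.1 = j0
          omega)
        rw [hjj] at hvw
        have hv0 : v ≠ 0 := fun h => hvw.1 (by rw [h]; rfl)
        have hw0 : w ≠ 0 := fun h => hvw.2.1 (by rw [h]; rfl)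
        have hvi : (v j)⁻¹ ≠ 0 := inv_ne_zero hvw.1
        have hwi : (w j)⁻¹ ≠ 0 := inv_ne_zero hvw.2.1
        have hv1 : (v j)⁻¹ • v ≠ 0 := smul_ne_zero hvi hv0
        have hw1 : (w j)⁻¹ • w ≠ 0 := smul_ne_zero hwi hw0
        have e1 : π ((v j)⁻¹ • v) = π v := ((hπ.2 _ _ hv0 hv1).2 ⟨_, rfl⟩).symm
        have e2 : π ((w j)⁻¹ • w) = π w := ((hπ.2 _ _ hw0 hw1).2 ⟨_, rfl⟩).symm
        have hu : ∀ i, j ≤ i → ((w j)⁻¹ • w - (v j)⁻¹ • v) i = 0 := by
          intro i hi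
          rcases hi.eq_or_lt with h | h
          · subst h
            simp [hvw.1, hvw.2.1]
          · obtain ⟨h5, h6⟩ := hvw.2.2 i h
            simp [h5, h6]
        obtain ⟨s, hs, hsA, h3⟩ := exists_trans hT hu
        have h4 := h3 _ hv1
        have h5 : ((v j)⁻¹ • v) j = 1 := by simp [hvw.1]
        rw [h5, one_smul, add_sub_cancel] at h4
        have h6 := congrFun (hfix s hsA) (s (π ((v j)⁻¹ • v)))
        rw [rho_apply, pinv, h4, e1, e2] at h6
        exact h6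
      exact (Submodule.mem_bot _).1 (hbot this)
  have h0 := key n le_rfl
  rw [Nat.sub_self] at h0
  obtain ⟨f, hf, hf0⟩ := Submodule.exists_mem_ne_zero_of_ne_bot h0
  obtain ⟨hf1, hf2⟩ := mem_Cm.1 hf
  exact ⟨f, hf1, hf0, fun j v w h => hf2 j (Nat.zero_le _) v w h⟩

end Pool.Agent.Lib.MP_79a223_al.FM
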