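import Pool.Agent.Lib.MP_79a223_al.FM.Spec

/-! # Module PDB (helper4) -/

open Equiv

namespace Pool.Agent.Lib.MP_79a223_al.FM

namespace PDBM

open Finset

variable {k : Type} [Field k] [Fintype k] {n : ℕ} {D : Type} [Fintype D] {π : (Fin n → k) → D}
  {H : Subgroup (Perm D)} {p : ℕ} [Fact p.Prime]

theorem avg (hT : HasTransvections π H)
    {C : Submodule (ZMod p) (D → ZMod p)} (hC : Inv H p C) {c : D → ZMod p} (hc : c ∈ C)
    {j m : Fin n} (hjm : j ≠ m) : ∃ g ∈ C, ∀ v, v ≠ 0 →
      g (π v) = ∑ μ : k, c (π (v + (μ * v j) • Pi.single m 1)) := by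
  classical
  have h : ∀ μ : k, ∃ s ∈ H, ∀ v, v ≠ 0 → s (π v) = π (v + (μ * v j) • Pi.single m 1) := by
    intro μ
    obtain ⟨s, hs, hsv⟩ := hT (μ • LinearMap.proj j) (Pi.single m 1) (by
      simp [Pi.single_eq_of_ne hjm])
    refine ⟨s, hs, fun v hv => ?_⟩
    rw [hsv v hv]
    rfl
  choose s hs hsv using h
  refine ⟨∑ μ, rho p (s μ)⁻¹ c, C.sum_mem fun μ _ => hC _ (H.inv_mem (hs μ)) _ hc, ?_⟩
  intro v hv
  rw [Finset.sum_apply]
  refine Finset.sum_congr rfl fun μ _ => ?_
  show c (((s μ)⁻¹)⁻¹ (π v)) = _
  rw [inv_inv, hsv μ v hv]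

theorem card_zero (hk : CharP k p) : (Fintype.card k : ZMod p) = 0 := by
  have h1 : (Fintype.card k : k) = 0 := Nat.cast_card_eq_zero k
  exact (ZMod.natCast_eq_zero_iff _ _).mpr ((CharP.cast_eq_zero_iff k p _).mp h1)

theorem sum_const_zero (hk : CharP k p) (a : ZMod p) : ∑ _μ : k, a = 0 := by
  rw [Finset.sum_const, Finset.card_univ, nsmul_eq_mul, card_zero hk, zero_mul]

open Classical in
theorem count (hk : CharP k p) (x y : k) (hy : y ≠ 0) (a b : ZMod p) :
    ∑ μ : k, (if x + μ * y = 0 then a else b) = a - b := by
  have h1 : ∀ μ : k, (if x + μ * y = 0 then a else b) = b + if μ = -(x / y) then a - b else 0 := by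
    intro μ
    have h2 : x + μ * y = 0 ↔ μ = -(x / y) := by
      constructor
      · intro h
        field_simp
        linear_combination h
      · rintro rfl
        field_simp
        ring
    by_cases h : x + μ * y = 0
    · rw [if_pos h, if_pos (h2.mp h)]
      ring
    · rw [if_neg h, if_neg (fun h' => h (h2.mpr h')), add_zero]
  rw [Finset.sum_congr rfl fun μ _ => h1 μ, Finset.sum_add_distrib, sum_const_zero hk, zero_add,
    Finset.sum_ite_eq' Finset.univ]
  simp

theorem exists_last {v : Fin n → k} (hv : v ≠ 0) : ∃ j, v j ≠ 0 ∧ ∀ i, j < i → v i = 0 := by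
  classical
  obtain ⟨i0, hi0⟩ := Function.ne_iff.mp hv
  have hne : (Finset.univ.filter fun i => v i ≠ 0).Nonempty := ⟨i0, by simpa using hi0⟩
  refine ⟨(Finset.univ.filter fun i => v i ≠ 0).max' hne, ?_, ?_⟩
  · have := Finset.max'_mem _ hne
    exact (Finset.mem_filter.mp this).2
  · intro i hi
    by_contra h
    have := Finset.le_max' (Finset.univ.filter fun i => v i ≠ 0) i
      (Finset.mem_filter.mpr ⟨Finset.mem_univ _, h⟩)
    exact absurd hi (not_lt.mpr this)

theorem coord (v : Fin n → k) (a : k) (m i : Fin n) :
    (v + a • (Pi.single m 1 : Fin n → k)) i = if i = m then v i + a else v i := by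
  by_cases h : i = m
  · subst h
    simp
  · rw [Pi.add_apply, Pi.smul_apply, Pi.single_eq_of_ne h, smul_zero, add_zero, if_neg h]

theorem ne_zero {v : Fin n → k} {a : k} {j m : Fin n} (hjm : j ≠ m) (hv : v j ≠ 0) :
    v + a • (Pi.single m 1 : Fin n → k) ≠ 0 := by
  intro h
  have := congrFun h j
  rw [coord, if_neg hjm] at this
  exact hv this

open Classical in
/-- the property of `g_m` -/
def Gm (π : (Fin n → k) → D) (j : Fin n) (m : ℕ) (g : D → ZMod p) : Prop :=
  ∀ v, v ≠ 0 → g (π v) = if v j ≠ 0 ∧ ∀ i : Fin n, m ≤ i.val → v i = 0 then 1 else 0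

theorem step (hT : HasTransvections π H) (hk : CharP k p)
    {C : Submodule (ZMod p) (D → ZMod p)} (hC : Inv H p C) {j : Fin n} {m : ℕ} (hjm : j.val < m)
    (hm : m < n) {c : D → ZMod p} (hc : c ∈ C) (hG : Gm π j m c) :
    ∃ g ∈ C, Gm π j (m + 1) g := by
  classical
  have hjm' : j ≠ ⟨m, hm⟩ := fun h => by
    rw [h] at hjm
    exact lt_irrefl _ hjm
  obtain ⟨g, hg, hgv⟩ := avg hT hC hc hjm'
  refine ⟨g, hg, fun v hv => ?_⟩
  rw [hgv v hv]
  by_cases hvj : v j = 0
  · have h1 : ∀ μ : k, c (π (v + (μ * v j) • Pi.single (⟨m, hm⟩ : Fin n) 1)) = 0 := by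
      intro μ
      rw [hvj, mul_zero, zero_smul, add_zero, hG v hv, if_neg]
      exact fun h => h.1 hvj
    rw [Finset.sum_eq_zero fun μ _ => h1 μ, if_neg]
    exact fun h => h.1 hvj
  · by_cases hz : ∀ i : Fin n, m + 1 ≤ i.val → v i = 0
    · rw [if_pos ⟨hvj, hz⟩]
      have h1 : ∀ μ : k, c (π (v + (μ * v j) • Pi.single (⟨m, hm⟩ : Fin n) 1)) =
          if v ⟨m, hm⟩ + μ * v j = 0 then 1 else 0 := by
        intro μ
        rw [hG _ (ne_zero hjm' hvj)]
        congr 1
        apply propext
        constructor
        · rintro ⟨-, h⟩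
          have := h ⟨m, hm⟩ le_rfl
          rwa [coord, if_pos rfl] at this
        · intro h
          refine ⟨by rw [coord, if_neg hjm']; exact hvj, ?_⟩
          intro i hi
          rw [coord]
          by_cases him : i = ⟨m, hm⟩
          · rw [if_pos him, him]
            exact h
          · rw [if_neg him]
            apply hz
            have : i.val ≠ m := fun h' => him (Fin.ext h')
            omega
      rw [Finset.sum_congr rfl fun μ _ => h1 μ, count hk _ _ hvj, sub_zero]
    · rw [if_neg fun h => hz h.2]
      apply Finset.sum_eq_zero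
      intro μ _
      rw [hG _ (ne_zero hjm' hvj), if_neg]
      rintro ⟨-, h⟩
      apply hz
      intro i hi
      have := h i (by omega)
      rw [coord, if_neg (fun h' => by rw [h'] at hi; simp at hi)] at this
      exact this

end PDBM

open PDBM in
theorem specPDB : SpecPDB := by
  classical
  intro k _ _ n D _ π H p _ hπ hT hk C hC f hf hf0 hconst
  set a : Fin n → ZMod p := fun j => f (π (Pi.single j 1)) with ha
  have hval : ∀ (v : Fin n → k) (j : Fin n), v j ≠ 0 → (∀ i, j < i → v i = 0) → f (π v) = a j := by
    intro v j hvj hv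
    apply hconst j
    refine ⟨hvj, by simp, fun i hi => ⟨hv i hi, ?_⟩⟩
    exact Pi.single_eq_of_ne hi.ne' _
  by_cases hall : ∀ (i : ℕ) (hi : i + 1 < n), a ⟨i, by omega⟩ = a ⟨i + 1, hi⟩
  · left
    -- all `a j` are equal
    obtain ⟨x0, hx0⟩ := Function.ne_iff.mp hf0
    obtain ⟨v0, hv0, rfl⟩ := hπ.1 x0
    obtain ⟨j0, hj0, hj0'⟩ := exists_last hv0
    have hn : 0 < n := j0.pos
    have h0 : ∀ (i : ℕ) (hi : i < n), a ⟨i, hi⟩ = a ⟨0, hn⟩ := by
      intro i
      induction i with
      | zero => intro _; rfl
      | succ i ih =>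
        intro hi
        rw [← hall i hi]
        exact ih (by omega)
    have hfc : ∀ x, f x = a ⟨0, hn⟩ := by
      intro x
      obtain ⟨v, hv, rfl⟩ := hπ.1 x
      obtain ⟨j, hj, hj'⟩ := exists_last hv
      rw [hval v j hj hj']
      exact h0 j.val j.isLt
    have hc0 : a ⟨0, hn⟩ ≠ 0 := by
      rw [← hfc (π v0)]
      exact hx0
    have : (fun _ => 1 : D → ZMod p) = (a ⟨0, hn⟩)⁻¹ • f := by
      ext x
      rw [Pi.smul_apply, hfc x, smul_eq_mul, inv_mul_cancel₀ hc0]
    rw [this]
    exact C.smul_mem _ hf
  · right
    push Not at hall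
    obtain ⟨i, hi, hne⟩ := hall
    set j : Fin n := ⟨i, by omega⟩ with hj
    set j' : Fin n := ⟨i + 1, hi⟩ with hj'
    have hjj' : j ≠ j' := fun h => by
      have := congrArg Fin.val h
      simp [hj, hj'] at this
    obtain ⟨g, hg, hgv⟩ := avg hT hC hf hjj'
    have hG : Gm π j (i + 2) ((a j - a j')⁻¹ • g) := by
      intro v hv
      rw [Pi.smul_apply, smul_eq_mul, hgv v hv]
      have hd : a j - a j' ≠ 0 := sub_ne_zero.mpr hne
      by_cases hvj : v j = 0
      · rw [if_neg (fun h => h.1 hvj)]
        have h1 : ∀ μ : k, f (π (v + (μ * v j) • Pi.single j' 1)) = f (π v) := by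
          intro μ
          rw [hvj, mul_zero, zero_smul, add_zero]
        rw [Finset.sum_congr rfl fun μ _ => h1 μ, sum_const_zero hk, mul_zero]
      · by_cases hz : ∀ l : Fin n, i + 2 ≤ l.val → v l = 0
        · rw [if_pos ⟨hvj, hz⟩]
          have h1 : ∀ μ : k, f (π (v + (μ * v j) • Pi.single j' 1)) =
              if v j' + μ * v j = 0 then a j else a j' := by
            intro μ
            by_cases hμ : v j' + μ * v j = 0
            · rw [if_pos hμ]
              apply hval
              · rw [coord, if_neg hjj']
                exact hvj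
              · intro l hl
                rw [coord]
                by_cases hlj : l = j'
                · rw [if_pos hlj, hlj]
                  exact hμ
                · rw [if_neg hlj]
                  apply hz
                  have h3 : l.val ≠ i + 1 := fun h' => hlj (Fin.ext h')
                  have h4 : i < l.val := hl
                  omega
            · rw [if_neg hμ]
              apply hval
              · rw [coord, if_pos rfl]
                exact hμ
              · intro l hl
                have h4 : i + 1 < l.val := hl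
                rw [coord, if_neg (fun h' => by rw [h'] at hl; exact lt_irrefl _ hl)]
                exact hz l (by omega)
          rw [Finset.sum_congr rfl fun μ _ => h1 μ, count hk _ _ hvj, inv_mul_cancel₀ hd]
        · rw [if_neg fun h => hz h.2]
          push Not at hz
          obtain ⟨l0, hl0, hvl0⟩ := hz
          obtain ⟨l, hl, hl'⟩ := exists_last hv
          have hlb : i + 2 ≤ l.val := by
            by_contra hlt
            apply hvl0
            apply hl'
            show l.val < l0.val
            omega
          have hlj' : l ≠ j' := fun h' => by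
            rw [h'] at hlb
            simp [hj'] at hlb
          have h1 : ∀ μ : k, f (π (v + (μ * v j) • Pi.single j' 1)) = a l := by
            intro μ
            apply hval
            · rw [coord, if_neg hlj']
              exact hl
            · intro r hr
              have h4 : l.val < r.val := hr
              rw [coord, if_neg (fun h' => by
                have := congrArg Fin.val h'
                simp [hj'] at this
                omega)]
              exact hl' r hr
          rw [Finset.sum_congr rfl fun μ _ => h1 μ, sum_const_zero hk, mul_zero]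
    have hrec : ∀ m : ℕ, i + 2 + m ≤ n → ∃ g ∈ C, Gm π j (i + 2 + m) g := by
      intro m
      induction m with
      | zero => exact fun _ => ⟨_, C.smul_mem _ hg, hG⟩
      | succ m ih =>
        intro hm
        obtain ⟨g, hg, hG⟩ := ih (by omega)
        exact step (m := i + 2 + m) hT hk hC (by show i < i + 2 + m; omega) (by omega) hg hG
    obtain ⟨g', hg', hG'⟩ := hrec (n - (i + 2)) (by omega)
    refine ⟨LinearMap.proj j, g', ?_, hg', ?_⟩
    · intro h
      have := LinearMap.congr_fun h (Pi.single j 1)
      simp at this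
    · intro v hv
      have h1 := hG' v hv
      constructor
      · intro h0
        rw [h1, if_neg]
        exact fun h => h.1 h0
      · intro h0
        rw [h1, if_pos]
        refine ⟨h0, fun l hl => ?_⟩
        have := l.isLt
        omega

end Pool.Agent.Lib.MP_79a223_al.FM
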