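import Pool.Agent.Lib.MP_79a223_al.FM.Spec

/-!
# MP_79a223_al, module PDC: all complements of hyperplanes are in the code
-/

set_option autoImplicit false

open Equiv

namespace Pool.Agent.Lib.MP_79a223_al.FM

namespace PDCM

/-- if the kernel of `ψ` is contained in the kernel of `φ` then they are equal -/
theorem ker_eq {k V : Type} [Field k] [AddCommGroup V] [Module k V] (φ ψ : V →ₗ[k] k)
    (hφ : φ ≠ 0) (hψ : ψ ≠ 0) (h : ∀ v, ψ v = 0 → φ v = 0) : ∀ v, φ v = 0 ↔ ψ v = 0 := by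
  obtain ⟨z, hz⟩ : ∃ z, ψ z ≠ 0 := by
    by_contra hcon
    push Not at hcon
    exact hψ (LinearMap.ext fun v => by rw [hcon v]; rfl)
  have h1 : ∀ v, φ v = ψ v * (ψ z)⁻¹ * φ z := by
    intro v
    have h2 : ψ (v - (ψ v * (ψ z)⁻¹) • z) = 0 := by
      rw [map_sub, map_smul, smul_eq_mul, mul_assoc, inv_mul_cancel₀ hz, mul_one, sub_self]
    have h3 := h _ h2
    rw [map_sub, map_smul, smul_eq_mul, sub_eq_zero] at h3
    exact h3
  have h4 : φ z ≠ 0 := by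
    intro h0
    exact hφ (LinearMap.ext fun v => by rw [h1 v, h0, mul_zero]; rfl)
  intro v
  refine ⟨fun h5 => ?_, h v⟩
  rw [h1 v] at h5
  rcases mul_eq_zero.1 h5 with h6 | h6
  · rcases mul_eq_zero.1 h6 with h7 | h7
    · exact h7
    · exact absurd h7 (inv_ne_zero hz)
  · exact absurd h6 h4

theorem exists_w {k V : Type} [Field k] [AddCommGroup V] [Module k V] (φ ψ : V →ₗ[k] k)
    (hφ : φ ≠ 0) (hψ : ψ ≠ 0) (h : ¬ ∀ v, φ v = 0 ↔ ψ v = 0) : ∃ w, φ w = 1 ∧ ψ w = 1 := by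
  have h1 : ∃ w, ψ w = 0 ∧ φ w ≠ 0 := by
    by_contra hcon
    push Not at hcon
    exact h (ker_eq φ ψ hφ hψ hcon)
  have h2 : ∃ w, φ w = 0 ∧ ψ w ≠ 0 := by
    by_contra hcon
    push Not at hcon
    exact h fun v => (ker_eq ψ φ hψ hφ hcon v).symm
  obtain ⟨w₁, a1, a2⟩ := h1
  obtain ⟨w₂, b1, b2⟩ := h2
  refine ⟨(φ w₁)⁻¹ • w₁ + (ψ w₂)⁻¹ • w₂, ?_, ?_⟩
  · rw [map_add, map_smul, map_smul, b1, smul_zero, add_zero, smul_eq_mul, inv_mul_cancel₀ a2]
  · rw [map_add, map_smul, map_smul, a1, smul_zero, zero_add, smul_eq_mul, inv_mul_cancel₀ b2]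

end PDCM

open PDCM

theorem specPDC : SpecPDC := by
  intro k _ _ n D _ π H p hπ hT C hC φ g hφ hg hgv g' hg'
  obtain ⟨ψ, hψ, hg'v⟩ := hg'
  by_cases hcase : ∀ v, φ v = 0 ↔ ψ v = 0
  · have h1 : g' = g := by
      funext x
      obtain ⟨v, hv, rfl⟩ := hπ.1 x
      by_cases h0 : φ v = 0
      · rw [(hgv v hv).1 h0, (hg'v v hv).1 ((hcase v).1 h0)]
      · rw [(hgv v hv).2 h0, (hg'v v hv).2 (fun h => h0 ((hcase v).2 h))]
    rw [h1]
    exact hg
  · obtain ⟨w, hw1, hw2⟩ := exists_w φ ψ hφ hψ hcase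
    have hw : (ψ - φ) w = 0 := by rw [LinearMap.sub_apply, hw1, hw2, sub_self]
    obtain ⟨s, hs, hsv⟩ := hT (ψ - φ) w hw
    have h1 : g' = rho p s⁻¹ g := by
      funext x
      obtain ⟨v, hv, rfl⟩ := hπ.1 x
      have hv' : v + (ψ - φ) v • w ≠ 0 := by
        intro h0
        have h2 : (ψ - φ) (v + (ψ - φ) v • w) = 0 := by rw [h0, map_zero]
        rw [map_add, map_smul, hw, smul_zero, add_zero] at h2
        rw [h2, zero_smul, add_zero] at h0
        exact hv h0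
      have hφv : φ (v + (ψ - φ) v • w) = ψ v := by
        rw [map_add, map_smul, hw1, LinearMap.sub_apply, smul_eq_mul, mul_one]
        ring
      have h3 : rho p s⁻¹ g (π v) = g (π (v + (ψ - φ) v • w)) := by
        rw [rho_apply, inv_inv, hsv v hv]
      rw [h3]
      by_cases h0 : ψ v = 0
      · rw [(hg'v v hv).1 h0, (hgv _ hv').1 (by rw [hφv]; exact h0)]
      · rw [(hg'v v hv).2 h0, (hgv _ hv').2 (by rw [hφv]; exact h0)]
    rw [h1]
    exact hC _ (H.inv_mem hs) g hg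

end Pool.Agent.Lib.MP_79a223_al.FM
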