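import Pool.Agent.Lib.MP_79a223_al.FM.Spec

/-!
# PDG: the functions `offs` in the defining characteristic
-/

open Equiv

namespace Pool.Agent.Lib.MP_79a223_al.FM

namespace PDGM

open Finset

open scoped Classical

variable {k : Type} [Field k] [Fintype k] {n : ℕ} {D : Type} [Fintype D] {π : (Fin n → k) → D}
  {p : ℕ} [Fact p.Prime]

theorem card_fib (hπ : IsPoints π) (x : D) :
    (univ.filter fun v : Fin n → k => v ≠ 0 ∧ π v = x).card = Fintype.card k - 1 := by
  obtain ⟨v₀, h0, rfl⟩ := hπ.1 x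
  have h : (univ.filter fun v : Fin n → k => v ≠ 0 ∧ π v = π v₀) =
      (univ : Finset kˣ).image (fun a : kˣ => (a : k) • v₀) := by
    ext v
    simp only [mem_filter, mem_univ, true_and, mem_image]
    constructor
    · rintro ⟨hv, hπv⟩
      obtain ⟨a, ha⟩ := (hπ.2 v₀ v h0 hv).1 hπv.symm
      have ha0 : a ≠ 0 := by
        rintro rfl
        apply hv
        rw [ha, zero_smul]
      exact ⟨Units.mk0 a ha0, by rw [Units.val_mk0, ha]⟩
    · rintro ⟨a, rfl⟩
      have h1 : (a : k) • v₀ ≠ 0 := smul_ne_zero a.ne_zero h0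
      exact ⟨h1, ((hπ.2 v₀ _ h0 h1).2 ⟨(a : k), rfl⟩).symm⟩
  rw [h, card_image_of_injective, card_univ, Fintype.card_units]
  intro a b hab
  exact Units.ext (smul_left_injective k h0 hab)

theorem count (hπ : IsPoints π) (hq : ((Fintype.card k : ℕ) : ZMod p) = 0) (F : D → ZMod p) :
    ∑ v ∈ univ.filter (fun v : Fin n → k => v ≠ 0), F (π v) = -∑ x, F x := by
  rw [← sum_fiberwise _ π, ← sum_neg_distrib]
  refine sum_congr rfl fun x _ => ?_
  have h : ∀ v ∈ (univ.filter fun v : Fin n → k => v ≠ 0).filter (fun v => π v = x),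
      F (π v) = F x := by
    intro v hv
    rw [(mem_filter.1 hv).2]
  rw [sum_congr rfl h, sum_const, filter_filter, card_fib hπ, nsmul_eq_mul,
    Nat.cast_sub Fintype.card_pos, hq]
  simp

theorem dvd_card [CharP k p] (V : Type) [AddCommGroup V] [Module k V] [Fintype V] {u : V}
    (hu : u ≠ 0) : p ∣ Fintype.card V := by
  have h : addOrderOf u = p := by
    refine addOrderOf_eq_prime ?_ hu
    rw [← Nat.cast_smul_eq_nsmul k, CharP.cast_eq_zero, zero_smul]
  rw [← h]
  exact addOrderOf_dvd_card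

theorem ker_ne (hπ : IsPoints π) (hxy : ∃ x y : D, x ≠ y) (φ : (Fin n → k) →ₗ[k] k) :
    ∃ u, u ≠ 0 ∧ φ u = 0 := by
  obtain ⟨x, y, hne⟩ := hxy
  obtain ⟨v, hv, rfl⟩ := hπ.1 x
  obtain ⟨w, hw, rfl⟩ := hπ.1 y
  by_cases h : φ v = 0
  · exact ⟨v, hv, h⟩
  · refine ⟨φ v • w - φ w • v, ?_, ?_⟩
    · intro h0
      apply hne
      rw [hπ.2 v w hv hw]
      refine ⟨(φ v)⁻¹ * φ w, ?_⟩
      rw [sub_eq_zero] at h0
      rw [mul_smul, ← h0, smul_smul, inv_mul_cancel₀ h, one_smul]
    · simp [mul_comm]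

end PDGM

open PDGM in
/-- PDG. -/
theorem specPDG : SpecPDG := by
  classical
  intro k _ _ n D _ π H p _ hxy hπ _ hH
  have hq : ((Fintype.card k : ℕ) : ZMod p) = 0 := by
    rw [ZMod.natCast_eq_zero_iff]
    exact (CharP.cast_eq_zero_iff k p _).1 (FiniteField.cast_card_eq_zero k)
  have hV : ((Fintype.card (Fin n → k) : ℕ) : ZMod p) = 0 := by
    obtain ⟨x, _, _⟩ := id hxy
    obtain ⟨v, hv, _⟩ := hπ.1 x
    rw [ZMod.natCast_eq_zero_iff]
    exact dvd_card (k := k) (Fin n → k) hv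
  refine ⟨?_, ?_, ?_, ?_⟩
  · have h1 := count hπ hq (fun _ : D => (1 : ZMod p))
    rw [Finset.filter_ne', Finset.sum_erase_eq_sub (Finset.mem_univ _), Finset.sum_const,
      Finset.sum_const, Finset.card_univ, Finset.card_univ, nsmul_eq_mul, nsmul_eq_mul, hV] at h1
    simp only [mul_one, zero_sub, neg_inj] at h1
    exact h1.symm
  · rintro g ⟨φ, _, hg⟩
    have h1 := count hπ hq g
    have h2 : ∑ v ∈ Finset.univ.filter (fun v : Fin n → k => v ≠ 0), g (π v) =
        ∑ v : Fin n → k, if φ v = 0 then 0 else 1 := by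
      rw [Finset.sum_filter]
      refine Finset.sum_congr rfl fun v _ => ?_
      by_cases hv : v = 0
      · simp [hv]
      · rw [if_pos hv]
        by_cases hφ : φ v = 0
        · rw [if_pos hφ, (hg v hv).1 hφ]
        · rw [if_neg hφ, (hg v hv).2 hφ]
    have h3 : ∑ v : Fin n → k, (if φ v = 0 then (0 : ZMod p) else 1) = 0 := by
      have h4 : ∀ v : Fin n → k, (if φ v = 0 then (0 : ZMod p) else 1) =
          1 - (if φ v = 0 then 1 else 0) := by
        intro v
        split_ifs <;> simp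
      rw [Finset.sum_congr rfl fun v _ => h4 v, Finset.sum_sub_distrib, Finset.sum_boole,
        Finset.sum_const, Finset.card_univ, nsmul_eq_mul, hV]
      have h5 : (Finset.univ.filter fun v : Fin n → k => φ v = 0).card =
          Fintype.card (LinearMap.ker φ) := by
        rw [Fintype.card_of_subtype]
        intro v
        simp [LinearMap.mem_ker]
      obtain ⟨u, hu, hφu⟩ := ker_ne hπ hxy φ
      have h6 : p ∣ Fintype.card (LinearMap.ker φ) :=
        dvd_card (k := k) (LinearMap.ker φ) (u := ⟨u, hφu⟩)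
          (fun h => hu (congrArg Subtype.val h))
      rw [h5, (ZMod.natCast_eq_zero_iff _ _).2 h6]
      simp
    rw [h2, h3] at h1
    exact neg_eq_zero.1 h1.symm
  · obtain ⟨x, _, _⟩ := id hxy
    obtain ⟨v, hv, _⟩ := hπ.1 x
    obtain ⟨i, hi⟩ := Function.ne_iff.1 hv
    set φ : (Fin n → k) →ₗ[k] k := LinearMap.proj i with hφ
    obtain ⟨u, hu, hφu⟩ := ker_ne hπ hxy φ
    choose rep hrep0 hrep using hπ.1
    have hz : ∀ w : Fin n → k, w ≠ 0 → (φ (rep (π w)) = 0 ↔ φ w = 0) := by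
      intro w hw
      obtain ⟨a, ha⟩ := (hπ.2 w (rep (π w)) hw (hrep0 _)).1 (hrep _).symm
      have ha0 : a ≠ 0 := by
        rintro rfl
        apply hrep0 (π w)
        rw [ha, zero_smul]
      rw [ha, map_smul, smul_eq_mul, mul_eq_zero]
      exact ⟨fun h => h.resolve_left ha0, Or.inr⟩
    refine ⟨fun x => if φ (rep x) = 0 then 0 else 1, ⟨φ, ?_, ?_⟩, π v, π u, ?_⟩
    · intro h
      apply hi
      have := congrArg (fun ψ : (Fin n → k) →ₗ[k] k => ψ v) h
      simpa [hφ] using this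
    · intro w hw
      refine ⟨fun h => if_pos ((hz w hw).2 h), fun h => if_neg fun h' => h ((hz w hw).1 h')⟩
    · change (if φ (rep (π v)) = 0 then (0 : ZMod p) else 1) ≠
        if φ (rep (π u)) = 0 then (0 : ZMod p) else 1
      rw [if_neg fun h => hi ((hz v hv).1 h), if_pos ((hz u hu).2 hφu)]
      exact one_ne_zero
  · rintro s hs g ⟨φ, hφ, hg⟩
    obtain ⟨ψ, hψ, hψs⟩ := hH s hs φ hφ
    refine ⟨ψ, hψ, ?_⟩
    intro w hw
    obtain ⟨v, hv, hvw⟩ := hπ.1 (s⁻¹ (π w))
    have h1 : s (π v) = π w := by rw [hvw, pinv']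
    have h2 := hψs v w hv hw h1
    rw [rho_apply, ← hvw]
    exact ⟨fun h => (hg v hv).1 (h2.2 h), fun h => (hg v hv).2 fun h' => h (h2.1 h')⟩

end Pool.Agent.Lib.MP_79a223_al.FM
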