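import Pool.Agent.Lib.MP_79a223_al.FM.Spec

/-!
# MP_79a223_al, module PGF: a `p`-group fixes a nonzero element of every nonzero invariant code
-/

set_option autoImplicit false

open Equiv

namespace Pool.Agent.Lib.MP_79a223_al.FM

/-- module PGF -/
theorem specPGF : SpecPGF := by
  intro D _ P p _ C hP hC hInv
  have hone : ∀ f : D → ZMod p, rho p (1 : Perm D) f = f := fun f => by
    ext x
    show f ((1 : Perm D)⁻¹ x) = f x
    simp
  have hmul : ∀ (s t : Perm D) (f : D → ZMod p), rho p (s * t) f = rho p s (rho p t f) := by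
    intro s t f
    ext x
    show f ((s * t)⁻¹ x) = f (t⁻¹ (s⁻¹ x))
    rw [mul_inv_rev]
    rfl
  let _ : MulAction P C :=
    { smul := fun s f => ⟨rho p (s : Perm D) f.1, hInv s s.2 f.1 f.2⟩
      one_smul := fun f => Subtype.ext (hone f.1)
      mul_smul := fun s t f => Subtype.ext (hmul s t f.1) }
  have hfin : Finite C := inferInstance
  obtain ⟨g, hgC, hg0⟩ := (Submodule.ne_bot_iff C).1 hC
  have hdvd : p ∣ Nat.card C := by
    have : Fintype C := Fintype.ofFinite C
    rw [Nat.card_eq_fintype_card, Module.card_eq_pow_finrank (K := ZMod p) (V := C), ZMod.card]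
    refine dvd_pow_self p ?_
    have : Nontrivial C := ⟨⟨⟨g, hgC⟩, 0, fun h => hg0 (congrArg Subtype.val h)⟩⟩
    exact Module.finrank_pos.ne'
  obtain ⟨b, hb, hb1⟩ := hP.exists_fixed_point_of_prime_dvd_card_of_fixed_point C hdvd
    (a := (0 : C)) (fun s => Subtype.ext (map_zero (rho p (s : Perm D))))
  refine ⟨b.1, b.2, fun h => hb1 (Subtype.ext h.symm), fun s hs => ?_⟩
  exact congrArg Subtype.val (hb ⟨s, hs⟩)

end Pool.Agent.Lib.MP_79a223_al.FM
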