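import Pool.Agent.Lib.MP_79a223_al.FM.Spec

/-!
# Module PRL: the projective line in another characteristic
-/

open Equiv

namespace Pool.Agent.Lib.MP_79a223_al.FM

namespace PRLM

/-- a constant nonzero function in `C` gives the function `1` -/
lemma one_mem {D : Type} {p : ℕ} [Fact p.Prime] (C : Submodule (ZMod p) (D → ZMod p)) (f : D → ZMod p)
    (hf : f ∈ C) (a : ZMod p) (ha : a ≠ 0) (h : ∀ x, f x = a) : (fun _ => 1) ∈ C := by
  have : (fun _ => 1 : D → ZMod p) = a⁻¹ • f := by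
    ext x
    rw [Pi.smul_apply, h x, smul_eq_mul, inv_mul_cancel₀ ha]
  rw [this]
  exact C.smul_mem _ hf

/-- a function constant off one point, and not constant, gives a difference of unit functions -/
lemma diff_mem {D : Type} [DecidableEq D] {p : ℕ} [Fact p.Prime] {H : Subgroup (Perm D)}
    (C : Submodule (ZMod p) (D → ZMod p)) (hC : Inv H p C) (h2 : TwoTransitive H) (f : D → ZMod p)
    (hf : f ∈ C) (o x₁ : D) (hx : x₁ ≠ o) (h : ∀ x, x ≠ o → f x = f x₁) (hne : f o ≠ f x₁) :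
    (Pi.single x₁ 1 - Pi.single o 1 : D → ZMod p) ∈ C := by
  obtain ⟨s, hs, hs1, -⟩ := h2.2 o x₁ x₁ o hx.symm hx
  have hmem : rho p s f - f ∈ C := C.sub_mem (hC s hs f hf) hf
  have hc : f o - f x₁ ≠ 0 := sub_ne_zero.2 hne
  have : (Pi.single x₁ 1 - Pi.single o 1 : D → ZMod p) = (f o - f x₁)⁻¹ • (rho p s f - f) := by
    ext z
    rw [Pi.smul_apply, Pi.sub_apply, Pi.sub_apply, rho_apply, smul_eq_mul]
    by_cases h1 : z = x₁
    · subst h1
      rw [show s⁻¹ z = o by rw [← hs1, pinv], Pi.single_eq_same, Pi.single_eq_of_ne hx,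
        inv_mul_cancel₀ hc, sub_zero]
    · have h3 : s⁻¹ z ≠ o := by
        intro h4
        apply h1
        rw [← hs1, ← h4, pinv']
      rw [h _ h3, Pi.single_eq_of_ne h1]
      by_cases h5 : z = o
      · subst h5
        rw [Pi.single_eq_same, zero_sub, ← neg_sub (f z) (f x₁), mul_neg, inv_mul_cancel₀ hc]
      · rw [h z h5, Pi.single_eq_of_ne h5, sub_self, sub_self, mul_zero]
  rw [this]
  exact C.smul_mem _ hmem

end PRLM

open PRLM

theorem specPRL (hDIF : SpecDIF) : SpecPRL := by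
  intro k _ _ n D _ π H p _ h2 hn hπ hT hpk C hC0 hC
  classical
  obtain ⟨hπ1, hπ2⟩ := hπ
  obtain ⟨c, hcC, hc0⟩ := (Submodule.ne_bot_iff C).1 hC0
  obtain ⟨o, ho⟩ : ∃ o, c o ≠ 0 := by
    by_contra h
    push Not at h
    exact hc0 (funext h)
  obtain ⟨u, hu, huo⟩ := hπ1 o
  -- scaling
  have hsc : ∀ (v : Fin n → k) (a : k), v ≠ 0 → a ≠ 0 → π (a • v) = π v := by
    intro v a hv ha
    exact ((hπ2 v (a • v) hv (smul_ne_zero ha hv)).2 ⟨a, rfl⟩).symm
  -- if all vectors are multiples of u then D has one point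
  have hW : Submodule.span k {u} < ⊤ := by
    rw [lt_top_iff_ne_top]
    intro htop
    obtain ⟨⟨x, y, hxy⟩, -⟩ := h2
    have : ∀ z : D, z = o := by
      intro z
      obtain ⟨v, hv, hvz⟩ := hπ1 z
      have hv' : v ∈ Submodule.span k {u} := by rw [htop]; trivial
      obtain ⟨a, ha⟩ := Submodule.mem_span_singleton.1 hv'
      have ha0 : a ≠ 0 := by
        rintro rfl
        rw [zero_smul] at ha
        exact hv ha.symm
      rw [← hvz, ← ha, hsc u a hu ha0, huo]
    exact hxy ((this x).trans (this y).symm)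
  obtain ⟨φ, hφ0, hφW⟩ := Submodule.exists_le_ker_of_lt_top _ hW
  have hφu : φ u = 0 := by
    have := hφW (Submodule.mem_span_singleton_self u)
    exact this
  -- the kernel is `k u`
  have hker : ∀ w, φ w = 0 → ∃ a : k, w = a • u := by
    intro w hw
    have h1 := Module.Dual.finrank_ker_add_one_of_ne_zero (f := φ) hφ0
    rw [Module.finrank_fin_fun] at h1
    have h3 : Module.finrank k (LinearMap.ker φ) ≤ 1 := by omega
    obtain ⟨v, hv⟩ := finrank_le_one_iff.1 h3
    obtain ⟨a, ha⟩ := hv ⟨u, hφu⟩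
    obtain ⟨b, hb⟩ := hv ⟨w, hw⟩
    have ha' : a • (v : Fin n → k) = u := by simpa using congrArg Subtype.val ha
    have hb' : b • (v : Fin n → k) = w := by simpa using congrArg Subtype.val hb
    have ha0 : a ≠ 0 := by
      rintro rfl
      rw [zero_smul] at ha'
      exact hu ha'.symm
    refine ⟨b * a⁻¹, ?_⟩
    rw [← ha', ← hb', smul_smul, mul_assoc, inv_mul_cancel₀ ha0, mul_one]
  -- the transvections
  have hch : ∀ a : k, ∃ s ∈ H, ∀ v, v ≠ 0 → s (π v) = π (v + (a * φ v) • u) := by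
    intro a
    obtain ⟨s, hs, h⟩ := hT (a • φ) u (by rw [LinearMap.smul_apply, hφu, smul_zero])
    refine ⟨s, hs, fun v hv => ?_⟩
    rw [h v hv, LinearMap.smul_apply, smul_eq_mul]
  choose s hsH hs using hch
  set f : D → ZMod p := ∑ a : k, rho p (s a)⁻¹ c with hf
  have hfC : f ∈ C := Submodule.sum_mem _ fun a _ => hC _ (H.inv_mem (hsH a)) c hcC
  have hfval : ∀ v, v ≠ 0 → f (π v) = ∑ a : k, c (π (v + (a * φ v) • u)) := by
    intro v hv
    rw [hf, Finset.sum_apply]
    apply Finset.sum_congr rfl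
    intro a _
    rw [rho_apply, inv_inv, hs a v hv]
  have hfo : f o ≠ 0 := by
    rw [← huo, hfval u hu]
    simp only [hφu, mul_zero, zero_smul, add_zero, Finset.sum_const, Finset.card_univ, nsmul_eq_mul]
    rw [huo]
    apply mul_ne_zero _ ho
    rw [Ne, ZMod.natCast_eq_zero_iff]
    exact hpk
  have hfval2 : ∀ v, φ v ≠ 0 → f (π v) = ∑ b : k, c (π (v + b • u)) := by
    intro v hv
    have hv0 : v ≠ 0 := by
      rintro rfl
      exact hv (map_zero φ)
    rw [hfval v hv0]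
    exact Fintype.sum_equiv (Equiv.mulRight₀ (φ v) hv) _ _ (fun a => rfl)
  have hfconst : ∀ v v', φ v ≠ 0 → φ v' ≠ 0 → f (π v) = f (π v') := by
    intro v v' hv hv'
    have hv'0 : v' ≠ 0 := by
      rintro rfl
      exact hv' (map_zero φ)
    set l : k := φ v * (φ v')⁻¹ with hl
    have hl0 : l ≠ 0 := mul_ne_zero hv (inv_ne_zero hv')
    have hlv : φ (l • v') = φ v := by
      rw [map_smul, smul_eq_mul, hl, mul_assoc, inv_mul_cancel₀ hv', mul_one]
    obtain ⟨b₀, hb₀⟩ := hker (l • v' - v) (by rw [map_sub, hlv, sub_self])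
    have e1 : l • v' = v + b₀ • u := by rw [← hb₀]; abel
    rw [← hsc v' l hv'0 hl0, hfval2 v hv, hfval2 (l • v') (by rw [hlv]; exact hv), e1]
    symm
    refine Fintype.sum_equiv (Equiv.addLeft b₀) _ _ (fun b => ?_)
    rw [Equiv.coe_addLeft, add_smul, add_assoc]
  -- a vector off the kernel
  obtain ⟨v₁, hv₁⟩ : ∃ v, φ v ≠ 0 := by
    by_contra h
    push Not at h
    exact hφ0 (LinearMap.ext h)
  have hv₁0 : v₁ ≠ 0 := by
    rintro rfl
    exact hv₁ (map_zero φ)
  have hx₁ : π v₁ ≠ o := by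
    intro h
    rw [← huo] at h
    obtain ⟨a, ha⟩ := (hπ2 u v₁ hu hv₁0).1 h.symm
    apply hv₁
    rw [ha, map_smul, hφu, smul_zero]
  have hoff : ∀ x, x ≠ o → f x = f (π v₁) := by
    intro x hx
    obtain ⟨v, hv, hvx⟩ := hπ1 x
    rw [← hvx]
    apply hfconst _ _ _ hv₁
    intro h
    obtain ⟨a, ha⟩ := hker v h
    have ha0 : a ≠ 0 := by
      rintro rfl
      rw [zero_smul] at ha
      exact hv ha
    apply hx
    rw [← hvx, ha, hsc u a hu ha0, huo]
  by_cases hcase : f o = f (π v₁)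
  · left
    apply one_mem C f hfC (f o) hfo
    intro x
    by_cases hx : x = o
    · rw [hx]
    · rw [hoff x hx, hcase]
  · right
    exact hDIF D H p C h2 hC ⟨π v₁, o, hx₁, diff_mem C hC h2 f hfC o (π v₁) hx₁ hoff hcase⟩

end Pool.Agent.Lib.MP_79a223_al.FM
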