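import Pool.Agent.Lib.MP_79a223_al.FM.Spec

/-!
# Module PRO: projective spaces in another characteristic
-/

open Equiv

namespace Pool.Agent.Lib.MP_79a223_al.FM

namespace PROM

lemma pair_iff' {k V : Type} [Field k] [AddCommGroup V] [Module k V] {x u : V} (hx : x ≠ 0)
    (hu : u ∉ Submodule.span k {x}) : LinearIndependent k ![x, u] := by
  rw [LinearIndependent.pair_iff]
  intro s t h
  have ht : t = 0 := by
    by_contra ht
    apply hu
    rw [Submodule.mem_span_singleton]
    refine ⟨-(t⁻¹ * s), ?_⟩
    have h1 : t • u = -(s • x) := by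
      rw [eq_neg_iff_add_eq_zero, add_comm]
      exact h
    calc -(t⁻¹ * s) • x = t⁻¹ • (-(s • x)) := by rw [smul_neg, smul_smul, neg_smul]
      _ = t⁻¹ • (t • u) := by rw [h1]
      _ = u := by rw [smul_smul, inv_mul_cancel₀ ht, one_smul]
  refine ⟨?_, ht⟩
  rw [ht, zero_smul, add_zero] at h
  exact (smul_eq_zero.1 h).resolve_right hx

end PROM

open PROM

theorem specPRO (hDIF : SpecDIF) (hOPP : SpecOPP) : SpecPRO := by
  intro k _ _ n D _ π H p _ h2 hn hπ hT hpk C hC0 hC
  classical
  have hπ' := hπ
  obtain ⟨hπ1, hπ2⟩ := hπ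
  have hsc : ∀ (v : Fin n → k) (a : k), v ≠ 0 → a ≠ 0 → π (a • v) = π v := by
    intro v a hv ha
    exact ((hπ2 v (a • v) hv (smul_ne_zero ha hv)).2 ⟨a, rfl⟩).symm
  by_cases hall : ∀ c ∈ C, ∀ x y, c x = c y
  · left
    obtain ⟨c, hcC, hc0⟩ := (Submodule.ne_bot_iff C).1 hC0
    obtain ⟨o, ho⟩ : ∃ o, c o ≠ 0 := by
      by_contra h
      push Not at h
      exact hc0 (funext h)
    have : (fun _ => 1 : D → ZMod p) = (c o)⁻¹ • c := by
      ext x
      rw [Pi.smul_apply, hall c hcC x o, smul_eq_mul, inv_mul_cancel₀ ho]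
    rw [this]
    exact C.smul_mem _ hcC
  right
  push Not at hall
  obtain ⟨c, hcC, x', y', hxy⟩ := hall
  obtain ⟨x, hx0, rfl⟩ := hπ1 x'
  obtain ⟨y, hy0, rfl⟩ := hπ1 y'
  have hynot : y ∉ Submodule.span k {x} := by
    intro h
    obtain ⟨a, ha⟩ := Submodule.mem_span_singleton.1 h
    have ha0 : a ≠ 0 := by
      rintro rfl
      rw [zero_smul] at ha
      exact hy0 ha.symm
    apply hxy
    rw [← ha, hsc x a hx0 ha0]
  have hlin1 : LinearIndependent k ![x, x - y] := by
    apply pair_iff' hx0
    intro h
    apply hynot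
    have := Submodule.sub_mem _ (Submodule.mem_span_singleton_self x) h
    rwa [sub_sub_cancel] at this
  obtain ⟨f, hfC, hf1, hf2, hf3⟩ := hOPP k n D π H p hπ' hT hpk C hC c hcC x (x - y) hlin1
  have hfx : f (π x) ≠ 0 := by
    have h0 := hf3 0
    rw [zero_smul, add_zero, zero_sub, neg_smul, one_smul, neg_sub, add_sub_cancel] at h0
    rw [h0]
    exact sub_ne_zero.2 hxy
  -- a vector outside the plane
  obtain ⟨u, hu⟩ : ∃ u : Fin n → k, u ∉ Submodule.span k {x, x - y} := by
    by_contra h
    push Not at h
    have htop : Submodule.span k {x, x - y} = ⊤ := by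
      rw [eq_top_iff]
      intro v _
      exact h v
    have h1 : Module.finrank k (Submodule.span k ({x, x - y} : Set (Fin n → k))) ≤ 2 := by
      have h3 := finrank_span_le_card (R := k) ({x, x - y} : Set (Fin n → k))
      refine h3.trans ?_
      rw [Set.toFinset_insert, Set.toFinset_singleton]
      exact Finset.card_le_two
    rw [htop, finrank_top, Module.finrank_fin_fun] at h1
    omega
  have hspan : Submodule.span k {x} ≤ Submodule.span k {x, x - y} :=
    Submodule.span_mono (by intro z hz; rw [Set.mem_singleton_iff] at hz; rw [hz]; exact Set.mem_insert _ _)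
  have hxW : x ∈ Submodule.span k {x, x - y} := hspan (Submodule.mem_span_singleton_self x)
  have hlin2 : LinearIndependent k ![x, u] := pair_iff' hx0 (fun h => hu (hspan h))
  have hli := LinearIndependent.pair_iff.1 hlin2
  obtain ⟨g, hgC, hg1, hg2, hg3⟩ := hOPP k n D π H p hπ' hT hpk C hC f hfC x u hlin2
  -- `f` off the plane
  have hfb : ∀ b : k, b ≠ 0 → f (π (x + b • u)) = 0 := by
    intro b hb
    apply hf1
    intro h
    apply hu
    have h1 := Submodule.sub_mem _ h hxW
    rw [add_sub_cancel_left] at h1
    have h3 := Submodule.smul_mem _ b⁻¹ h1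
    rwa [smul_smul, inv_mul_cancel₀ hb, one_smul] at h3
  have hnz : ∀ b : k, x + b • u ≠ 0 := by
    intro b h
    have := hli 1 b (by rw [one_smul]; exact h)
    exact one_ne_zero this.1
  have hinj : ∀ b b' : k, π (x + b • u) = π (x + b' • u) → b = b' := by
    intro b b' h
    obtain ⟨l, hl⟩ := (hπ2 _ _ (hnz b) (hnz b')).1 h
    have h1 := hli (1 - l) (b' - l * b) (by
      have : x + b' • u - l • (x + b • u) = 0 := sub_eq_zero.2 hl
      rw [← this, smul_add, smul_smul, sub_smul, sub_smul, one_smul]
      abel)
    have hl1 : l = 1 := (sub_eq_zero.1 h1.1).symm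
    rw [hl1, one_mul] at h1
    exact (sub_eq_zero.1 h1.2).symm
  have hne01 : π x ≠ π (x + u) := by
    intro h
    have := hinj 0 1 (by rw [zero_smul, add_zero, one_smul]; exact h)
    exact zero_ne_one this
  -- the value of `g`
  have hgv : g = f (π x) • (Pi.single (π x) 1 - Pi.single (π (x + u)) 1 : D → ZMod p) := by
    ext z
    obtain ⟨v, hv0, rfl⟩ := hπ1 z
    rw [Pi.smul_apply, Pi.sub_apply, smul_eq_mul]
    by_cases hvs : v ∈ Submodule.span k {x, u}
    · obtain ⟨a, b, hab⟩ := Submodule.mem_span_pair.1 hvs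
      by_cases ha : a = 0
      · rw [ha, zero_smul, zero_add] at hab
        have hb : b ≠ 0 := by
          rintro rfl
          rw [zero_smul] at hab
          exact hv0 hab.symm
        have hu0 : u ≠ 0 := by
          rintro rfl
          rw [smul_zero] at hab
          exact hv0 hab.symm
        have hnu : ∀ t : k, π v ≠ π (x + t • u) := by
          intro t h
          rw [← hab, hsc u b hu0 hb] at h
          obtain ⟨l, hl⟩ := (hπ2 _ _ hu0 (hnz t)).1 h
          have h1 := hli 1 (t - l) (by
            rw [one_smul, sub_smul, ← add_sub_assoc, hl, sub_self])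
          exact one_ne_zero h1.1
        have h1 : π v ≠ π x := by
          have := hnu 0
          rwa [zero_smul, add_zero] at this
        have h3 : π v ≠ π (x + u) := by
          have := hnu 1
          rwa [one_smul] at this
        rw [Pi.single_eq_of_ne h1, Pi.single_eq_of_ne h3, ← hab, hsc u b hu0 hb, hg2]
        ring
      · have hpv : π v = π (x + (a⁻¹ * b) • u) := by
          rw [← hsc v a⁻¹ hv0 (inv_ne_zero ha), ← hab, smul_add, smul_smul, smul_smul,
            inv_mul_cancel₀ ha, one_smul]
        set t : k := a⁻¹ * b with ht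
        rw [hpv, hg3 t]
        by_cases ht0 : t = 0
        · rw [ht0, zero_smul, add_zero, zero_sub, hfb (-1) (neg_ne_zero.2 one_ne_zero),
            Pi.single_eq_same, Pi.single_eq_of_ne hne01]
          ring
        · by_cases ht1 : t = 1
          · rw [ht1, sub_self, zero_smul, add_zero, hfb 1 one_ne_zero, one_smul,
              Pi.single_eq_same, Pi.single_eq_of_ne hne01.symm]
            ring
          · have h1 : π (x + t • u) ≠ π x := by
              intro h
              exact ht0 (hinj t 0 (by rw [zero_smul, add_zero]; exact h))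
            have h3 : π (x + t • u) ≠ π (x + u) := by
              intro h
              exact ht1 (hinj t 1 (by rw [one_smul]; exact h))
            rw [hfb t ht0, hfb (t - 1) (sub_ne_zero.2 ht1), Pi.single_eq_of_ne h1,
              Pi.single_eq_of_ne h3]
            ring
    · have hnu : ∀ t : k, π v ≠ π (x + t • u) := by
        intro t h
        obtain ⟨l, hl⟩ := (hπ2 _ _ (hnz t) hv0).1 h.symm
        apply hvs
        rw [hl]
        apply Submodule.smul_mem
        rw [Submodule.mem_span_pair]
        exact ⟨1, t, by rw [one_smul]⟩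
      have h1 : π v ≠ π x := by
        have := hnu 0
        rwa [zero_smul, add_zero] at this
      have h3 : π v ≠ π (x + u) := by
        have := hnu 1
        rwa [one_smul] at this
      rw [Pi.single_eq_of_ne h1, Pi.single_eq_of_ne h3, hg1 v hvs]
      ring
  refine hDIF D H p C h2 hC ⟨π x, π (x + u), hne01, ?_⟩
  have : (Pi.single (π x) 1 - Pi.single (π (x + u)) 1 : D → ZMod p) = (f (π x))⁻¹ • g := by
    rw [hgv, smul_smul, inv_mul_cancel₀ hfx, one_smul]
  rw [this]
  exact C.smul_mem _ hgC

end Pool.Agent.Lib.MP_79a223_al.FM
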