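import Pool.Agent.Lib.MP_79a223_al.FM.SpecS

/-!
# Module SPA: an invariant code contains a function of the first component
-/

open Equiv

namespace Pool.Agent.Lib.MP_79a223_al.FM

namespace SPAM

lemma key1 : ∀ z : ZMod 2, z + z = 0 := by decide

lemma key2 {m : ℕ} (v : Fin m → ZMod 2) : v + v = 0 := by
  funext i
  exact (by decide : ∀ z : ZMod 2, z + z = 0) (v i)

/-- The permutations `(a, b) ↦ (a, b + c a)` in `H`. -/
def grp {D : Type} (H : Subgroup (Perm D)) (m : ℕ) (Θ : D → (Fin m → ZMod 2) × (Fin m → ZMod 2)) :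
    Subgroup (Perm D) where
  carrier := {s | s ∈ H ∧ ∃ c : (Fin m → ZMod 2) → (Fin m → ZMod 2),
    ∀ d, Θ (s d) = ((Θ d).1, (Θ d).2 + c (Θ d).1)}
  one_mem' := by
    refine ⟨H.one_mem, 0, fun d => ?_⟩
    rw [Perm.one_apply, Pi.zero_apply, add_zero]
  mul_mem' := by
    rintro s t ⟨hs, c, hc⟩ ⟨ht, c', hc'⟩
    refine ⟨H.mul_mem hs ht, c' + c, fun d => ?_⟩
    rw [Perm.mul_apply, hc, hc', Pi.add_apply, add_assoc]
  inv_mem' := by
    rintro s ⟨hs, c, hc⟩
    refine ⟨H.inv_mem hs, c, fun d => ?_⟩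
    have h := hc (s⁻¹ d)
    have hs' : s (s⁻¹ d) = d := Equiv.apply_symm_apply s d
    rw [hs'] at h
    rw [h]
    refine Prod.ext rfl ?_
    show (Θ (s⁻¹ d)).2 = (Θ (s⁻¹ d)).2 + c (Θ (s⁻¹ d)).1 + c (Θ (s⁻¹ d)).1
    rw [add_assoc, key2, add_zero]

lemma pgroup {D : Type} (H : Subgroup (Perm D)) (m : ℕ)
    (Θ : D → (Fin m → ZMod 2) × (Fin m → ZMod 2)) (hΘ : Function.Injective Θ) :
    IsPGroup 2 (grp H m Θ) := by
  rintro ⟨s, hs, c, hc⟩
  refine ⟨1, ?_⟩
  apply Subtype.ext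
  show s ^ (2 ^ 1) = 1
  rw [pow_one, pow_two]
  refine Equiv.ext fun d => ?_
  apply hΘ
  rw [Perm.mul_apply, Perm.one_apply, hc, hc]
  refine Prod.ext rfl ?_
  show (Θ d).2 + c (Θ d).1 + c (Θ d).1 = (Θ d).2
  rw [add_assoc, key2, add_zero]

end SPAM

open SPAM in
theorem specSPA (hPGF : SpecPGF) : SpecSPA := by
  classical
  intro D _ H m ε Θ hS C hC0 hC
  have : Fact (Nat.Prime 2) := ⟨Nat.prime_two⟩
  obtain ⟨f, hf, hf0, hfix⟩ := hPGF D (grp H m Θ) 2 C (pgroup H m Θ hS.inj) hC0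
    (fun s hs g hg => hC s hs.1 g hg)
  have key : ∀ d d' : D, (Θ d).1 = (Θ d').1 → f d = f d' := by
    intro d d' h
    obtain ⟨s, hs, hsd⟩ := hS.tv ((Θ d).2 + (Θ d').2) 0
    have e1 : dotProduct (Θ d).1 (Θ d).2 = ε := (hS.type _ _).1 ⟨d, rfl⟩
    have e2 : dotProduct (Θ d).1 (Θ d').2 = ε := by
      rw [h]; exact (hS.type _ _).1 ⟨d', rfl⟩
    have e3 : dotProduct (Θ d).1 ((Θ d).2 + (Θ d').2) = 0 := by
      rw [dotProduct_add, e1, e2]
      exact key1 ε
    have hsA : s ∈ grp H m Θ := by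
      refine ⟨hs, fun a => (dotProduct a ((Θ d).2 + (Θ d').2) + 1) • ((Θ d).2 + (Θ d').2),
        fun e => ?_⟩
      rw [hsd e]
      refine Prod.ext ?_ ?_
      · simp only [Prod.fst_add, Prod.smul_fst, smul_zero, add_zero]
      · simp only [Prod.snd_add, Prod.smul_snd, dotProduct_zero, add_zero, zero_add]
    have hsd' : s d = d' := by
      apply hS.inj
      rw [hsd d]
      refine Prod.ext ?_ ?_
      · simp only [Prod.fst_add, Prod.smul_fst, smul_zero, add_zero]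
        exact h
      · simp only [Prod.snd_add, dotProduct_zero, add_zero, zero_add, e3, one_smul]
        rw [← add_assoc, key2, zero_add]
    have h1 := congrFun (hfix s hsA) (s d)
    have h2 : rho 2 s f (s d) = f d := by
      exact congrArg f (Equiv.symm_apply_apply s d)
    rw [← h2, h1, hsd']
  have hg : (fun d => (fun a => if h : ∃ e, (Θ e).1 = a then f h.choose else 0) (Θ d).1) = f := by
    funext d
    have h : ∃ e, (Θ e).1 = (Θ d).1 := ⟨d, rfl⟩
    show (if h : ∃ e, (Θ e).1 = (Θ d).1 then f h.choose else 0) = f d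
    rw [dif_pos h]
    exact key _ _ h.choose_spec
  refine ⟨fun a => if h : ∃ e, (Θ e).1 = a then f h.choose else 0, ?_, ?_⟩
  · rw [hg]; exact hf
  · rw [hg]; exact hf0

end Pool.Agent.Lib.MP_79a223_al.FM
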