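import Pool.Agent.Lib.MP_79a223_al.FM.SpecS

/-!
# Part 3: module SPB
-/

open Equiv

namespace Pool.Agent.Lib.MP_79a223_al.FM

namespace SPBM

variable {m : ℕ}

/-- the nonzero vectors -/
abbrev DD (m : ℕ) : Type := {a : Fin m → ZMod 2 // a ≠ 0}

open Classical in
/-- the point of a vector -/
noncomputable def pt (e : DD m) (a : Fin m → ZMod 2) : DD m := if h : a ≠ 0 then ⟨a, h⟩ else e

lemma pt_ne (e : DD m) {a : Fin m → ZMod 2} (h : a ≠ 0) : pt e a = ⟨a, h⟩ := dif_pos h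

lemma two_eq (x : ZMod 2) : x + x = 0 := CharTwo.add_self_eq_zero x

lemma ne_zero_iff (x : ZMod 2) : x ≠ 0 → x = 1 := by
  revert x
  decide

lemma isPoints (e : DD m) : IsPoints (k := ZMod 2) (pt e) := by
  refine ⟨fun x => ⟨x.1, x.2, pt_ne e x.2⟩, fun v w hv hw => ?_⟩
  rw [pt_ne e hv, pt_ne e hw]
  constructor
  · intro h
    exact ⟨1, by rw [one_smul]; exact (Subtype.mk.inj h).symm⟩
  · rintro ⟨a, ha⟩
    by_cases h0 : a = 0
    · rw [h0, zero_smul] at ha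
      exact absurd ha hw
    · rw [ne_zero_iff a h0, one_smul] at ha
      exact Subtype.ext ha.symm

/-- the codes on the nonzero vectors -/
def code {D : Type} (Θ : D → (Fin m → ZMod 2) × (Fin m → ZMod 2)) (C : Submodule (ZMod 2) (D → ZMod 2)) :
    Submodule (ZMod 2) (DD m → ZMod 2) where
  carrier := {f | ∃ g : (Fin m → ZMod 2) → ZMod 2, (fun d => g (Θ d).1) ∈ C ∧ ∀ a : DD m, f a = g a.1}
  add_mem' := by
    rintro a b ⟨g, hg, h⟩ ⟨g', hg', h'⟩
    exact ⟨g + g', C.add_mem hg hg', fun x => by rw [Pi.add_apply, Pi.add_apply, h, h']⟩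
  zero_mem' := ⟨0, C.zero_mem, fun _ => rfl⟩
  smul_mem' := by
    rintro c a ⟨g, hg, h⟩
    exact ⟨c • g, C.smul_mem c hg, fun x => by rw [Pi.smul_apply, Pi.smul_apply, h]⟩

/-- the group of the code -/
def grp {D' : Type} (C' : Submodule (ZMod 2) (D' → ZMod 2)) : Subgroup (Perm D') where
  carrier := {s | (∀ f ∈ C', rho 2 s f ∈ C') ∧ ∀ f ∈ C', rho 2 s⁻¹ f ∈ C'}
  mul_mem' := by
    rintro a b ⟨h1, h2⟩ ⟨h3, h4⟩
    refine ⟨fun f hf => ?_, fun f hf => ?_⟩
    · rw [rho_mul]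
      exact h1 _ (h3 f hf)
    · rw [mul_inv_rev, rho_mul]
      exact h4 _ (h2 f hf)
  one_mem' := by
    refine ⟨fun f hf => ?_, fun f hf => ?_⟩
    · rw [rho_one]
      exact hf
    · rw [inv_one, rho_one]
      exact hf
  inv_mem' := by
    rintro a ⟨h1, h2⟩
    exact ⟨h2, by rw [inv_inv]; exact h1⟩

/-- a functional as a dot product -/
lemma functional (φ : (Fin m → ZMod 2) →ₗ[ZMod 2] ZMod 2) (a : Fin m → ZMod 2) :
    φ a = dotProduct a (fun i => φ (Pi.single i 1)) := by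
  conv_lhs => rw [LinearMap.pi_apply_eq_sum_univ φ a]
  unfold dotProduct
  refine Finset.sum_congr rfl fun i _ => ?_
  rw [smul_eq_mul]
  congr 1
  congr 1
  funext j
  rw [Pi.single_apply]
  by_cases h : i = j
  · rw [if_pos h, if_pos h.symm]
  · rw [if_neg h, if_neg (fun h' => h h'.symm)]

/-- the transvection -/
def tv (φ : (Fin m → ZMod 2) →ₗ[ZMod 2] ZMod 2) (w a : Fin m → ZMod 2) : Fin m → ZMod 2 := a + φ a • w

lemma tv_tv {φ : (Fin m → ZMod 2) →ₗ[ZMod 2] ZMod 2} {w : Fin m → ZMod 2} (h : φ w = 0)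
    (a : Fin m → ZMod 2) : tv φ w (tv φ w a) = a := by
  unfold tv
  rw [map_add, map_smul, h, smul_zero, add_zero, add_assoc, ← add_smul, two_eq, zero_smul, add_zero]

lemma tv_ne {φ : (Fin m → ZMod 2) →ₗ[ZMod 2] ZMod 2} {w : Fin m → ZMod 2} (h : φ w = 0)
    {a : Fin m → ZMod 2} (ha : a ≠ 0) : tv φ w a ≠ 0 := by
  intro h0
  have h1 := tv_tv h a
  rw [h0] at h1
  apply ha
  rw [← h1]
  unfold tv
  rw [map_zero, zero_smul, add_zero]

/-- the transvection as a permutation -/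
def tp {φ : (Fin m → ZMod 2) →ₗ[ZMod 2] ZMod 2} {w : Fin m → ZMod 2} (h : φ w = 0) : Perm (DD m) where
  toFun a := ⟨tv φ w a.1, tv_ne h a.2⟩
  invFun a := ⟨tv φ w a.1, tv_ne h a.2⟩
  left_inv a := Subtype.ext (tv_tv h a.1)
  right_inv a := Subtype.ext (tv_tv h a.1)

lemma hasTransvections {D : Type} [Fintype D] (hSPT : SpecSPT) {H : Subgroup (Perm D)} {ε : ZMod 2}
    {Θ : D → (Fin m → ZMod 2) × (Fin m → ZMod 2)} (hΘ : SpData H m ε Θ)
    {C : Submodule (ZMod 2) (D → ZMod 2)} (hC : Inv H 2 C) (e : DD m) :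
    HasTransvections (k := ZMod 2) (pt e) (grp (code Θ C)) := by
  intro φ w hw
  have key : ∀ f ∈ code Θ C, (fun a : DD m => f (tp hw a)) ∈ code Θ C := by
    rintro f ⟨g, hg, hfg⟩
    refine ⟨fun a => g (tv φ w a), ?_, fun a => hfg (tp hw a)⟩
    have h0 : dotProduct (fun i => φ (Pi.single i 1)) w = 0 := by
      rw [dotProduct_comm, ← functional φ w]
      exact hw
    obtain ⟨s, hs, hs'⟩ := hSPT D H m ε Θ hΘ _ w h0
    have h1 := hC s⁻¹ (H.inv_mem hs) _ hg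
    have h2 : rho 2 s⁻¹ (fun d => g (Θ d).1) = fun d => g (tv φ w (Θ d).1) := by
      funext d
      rw [rho_apply, inv_inv, hs' d]
      unfold tv
      rw [← functional φ]
    rw [h2] at h1
    exact h1
  refine ⟨tp hw, ⟨fun f hf => ?_, fun f hf => ?_⟩, fun v hv => ?_⟩
  · exact key f hf
  · have h := key f hf
    have h2 : rho 2 (tp hw)⁻¹ f = fun a : DD m => f (tp hw a) := by
      funext a
      rw [rho_apply, inv_inv]
    rw [h2]
    exact h
  · rw [pt_ne e hv]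
    exact (pt_ne e (tv_ne hw hv)).symm

end SPBM

open SPBM in
/-- SPB -/
theorem specSPB (hPDA : SpecPDA) (hPDB : SpecPDB) (_hPDC : SpecPDC) (hSPT : SpecSPT) : SpecSPB := by
  intro D _ H m ε Θ hΘ C hC ⟨g₀, hg₀, a₀, ha₀, hga⟩
  set e : DD m := ⟨a₀, ha₀⟩
  have : Fintype (DD m) := Fintype.ofFinite _
  have : Fact (Nat.Prime 2) := ⟨Nat.prime_two⟩
  have hne : code Θ C ≠ ⊥ := by
    intro h
    have h1 : (fun a : DD m => g₀ a.1) ∈ code Θ C := ⟨g₀, hg₀, fun _ => rfl⟩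
    rw [h, Submodule.mem_bot] at h1
    exact hga (congrFun h1 ⟨a₀, ha₀⟩)
  have hinv : Inv (grp (code Θ C)) 2 (code Θ C) := fun s hs f hf => hs.1 f hf
  have hpts := isPoints (m := m) e
  have htr := hasTransvections hSPT hΘ hC e
  obtain ⟨f, hf, hf0, hf1⟩ := hPDA (ZMod 2) m (DD m) (pt e) (grp (code Θ C)) 2 hpts htr
    (ZMod.charP 2) (code Θ C) hne hinv
  rcases hPDB (ZMod 2) m (DD m) (pt e) (grp (code Θ C)) 2 hpts htr (ZMod.charP 2) (code Θ C) hinv f hf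
    hf0 hf1 with h1 | ⟨φ, f', hφ, hf', hf''⟩
  · obtain ⟨g, hg, hg'⟩ := h1
    exact Or.inl ⟨g, hg, fun a ha => (hg' ⟨a, ha⟩).symm⟩
  · right
    refine ⟨fun i => φ (Pi.single i 1), ?_, ?_⟩
    · intro h
      apply hφ
      ext i
      have h2 := congrFun h i
      simpa using h2
    · obtain ⟨g, hg, hg'⟩ := hf'
      refine ⟨g, hg, fun a ha => ?_⟩
      have h3 := hg' ⟨a, ha⟩
      rw [← h3, ← functional φ a]
      have h4 := hf'' a ha
      rw [pt_ne e ha] at h4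
      by_cases h5 : φ a = 0
      · rw [h4.1 h5, h5]
      · rw [h4.2 h5, ne_zero_iff _ h5]

end Pool.Agent.Lib.MP_79a223_al.FM
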