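import Pool.Agent.Lib.MP_79a223_al.FM.SpecS

/-!
# Module SPC: the value at `a = 0` does not matter
-/

open Equiv

namespace Pool.Agent.Lib.MP_79a223_al.FM

namespace SPCM

lemma zo (t : ZMod 2) : t = 0 ∨ t = 1 := by
  revert t
  decide

lemma dbl (t : ZMod 2) : t + t = 0 := by
  revert t
  decide

lemma vdbl {m : ℕ} (y : Fin m → ZMod 2) : y + y = 0 := by
  funext i
  exact dbl _

lemma exists_w {m : ℕ} (y : Fin m → ZMod 2) (hy : y ≠ 0) :
    ∃ w : Fin m → ZMod 2, dotProduct w y = 1 := by
  classical
  obtain ⟨i, hi⟩ := Function.ne_iff.1 hy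
  refine ⟨Pi.single i 1, ?_⟩
  rw [single_dotProduct, one_mul]
  rcases zo (y i) with h | h
  · exact absurd h hi
  · exact h

lemma comp_mem {D : Type} {H : Subgroup (Perm D)} {C : Submodule (ZMod 2) (D → ZMod 2)}
    (hC : Inv H 2 C) {s : Perm D} (hs : s ∈ H) {f : D → ZMod 2} (hf : f ∈ C) :
    (fun d => f (s d)) ∈ C := by
  have h := hC s⁻¹ (H.inv_mem hs) f hf
  have e : rho 2 s⁻¹ f = fun d => f (s d) := by
    funext d
    simp [rho, LinearMap.funLeft_apply]
  rwa [e] at h

end SPCM

open SPCM

theorem specSPC : SpecSPC := by
  classical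
  intro D _ H m ε Θ hS C hC g h hg hgh hy
  obtain ⟨y, hy0, hy⟩ := hy
  have hab : ∀ d, dotProduct (Θ d).1 (Θ d).2 = ε := fun d => (hS.type _ _).1 ⟨d, rfl⟩
  rcases zo ε with hε | hε
  · obtain ⟨w, hw⟩ := exists_w y hy0
    obtain ⟨s, hsH, hs⟩ := hS.tv 0 y
    obtain ⟨t, htH, ht⟩ := hS.tv w y
    have h1 := comp_mem hC hsH hg
    have h2 := comp_mem hC htH hg
    have h3 := C.add_mem (C.add_mem hg h1) h2
    have e : ((fun d => g (Θ d).1) + (fun d => g (Θ (s d)).1)) + (fun d => g (Θ (t d)).1) =
        fun d => h (Θ d).1 := by
      funext d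
      have hd := hab d
      have hsd := congrArg Prod.fst (hs d)
      have htd := congrArg Prod.fst (ht d)
      simp only [Prod.fst_add, Prod.smul_fst, zero_dotProduct, dotProduct_zero, zero_add,
        add_zero] at hsd
      simp only [Prod.fst_add, Prod.smul_fst, hw] at htd
      show g (Θ d).1 + g (Θ (s d)).1 + g (Θ (t d)).1 = h (Θ d).1
      rw [hsd, htd]
      generalize (Θ d).1 = a at *
      generalize (Θ d).2 = b at *
      by_cases ha : a = 0
      · subst ha
        have hgy : g y = h 0 := by
          rw [hgh y hy0]
          simpa using hy 0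
        rcases zo (dotProduct b y) with hb | hb
        · rw [hb]
          simp only [zero_dotProduct, zero_add, add_zero, one_smul, dbl, zero_smul]
          rw [hgy, add_comm (g 0) (h 0), add_assoc, dbl, add_zero]
        · rw [hb]
          simp only [zero_dotProduct, zero_add, add_zero, one_smul, dbl, zero_smul]
          rw [hgy]
      · by_cases hay : a = y
        · subst hay
          have hb : dotProduct b a = 0 := by
            rw [dotProduct_comm, hd, hε]
          have hw' : dotProduct a w = 1 := by
            rw [dotProduct_comm, hw]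
          rw [hb, hw']
          simp only [zero_add, add_zero, one_smul, dbl, vdbl]
          rw [add_assoc, dbl, add_zero]
          exact hgh a hy0
        · have key : ∀ t : ZMod 2, g (a + t • y) = h a := by
            intro t
            rcases zo t with h0 | h0
            · rw [h0, zero_smul, add_zero]
              exact hgh a ha
            · rw [h0, one_smul, hgh _ ?_, hy]
              intro h5
              apply hay
              calc a = a + (y + y) := by rw [vdbl, add_zero]
                _ = (a + y) + y := by rw [add_assoc]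
                _ = y := by rw [h5, zero_add]
          rw [key, key, hgh a ha, dbl, zero_add]
    rwa [e] at h3
  · have e : (fun d => g (Θ d).1) = fun d => h (Θ d).1 := by
      funext d
      apply hgh
      intro h0
      have hd := hab d
      rw [h0, zero_dotProduct, hε] at hd
      exact zero_ne_one hd
    rwa [e] at hg

end Pool.Agent.Lib.MP_79a223_al.FM
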