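import Pool.Agent.Lib.MP_79a223_al.FM.SpecS

/-!
# Module SPD (helper82)
-/

set_option autoImplicit false

open Equiv

namespace Pool.Agent.Lib.MP_79a223_al.FM

namespace SPDM

theorem comp_mem {D : Type} {H : Subgroup (Perm D)} {C : Submodule (ZMod 2) (D → ZMod 2)}
    (hC : Inv H 2 C) {s : Perm D} (hs : s ∈ H) {f : D → ZMod 2} (hf : f ∈ C) :
    (fun d => f (s d)) ∈ C := by
  have h := hC s⁻¹ (H.inv_mem hs) f hf
  have e : rho 2 s⁻¹ f = fun d => f (s d) := by
    funext d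
    show f ((s⁻¹)⁻¹ d) = f (s d)
    rw [inv_inv]
  rwa [e] at h

theorem z1 : ∀ x y : ZMod 2, 1 + x + y + 1 = x + y := by decide

theorem key : ∀ a0 a1 b0 b1 : ZMod 2, a0 * b0 + a1 * b1 = 0 →
    (if a0 = 0 ∧ a1 = 0 then (1 : ZMod 2) else 0) +
      (if a0 + (a0 + b0) = 0 ∧ a1 + (a1 + b1) = 0 then (1 : ZMod 2) else 0) +
      (if a0 + b1 = 0 ∧ a1 + b0 = 0 then (1 : ZMod 2) else 0) = 1 := by decide

theorem key2 : ∀ (p q u w z : ZMod 2),
    z + ((p + q + 1) * u + (p + q + 1) * w) + (q + 1) * w + (p + 1) * u =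
      z + q * u + p * w := by decide

theorem vec_zero {m : ℕ} {i₀ i₁ : Fin m} (u : Fin m → ZMod 2) :
    u = 0 ↔ (u i₀ = 0 ∧ u i₁ = 0) ∧ ∀ i, i ≠ i₀ → i ≠ i₁ → u i = 0 := by
  constructor
  · rintro rfl
    exact ⟨⟨rfl, rfl⟩, fun _ _ _ => rfl⟩
  · rintro ⟨⟨h0, h1⟩, h⟩
    funext i
    by_cases e0 : i = i₀
    · rw [e0]; exact h0
    · by_cases e1 : i = i₁
      · rw [e1]; exact h1
      · exact h i e0 e1

end SPDM

open SPDM in
theorem specSPD : SpecSPD := by
  intro D _ H m ε Θ hS C hC g₀ hg hg0 hz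
  classical
  obtain ⟨i₀, i₁, hi⟩ : ∃ i₀ i₁ : Fin m, i₀ ≠ i₁ :=
    ⟨⟨0, by have := hS.two; omega⟩, ⟨1, by have := hS.two; omega⟩, by simp⟩
  have hd0 : ∃ d, (Θ d).1 = 0 := by
    by_contra h
    push Not at h
    apply hg0
    funext d
    exact hz _ (h d)
  have hg1 : g₀ 0 = 1 := by
    have h1 : g₀ 0 ≠ 0 := by
      intro h
      apply hg0
      funext d
      by_cases h1 : (Θ d).1 = 0
      · show g₀ (Θ d).1 = 0
        rw [h1, h]
      · exact hz _ h1
    revert h1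
    generalize g₀ 0 = t
    revert t
    decide
  have hε : ε = 0 := by
    obtain ⟨d, hd⟩ := hd0
    have h1 := (hS.type (Θ d).1 (Θ d).2).1 ⟨d, rfl⟩
    rw [hd, zero_dotProduct] at h1
    exact h1.symm
  have hdot : ∀ d, dotProduct (Θ d).1 (Θ d).2 = 0 :=
    fun d => ((hS.type _ _).1 ⟨d, rfl⟩).trans hε
  have hf : ∀ a : Fin m → ZMod 2, g₀ a = if a = 0 then 1 else 0 := by
    intro a
    by_cases h : a = 0
    · rw [if_pos h, h, hg1]
    · rw [if_neg h, hz a h]
  obtain ⟨s0, hs0, h0⟩ := hS.tv (Pi.single i₀ 1) (Pi.single i₀ 1)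
  obtain ⟨s1, hs1, h1⟩ := hS.tv (Pi.single i₁ 1) (Pi.single i₁ 1)
  obtain ⟨t0, ht0, k0⟩ := hS.tv 0 (Pi.single i₀ 1)
  obtain ⟨t1, ht1, k1⟩ := hS.tv 0 (Pi.single i₁ 1)
  obtain ⟨t2, ht2, k2⟩ := hS.tv 0 (Pi.single i₀ 1 + Pi.single i₁ 1)
  -- the first composite
  have A1 : ∀ d, (Θ (s0 (s1 d))).1 = (Θ d).1 +
      ((Θ d).1 i₀ + (Θ d).2 i₀) • (Pi.single i₀ 1 : Fin m → ZMod 2) +
      ((Θ d).1 i₁ + (Θ d).2 i₁) • (Pi.single i₁ 1 : Fin m → ZMod 2) := by
    intro d
    have e1 := h0 (s1 d)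
    rw [h1 d] at e1
    have e2 := congrArg Prod.fst e1
    rw [e2]
    simp only [dotProduct_single, Prod.fst_add, Prod.snd_add, Prod.smul_mk,
      Pi.add_apply, Pi.smul_apply, Pi.single_eq_same, Pi.single_eq_of_ne hi, smul_eq_mul,
      mul_one, mul_zero, add_zero, z1]
    abel
  have A2 : ∀ d, (Θ (t0 (t1 (t2 d)))).1 = (Θ d).1 +
      (Θ d).2 i₁ • (Pi.single i₀ 1 : Fin m → ZMod 2) +
      (Θ d).2 i₀ • (Pi.single i₁ 1 : Fin m → ZMod 2) := by
    intro d
    have e1 := k0 (t1 (t2 d))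
    rw [k1 (t2 d), k2 d] at e1
    have e2 := congrArg Prod.fst e1
    rw [e2]
    simp only [zero_dotProduct, dotProduct_zero, dotProduct_single, dotProduct_add,
      Prod.fst_add, Prod.snd_add, Prod.smul_mk, smul_zero, Prod.smul_snd, Prod.smul_fst,
      Pi.add_apply, Pi.zero_apply, add_zero, zero_add, mul_one, mul_zero, smul_add]
    generalize (Θ d).2 i₀ = p
    generalize (Θ d).2 i₁ = q
    generalize (Θ d).1 = a
    funext i
    simp only [Pi.add_apply, Pi.smul_apply, smul_eq_mul]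
    generalize (Pi.single i₀ 1 : Fin m → ZMod 2) i = u
    generalize (Pi.single i₁ 1 : Fin m → ZMod 2) i = w
    generalize a i = z
    exact key2 p q u w z
  have hsum : (fun d => g₀ (Θ d).1) + (fun d => g₀ (Θ (s0 (s1 d))).1) +
      (fun d => g₀ (Θ (t0 (t1 (t2 d)))).1) ∈ C := by
    refine C.add_mem (C.add_mem hg ?_) ?_
    · exact comp_mem hC hs1 (comp_mem hC hs0 hg)
    · exact comp_mem hC ht2 (comp_mem hC ht1 (comp_mem hC ht0 hg))
  refine ⟨fun a => if ∀ i, i ≠ i₀ → i ≠ i₁ → a i = 0 then 1 else 0, ?_,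
    Pi.single i₀ 1, ?_, ?_⟩
  · have e : (fun d => (fun a : Fin m → ZMod 2 =>
        if ∀ i, i ≠ i₀ → i ≠ i₁ → a i = 0 then (1 : ZMod 2) else 0) (Θ d).1) =
        (fun d => g₀ (Θ d).1) + (fun d => g₀ (Θ (s0 (s1 d))).1) +
          (fun d => g₀ (Θ (t0 (t1 (t2 d)))).1) := by
      funext d
      simp only [Pi.add_apply]
      rw [A1 d, A2 d, hf, hf, hf]
      have hd := hdot d
      generalize (Θ d).1 = a at *
      generalize (Θ d).2 = b at *
      have q1 : ∀ c c' : ZMod 2, (a + c • (Pi.single i₀ 1 : Fin m → ZMod 2) +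
          c' • (Pi.single i₁ 1 : Fin m → ZMod 2) = 0) ↔ ((a i₀ + c = 0 ∧ a i₁ + c' = 0) ∧
            ∀ i, i ≠ i₀ → i ≠ i₁ → a i = 0) := by
        intro c c'
        rw [vec_zero (i₀ := i₀) (i₁ := i₁)]
        have w : ∀ i, i ≠ i₀ → i ≠ i₁ → (a + c • (Pi.single i₀ 1 : Fin m → ZMod 2) +
          c' • (Pi.single i₁ 1 : Fin m → ZMod 2)) i = a i := by
          intro i g0 g1
          simp [g0, g1]
        constructor
        · rintro ⟨⟨u0, u1⟩, u2⟩
          refine ⟨⟨?_, ?_⟩, fun i g0 g1 => ?_⟩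
          · simpa [hi] using u0
          · simpa [hi.symm] using u1
          · rw [← w i g0 g1]; exact u2 i g0 g1
        · rintro ⟨⟨u0, u1⟩, u2⟩
          refine ⟨⟨?_, ?_⟩, fun i g0 g1 => ?_⟩
          · simpa [hi] using u0
          · simpa [hi.symm] using u1
          · rw [w i g0 g1]; exact u2 i g0 g1
      by_cases hP : ∀ i, i ≠ i₀ → i ≠ i₁ → a i = 0
      · rw [if_pos hP]
        have hab : a i₀ * b i₀ + a i₁ * b i₁ = 0 := by
          rw [← hd]
          symm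
          unfold dotProduct
          refine Fintype.sum_eq_add i₀ i₁ hi ?_
          rintro i ⟨g0, g1⟩
          rw [hP i g0 g1, zero_mul]
        refine (key (a i₀) (a i₁) (b i₀) (b i₁) hab).symm.trans ?_
        congr 1
        · congr 1
          · refine if_congr ?_ rfl rfl
            rw [vec_zero (i₀ := i₀) (i₁ := i₁)]
            exact ⟨fun h => ⟨h, hP⟩, fun h => h.1⟩
          · refine if_congr ?_ rfl rfl
            rw [q1]
            exact ⟨fun h => ⟨h, hP⟩, fun h => h.1⟩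
        · refine if_congr ?_ rfl rfl
          rw [q1]
          exact ⟨fun h => ⟨h, hP⟩, fun h => h.1⟩
      · rw [if_neg hP, if_neg, if_neg, if_neg]
        · simp
        · rw [q1]; exact fun h => hP h.2
        · rw [q1]; exact fun h => hP h.2
        · rw [vec_zero (i₀ := i₀) (i₁ := i₁)]; exact fun h => hP h.2
    rw [e]
    exact hsum
  · intro h
    have h2 := congrFun h i₀
    rw [Pi.single_eq_same] at h2
    exact one_ne_zero h2
  · beta_reduce
    rw [if_pos]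
    · exact one_ne_zero
    · intro i g0 g1
      exact Pi.single_eq_of_ne g0 _

end Pool.Agent.Lib.MP_79a223_al.FM
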