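import Pool.Agent.Lib.MP_79a223_al.FM.SpecS

/-!
# Module SPE: a linear function in the code gives the constants
-/

open Equiv

namespace Pool.Agent.Lib.MP_79a223_al.FM

namespace SPEM

/-- `f ∘ s ∈ C`. -/
lemma comp_mem {D : Type} {H : Subgroup (Perm D)} {p : ℕ} {C : Submodule (ZMod p) (D → ZMod p)}
    (hC : Inv H p C) {s : Perm D} (hs : s ∈ H) {f : D → ZMod p} (hf : f ∈ C) :
    (fun d => f (s d)) ∈ C := by
  have h := hC s⁻¹ (H.inv_mem hs) f hf
  have he : rho p s⁻¹ f = fun d => f (s d) := by
    funext d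
    change f ((s⁻¹)⁻¹ d) = f (s d)
    rw [inv_inv]
  rwa [he] at h

/-- A vector with product `1`. -/
lemma exists_dual {m : ℕ} {x : Fin m → ZMod 2} (hx : x ≠ 0) :
    ∃ y : Fin m → ZMod 2, dotProduct y x = 1 := by
  obtain ⟨i, hi⟩ := Function.ne_iff.1 hx
  refine ⟨Pi.single i 1, ?_⟩
  rw [single_dotProduct, one_mul]
  rcases (by decide : ∀ z : ZMod 2, z = 0 ∨ z = 1) (x i) with h | h
  · exact absurd h hi
  · exact h

end SPEM

open SPEM in
theorem specSPE : SpecSPE := by
  intro D _ H m ε Θ hS C hC x hx hf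
  obtain ⟨y, hy⟩ := exists_dual hx
  obtain ⟨s, hs, hsd⟩ := hS.tv 0 y
  obtain ⟨t, ht, htd⟩ := hS.tv x 0
  have key2 : ∀ z : ZMod 2, z + z = 0 := by decide
  -- first function
  have h1 : (fun d => dotProduct (Θ d).2 y + 1) ∈ C := by
    have h := C.add_mem hf (comp_mem hC hs hf)
    have he : ((fun d => dotProduct (Θ d).1 x) + fun d => dotProduct (Θ (s d)).1 x)
        = fun d => dotProduct (Θ d).2 y + 1 := by
      funext d
      simp only [Pi.add_apply, hsd d, Prod.fst_add, Prod.smul_fst, add_dotProduct,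
        smul_dotProduct, hy, zero_dotProduct, dotProduct_zero, smul_eq_mul]
      linear_combination key2 (dotProduct (Θ d).1 x)
    rwa [he] at h
  have h2 : (fun d => dotProduct (Θ d).1 x + dotProduct (Θ d).2 y) ∈ C := by
    have h := comp_mem hC ht h1
    have hy' : dotProduct x y = 1 := by rw [dotProduct_comm]; exact hy
    have he : (fun d => dotProduct (Θ (t d)).2 y + 1)
        = fun d => dotProduct (Θ d).1 x + dotProduct (Θ d).2 y := by
      funext d
      simp only [htd d, Prod.snd_add, Prod.smul_snd, add_dotProduct,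
        smul_dotProduct, hy', zero_dotProduct, dotProduct_zero, smul_eq_mul]
      linear_combination key2 1
    rwa [he] at h
  have h3 := C.add_mem (C.add_mem h1 h2) hf
  have he : (((fun d => dotProduct (Θ d).2 y + 1) +
      fun d => dotProduct (Θ d).1 x + dotProduct (Θ d).2 y) +
      fun d => dotProduct (Θ d).1 x) = fun _ => (1 : ZMod 2) := by
    funext d
    simp only [Pi.add_apply]
    linear_combination key2 (dotProduct (Θ d).2 y) + key2 (dotProduct (Θ d).1 x)
  rwa [he] at h3

end Pool.Agent.Lib.MP_79a223_al.FM
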