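import Pool.Agent.Lib.MP_79a223_al.FM.SpecS

/-!
# Module SPF: the dichotomy for `Sp_2m(2)` on quadratic forms, `p = 2`
-/

set_option autoImplicit false

open Equiv

namespace Pool.Agent.Lib.MP_79a223_al.FM

namespace SPFM

/-- a nonzero vector orthogonal to `x` -/
theorem exists_orth {m : ℕ} (hm : 2 ≤ m) (x : Fin m → ZMod 2) :
    ∃ y : Fin m → ZMod 2, y ≠ 0 ∧ dotProduct y x = 0 := by
  by_cases h : ∃ i, x i = 0
  · obtain ⟨i, hi⟩ := h
    refine ⟨Pi.single i 1, ?_, ?_⟩
    · intro h0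
      have h1 := congrFun h0 i
      rw [Pi.single_eq_same, Pi.zero_apply] at h1
      exact one_ne_zero h1
    · rw [single_dotProduct, hi, mul_zero]
  · push Not at h
    have h1 : ∀ i, x i = 1 := by
      intro i
      have key : ∀ t : ZMod 2, t ≠ 0 → t = 1 := by decide
      exact key _ (h i)
    let i0 : Fin m := ⟨0, by omega⟩
    let i1 : Fin m := ⟨1, by omega⟩
    have hne : i0 ≠ i1 := by
      intro h2
      have h3 : (0 : ℕ) = 1 := congrArg Fin.val h2
      exact absurd h3 (by decide)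
    refine ⟨Pi.single i0 1 + Pi.single i1 1, ?_, ?_⟩
    · intro h0
      have h2 := congrFun h0 i0
      rw [Pi.add_apply, Pi.single_eq_same, Pi.single_eq_of_ne hne, add_zero, Pi.zero_apply] at h2
      exact one_ne_zero h2
    · rw [add_dotProduct, single_dotProduct, single_dotProduct, h1, h1]
      decide

end SPFM

open SPFM in
theorem specSPF (hSPA : SpecSPA) (hSPB : SpecSPB) (hSPC : SpecSPC) (hSPD : SpecSPD)
    (hSPE : SpecSPE) : SpecSPF := by
  intro D _ H m ε Θ hd C hC hInv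
  left
  have key : ∃ g : (Fin m → ZMod 2) → ZMod 2, (fun d => g (Θ d).1) ∈ C ∧ ∃ a, a ≠ 0 ∧ g a ≠ 0 := by
    obtain ⟨g, hg, hg0⟩ := hSPA D H m ε Θ hd C hC hInv
    by_cases h : ∀ a, a ≠ 0 → g a = 0
    · exact hSPD D H m ε Θ hd C hInv g hg hg0 h
    · push Not at h
      exact ⟨g, hg, h⟩
  rcases hSPB D H m ε Θ hd C hInv key with ⟨g, hg, h1⟩ | ⟨x, hx, g, hg, h1⟩
  · obtain ⟨y, hy, -⟩ := exists_orth hd.two 0
    exact hSPC D H m ε Θ hd C hInv g (fun _ => 1) hg h1 ⟨y, hy, fun _ => rfl⟩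
  · obtain ⟨y, hy, hyx⟩ := exists_orth hd.two x
    have h2 := hSPC D H m ε Θ hd C hInv g (fun a => dotProduct a x) hg h1
      ⟨y, hy, fun a => by
        show dotProduct (a + y) x = dotProduct a x
        rw [add_dotProduct, hyx, add_zero]⟩
    exact hSPE D H m ε Θ hd C hInv x hx h2

end Pool.Agent.Lib.MP_79a223_al.FM
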