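import Pool.Agent.Lib.MP_79a223_al.FM.SpecS

/-!
# SPO: the criterion for odd primes, `Sp_2m(2)` on quadratic forms
-/

open Equiv

namespace Pool.Agent.Lib.MP_79a223_al.FM

namespace SPOM

lemma zo : ∀ z : ZMod 2, z = 0 ∨ z = 1 := by decide

lemma add_self {m : ℕ} (v : Fin m → ZMod 2) : v + v = 0 := by
  funext i
  exact CharTwo.add_self_eq_zero (v i)

/-- the value of the form -/
def th {m : ℕ} (x y a b : Fin m → ZMod 2) : ZMod 2 :=
  dotProduct x y + dotProduct a x + dotProduct b y

variable {D : Type} {m : ℕ} {ε : ZMod 2} {Θ : D → (Fin m → ZMod 2) × (Fin m → ZMod 2)}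
  {H : Subgroup (Perm D)}

lemma fix (hinj : Function.Injective Θ) {s : Perm D} {x y : Fin m → ZMod 2}
    (hs : ∀ d, Θ (s d) = Θ d +
      (dotProduct x y + dotProduct (Θ d).1 x + dotProduct (Θ d).2 y + 1) • (y, x)) {d : D}
    (h : th x y (Θ d).1 (Θ d).2 = 1) : s d = d := by
  apply hinj
  rw [hs d]
  have h1 : dotProduct x y + dotProduct (Θ d).1 x + dotProduct (Θ d).2 y = 1 := h
  rw [h1]
  have h2 : (1 : ZMod 2) + 1 = 0 := by decide
  rw [h2, zero_smul, add_zero]

lemma move {s : Perm D} {x y : Fin m → ZMod 2}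
    (hs : ∀ d, Θ (s d) = Θ d +
      (dotProduct x y + dotProduct (Θ d).1 x + dotProduct (Θ d).2 y + 1) • (y, x)) {d : D}
    (h : th x y (Θ d).1 (Θ d).2 = 0) : Θ (s d) = ((Θ d).1 + y, (Θ d).2 + x) := by
  rw [hs d]
  have h1 : dotProduct x y + dotProduct (Θ d).1 x + dotProduct (Θ d).2 y = 0 := h
  rw [h1, zero_add, one_smul]
  rfl

end SPOM

open SPOM in
/-- SPO -/
theorem specSPO : SpecSPO := by
  intro D _ H m ε Θ h
  obtain ⟨hm, hinj, htype, htv⟩ := h
  choose s hsH hs using htv
  set i0 : Fin m := ⟨0, by omega⟩ with hi0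
  set i1 : Fin m := ⟨1, by omega⟩ with hi1
  have h01 : i0 ≠ i1 := by
    intro h
    have := congrArg Fin.val h
    simp [hi0, hi1] at this
  set e0 : Fin m → ZMod 2 := Pi.single i0 1 with he0
  have dote0 : ∀ a : Fin m → ZMod 2, dotProduct a e0 = a i0 := fun a => dotProduct_single_one a i0
  have e0dot : ∀ a : Fin m → ZMod 2, dotProduct e0 a = a i0 := fun a => by
    rw [dotProduct_comm]; exact dote0 a
  set t : Perm D := s e0 0 with ht
  have htθ : ∀ d, th e0 0 (Θ d).1 (Θ d).2 = (Θ d).1 i0 := by
    intro d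
    unfold th
    rw [dotProduct_zero, dotProduct_zero, zero_add, add_zero, dote0]
  have htfix : ∀ d, (Θ d).1 i0 = 1 → t d = d := fun d hd =>
    fix hinj (hs e0 0) (by rw [htθ]; exact hd)
  have htmove : ∀ d, (Θ d).1 i0 = 0 → Θ (t d) = ((Θ d).1, (Θ d).2 + e0) := fun d hd => by
    have h1 := move (hs e0 0) (d := d) (by rw [htθ]; exact hd)
    rw [add_zero] at h1
    exact h1
  have hmoved : ∀ d, t d ≠ d → (Θ d).1 i0 = 0 := by
    intro d hd
    rcases zo ((Θ d).1 i0) with h | h
    · exact h
    · exact absurd (htfix d h) hd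
  refine ⟨t, hsH e0 0, ?_, ?_, ?_⟩
  · -- a moved point
    obtain ⟨d, hd⟩ := (htype (Pi.single i1 1) (Pi.single i1 ε)).mpr (by
      rw [single_one_dotProduct, Pi.single_eq_same])
    refine ⟨d, fun hcon => ?_⟩
    have h0 : (Θ d).1 i0 = 0 := by
      rw [hd]
      show (Pi.single i1 (1 : ZMod 2) : Fin m → ZMod 2) i0 = 0
      exact Pi.single_eq_of_ne h01 (1 : ZMod 2)
    have h1 := htmove d h0
    rw [hcon] at h1
    have h2 := congrArg (fun z => z.2 i0) h1
    simp only [Pi.add_apply, he0, Pi.single_eq_same] at h2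
    have h3 : ∀ z : ZMod 2, z ≠ z + 1 := by decide
    exact h3 _ h2
  · intro d
    rcases zo ((Θ d).1 i0) with h | h
    · apply hinj
      have h1 := htmove d h
      have h2 := htmove (t d) (by rw [h1]; exact h)
      rw [h2, h1]
      simp only
      rw [add_assoc, add_self, add_zero]
    · rw [htfix d h, htfix d h]
  · intro d d' hd hd' hne hnet
    have a0 := hmoved d hd
    have a0' := hmoved d' hd'
    -- a vector `(x, y)` separating the two points
    obtain ⟨x, y, hy0, hxy⟩ : ∃ x y : Fin m → ZMod 2, y i0 = 0 ∧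
        dotProduct (Θ d').1 x + dotProduct (Θ d').2 y =
          dotProduct (Θ d).1 x + dotProduct (Θ d).2 y + 1 := by
      by_cases hp : ∃ i, (Θ d').1 i ≠ (Θ d).1 i
      · obtain ⟨i, hi⟩ := hp
        refine ⟨Pi.single i 1, 0, rfl, ?_⟩
        rw [dotProduct_zero, dotProduct_zero, add_zero, add_zero, dotProduct_single_one,
          dotProduct_single_one]
        have h3 : ∀ z w : ZMod 2, z ≠ w → z = w + 1 := by decide
        exact h3 _ _ hi
      · push Not at hp
        have hfst : (Θ d').1 = (Θ d).1 := funext hp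
        have hq : ∃ i, i ≠ i0 ∧ (Θ d').2 i ≠ (Θ d).2 i := by
          by_contra hcon
          push Not at hcon
          by_cases h0 : (Θ d').2 i0 = (Θ d).2 i0
          · apply hne
            apply hinj
            refine Prod.ext hfst (funext fun i => ?_)
            by_cases hi : i = i0
            · rw [hi]; exact h0
            · exact hcon i hi
          · apply hnet
            apply hinj
            rw [htmove d a0]
            refine Prod.ext hfst (funext fun i => ?_)
            simp only [Pi.add_apply]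
            by_cases hi : i = i0
            · rw [hi, he0, Pi.single_eq_same]
              have h3 : ∀ z w : ZMod 2, z ≠ w → z = w + 1 := by decide
              exact h3 _ _ h0
            · rw [he0, Pi.single_eq_of_ne hi, add_zero]
              exact hcon i hi
        obtain ⟨i, hi, hiq⟩ := hq
        refine ⟨0, Pi.single i 1, Pi.single_eq_of_ne hi.symm _, ?_⟩
        rw [dotProduct_zero, dotProduct_zero, zero_add, zero_add, dotProduct_single_one,
          dotProduct_single_one]
        have h3 : ∀ z w : ZMod 2, z ≠ w → z = w + 1 := by decide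
        exact h3 _ _ hiq
    -- the element `a`
    have key1 : ∀ z, (Θ z).1 i0 = 0 → th (x + e0) y (Θ z).1 (Θ z).2 = th x y (Θ z).1 (Θ z).2 := by
      intro z hz
      unfold th
      rw [add_dotProduct, dotProduct_add, e0dot, dote0, hy0, hz, add_zero, add_zero]
    have afix : ∀ z, (Θ z).1 i0 = 0 → th x y (Θ z).1 (Θ z).2 = 1 →
        (s x y * s (x + e0) y) z = z := by
      intro z hz h1
      rw [Perm.mul_apply, fix hinj (hs (x + e0) y) (by rw [key1 z hz]; exact h1),
        fix hinj (hs x y) h1]
    have amove : ∀ z, (Θ z).1 i0 = 0 → th x y (Θ z).1 (Θ z).2 = 0 →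
        (s x y * s (x + e0) y) z = t z := by
      intro z hz h1
      apply hinj
      rw [Perm.mul_apply, htmove z hz]
      have h2 := move (hs (x + e0) y) (d := z) (by rw [key1 z hz]; exact h1)
      have h3 : th x y (Θ (s (x + e0) y z)).1 (Θ (s (x + e0) y z)).2 = 0 := by
        rw [h2]
        unfold th at h1 ⊢
        simp only
        rw [add_dotProduct, add_dotProduct, add_dotProduct, e0dot, hy0, add_zero,
          dotProduct_comm y x]
        have h4 : ∀ u v w : ZMod 2, u + v + w = 0 → u + (v + u) + (w + u) = 0 := by decide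
        exact h4 _ _ _ h1
      have h4 := move (hs x y) h3
      rw [h4, h2]
      simp only
      have h5 : (Θ z).1 + y + y = (Θ z).1 := by rw [add_assoc, add_self, add_zero]
      have h6 : (Θ z).2 + (x + e0) + x = (Θ z).2 + e0 := by
        have : x + e0 + x = e0 := by
          rw [add_comm x e0, add_assoc, add_self, add_zero]
        rw [add_assoc, this]
      rw [h5, h6]
    refine ⟨s x y * s (x + e0) y, Subgroup.mul_mem _ (hsH _ _) (hsH _ _), ?_, ?_⟩
    · intro z hz
      rcases zo (th x y (Θ z).1 (Θ z).2) with h1 | h1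
      · exact Or.inr (amove z (hmoved z hz) h1)
      · exact Or.inl (afix z (hmoved z hz) h1)
    · have hdd : th x y (Θ d').1 (Θ d').2 = th x y (Θ d).1 (Θ d).2 + 1 := by
        unfold th
        rw [add_assoc, hxy]
        ring
      rcases zo (th x y (Θ d).1 (Θ d).2) with h1 | h1
      · right
        refine ⟨amove d a0 h1, afix d' a0' ?_⟩
        rw [hdd, h1, zero_add]
      · left
        refine ⟨afix d a0 h1, amove d' a0' ?_⟩
        rw [hdd, h1]
        decide

end Pool.Agent.Lib.MP_79a223_al.FM
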