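import Pool.Agent.Lib.MP_79a223_al.FM.SpecS

/-!
# Module SPT: transvections on the first components
-/

open Equiv

namespace Pool.Agent.Lib.MP_79a223_al.FM

theorem specSPT : SpecSPT := by
  intro D _ H m ε Θ hS x y hxy
  obtain ⟨r, hr, hrd⟩ := hS.tv 0 y
  obtain ⟨u, hu, hud⟩ := hS.tv x 0
  obtain ⟨w, hw, hwd⟩ := hS.tv x y
  have key2 : ∀ z : ZMod 2, z + z = 0 := by decide
  refine ⟨w * (u * r), H.mul_mem hw (H.mul_mem hu hr), fun d => ?_⟩
  have hyx : dotProduct y x = 0 := by rw [dotProduct_comm]; exact hxy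
  have h1 : (Θ (r d)).1 = (Θ d).1 + (dotProduct (Θ d).2 y + 1) • y := by
    simp only [hrd d, Prod.fst_add, Prod.smul_fst, zero_dotProduct, dotProduct_zero, zero_add]
  have h2 : (Θ (r d)).2 = (Θ d).2 := by
    simp only [hrd d, Prod.snd_add, Prod.smul_snd, smul_zero, add_zero]
  have h3 : (Θ (u (r d))).1 = (Θ d).1 + (dotProduct (Θ d).2 y + 1) • y := by
    simp only [hud (r d), Prod.fst_add, Prod.smul_fst, smul_zero, add_zero, h1]
  have h4 : (Θ (u (r d))).2 = (Θ d).2 + (dotProduct (Θ d).1 x + 1) • x := by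
    simp only [hud (r d), Prod.snd_add, Prod.smul_snd, h1, h2, add_dotProduct, smul_dotProduct, hyx,
      smul_zero, dotProduct_zero, add_zero, zero_add]
  have h5 : dotProduct (Θ (u (r d))).1 x = dotProduct (Θ d).1 x := by
    rw [h3, add_dotProduct, smul_dotProduct, hyx, smul_zero, add_zero]
  have h6 : dotProduct (Θ (u (r d))).2 y = dotProduct (Θ d).2 y := by
    rw [h4, add_dotProduct, smul_dotProduct, hxy, smul_zero, add_zero]
  rw [Perm.mul_apply, Perm.mul_apply, hwd (u (r d)), Prod.fst_add, Prod.smul_fst, h5, h6, h3, hxy,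
    zero_add]
  funext i
  simp only [Pi.add_apply, Pi.smul_apply, smul_eq_mul]
  linear_combination key2 ((dotProduct (Θ d).2 y + 1) * y i)

end Pool.Agent.Lib.MP_79a223_al.FM
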