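import Pool.Agent.Lib.MP_79a223_al.FM.IRA

/-!
# Module SUB: a suborbit of the twisted wreath product
-/

open Equiv

namespace Pool.Agent.Lib.MP_79a223_al.FM

namespace SUBM

variable {D T : Type} [Group T] {H : Subgroup (Perm D)}

theorem tr_mul (a b : H) (f : H → T) : tr (a * b) f = tr a (tr b f) := by
  funext x
  simp only [tr, mul_inv_rev, mul_assoc]

theorem tr_one (f : H → T) : tr (1 : H) f = f := by
  funext x
  simp only [tr, inv_one, one_mul]

open Classical in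
/-- The function `s q ↦ φ(q)⁻¹ t` on `P Q`, `1` off `P Q`. -/
noncomputable def nf (Q : Subgroup H) (φ : Q →* MulAut T) (δ : D) (t : T) : H → T := fun x =>
  if h : ∃ q : Q, ∃ s : H, (s : Perm D) δ = δ ∧ x = s * (q : H) then (φ h.choose)⁻¹ t else 1

theorem nf_val {Q : Subgroup H} {φ : Q →* MulAut T} {δ : D} {t : T}
    (ht : ∀ q : Q, ((q : H) : Perm D) δ = δ → φ q t = t) (s : H) (hs : (s : Perm D) δ = δ) (q : Q) :
    nf Q φ δ t (s * (q : H)) = (φ q)⁻¹ t := by
  have h : ∃ q' : Q, ∃ s' : H, (s' : Perm D) δ = δ ∧ s * (q : H) = s' * (q' : H) := ⟨q, s, hs, rfl⟩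
  unfold nf
  rw [dif_pos h]
  obtain ⟨s', hs', e⟩ := h.choose_spec
  set q' := h.choose with hq'
  have e1 : ((q' * q⁻¹ : Q) : H) = s'⁻¹ * s := by
    have e2 : (q' : H) = s'⁻¹ * (s * (q : H)) := by rw [e]; group
    rw [Subgroup.coe_mul, Subgroup.coe_inv, e2]
    group
  have hfix : (((q' * q⁻¹ : Q) : H) : Perm D) δ = δ := by
    rw [e1]
    simp only [Subgroup.coe_mul, Subgroup.coe_inv, Perm.mul_apply, hs]
    rw [Perm.inv_eq_iff_eq]
    exact hs'.symm
  have h3 := ht _ hfix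
  rw [map_mul, map_inv, MulAut.mul_apply] at h3
  have h4 : (φ q')⁻¹ ((φ q') ((φ q)⁻¹ t)) = (φ q')⁻¹ t := by rw [h3]
  rw [MulAut.inv_apply_self] at h4
  exact h4.symm

theorem nf_off {Q : Subgroup H} {φ : Q →* MulAut T} {δ : D} {t : T} {x : H}
    (h : ¬ ∃ q : Q, ∃ s : H, (s : Perm D) δ = δ ∧ x = s * (q : H)) : nf Q φ δ t x = 1 := by
  unfold nf
  rw [dif_neg h]

theorem nf_one {Q : Subgroup H} {φ : Q →* MulAut T} {δ : D} {t : T}
    (ht : ∀ q : Q, ((q : H) : Perm D) δ = δ → φ q t = t) : nf Q φ δ t 1 = t := by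
  have h := nf_val ht 1 (by simp) 1
  simpa using h

theorem nf_mem {Q : Subgroup H} {φ : Q →* MulAut T} {δ : D} {t : T}
    (ht : ∀ q : Q, ((q : H) : Perm D) δ = δ → φ q t = t) : nf Q φ δ t ∈ twBase Q φ := by
  rw [IRAM.mem_tw]
  intro x q0
  by_cases hx : ∃ q : Q, ∃ s : H, (s : Perm D) δ = δ ∧ x = s * (q : H)
  · obtain ⟨q, s, hs, rfl⟩ := hx
    have e : s * (q : H) * (q0 : H) = s * ((q * q0 : Q) : H) := by
      rw [Subgroup.coe_mul, mul_assoc]
    rw [e, nf_val ht s hs, nf_val ht s hs, map_mul, mul_inv_rev, MulAut.mul_apply]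
  · have hx' : ¬ ∃ q : Q, ∃ s : H, (s : Perm D) δ = δ ∧ x * (q0 : H) = s * (q : H) := by
      rintro ⟨q, s, hs, e⟩
      refine hx ⟨q * q0⁻¹, s, hs, ?_⟩
      rw [Subgroup.coe_mul, Subgroup.coe_inv, ← mul_assoc, ← e]
      group
    rw [nf_off hx, nf_off hx', map_one]

theorem nf_tr {Q : Subgroup H} {φ : Q →* MulAut T} {δ : D} {t : T}
    (ht : ∀ q : Q, ((q : H) : Perm D) δ = δ → φ q t = t) (s : H) (hs : (s : Perm D) δ = δ) :
    tr s (nf Q φ δ t) = nf Q φ δ t := by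
  have hs' : ((s⁻¹ : H) : Perm D) δ = δ := by
    rw [Subgroup.coe_inv, Perm.inv_eq_iff_eq]
    exact hs.symm
  funext x
  show nf Q φ δ t (s⁻¹ * x) = nf Q φ δ t x
  by_cases hx : ∃ q : Q, ∃ s' : H, (s' : Perm D) δ = δ ∧ x = s' * (q : H)
  · obtain ⟨q, s', hs1, rfl⟩ := hx
    rw [← mul_assoc, nf_val ht s' hs1, nf_val ht (s⁻¹ * s') (by
      rw [Subgroup.coe_mul, Perm.mul_apply, hs1, hs'])]
  · have hx' : ¬ ∃ q : Q, ∃ s' : H, (s' : Perm D) δ = δ ∧ s⁻¹ * x = s' * (q : H) := by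
      rintro ⟨q, s', hs1, e⟩
      refine hx ⟨q, s * s', by rw [Subgroup.coe_mul, Perm.mul_apply, hs1, hs], ?_⟩
      rw [mul_assoc, ← e]
      group
    rw [nf_off hx, nf_off hx']

/-- not all elements of the twisted base group are invariant -/
theorem not_all_inv {Q : Subgroup H} {φ : Q →* MulAut T} (hirr : IrrTw Q φ)
    (hab : ∃ a b : T, a * b ≠ b * a) (h : ∀ f ∈ twBase Q φ, ∀ s : H, tr s f = f) : False := by
  obtain ⟨a, b, hab⟩ := hab
  have ha : IRAM.ft Q φ a ∈ twBase Q φ := IRAM.ft_mem Q φ a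
  have hb : IRAM.ft Q φ b ∈ twBase Q φ := IRAM.ft_mem Q φ b
  have hle : Subgroup.zpowers (IRAM.ft Q φ a) ≤ twBase Q φ := by
    rw [Subgroup.zpowers_le]
    exact ha
  rcases hirr (Subgroup.zpowers (IRAM.ft Q φ a)) hle (fun s f hf => by rwa [h f (hle hf) s]) with h1 | h1
  · rw [Subgroup.zpowers_eq_bot] at h1
    have h2 := congrFun h1 1
    rw [IRAM.ft_one] at h2
    apply hab
    rw [h2]
    simp
  · rw [← h1, Subgroup.mem_zpowers_iff] at hb
    obtain ⟨k, hk⟩ := hb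
    have h2 := congrFun hk 1
    rw [Pi.pow_apply, IRAM.ft_one, IRAM.ft_one] at h2
    apply hab
    rw [← h2]
    exact (Commute.refl a).zpow_right k

/-- the invariant elements of the twisted base group -/
def invs (Q : Subgroup H) (φ : Q →* MulAut T) : Subgroup (H → T) where
  carrier := {f | f ∈ twBase Q φ ∧ ∀ s : H, tr s f = f}
  mul_mem' := by
    intro f g hf hg
    refine ⟨(twBase Q φ).mul_mem hf.1 hg.1, fun s => ?_⟩
    funext x
    have e1 := congrFun (hf.2 s) x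
    have e2 := congrFun (hg.2 s) x
    simp only [tr] at e1 e2 ⊢
    rw [Pi.mul_apply, Pi.mul_apply, e1, e2]
  one_mem' := ⟨(twBase Q φ).one_mem, fun s => rfl⟩
  inv_mem' := by
    intro f hf
    refine ⟨(twBase Q φ).inv_mem hf.1, fun s => ?_⟩
    funext x
    have e1 := congrFun (hf.2 s) x
    simp only [tr] at e1 ⊢
    rw [Pi.inv_apply, Pi.inv_apply, e1]

theorem mem_invs {Q : Subgroup H} {φ : Q →* MulAut T} {f : H → T} :
    f ∈ invs Q φ ↔ f ∈ twBase Q φ ∧ ∀ s : H, tr s f = f := Iff.rfl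

end SUBM

open SUBM in
theorem specSUB : SpecSUB := by
  intro D T _ _ _ H Q φ h2 hirr hab ⟨δ, t, ht1, ht⟩
  have htrans : ∀ d : D, ∃ s : H, (s : Perm D) δ = d := by
    intro d
    obtain ⟨⟨a, b, hne⟩, h3⟩ := h2
    have hex : ∀ e : D, ∃ e' : D, e ≠ e' := by
      intro e
      by_cases hea : e = a
      · exact ⟨b, by rw [hea]; exact hne⟩
      · exact ⟨a, hea⟩
    obtain ⟨δ', hδ'⟩ := hex δ
    obtain ⟨d', hd'⟩ := hex d
    obtain ⟨s, hs, e, _⟩ := h3 δ δ' d d' hδ' hd'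
    exact ⟨⟨s, hs⟩, e⟩
  choose σ hσ using htrans
  set n := nf Q φ δ t with hn
  have hval : ∀ s : H, tr (σ ((s : Perm D) δ)) n = tr s n := by
    intro s
    have hP : (((σ ((s : Perm D) δ))⁻¹ * s : H) : Perm D) δ = δ := by
      rw [Subgroup.coe_mul, Subgroup.coe_inv, Perm.mul_apply, Perm.inv_eq_iff_eq]
      exact (hσ _).symm
    have e := nf_tr ht _ hP
    rw [← hn] at e
    have e2 : s = σ ((s : Perm D) δ) * ((σ ((s : Perm D) δ))⁻¹ * s) := by group
    calc tr (σ ((s : Perm D) δ)) n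
        = tr (σ ((s : Perm D) δ)) (tr ((σ ((s : Perm D) δ))⁻¹ * s) n) := by rw [e]
      _ = tr (σ ((s : Perm D) δ) * ((σ ((s : Perm D) δ))⁻¹ * s)) n := (tr_mul _ _ _).symm
      _ = tr s n := by rw [← e2]
  have hmem : ∀ d, tr (σ d) n ∈ twBase Q φ := fun d => IRAM.tr_mem _ (nf_mem ht)
  have heq : ∀ (s : H) (d : D), tr (σ ((s : Perm D) d)) n = tr s (tr (σ d) n) := by
    intro s d
    rw [← tr_mul]
    have e : (s : Perm D) d = ((s * σ d : H) : Perm D) δ := by
      rw [Subgroup.coe_mul, Perm.mul_apply, hσ]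
    rw [e]
    exact hval _
  refine ⟨fun d => tr (σ d) n, hmem, heq, ?_, ?_⟩
  · intro d d' hdd
    by_contra hne
    have hdd : tr (σ d) n = tr (σ d') n := hdd
    have hall : ∀ c c' : D, tr (σ c) n = tr (σ c') n := by
      intro c c'
      by_cases hc : c = c'
      · rw [hc]
      · obtain ⟨s, hs, e1, e2⟩ := h2.2 d d' c c' hne hc
        have e3 := heq ⟨s, hs⟩ d
        have e4 := heq ⟨s, hs⟩ d'
        simp only [e1] at e3
        simp only [e2] at e4
        rw [e3, e4, hdd]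
    have hinv : ∀ s : H, tr s n = n := by
      intro s
      have e1 := hval s
      have e2 := hval 1
      rw [tr_one] at e2
      calc tr s n = tr (σ ((s : Perm D) δ)) n := e1.symm
        _ = tr (σ (((1 : H) : Perm D) δ)) n := hall _ _
        _ = n := e2
    have hnM : n ∈ invs Q φ := mem_invs.2 ⟨nf_mem ht, hinv⟩
    have hle : invs Q φ ≤ twBase Q φ := fun f hf => (mem_invs.1 hf).1
    rcases hirr (invs Q φ) hle (fun s f hf => by rwa [(mem_invs.1 hf).2 s]) with h5 | h5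
    · rw [h5, Subgroup.mem_bot] at hnM
      have e := congrFun hnM 1
      rw [hn, nf_one ht] at e
      exact ht1 e
    · refine not_all_inv hirr hab fun f hf s => ?_
      rw [← h5] at hf
      exact (mem_invs.1 hf).2 s
  · intro d hd
    have e := congrFun hd (σ d)
    have e2 : tr (σ d) n (σ d) = t := by
      show n ((σ d)⁻¹ * σ d) = t
      rw [inv_mul_cancel, hn]
      exact nf_one ht
    exact ht1 (e2.symm.trans e)

end Pool.Agent.Lib.MP_79a223_al.FM
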