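import Pool.Agent.Lib.MP_79a223_al.FM.Spec

/-!
# Module SWP: an element which swaps two points
-/

open Equiv

namespace Pool.Agent.Lib.MP_79a223_al.FM

theorem specSWP (hDIF : SpecDIF) : SpecSWP := by
  classical
  intro D _ H p _ hH hS C hC hinv
  obtain ⟨B, a, x, y, hB, ha, hxy, hfix, hcard, hax, hay, horb⟩ := hS
  by_cases hall : ∀ c ∈ C, c x = c y
  · left
    -- all elements are constant
    obtain ⟨f, hf, hf0⟩ := Submodule.exists_mem_ne_zero_of_ne_bot hC
    have hconst : ∀ c ∈ C, ∀ z w : D, c z = c w := by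
      intro c hc z w
      by_cases hzw : z = w
      · rw [hzw]
      obtain ⟨s, hs, hsz, hsw⟩ := hH.2 x y z w hxy hzw
      have h1 := hall _ (hinv s⁻¹ (H.inv_mem hs) c hc)
      rw [rho_apply, rho_apply, inv_inv, hsz, hsw] at h1
      exact h1
    have hfx : f x ≠ 0 := by
      intro h0
      apply hf0
      ext z
      rw [hconst f hf z x, h0]
      rfl
    have h1 : (fun _ => 1 : D → ZMod p) = (f x)⁻¹ • f := by
      ext z
      rw [Pi.smul_apply, smul_eq_mul, hconst f hf z x, inv_mul_cancel₀ hfx]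
    rw [h1]
    exact C.smul_mem _ hf
  · right
    push Not at hall
    obtain ⟨c, hc, hcxy⟩ := hall
    let c₁ : D → ZMod p := ∑ b : B, rho p (b : Perm D) c
    have hc₁ : ∀ z, c₁ z = ∑ b : B, c ((b : Perm D)⁻¹ z) := by
      intro z
      simp only [c₁, Finset.sum_apply, rho_apply]
    have hc₁C : c₁ ∈ C := C.sum_mem fun b _ => hinv _ (hB b.2) c hc
    have hinvB : ∀ b ∈ B, ∀ z, c₁ (b z) = c₁ z := by
      intro b hb z
      rw [hc₁, hc₁]
      refine Fintype.sum_equiv (Equiv.mulLeft (⟨b, hb⟩ : B)⁻¹) _ _ (fun b' => ?_)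
      congr 1
    have hn : ((Nat.card B : ℕ) : ZMod p) ≠ 0 := by
      rwa [Ne, ZMod.natCast_eq_zero_iff]
    have hval : ∀ z, (∀ b ∈ B, b z = z) → c₁ z = (Nat.card B : ZMod p) * c z := by
      intro z hz
      rw [hc₁, Finset.sum_congr rfl (fun (b : B) _ => by
        rw [hz _ (B.inv_mem b.2)] : ∀ b : B, b ∈ Finset.univ → c ((b : Perm D)⁻¹ z) = c z),
        Finset.sum_const, Finset.card_univ, nsmul_eq_mul, Nat.card_eq_fintype_card]
    have hx := hval x (fun b hb => (hfix b hb).1)
    have hy := hval y (fun b hb => (hfix b hb).2)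
    have haix : a⁻¹ x = y := by rw [Perm.inv_eq_iff_eq, hay]
    have haiy : a⁻¹ y = x := by rw [Perm.inv_eq_iff_eq, hax]
    have hfeq : c₁ - rho p a c₁ = ((Nat.card B : ZMod p) * (c x - c y)) •
        (Pi.single x 1 - Pi.single y 1 : D → ZMod p) := by
      ext z
      rw [Pi.sub_apply, rho_apply, Pi.smul_apply, Pi.sub_apply, smul_eq_mul]
      by_cases hzx : z = x
      · subst hzx
        rw [haix, hx, hy, Pi.single_eq_same, Pi.single_eq_of_ne hxy]
        ring
      · by_cases hzy : z = y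
        · subst hzy
          rw [haiy, hx, hy, Pi.single_eq_same, Pi.single_eq_of_ne hzx]
          ring
        · have hwx : a⁻¹ z ≠ x := by
            intro h
            rw [Perm.inv_eq_iff_eq, hax] at h
            exact hzy h
          have hwy : a⁻¹ z ≠ y := by
            intro h
            rw [Perm.inv_eq_iff_eq, hay] at h
            exact hzx h
          obtain ⟨b, hb, hab⟩ := horb _ hwx hwy
          rw [pinv'] at hab
          have h2 := hinvB b hb (a⁻¹ z)
          rw [← hab] at h2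
          rw [h2, Pi.single_eq_of_ne hzx, Pi.single_eq_of_ne hzy]
          ring
    refine hDIF D H p C hH hinv ⟨x, y, hxy, ?_⟩
    have hmem : c₁ - rho p a c₁ ∈ C := C.sub_mem hc₁C (hinv a ha _ hc₁C)
    rw [hfeq] at hmem
    exact (Submodule.smul_mem_iff _ (mul_ne_zero hn (sub_ne_zero.2 hcxy))).1 hmem

end Pool.Agent.Lib.MP_79a223_al.FM
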