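import Pool.Agent.Lib.MP_79a223_al.FM.Spec

/-!
# Module SYM: a group of symplectic type contains an involution as in `HasInvolution`
-/

open Equiv

namespace Pool.Agent.Lib.MP_79a223_al.FM

namespace SYMM

theorem z2 (z : ZMod 2) : z = 0 ∨ z = 1 := by
  revert z; decide

theorem dbl (z : ZMod 2) : z + z = 0 := by
  revert z; decide

theorem cancel {a b : ZMod 2} (h : a + b = 0) : a = b := by
  revert a b; decide

variable {D : Type} {n : ℕ} {B : (Fin n → ZMod 2) →ₗ[ZMod 2] (Fin n → ZMod 2) →ₗ[ZMod 2] ZMod 2}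
  {Θ : D → (Fin n → ZMod 2) → ZMod 2}

theorem dblv (x : Fin n → ZMod 2) : x + x = 0 := by
  funext i
  exact dbl (x i)

theorem th0 (hΘ : ∀ d x y, Θ d (x + y) = Θ d x + Θ d y + B x y) (d : D) : Θ d 0 = 0 := by
  have h := hΘ d 0 0
  rw [add_zero, map_zero, add_zero, dbl] at h
  exact h

theorem bxx (hΘ : ∀ d x y, Θ d (x + y) = Θ d x + Θ d y + B x y) (d : D) (x : Fin n → ZMod 2) :
    B x x = 0 := by
  have h := hΘ d x x
  rw [dblv, th0 hΘ, dbl, zero_add] at h
  exact h.symm

theorem bsym (hΘ : ∀ d x y, Θ d (x + y) = Θ d x + Θ d y + B x y) (d : D) (x y : Fin n → ZMod 2) :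
    B x y = B y x := by
  have h := hΘ d x y
  have h' := hΘ d y x
  rw [add_comm y x, add_comm (Θ d y) (Θ d x)] at h'
  rw [h] at h'
  exact add_left_cancel h'

theorem ths (hΘ : ∀ d x y, Θ d (x + y) = Θ d x + Θ d y + B x y) {s : Perm D} {v : Fin n → ZMod 2}
    (hs : ∀ d x, Θ (s d) x = Θ d (x + B x v • v)) (d : D) (x : Fin n → ZMod 2) :
    Θ (s d) x = Θ d x + B x v * (Θ d v + 1) := by
  rw [hs]
  rcases z2 (B x v) with h | h
  · rw [h, zero_smul, add_zero, zero_mul, add_zero]
  · rw [h, one_smul, one_mul, hΘ, h, add_assoc]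

theorem fix1 (hinj : Function.Injective Θ)
    (hΘ : ∀ d x y, Θ d (x + y) = Θ d x + Θ d y + B x y) {s : Perm D} {v : Fin n → ZMod 2}
    (hs : ∀ d x, Θ (s d) x = Θ d (x + B x v • v)) {d : D} (h1 : Θ d v = 1) : s d = d := by
  apply hinj
  funext x
  rw [ths hΘ hs, h1, dbl, mul_zero, add_zero]

theorem mv0 (hΘ : ∀ d x y, Θ d (x + y) = Θ d x + Θ d y + B x y) {s : Perm D} {v : Fin n → ZMod 2}
    (hs : ∀ d x, Θ (s d) x = Θ d (x + B x v • v)) {d : D} (h0 : Θ d v = 0)
    (x : Fin n → ZMod 2) : Θ (s d) x = Θ d x + B x v := by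
  rw [ths hΘ hs, h0, zero_add, mul_one]

/-- A functional is given by the form. -/
theorem repr (hnd : ∀ x, x ≠ 0 → ∃ y, B x y ≠ 0) (L : (Fin n → ZMod 2) →ₗ[ZMod 2] ZMod 2) :
    ∃ w, B w = L := by
  have hinj : Function.Injective B := by
    rw [← LinearMap.ker_eq_bot, LinearMap.ker_eq_bot']
    intro x hx
    by_contra h
    obtain ⟨y, hy⟩ := hnd x h
    rw [hx] at hy
    exact hy rfl
  have hf : Module.finrank (ZMod 2) (Fin n → ZMod 2)
      = Module.finrank (ZMod 2) ((Fin n → ZMod 2) →ₗ[ZMod 2] ZMod 2) :=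
    (Subspace.dual_finrank_eq (K := ZMod 2) (V := Fin n → ZMod 2)).symm
  exact (LinearMap.injective_iff_surjective_of_finrank_eq_finrank hf).1 hinj L

theorem exists_u (hnd : ∀ x, x ≠ 0 → ∃ y, B x y ≠ 0) (hsym : ∀ x y, B x y = B y x)
    {v w : Fin n → ZMod 2} (hw : w ≠ 0) (hvw : w ≠ v) : ∃ u, B u v = 0 ∧ B u w = 1 := by
  by_contra hcon
  push Not at hcon
  have key : ∀ u, B u v = 0 → B u w = 0 := by
    intro u hu
    rcases z2 (B u w) with h | h
    · exact h
    · exact absurd h (hcon u hu)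
  have hne : v + w ≠ 0 := by
    intro h
    apply hvw
    funext i
    have hi : v i + w i = 0 := congrFun h i
    exact (cancel hi).symm
  obtain ⟨a, ha⟩ := hnd _ hne
  rw [map_add, LinearMap.add_apply, hsym v a, hsym w a] at ha
  obtain ⟨b, hb⟩ := hnd _ hw
  rw [hsym w b] at hb
  have hav : B a v = 1 := by
    rcases z2 (B a v) with h | h
    · exfalso
      rw [h, key a h, add_zero] at ha
      exact ha rfl
    · exact h
  have haw : B a w = 0 := by
    rcases z2 (B a w) with h | h
    · exact h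
    · exfalso
      rw [hav, h, dbl] at ha
      exact ha rfl
  have hbw : B b w = 1 := by
    rcases z2 (B b w) with h | h
    · exact absurd h hb
    · exact h
  have hbv : B b v = 1 := by
    rcases z2 (B b v) with h | h
    · exact absurd (key b h) hb
    · exact h
  have h1 := key (a + b) (by rw [map_add, LinearMap.add_apply, hav, hbv, dbl])
  rw [map_add, LinearMap.add_apply, haw, hbw, zero_add] at h1
  exact one_ne_zero h1

end SYMM

open SYMM in
theorem specSYM : SpecSYM := by
  intro D _ H hT hS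
  obtain ⟨n, B, Θ, hinj, hΘ, hnd, hH⟩ := hS
  obtain ⟨⟨a₀, b₀, hab⟩, -⟩ := hT
  have hsym : ∀ x y, B x y = B y x := bsym hΘ a₀
  have hxx : ∀ x, B x x = 0 := bxx hΘ a₀
  choose s hsH hs using hH
  -- (1)
  obtain ⟨d, v, hv0, hdv⟩ : ∃ d v, v ≠ 0 ∧ Θ d v = 0 := by
    by_contra hcon
    push Not at hcon
    apply hab
    apply hinj
    funext x
    by_cases hx : x = 0
    · rw [hx, th0 hΘ, th0 hΘ]
    · rcases z2 (Θ a₀ x) with h | h
      · exact absurd h (hcon a₀ x hx)
      · rcases z2 (Θ b₀ x) with h' | h'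
        · exact absurd h' (hcon b₀ x hx)
        · rw [h, h']
  have hmoved : ∀ z, s v z ≠ z → Θ z v = 0 := by
    intro z hz
    rcases z2 (Θ z v) with h | h
    · exact h
    · exact absurd (fix1 hinj hΘ (hs v) h) hz
  refine ⟨s v, hsH v, ⟨d, ?_⟩, ?_, ?_⟩
  · intro h
    obtain ⟨y, hy⟩ := hnd v hv0
    apply hy
    have h1 := mv0 hΘ (hs v) hdv y
    rw [h] at h1
    have h2 : B y v = 0 := by
      have := h1.symm
      rwa [add_eq_left] at this
    rw [hsym v y, h2]
  · intro x
    apply hinj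
    funext z
    rw [ths hΘ (hs v) (s v x) z, ths hΘ (hs v) x z, ths hΘ (hs v) x v, hxx, zero_mul, add_zero,
      add_assoc, dbl, add_zero]
  · intro x y hx hy hyx hytx
    have hxv := hmoved x hx
    have hyv := hmoved y hy
    let L : (Fin n → ZMod 2) →ₗ[ZMod 2] ZMod 2 :=
      AddMonoidHom.toZModLinearMap 2
        { toFun := fun z => Θ y z + Θ x z
          map_zero' := by rw [th0 hΘ, th0 hΘ, add_zero]
          map_add' := by
            intro z z'
            rw [hΘ, hΘ]
            have := dbl (B z z')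
            linear_combination this }
    have hL : ∀ z, L z = Θ y z + Θ x z := fun z => rfl
    obtain ⟨w, hw⟩ := repr hnd L
    have hBw : ∀ z, B z w = Θ y z + Θ x z := by
      intro z
      rw [hsym, hw, hL]
    have hyz : ∀ z, Θ y z = Θ x z + B z w := by
      intro z
      rw [hBw]
      have := dbl (Θ x z)
      linear_combination -this
    have hw0 : w ≠ 0 := by
      intro h
      apply hyx
      apply hinj
      funext z
      rw [hyz, h, map_zero, add_zero]
    have hwv : w ≠ v := by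
      intro h
      apply hytx
      apply hinj
      funext z
      rw [hyz, h, mv0 hΘ (hs v) hxv]
    obtain ⟨u, huv, huw⟩ := exists_u hnd hsym hw0 hwv
    have hsum : ∀ z, Θ z v = 0 → Θ z (u + v) = Θ z u := by
      intro z hz
      rw [hΘ, hz, huv, add_zero, add_zero]
    have hfix : ∀ z, Θ z v = 0 → Θ z u = 1 → (s u * s (u + v)) z = z := by
      intro z hz hzu
      rw [Perm.mul_apply, fix1 hinj hΘ (hs (u + v)) ((hsum z hz).trans hzu),
        fix1 hinj hΘ (hs u) hzu]
    have hmv : ∀ z, Θ z v = 0 → Θ z u = 0 → (s u * s (u + v)) z = s v z := by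
      intro z hz hzu
      rw [Perm.mul_apply]
      apply hinj
      funext x'
      have h1 : Θ (s (u + v) z) u = 0 := by
        rw [mv0 hΘ (hs (u + v)) ((hsum z hz).trans hzu), hzu, map_add, hxx, huv, add_zero,
          add_zero]
      rw [mv0 hΘ (hs u) h1, mv0 hΘ (hs (u + v)) ((hsum z hz).trans hzu), mv0 hΘ (hs v) hz, map_add]
      have := dbl (B x' u)
      linear_combination this
    refine ⟨s u * s (u + v), H.mul_mem (hsH u) (hsH (u + v)), ?_, ?_⟩
    · intro z hz
      have hzv := hmoved z hz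
      rcases z2 (Θ z u) with h | h
      · right; exact hmv z hzv h
      · left; exact hfix z hzv h
    · have hyu : Θ y u = Θ x u + 1 := by rw [hyz, huw]
      rcases z2 (Θ x u) with h | h
      · right
        rw [h, zero_add] at hyu
        exact ⟨hmv x hxv h, hfix y hyv hyu⟩
      · left
        rw [h, dbl] at hyu
        exact ⟨hfix x hxv h, hmv y hyv hyu⟩

end Pool.Agent.Lib.MP_79a223_al.FM
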