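import Pool.Agent.Lib.MP_79a223_al.FM.Defs
import Pool.Agent.Lib.MP_79a223_al.Mod

/-!
# Primitive groups with a 2-transitive suborbit and an abelian regular socle: specification

THEOREM.  Let `H` be a 2-transitive group of permutations of a finite set `D`, `p` a prime and `M` a
subspace of `F_p^D` with `Listed H p M`.  A group `G` of permutations of a finite set `X` is primitive of
`p`-power degree with a unique minimal normal subgroup, which is regular, and with a suborbit on which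
the point stabiliser acts as `H` acts on `D`, if and only if `p` does not divide `|D|` (in the case
`M = consts`) and, after a bijection of `X` with `V = F_p^D / M`, `G` consists of the maps
`v ↦ s v + w`, `s ∈ H`, `w ∈ V`.

PLAN.  `V = N` is generated by the orbit, so `V = F_p^D / M'`, `M'` a maximal `H`-invariant subspace
which does not contain `e_x - e_y`.  Its orthogonal complement `C` is nonzero and invariant.  In every listed
case a nonzero invariant `C` contains the constants or a fixed set `F` of functions; the first is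
impossible, so `M' ≤ perp F`, and `M' = perp F` because `M'` is maximal.

CONVENTIONS.  Every module `XXX` is a file `Pool/Agent/Lib/MP_79a223_al/FM/XXX.lean` which imports this file
and proves `theorem specXXX (hYYY : SpecYYY) .. : SpecXXX` in the namespace
`Pool.Agent.Lib.MP_79a223_al.FM`; own lemmas in a namespace `XXXM`.  No double quotes.  For `rho` use
`rho_apply`, `rho_mul`, `rho_one`, `rho_single`, `pinv`, `pinv'`, `mem_consts` of the landed file `Mod.lean`
(imported here).  `rho p s f = f ∘ s⁻¹`, `rho p s (Pi.single d c) = Pi.single (s d) c`.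
-/

open Equiv

namespace Pool.Agent.Lib.MP_79a223_al.FM

/-- A code is invariant under `H`. -/
def Inv {D : Type} (H : Subgroup (Perm D)) (p : ℕ) (C : Submodule (ZMod p) (D → ZMod p)) : Prop :=
  ∀ s ∈ H, ∀ f ∈ C, rho p s f ∈ C

/-- Every nonzero invariant code contains the function `1` or all functions of `F`. -/
def Dich {D : Type} (H : Subgroup (Perm D)) (p : ℕ) (F : Set (D → ZMod p)) : Prop :=
  ∀ C : Submodule (ZMod p) (D → ZMod p), C ≠ ⊥ → Inv H p C → (fun _ => 1) ∈ C ∨ ∀ g ∈ F, g ∈ C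

/-- The functions with sum zero. -/
def sumZ (D : Type) [Fintype D] (p : ℕ) : Set (D → ZMod p) := {f | ∑ x, f x = 0}

/-- Module DIF (50 lines).  PROOF.  By 2-transitivity (`rho` of `e_x - e_y` is `e_(s x) - e_(s y)`) all
`e_z - e_o` are in `C`, `o` fixed; if `∑ f = 0` then `f = ∑_z f(z) (e_z - e_o)`. -/
def SpecDIF : Prop :=
  ∀ (D : Type) [Fintype D] [DecidableEq D] (H : Subgroup (Perm D)) (p : ℕ)
    (C : Submodule (ZMod p) (D → ZMod p)), TwoTransitive H → Inv H p C →
    (∃ x y : D, x ≠ y ∧ (Pi.single x 1 - Pi.single y 1 : D → ZMod p) ∈ C) → ∀ g ∈ sumZ D p, g ∈ C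

/-- Module PGF (70 lines).  PROOF.  `P` acts on the finite set `C` by `rho`; `p ∣ |C|` because `C` is a
nonzero finite vector space over `ZMod p`; `0` is fixed; use
`IsPGroup.exists_fixed_point_of_prime_dvd_card_of_fixed_point` (it is used in the landed file `Core.lean`,
lemma `exists_prime`). -/
def SpecPGF : Prop :=
  ∀ (D : Type) [Fintype D] (P : Subgroup (Perm D)) (p : ℕ) [Fact p.Prime]
    (C : Submodule (ZMod p) (D → ZMod p)), IsPGroup p P → C ≠ ⊥ → Inv P p C →
    ∃ f ∈ C, f ≠ 0 ∧ ∀ s ∈ P, rho p s f = f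

/-- Module DUA (50 lines).  PROOF.  `Submodule.exists_le_ker_of_lt_top` gives a nonzero functional `l` on
`D → ZMod p` which vanishes on `M`; `g x = l (Pi.single x 1)`, `l f = ∑ f x * g x`.  Second: `Pi.single x 1`
is in `perp p F`, so `g x = 0`.  Third: reindex the sum by `s`.  Fourth: `f ∈ perp (sumZ)` and
`g = e_x - e_y` give `f x = f y`; conversely a constant `c` has `∑ c * g = c * ∑ g = 0`. -/
def SpecDUA : Prop :=
  ∀ (D : Type) [Fintype D] (p : ℕ) [Fact p.Prime],
    (∀ M : Submodule (ZMod p) (D → ZMod p), M ≠ ⊤ → perp p (M : Set (D → ZMod p)) ≠ ⊥) ∧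
    (∀ F : Set (D → ZMod p), perp p F = ⊤ → ∀ g ∈ F, g = 0) ∧
    (∀ (H : Subgroup (Perm D)) (F : Set (D → ZMod p)), (∀ s ∈ H, ∀ g ∈ F, rho p s g ∈ F) →
      Inv H p (perp p F)) ∧ perp p (sumZ D p) = consts D p

/-- Module ALT (from DIF; 100 lines).  PROOF.  Let `C` be nonzero and invariant.  If all elements of `C`
are constant then `1 ∈ C`.  Otherwise `c ∈ C`, `c i ≠ c j`; let `l ≠ i, j`, `s` the 3-cycle
`i → j → l → i`.  `f = c - rho s c` vanishes off `{i, j, l}`, and `f j = c j - c i ≠ 0`.  As `|D| ≥ 5` there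
are two more points `m`, `m'`; `t` the 3-cycle `j → m → m' → j`.  `f - rho t f = f(j) (e_j - e_m)`.  So
`e_j - e_m ∈ C`; use DIF.  (`p` prime: `ZMod p` is a field.) -/
def SpecALT : Prop :=
  ∀ (D : Type) [Fintype D] (H : Subgroup (Perm D)) (p : ℕ) [Fact p.Prime], TwoTransitive H →
    5 ≤ Fintype.card D → HasThreeCycles H → Dich H p (sumZ D p)

/-- Module NIL (from DIF, PGF; 130 lines).  PROOF.  Choose `c ∈ C` with `c δ ≠ 0` (`C ≠ 0`, `H` transitive).
`C_A = {f ∈ C | ∀ a ∈ A, rho a f = f}` is nonzero: it contains `∑_(a ∈ A) rho a c`, with value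
`|A| c(δ) ≠ 0` at `δ`.  `P` preserves `C_A`: `rho a (rho b f) = rho b (rho (b⁻¹ a b) f)`.  By PGF some
`f ∈ C_A`, `f ≠ 0`, is fixed by `P`.  So `f (a (b x)) = f x`, `f` is constant on the points `≠ δ`.  Let
`x ≠ δ`.  If `f δ = f x`, `f` is constant and `1 ∈ C`.  If not, take `s ∈ H` with `s δ = x`:
`rho s f - f = (f δ - f x) (e_x - e_δ)`; use DIF. -/
def SpecNIL : Prop :=
  ∀ (D : Type) [Fintype D] (H : Subgroup (Perm D)) (p : ℕ) [Fact p.Prime], TwoTransitive H →
    IsNilpotentType H p → Dich H p (sumZ D p)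

/-- Module SWP (from DIF; 80 lines).  PROOF.  Let `C` be nonzero and invariant.  If all elements of `C` are
constant, `1 ∈ C`.  Otherwise, by 2-transitivity, `c x ≠ c y` for some `c ∈ C`.
`c₁ = ∑_(b ∈ B) rho b c ∈ C` is constant on the orbits of `B`, `c₁ x = |B| c x`, `c₁ y = |B| c y`.
`f = c₁ - rho a c₁`: for `z ≠ x, y` let `w = a⁻¹ z` (`≠ x, y`), `z = a w = b w`, so `c₁ z = c₁ w` and `f z = 0`.
`f x = c₁ x - c₁ y = - f y ≠ 0`.  So `f` is a nonzero multiple of `e_x - e_y`; DIF. -/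
def SpecSWP : Prop :=
  ∀ (D : Type) [Fintype D] (H : Subgroup (Perm D)) (p : ℕ) [Fact p.Prime], TwoTransitive H →
    HasSwap H p → Dich H p (sumZ D p)

/-- The criterion for odd `p`: `t ∈ H` is an involution, and for two different 2-cycles of `t` some
element of `H` which maps every 2-cycle of `t` to itself swaps the points of exactly one of the two. -/
def HasInvolution {D : Type} (H : Subgroup (Perm D)) : Prop :=
  ∃ t ∈ H, (∃ x, t x ≠ x) ∧ (∀ x, t (t x) = x) ∧
    ∀ x y, t x ≠ x → t y ≠ y → y ≠ x → y ≠ t x → ∃ a ∈ H, (∀ z, t z ≠ z → a z = z ∨ a z = t z) ∧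
      ((a x = x ∧ a y = t y) ∨ (a x = t x ∧ a y = y))

/-- Module TRV (from DIF; 150 lines).  PROOF.  Let `C` be nonzero and invariant.  (1) If `rho t c = c` for all
`c ∈ C` then `c x = c (t x)` for one pair `x ≠ t x`, so by invariance under the 2-transitive `H` all
`c ∈ C` are constant, and `1 ∈ C`.  (2) Otherwise `f = c - rho t c ≠ 0` is in `C` with `f (t z) = - f z`;
`p` odd, so `f z = 0` if `t z = z`.  Choose a nonzero `f ∈ C` with `f ∘ t = - f` and support of minimal size.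
If the support contains `x`, `y` in different 2-cycles, take `a` and `g = f + rho a f`: if `a z = z` then
`g z = 2 f z`, if `a z = t z ≠ z` then `a⁻¹ z = t z` and `g z = 0`; so `g ∘ t = - g`, the support of `g` is
properly smaller and nonempty (one of `x`, `y` in, the other out).  So `f = f(x) (e_x - e_(t x))`; DIF. -/
def SpecTRV : Prop :=
  ∀ (D : Type) [Fintype D] (H : Subgroup (Perm D)) (p : ℕ) [Fact p.Prime], TwoTransitive H → p ≠ 2 →
    HasInvolution H → Dich H p (sumZ D p)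

/-- Module SYM (180 lines).  PROOF.  For `v` let `s_v ∈ H` be the given permutation: `Θ (s_v d) x =
Θ d (x + B x v • v) = Θ d x + B x v * (Θ d v + 1)`; so `s_v d = d` if `Θ d v = 1`, and `Θ (s_v d) = Θ d +
B(·, v)` if `Θ d v = 0`.  `Θ d 0 = 0`, `B x x = 0`, `B x y = B y x`.
(1) Some `d`, `v ≠ 0` have `Θ d v = 0`: else, for `d ≠ d'`, `Θ d = Θ d'` (`1` off `0`).  `t = s_v`: `t d ≠ d`
because `B(·, v) ≠ 0`; `t t = 1`.
(2) Let `x`, `y` (points of `D`) be moved by `t`, `y ≠ x`, `y ≠ t x`: `Θ x v = Θ y v = 0`.  `Θ y + Θ x` is a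
linear functional, so `= B(·, w)` (`B` is nondegenerate, finite dimension), `w ≠ 0`, `w ≠ v`,
`B v w = 0`.  There is `u` with `B u v = 0`, `B u w = 1`: otherwise `g = B(·, w)` vanishes where
`f = B(·, v)` does; `f`, `g` nonzero and different: `f a ≠ g a` gives `f a = 1`, `g a = 0`, `g b = 1` gives
`f b = 1`, and `f (a + b) = 0`, `g (a + b) = 1`.
(3) `a = s_u s_(u + v)`.  If `t z ≠ z`, `Θ z v = 0`, then `Θ z (u + v) = Θ z u`; if it is `1`, `a z = z`; if
it is `0`, `Θ (s_(u+v) z) = Θ z + B(·, u + v)`, its value at `u` is `0 + B u v = 0`, and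
`Θ (a z) = Θ z + B(·, v)`, `a z = t z`.  And `Θ y u = Θ x u + B u w = Θ x u + 1`. -/
def SpecSYM : Prop :=
  ∀ (D : Type) [Fintype D] (H : Subgroup (Perm D)), TwoTransitive H → IsSymplectic H → HasInvolution H

/-- Module OPP (200 lines): the averaging operator of the transvections with centre `u` fixing `x`.
PROOF.  `B = {φ | φ u = 0 ∧ φ x = 0}`, a finite vector space over `k`, so `p ∤ |B|`
(`Module.card_eq_pow_finrank`).  For `φ ∈ B` let `s_φ ∈ H` be the permutation of the transvection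
`v ↦ v - φ(v) u` and `c₁ = ∑_(φ ∈ B) (c ∘ s_φ)` (`c ∘ s_φ = rho p s_φ⁻¹ c ∈ C`):
`c₁ (π v) = ∑_φ c (π (v - φ(v) u))`.  (1) `v ∈ span {x, u}`, `v ≠ 0`: `c₁ (π v) = |B| c (π v)`.
(2) `v ∉ span {x, u}`: for every `a : k` there is `φ₀ ∈ B` with `φ₀ v = - a` (a functional which
vanishes on the subspace `span {x, u}` and is `1` at `v`), and reindexing by `φ ↦ φ + φ₀` gives
`c₁ (π (v + a u)) = c₁ (π v)`.  (3) Let `ψ u = 0`, `ψ x = 1`, `s` the permutation of `v ↦ v - ψ(v) u`, and
`g = |B|⁻¹ (c₁ - c₁ ∘ s)`. -/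
def SpecOPP : Prop :=
  ∀ (k : Type) [Field k] [Fintype k] (n : ℕ) (D : Type) [Fintype D] (π : (Fin n → k) → D)
    (H : Subgroup (Perm D)) (p : ℕ) [Fact p.Prime], IsPoints π → HasTransvections π H →
    ¬ p ∣ Fintype.card k → ∀ C : Submodule (ZMod p) (D → ZMod p), Inv H p C → ∀ c ∈ C,
    ∀ x u : Fin n → k, LinearIndependent k ![x, u] → ∃ g ∈ C,
      (∀ v, v ∉ Submodule.span k {x, u} → g (π v) = 0) ∧ g (π u) = 0 ∧
      ∀ a : k, g (π (x + a • u)) = c (π (x + a • u)) - c (π (x + (a - 1) • u))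

/-- Module PRO (from DIF, OPP; 130 lines), `n ≥ 3`.  PROOF.  If all elements of `C` are constant,
`1 ∈ C`.  Otherwise `c (π x) ≠ c (π y)`, `x`, `y` independent.  OPP for `c`, `x`, `u = x - y`: `f ∈ C` with
`f (π x) = c (π x) - c (π y) ≠ 0` (`a = 0`: `x + (0 - 1) (x - y) = y`), `f (π v) = 0` for `v` not in
`W = span {x, x - y}`.  As `n ≥ 3` there is `u' ∉ W`.  OPP for `f`, `x`, `u'`: `g ∈ C`, `g (π v) = 0` off
`span {x, u'}`, `g (π u') = 0`, `g (π (x + a u')) = f (π (x + a u')) - f (π (x + (a - 1) u'))`; since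
`x + b u' ∉ W` for `b ≠ 0`, this is `f (π x)` for `a = 0`, `- f (π x)` for `a = 1`, `0` for other `a`.  Every
`v ≠ 0` in `span {x, u'}` is a multiple of `u'` or of some `x + a u'`.  So
`g = f(π x) (e_(π x) - e_(π (x + u')))`; DIF. -/
def SpecPRO : Prop :=
  ∀ (k : Type) [Field k] [Fintype k] (n : ℕ) (D : Type) [Fintype D] (π : (Fin n → k) → D)
    (H : Subgroup (Perm D)) (p : ℕ) [Fact p.Prime], TwoTransitive H → 3 ≤ n → IsPoints π →
    HasTransvections π H → ¬ p ∣ Fintype.card k → Dich H p (sumZ D p)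

/-- Module PRL (from DIF; 130 lines), `n = 2` (`n ≤ 1` is impossible: `D` would have at most one point).
PROOF.  `C ≠ 0`: choose `c ∈ C`, `u ≠ 0` with `c (π u) ≠ 0`, and `φ ≠ 0` with `φ u = 0` (so `ker φ = k u`).
Let `s_a ∈ H`, `a : k`, be the permutation of `v ↦ v + a φ(v) u`, and `f = ∑_a (c ∘ s_a) ∈ C`.
`f (π u) = |k| c (π u) ≠ 0`.  For `v ∉ k u` (`φ v ≠ 0`): `f (π v) = ∑_a c (π (v + a φ(v) u)) =
∑_b c (π (v + b u))`; for another `v' ∉ k u`, after scaling `v' = v + b₀ u` (`φ v' = φ v`, `n = 2`), so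
`f (π v') = f (π v)`.  So `f` is constant off `π u`.  If `f` is constant, `1 ∈ C`.  Otherwise take
`s ∈ H` with `s (π u) = π v`: `rho s f - f = (f (π u) - f (π v)) (e_(π v) - e_(π u))`; DIF. -/
def SpecPRL : Prop :=
  ∀ (k : Type) [Field k] [Fintype k] (n : ℕ) (D : Type) [Fintype D] (π : (Fin n → k) → D)
    (H : Subgroup (Perm D)) (p : ℕ) [Fact p.Prime], TwoTransitive H → n ≤ 2 → IsPoints π →
    HasTransvections π H → ¬ p ∣ Fintype.card k → Dich H p (sumZ D p)

/-- `v` and `w` have the same last nonzero coordinate `j`. -/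
def SameHt {k : Type} [Field k] {n : ℕ} (j : Fin n) (v w : Fin n → k) : Prop :=
  v j ≠ 0 ∧ w j ≠ 0 ∧ ∀ i, j < i → v i = 0 ∧ w i = 0

/-- Module PDA (from PGF; 220 lines).  PROOF.  For `m ≤ n` let
`C_m = {f ∈ C | ∀ j, m ≤ j → ∀ v w, SameHt j v w → f (π v) = f (π w)}`.  `C_n = C ≠ 0`; show by descending
induction that `C_m ≠ 0`.  Step from `j + 1` to `j`: let `A` be the set of all permutations `s` of `D` such
that for some `w` with `w i = 0` for `i ≥ j`, `s (π v) = π (v + v j • w)` for all `v ≠ 0`.  `A` is a subgroup of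
`H` (transvections: `φ v = v j`, `φ w = 0`; `v ↦ v + v j • w` is invertible and composition adds the `w`), and
`s ^ p = 1` (`p • w = 0`), so it is a `p`-group.  It preserves `C_(j+1)`: `v + v j • w` and `v` have the same
coordinates `≥ j`.  PGF: `f ∈ C_(j+1)`, `f ≠ 0`, fixed by `A`.  If `SameHt j v w'`, scale to `v j = w' j = 1`;
`w = w' - v` has `w i = 0` for `i ≥ j`, and `f (π w') = f (π v)`.  So `f ∈ C_j`. -/
def SpecPDA : Prop :=
  ∀ (k : Type) [Field k] [Fintype k] (n : ℕ) (D : Type) [Fintype D] (π : (Fin n → k) → D)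
    (H : Subgroup (Perm D)) (p : ℕ) [Fact p.Prime], IsPoints π → HasTransvections π H → CharP k p →
    ∀ C : Submodule (ZMod p) (D → ZMod p), C ≠ ⊥ → Inv H p C → ∃ f ∈ C, f ≠ 0 ∧
      ∀ (j : Fin n) (v w : Fin n → k), SameHt j v w → f (π v) = f (π w)

/-- Module PDB (220 lines).  PROOF.  Let `a_j = f (π e_j)`, so `f (π v) = a_j` if `j` is the last nonzero
coordinate of `v`.  If all `a_j` are equal then `f` is a nonzero constant, `1 ∈ C`.  Otherwise there is
`j` with `j + 1 < n` and `a_j ≠ a_(j+1)`.  (1) For `μ : k` let `s_μ ∈ H` be the permutation of the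
transvection `v ↦ v + μ v_j e_(j+1)` and `g = ∑_μ (f ∘ s_μ) ∈ C`; `q = |k| = 0` in `ZMod p`.  For `v ≠ 0`:
if `v_i ≠ 0` for some `i > j + 1`, or `v_j = 0`, all terms are equal and `g (π v) = 0`; otherwise
`v_(j+1) + μ v_j` takes every value once, `0` once, so `g (π v) = a_j + (q - 1) a_(j+1) = a_j - a_(j+1)`.
So `C` contains `g_m`, `m = j + 2`: `g_m (π v) = 1` if `v_j ≠ 0` and `v_i = 0` for all `i ≥ m`, else `0`.
(2) If `m < n` then `g_(m+1) = ∑_μ g_m ∘ s_μ`, `s_μ` the permutation of `v ↦ v + μ v_j e_m`: for `v_j ≠ 0`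
exactly one `μ` has `v_m + μ v_j = 0`.  So `g_n ∈ C`, and `φ v = v_j`. -/
def SpecPDB : Prop :=
  ∀ (k : Type) [Field k] [Fintype k] (n : ℕ) (D : Type) [Fintype D] (π : (Fin n → k) → D)
    (H : Subgroup (Perm D)) (p : ℕ) [Fact p.Prime], IsPoints π → HasTransvections π H → CharP k p →
    ∀ C : Submodule (ZMod p) (D → ZMod p), Inv H p C → ∀ f ∈ C, f ≠ 0 →
      (∀ (j : Fin n) (v w : Fin n → k), SameHt j v w → f (π v) = f (π w)) →
      (fun _ => 1) ∈ C ∨ ∃ (φ : (Fin n → k) →ₗ[k] k) (g : D → ZMod p), φ ≠ 0 ∧ g ∈ C ∧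
        ∀ v, v ≠ 0 → (φ v = 0 → g (π v) = 0) ∧ (φ v ≠ 0 → g (π v) = 1)

/-- Module PDC (100 lines).  PROOF.  Let `g' ∈ offs`, given by `ψ ≠ 0`.  If `ψ = a φ` then `g' = g`.
Otherwise `φ`, `ψ` are linearly independent and there is `w` with `φ w = ψ w = 1` (`w₁` with `φ w₁ = 1`,
`ψ w₁ = 0` and `w₂` with `φ w₂ = 0`, `ψ w₂ = 1`: independent functionals, neither kernel is contained in
the other).  `(ψ - φ) w = 0`, so `H` contains the permutation `s` of the transvection
`v ↦ v + (ψ - φ)(v) w`, and `φ (v + (ψ - φ)(v) w) = ψ v`.  So `g' = g ∘ s ∈ C`. -/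
def SpecPDC : Prop :=
  ∀ (k : Type) [Field k] [Fintype k] (n : ℕ) (D : Type) [Fintype D] (π : (Fin n → k) → D)
    (H : Subgroup (Perm D)) (p : ℕ), IsPoints π → HasTransvections π H →
    ∀ C : Submodule (ZMod p) (D → ZMod p), Inv H p C →
    ∀ (φ : (Fin n → k) →ₗ[k] k) (g : D → ZMod p), φ ≠ 0 → g ∈ C →
      (∀ v, v ≠ 0 → (φ v = 0 → g (π v) = 0) ∧ (φ v ≠ 0 → g (π v) = 1)) → ∀ g' ∈ offs π p, g' ∈ C

/-- Module PDG (200 lines).  PROOF.  Counting: for `F : D → ZMod p`,
`∑_(v ≠ 0) F (π v) = (q - 1) ∑_x F x = - ∑_x F x` (every point has `q - 1` nonzero vectors, `q = |k| = 0` in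
`ZMod p`).  (1) `F = 1`: `∑_x 1 = - (q^n - 1) = 1` (`n ≥ 2` because `D` has two points).
(2) `F = g ∈ offs`: `∑_x g x = - (q^n - q^(n-1)) = 0` (the number of `v` with `φ v ≠ 0`; `|ker φ| = q^(n-1)`, or:
`q ∣ |ker φ|` because `ker φ ≠ 0` is a vector space over `k`).  (3) `φ = ` a coordinate: some point is in the
hyperplane and some is not (`n ≥ 2`).  (4) The invariance is `MapsHyperplanes`: for `g` given by `φ`,
`rho p s g` is given by `ψ`: for `w ≠ 0` write `s⁻¹ (π w) = π v`. -/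
def SpecPDG : Prop :=
  ∀ (k : Type) [Field k] [Fintype k] (n : ℕ) (D : Type) [Fintype D] (π : (Fin n → k) → D)
    (H : Subgroup (Perm D)) (p : ℕ) [Fact p.Prime], (∃ x y : D, x ≠ y) → IsPoints π → CharP k p →
    MapsHyperplanes π H → (Fintype.card D : ZMod p) = 1 ∧ (∀ g ∈ offs π p, ∑ x, g x = 0) ∧
      (∃ g ∈ offs π p, ∃ x y, g x ≠ g y) ∧ ∀ s ∈ H, ∀ g ∈ offs π p, rho p s g ∈ offs π p

/-- Module LIN (from DUA; 200 lines; model: `lin_iso` in the landed file `Lin2.lean`).  PROOF.  `V` is a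
`ZMod p`-module (`AddCommGroup.zmodModule`).  `ψ = Fintype.linearCombination (ZMod p) ι` is onto and
`ψ (rho p (σ h) f) = L h (ψ f)`.  `M = ker ψ ≠ ⊤`, invariant; `C = perp p M ≠ 0` (DUA), invariant.
(0) If `W` is an invariant subspace with `M ≤ W` then `W = M` or `W = ⊤` (`W.map ψ` is `0` or `V`).
(1) `M` is not contained in `Z = {f | ∑ f = 0}`: otherwise `Z = M` or `Z = ⊤`; `Z ≠ ⊤` (`e_x`), and `Z = M`
gives `e_x - e_y ∈ M`, `ι x = ι y`.  (2) So `1 ∉ C`, so `F ⊆ C`, `M ≤ perp p F`; by (0) `perp p F = M` or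
`⊤`, and `⊤` is impossible (DUA, `F` has a nonzero element).  (3) By (1) some `f ∈ perp p F` has sum `≠ 0`.
(4) `ε` is the inverse of the isomorphism `(D → ZMod p) ⧸ M ≃ V` induced by `ψ`. -/
def SpecLIN : Prop :=
  ∀ (K V D : Type) [Group K] [AddCommGroup V] [Finite V] [Fintype D] (p : ℕ) [Fact p.Prime]
    (σ : K →* Perm D) (ι : D → V) (L : K → (V →+ V)) (F : Set (D → ZMod p)),
    (∀ v : V, p • v = 0) → Function.Injective ι → (∀ h d, L h (ι d) = ι (σ h d)) →
    AddSubgroup.closure (Set.range ι) = ⊤ →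
    (∀ W : AddSubgroup V, (∀ h, ∀ w ∈ W, L h w ∈ W) → W = ⊥ ∨ W = ⊤) → (∃ a b : D, a ≠ b) →
    (∀ s ∈ σ.range, ∀ g ∈ F, rho p s g ∈ F) → (∃ g ∈ F, g ≠ 0) → Dich σ.range p F →
    (∃ f ∈ perp p F, ∑ x, f x ≠ 0) ∧ ∃ ε : V ≃ (D → ZMod p) ⧸ perp p F,
      (∀ v w, ε (v + w) = ε v + ε w) ∧ ∀ (h : K) (v : V) (f : D → ZMod p),
        ε v = Submodule.Quotient.mk f → ε (L h v) = Submodule.Quotient.mk (rho p (σ h) f)

/-- Module FWD (from LIN; 300 lines; copy of the landed files `Fwd4.lean` (`forward2`) and `Fwd3.lean`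
(`classify2`), which may be imported).  PROOF.  `K` = stabiliser of `α`, acting on `N` by conjugation,
faithful and irreducible (`hfaith`, `hirr` in `forward2`); `β : N ≃ X`, `β n = n α`.  `|N| = |X| = p^m`, so
`N` is elementary abelian (`elementary` in `Core.lean`).  The set `S` corresponds to a set of elements of
`N`, not containing `1`, invariant, so it generates `N` (`hcl` in `classify2`; `S` has two points because
`D` has).  `σ : K →* Perm D` is the action on `S` transported by `ι : D ≃ S`; its range is `H` by the two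
clauses of `ActsAs`.  LIN with `V = Additive N`.  The last part is the end of `forward2`. -/
def SpecFWD : Prop :=
  ∀ (X D : Type) [Finite X] [Fintype D] (p : ℕ) [Fact p.Prime] (G : Subgroup (Perm X))
    (H : Subgroup (Perm D)) (F : Set (D → ZMod p)), TwoTransitive H →
    (∀ s ∈ H, ∀ g ∈ F, rho p s g ∈ F) → (∃ g ∈ F, g ≠ 0) → Dich H p F → HasSuborbit G H p →
    (∃ f ∈ perp p F, ∑ x, f x ≠ 0) ∧ IsAff G H p (perp p F)

/-- Module BWD (from DUA; 350 lines; copy of the landed files `Bwd2.lean` (`backward2`), `Bwd.lean` and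
`Quo.lean` with `M = perp p F` in the place of `consts D p`; the parts on forms and characters are not
needed).  PROOF.  `M` is invariant (DUA), so `H` acts on `Q = (D → ZMod p) ⧸ M`.
(1) `Q` has no proper nonzero invariant additive subgroup: let `W` be one (it is a subspace), `M'` its
preimage, `C = perp p M'`.  If `M' ≠ ⊤` then `C ≠ 0` (DUA), invariant; `1 ∈ C` would give `∑ f = 0` for
all `f ∈ M`; so `F ⊆ C`, that is `M' ≤ perp p F = M`, `W = 0`.
(2) The classes of `e_x` and `e_y`, `x ≠ y`, are different: otherwise `e_x - e_y ∈ M` for all `x ≠ y`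
(2-transitivity, `M` invariant), so `g x = g y` for all `g ∈ F`.  The class of `e_x` is not `0`: otherwise
all are (transitivity), equal.  (3) `H` is faithful on `Q`.  (4) As in `backward2`, with `α = e⁻¹ 0`, `N` the
translations, `S = {x | ∃ d, e x = class of e_d}` and `ι d = e⁻¹ (class of e_d)`. -/
def SpecBWD : Prop :=
  ∀ (X D : Type) [Finite X] [Fintype D] (p : ℕ) [Fact p.Prime] (G : Subgroup (Perm X))
    (H : Subgroup (Perm D)) (F : Set (D → ZMod p)), TwoTransitive H →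
    (∀ s ∈ H, ∀ g ∈ F, rho p s g ∈ F) → (∃ g ∈ F, ∃ x y, g x ≠ g y) → Dich H p F →
    (∃ f ∈ perp p F, ∑ x, f x ≠ 0) → IsAff G H p (perp p F) → HasSuborbit G H p

/-- Module FIN (helper10; from all; 120 lines). -/
def SpecFIN : Prop :=
  ∀ (X D : Type) [Finite X] [Fintype D] (p : ℕ), p.Prime → ∀ (H : Subgroup (Perm D))
    (M : Submodule (ZMod p) (D → ZMod p)), TwoTransitive H → Listed H p M →
    ∀ G : Subgroup (Perm X), HasSuborbit G H p ↔ ((∃ f ∈ M, ∑ x, f x ≠ 0) ∧ IsAff G H p M)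

end Pool.Agent.Lib.MP_79a223_al.FM
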