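import Pool.Agent.Lib.MP_79a223_al.FM.SpecT

/-!
# Part 3, specification: `Sp_2m(2)` on quadratic forms, affine groups, and the final theorem

Conventions as in `Spec.lean`: module `XXX` is the file `FM/XXX.lean`, it imports `FM.SpecS` (and landed
files), proves `theorem specXXX (hYYY : SpecYYY) .. : SpecXXX`, own lemmas in a namespace `XXXM`.
For `d : D` write `(a, b) = Θ d`, so `a·b = ε`; for `v = (x, y)` write `s_v ∈ H` for the permutation of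
`SpData`: `(a, b) ↦ (a, b) + (x·y + a·x + b·y + 1) (y, x)`; so `a ↦ a + c y`, `b ↦ b + c x`.  `f ∘ s` is in `C`
for `f ∈ C`, `s ∈ H` (`rho p s⁻¹ f`).
-/

open Equiv

namespace Pool.Agent.Lib.MP_79a223_al.FM

/-- The data of `IsSp`. -/
structure SpData {D : Type} (H : Subgroup (Perm D)) (m : ℕ) (ε : ZMod 2)
    (Θ : D → (Fin m → ZMod 2) × (Fin m → ZMod 2)) : Prop where
  two : 2 ≤ m
  inj : Function.Injective Θ
  type : ∀ a b, (∃ d, Θ d = (a, b)) ↔ dotProduct a b = ε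
  tv : ∀ x y, ∃ s ∈ H, ∀ d, Θ (s d) = Θ d +
    (dotProduct x y + dotProduct (Θ d).1 x + dotProduct (Θ d).2 y + 1) • (y, x)

/-- Module AFF (from landed `Mod.lean`; 130 lines).  PROOF.  `p ∤ |D|`: `invariant_submodule` gives
`C ≤ consts` or `C ⊇ sumZ`; in the first case a nonzero element of `C` is a nonzero constant.
`p ∣ |D|`: `exists_abelian` and `regular_of_twoTransitive` give an abelian normal subgroup `A` of `H`,
regular on `D`, `|A| = |D|`.  The set `B` of the elements of `A` of order a power of `p` is a subgroup of `A`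
(abelian), nontrivial (Cauchy), normal in `H`, so transitive on `D` (as in the proof of
`regular_of_twoTransitive`: a conjugate of an element `b ≠ 1` of `B` maps `x` to `y`).  `B` is a `p`-group; by
PGF some `f ∈ C`, `f ≠ 0`, is fixed by `B`, so `f` is a nonzero constant and `1 ∈ C`. -/
def SpecAFF : Prop :=
  ∀ (D : Type) [Fintype D] (H : Subgroup (Perm D)) (p : ℕ) [Fact p.Prime], TwoTransitive H →
    HasSolubleNormal H → Dich H p (sumZ D p)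

/-- Module SPO (180 lines): the criterion for odd primes.  PROOF.  `s_v d = d` if
`θ(v) = x·y + a·x + b·y` is `1`; if it is `0`, `s_v` adds `(y, x)`.  Let `t = s_v`, `v = (x, y) = (e_0, 0)`:
`θ(v) = a_0`, so `t` maps `(a, b)` to `(a, b + e_0)` if `a_0 = 0` and fixes it if `a_0 = 1`.  Some `d` is moved
(`ε = a·b` with `a_0 = 0`: `a = e_1`, `b = ε e_1`).  Let `d`, `d'` be moved, `Θ d' = Θ d + (p, q)`, `p_0 = 0`,
`(p, q) ≠ 0, (0, e_0)`.  Choose `u = (x, y)` with `y_0 = 0` and `p·x + q·y = 1`: if `p_i = 1` for some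
`i ≠ 0`: `x = e_i`, `y = 0`; otherwise `p = 0` and `q_i = 1` for some `i ≠ 0`: `x = 0`, `y = e_i`.
`a = s_u s_(u + v)`, `u + v = (x + e_0, y)`.  For a moved `z` (`a_0 = 0` there): `θ(u + v) = θ(u)` (as `y_0 = 0`,
`a_0 = 0`).  If it is `1`, `a z = z`.  If it is `0`, `s_(u+v)` adds `(y, x + e_0)`; the new value at `u` is
`x·y + (a + y)·x + (b + x + e_0)·y = θ(u) + 2 x·y + y_0 = 0`, and `s_u` adds `(y, x)`: together `(0, e_0)`,
so `a z = t z`.  The values of `θ(u)` at `d` and `d'` differ by `p·x + q·y = 1`. -/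
def SpecSPO : Prop :=
  ∀ (D : Type) [Fintype D] (H : Subgroup (Perm D)) (m : ℕ) (ε : ZMod 2)
    (Θ : D → (Fin m → ZMod 2) × (Fin m → ZMod 2)), SpData H m ε Θ → HasInvolution H

/-- Module SPA (from PGF; 130 lines), `p = 2`.  PROOF.  Let `A` be the set of `s ∈ H` for which there is
`c : (Fin m → ZMod 2) → (Fin m → ZMod 2)` with `Θ (s d) = (a, b + c a)` for all `d`, `(a, b) = Θ d`.  `A` is a
subgroup, `s ^ 2 = 1` for `s ∈ A`, so `A` is a 2-group; `s_(x,0) ∈ A` (`c a = (a·x + 1) x`).  PGF: some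
`f ∈ C`, `f ≠ 0`, is fixed by `A`.  Let `Θ d = (a, b)`, `Θ d' = (a, b')`, `x = b + b'`: `a·x = ε + ε = 0`, so
`s_(x,0)` maps `d` to `(a, b + x) = Θ d'`, that is to `d'`.  So `f d = f d'`. -/
def SpecSPA : Prop :=
  ∀ (D : Type) [Fintype D] (H : Subgroup (Perm D)) (m : ℕ) (ε : ZMod 2)
    (Θ : D → (Fin m → ZMod 2) × (Fin m → ZMod 2)), SpData H m ε Θ →
    ∀ C : Submodule (ZMod 2) (D → ZMod 2), C ≠ ⊥ → Inv H 2 C →
      ∃ g : (Fin m → ZMod 2) → ZMod 2, (fun d => g (Θ d).1) ∈ C ∧ (fun d => g (Θ d).1) ≠ 0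

/-- Module SPT (70 lines).  PROOF.  `s = s_(x,y) s_(x,0) s_(0,y)`, `x·y = 0`; let `α = a·x`, `β = b·y`.
`s_(0,y)` adds `(β + 1) (y, 0)`; then `θ(x,0) = (a + (β + 1) y)·x = α`, `s_(x,0)` adds `(α + 1) (0, x)`; then
`θ(x,y) = α + β + (α + 1) (x·y) = α + β`, `s_(x,y)` adds `(α + β + 1) (y, x)`.  Sum: `(α y, β x)`. -/
def SpecSPT : Prop :=
  ∀ (D : Type) [Fintype D] (H : Subgroup (Perm D)) (m : ℕ) (ε : ZMod 2)
    (Θ : D → (Fin m → ZMod 2) × (Fin m → ZMod 2)), SpData H m ε Θ →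
    ∀ x y : Fin m → ZMod 2, dotProduct x y = 0 → ∃ s ∈ H, ∀ d,
      (Θ (s d)).1 = (Θ d).1 + dotProduct (Θ d).1 x • y

/-- Module SPB (from PDA, PDB, PDC, SPT; 300 lines).  PROOF.  `C₁` = the functions `g` on `F_2^m` with
`(d ↦ g (Θ d).1) ∈ C`.  `D' = {a | a ≠ 0}`, `C' ≤ F_2^D'` = the restrictions to `D'` of the elements of `C₁`;
`C' ≠ ⊥` by the hypothesis.  `π a = a` for `a ≠ 0` (`π 0` arbitrary, `m ≥ 2`): `IsPoints` with `k = ZMod 2`,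
`n = m`.  `H'` = the permutations `s` of `D'` with `rho 2 s f ∈ C'` for all `f ∈ C'` (a subgroup: `C'` is finite,
or use the subgroup of the `s` such that `s` and `s⁻¹` have this property).  `H'` contains all
transvections `a ↦ a + φ(a) w`, `φ(w) = 0` (`φ(a) = a·x`, `x·w = 0`, SPT: if `g ∈ C₁` then
`a ↦ g (a + (a·x) w)` is in `C₁`; these maps are involutions).  `CharP (ZMod 2) 2`.  PDA, PDB, PDC for `C'` give
`1 ∈ C'` or `g' ∈ C'` for every `g' ∈ offs`, in particular `a ↦ a·x`, `x ≠ 0`. -/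
def SpecSPB : Prop :=
  ∀ (D : Type) [Fintype D] (H : Subgroup (Perm D)) (m : ℕ) (ε : ZMod 2)
    (Θ : D → (Fin m → ZMod 2) × (Fin m → ZMod 2)), SpData H m ε Θ →
    ∀ C : Submodule (ZMod 2) (D → ZMod 2), Inv H 2 C →
      (∃ g : (Fin m → ZMod 2) → ZMod 2, (fun d => g (Θ d).1) ∈ C ∧ ∃ a, a ≠ 0 ∧ g a ≠ 0) →
      (∃ g : (Fin m → ZMod 2) → ZMod 2, (fun d => g (Θ d).1) ∈ C ∧ ∀ a, a ≠ 0 → g a = 1) ∨
      ∃ x : Fin m → ZMod 2, x ≠ 0 ∧ ∃ g : (Fin m → ZMod 2) → ZMod 2, (fun d => g (Θ d).1) ∈ C ∧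
        ∀ a, a ≠ 0 → g a = dotProduct a x

/-- Module SPC (180 lines): the value at `a = 0` does not matter.  PROOF.  If `ε ≠ 0` then `(Θ d).1 ≠ 0` for
all `d`, and `h = g` on the `(Θ d).1`.  Let `ε = 0`, `g a = h a + c [a = 0]`, `c = g 0 - h 0`.  `y ≠ 0` is given
with `h (a + y) = h a` for all `a`; choose `w` with `w·y = 1`.  `u = (0, y)`: `s_u` maps `a` to
`a + (b·y + 1) y`; `u' = (w, y)`: `s_u'` maps `a` to `a + (a·w + b·y) y` (`θ(u') = 1 + a·w + b·y`).  Let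
`f d = g (Θ d).1`.  `f + f ∘ s_u + f ∘ s_u' ∈ C` is `3 h = h` plus `c` times
`[a = 0] + [a + (b·y + 1) y = 0] + [a + (a·w + b·y) y = 0]`.  For `a ≠ 0, y` the sum is `0`.  For `a = 0` it is
`1 + [b·y = 1] + [b·y = 0] = 2 = 0`.  For `a = y`: `b·y = a·b = 0`, the sum is `0 + 1 + [1 + 0 = 1] = 2 = 0`
(`a·w = 1`). -/
def SpecSPC : Prop :=
  ∀ (D : Type) [Fintype D] (H : Subgroup (Perm D)) (m : ℕ) (ε : ZMod 2)
    (Θ : D → (Fin m → ZMod 2) × (Fin m → ZMod 2)), SpData H m ε Θ →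
    ∀ C : Submodule (ZMod 2) (D → ZMod 2), Inv H 2 C →
      ∀ g h : (Fin m → ZMod 2) → ZMod 2, (fun d => g (Θ d).1) ∈ C → (∀ a, a ≠ 0 → g a = h a) →
        (∃ y, y ≠ 0 ∧ ∀ a, h (a + y) = h a) → (fun d => h (Θ d).1) ∈ C

/-- Module SPD (220 lines).  PROOF.  `f d = 1` if `(Θ d).1 = 0`, else `0`; `f ∈ C`, `ε = 0` (`f ≠ 0`).  Let `0`, `1`
be the first two coordinates.  (1) `g₂ = s_(e0,e0) s_(e1,e1)`: `s_(e0,e0)` has `θ = 1 + a_0 + b_0`, so it adds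
`(a_0 + b_0) (e0, e0)`: it exchanges `a_0` and `b_0`; so `f ∘ g₂` is the indicator of `b_0 = b_1 = 0`,
`a_i = 0` for `i ≥ 2`.  (2) `g₃ = s_(0,e0) s_(0,e1) s_(0,e0+e1)`: each adds to `a` only, `b` is unchanged:
`(b_0 + 1) e0 + (b_1 + 1) e1 + (b_0 + b_1 + 1) (e0 + e1) = b_1 e0 + b_0 e1`; so `f ∘ g₃` is the indicator of
`a_0 + b_1 = 0`, `a_1 + b_0 = 0`, `a_i = 0` for `i ≥ 2`.  (3) If `a_i = 0` for `i ≥ 2` then
`a_0 b_0 + a_1 b_1 = ε = 0`, and `(1+a0)(1+a1) + (1+b0)(1+b1) + (1+a0+b1)(1+a1+b0) = 1 + a0 b0 + a1 b1 = 1` in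
`ZMod 2` (`decide` over the 16 values).  So `f + f ∘ g₂ + f ∘ g₃` is the indicator of `a_i = 0` for
`i ≥ 2`; `g a = 1` if `a_i = 0` for `i ≥ 2`, else `0`; `g e0 = 1`. -/
def SpecSPD : Prop :=
  ∀ (D : Type) [Fintype D] (H : Subgroup (Perm D)) (m : ℕ) (ε : ZMod 2)
    (Θ : D → (Fin m → ZMod 2) × (Fin m → ZMod 2)), SpData H m ε Θ →
    ∀ C : Submodule (ZMod 2) (D → ZMod 2), Inv H 2 C →
      ∀ g₀ : (Fin m → ZMod 2) → ZMod 2, (fun d => g₀ (Θ d).1) ∈ C → (fun d => g₀ (Θ d).1) ≠ 0 →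
        (∀ a, a ≠ 0 → g₀ a = 0) →
        ∃ g : (Fin m → ZMod 2) → ZMod 2, (fun d => g (Θ d).1) ∈ C ∧ ∃ a, a ≠ 0 ∧ g a ≠ 0

/-- Module SPE (80 lines).  PROOF.  `f d = a·x` is in `C`.  Choose `y` with `x·y = 1`.  `s_(0,y)`:
`a ↦ a + (b·y + 1) y`, so `f ∘ s_(0,y) = a·x + b·y + 1`; adding `f`: `f' = b·y + 1 ∈ C`.  `s_(x,0)`:
`b ↦ b + (a·x + 1) x`, so `f' ∘ s_(x,0) = b·y + (a·x + 1) + 1 = b·y + a·x`; adding `f`: `b·y ∈ C`, and
`f' + b·y = 1`. -/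
def SpecSPE : Prop :=
  ∀ (D : Type) [Fintype D] (H : Subgroup (Perm D)) (m : ℕ) (ε : ZMod 2)
    (Θ : D → (Fin m → ZMod 2) × (Fin m → ZMod 2)), SpData H m ε Θ →
    ∀ C : Submodule (ZMod 2) (D → ZMod 2), Inv H 2 C → ∀ x : Fin m → ZMod 2, x ≠ 0 →
      (fun d => dotProduct (Θ d).1 x) ∈ C → (fun _ => 1) ∈ C

/-- Module SPF (from SPA, SPB, SPC, SPD, SPE; 80 lines).  PROOF.  SPA; if `g a = 0` for all `a ≠ 0`, SPD; so
the hypothesis of SPB holds.  First case: SPC with `h = 1`.  Second case: SPC with `h a = a·x`, `y ≠ 0` with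
`y·x = 0` (`m ≥ 2`), and SPE. -/
def SpecSPF : Prop :=
  ∀ (D : Type) [Fintype D] (H : Subgroup (Perm D)) (m : ℕ) (ε : ZMod 2)
    (Θ : D → (Fin m → ZMod 2) × (Fin m → ZMod 2)), SpData H m ε Θ → Dich H 2 (sumZ D 2)

/-- Module FI2 (helper10): the final theorem. -/
def SpecFI2 : Prop :=
  ∀ (X D : Type) [Finite X] [Fintype D] (H : Subgroup (Perm D))
    (M : ∀ p : ℕ, Submodule (ZMod p) (D → ZMod p)), TwoTransitive H → Family H M →
    ∀ G : Subgroup (Perm X),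
      (∃ (N : Subgroup G) (α : X) (S : Set X), RegularSocle G N ∧ α ∉ S ∧ ActsAs G α S H) ↔
      (∃ p : ℕ, p.Prime ∧ (∃ f ∈ M p, ∑ x, f x ≠ 0) ∧ IsAff G H p (M p)) ∨ IsTW G H

end Pool.Agent.Lib.MP_79a223_al.FM
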