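import Pool.Agent.Lib.MP_79a223_al.FM.DefsT
import Pool.Agent.Lib.MP_79a223_al.FM.Spec

/-!
# Part 2, specification: nonabelian regular socles (twisted wreath products)

THEOREM.  Let `H` be 2-transitive on `D`.  The groups `G` with a unique minimal normal subgroup `N` which is
regular and nonabelian, `G` primitive, and with a suborbit on which the point stabiliser acts as `H` acts
on `D`, are exactly the twisted wreath products `IsTW G H`.

Conventions as in `Spec.lean`: module `XXX` is the file `FM/XXX.lean`, it imports `FM.SpecT` (and landed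
files), proves `theorem specXXX (hYYY : SpecYYY) .. : SpecXXX`, own lemmas in a namespace `XXXM`.
-/

open Equiv

namespace Pool.Agent.Lib.MP_79a223_al.FM

/-- `K` acts irreducibly on `N`. -/
def IrrAct (K N : Type) [Group K] [Group N] [MulDistribMulAction K N] : Prop :=
  ∀ M : Subgroup N, (∀ k : K, ∀ m ∈ M, k • m ∈ M) → M = ⊥ ∨ M = ⊤

/-- The twisted base group is irreducible under `H`. -/
def IrrTw {H T : Type} [Group H] [Group T] (Q : Subgroup H) (φ : Q →* MulAut T) : Prop :=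
  ∀ M : Subgroup (H → T), M ≤ twBase Q φ → (∀ s : H, ∀ f ∈ M, tr s f ∈ M) → M = ⊥ ∨ M = twBase Q φ

/-- The simple factor `T` of `N`: `T` is simple and nonabelian, `N = T C(T)`, every translate `k • T` is
`T` or centralises `T`, only `1` centralises all translates, and the translates generate `N`. -/
structure Factor (K : Type) {N : Type} [Group K] [Group N] [MulDistribMulAction K N]
    (T : Subgroup N) : Prop where
  simple : IsSimpleGroup T
  nonab : ∃ a ∈ T, ∃ b ∈ T, a * b ≠ b * a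
  dec : ∀ n : N, ∃ t ∈ T, ∃ c : N, (∀ u ∈ T, c * u = u * c) ∧ n = t * c
  trans : ∀ k : K, (∀ t ∈ T, k • t ∈ T) ∨ ∀ t ∈ T, ∀ u ∈ T, (k • t) * u = u * (k • t)
  centre : ∀ n : N, (∀ k : K, ∀ t ∈ T, n * (k • t) = (k • t) * n) → n = 1
  gen : Subgroup.closure {x : N | ∃ k : K, ∃ t ∈ T, x = k • t} = ⊤

/-- Module TWA (250 lines).  PROOF.  `Z(N)` is invariant and not `⊤`, so `Z(N) = 1`.  Let `T` be a minimal
nontrivial normal subgroup of `N` (`N` is finite).  For `k : K`, `k • T` is again one; if `k • T ≠ T` then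
`k • T ⊓ T = 1`, so they commute elementwise (both normal).  The subgroup generated by all `k • T` is
invariant, so it is `N` (`gen`); an element which commutes with all `k • T` is in `Z(N) = 1` (`centre`).
If `T` were abelian all `k • T` would be abelian and commute with each other, `N` abelian (`nonab`).
`T C(T)` (`C(T)` the centraliser, normal) contains all `k • T`, so it is `N` (`dec`).  `simple`: a normal
subgroup `U` of `T` is normalised by `T` and by `C(T)`, so it is normal in `N`, `U = 1` or `T`.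
`trans`: `k • T = T` or commuting. -/
def SpecTWA : Prop :=
  ∀ (K N : Type) [Group K] [Group N] [Finite N] [MulDistribMulAction K N], IrrAct K N →
    (∃ a b : N, a * b ≠ b * a) → ∃ T : Subgroup N, Factor K T

/-- Module TWB (300 lines).  PROOF.  `Z(T) = 1` (`T` simple nonabelian), so in `dec` `t` and `c` are unique
and `pr n = t` is a homomorphism `N → T` with `pr t = t` for `t ∈ T`, `pr c = 1` if and only if `c`
centralises `T`.  `Q = {k | ∀ t ∈ T, k • t ∈ T}` is a subgroup (`T` finite), `φ q t = q • t`; `q ∈ Q` maps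
`C(T)` to itself, so `pr (q • n) = q • pr n`.  `e n = (h ↦ pr (h⁻¹ • n))` is in `twBase Q φ`
(`e n (h q) = pr (q⁻¹ • h⁻¹ • n)`), a homomorphism, equivariant.  Injective: `e n = 1` means that
`h⁻¹ • n ∈ C(T)` for all `h`, that is `n` centralises all `h • T`, `n = 1`.  Onto: for `t ∈ T` and `h` the
function `e (h • t)` is `t` at `h` and `1` at `x ∉ h Q` (then `x⁻¹ h ∉ Q`, so `(x⁻¹ h) • t ∈ C(T)` by `trans`).
Let `f ∈ twBase`; induction on the number of `x` with `f x ≠ 1`: if `f h ≠ 1` then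
`f * (e (h • f h))⁻¹` is `1` at `h` and unchanged off `h Q`, `1` on `h Q`. -/
def SpecTWB : Prop :=
  ∀ (K N : Type) [Group K] [Finite K] [Group N] [Finite N] [MulDistribMulAction K N]
    (T : Subgroup N), Factor K T → ∃ (Q : Subgroup K) (φ : Q →* MulAut T)
      (e : N ≃* twBase Q φ), ∀ (k : K) (n : N) (h : K),
        (e (k • n) : K → T) h = (e n : K → T) (k⁻¹ * h)

/-- Module IRB (300 lines).  PROOF.  Let `M ≠ ⊥` be invariant, `M ≤ twBase`.
(i) `{f 1 | f ∈ M}` is a subgroup of `T` invariant under `φ(Q)` (`(tr q f) 1 = f q⁻¹ = φ(q) (f 1)`), not `⊥`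
(else `f h = (tr h⁻¹ f) 1 = 1` for all `h`), so it is `⊤`; by translation `{f h | f ∈ M} = T` for all `h`.
(ii) Suppose some `f ∈ M`, `f ≠ 1`, is `1` off `Q`.  `{f 1 | f ∈ M, f = 1 off Q}` is invariant under `φ(Q)`,
not `⊥`, so it is `⊤`.  So `M` contains all elements of `twBase` which are `1` off `Q`, by translation all
which are `1` off one coset `h Q`, and (induction on the size of the support, as in TWB) `M = twBase`.
(iii) Otherwise there is `x ∉ Q` such that `f x = 1` implies `f 1 = 1` for all `f ∈ M`.  If not: for a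
finite set `F` of elements `∉ Q`, `U_F = {f 1 | f ∈ M, f = 1 on F}` is a normal subgroup of `T` (by (i)), and
`U_F = ⊤` by induction on `F`: `a b ≠ b a`, `f ∈ M` with `f = 1` on `F`, `f 1 = a`; `g ∈ M` with `g x = 1`,
`g 1 = b` (`U_{x} ≠ ⊥`, so it is `⊤`); the commutator of `f`, `g` is `1` on `F ∪ {x}` and `[a, b] ≠ 1` at `1`.
For `F = H ∖ Q` this gives (ii).  (iv) Let `L` be the set of `l` for which some `θ ∈ Aut T` has
`f 1 = θ (f l)` for all `f ∈ M`; `θ` is unique by (i).  `f (l l') = (tr l⁻¹ f) l'`, `(tr l⁻¹ f) 1 = f l`, so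
`f 1 = θ_l (f l) = θ_l (θ_l' (f (l l')))`; `f l⁻¹ = (tr l f) 1 = θ_l (f 1)`.  So `L` is a subgroup and
`ψ = θ` a homomorphism which extends `φ` (`f q = φ(q)⁻¹ (f 1)`).  `x ∈ L`: by (iii) `f x ↦ f 1` is a well
defined homomorphism `T → T`, onto, so bijective (`T` finite).  So `L ≠ Q`, a contradiction. -/
def SpecIRB : Prop :=
  ∀ (H T : Type) [Group H] [Finite H] [Group T] [Finite T] (Q : Subgroup H) (φ : Q →* MulAut T),
    TwPrim Q φ → IrrTw Q φ

/-- Module IRA (150 lines).  PROOF.  For `t ∈ T` let `f_t` be the function `f_t q = φ(q)⁻¹ t` on `Q`, `1` off `Q`;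
it is in `twBase`.  First: `M = {f ∈ twBase | ∀ x, f x ∈ U}` is invariant; if it is `⊥` then `f_u = 1` for
`u ∈ U`, `U = ⊥`; if it is `twBase` then `f_t ∈ M`, `U = ⊤`.  Second: `M` = the set of `f` with
`f (x l) = ψ(l)⁻¹ (f x)` for all `x`, `l ∈ L`; `M ≤ twBase`, invariant, not `⊥` (the function
`l ↦ ψ(l)⁻¹ t` on `L`, `1` off `L`, `t ≠ 1`); so `M = twBase ∋ f_t`, and `l ∈ L ∖ Q` would give
`1 = f_t l = ψ(l)⁻¹ (f_t 1) ≠ 1`. -/
def SpecIRA : Prop :=
  ∀ (H T : Type) [Group H] [Group T] [Nontrivial T] (Q : Subgroup H) (φ : Q →* MulAut T), IrrTw Q φ →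
    (∀ U : Subgroup T, (∀ q : Q, ∀ u ∈ U, φ q u ∈ U) → U = ⊥ ∨ U = ⊤) ∧
    ∀ (L : Subgroup H) (ψ : L →* MulAut T) (hQ : Q ≤ L), (∀ q : Q, ψ ⟨q, hQ q.2⟩ = φ q) → L = Q

/-- Module SUB (180 lines).  PROOF.  Let `P = {s : H | s δ = δ}` and `n` the function with
`n (s q) = φ(q)⁻¹ t` for `s ∈ P`, `q ∈ Q`, and `n x = 1` for `x ∉ P Q`; well defined: `s q = s' q'` gives
`q' q⁻¹ = s'⁻¹ s ∈ Q`, fixing `δ`, so `φ (q' q⁻¹) t = t`.  `n ∈ twBase`, `tr s n = n` for `s ∈ P`, `n 1 = t ≠ 1`.
`H` is transitive; put `ν (s δ) = tr s n`, well defined.  If `ν d = ν d'` for some `d ≠ d'`, then by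
2-transitivity for all pairs, so all `ν d` are equal to `n` and `tr s n = n` for all `s`.  Then
`{f ∈ twBase | ∀ s, tr s f = f}` is not `⊥`, so it is `twBase` (`IrrTw`), and every subgroup of `twBase` is
invariant, so `⊥` or `twBase`; so `twBase` is abelian (powers of one element), but for `a b ≠ b a` in `T`
the functions `f_a`, `f_b` of IRA do not commute.  `ν d ≠ 1`: `tr s n = 1` gives `n = 1`. -/
def SpecSUB : Prop :=
  ∀ (D T : Type) [Fintype D] [Group T] [Finite T] (H : Subgroup (Perm D)) (Q : Subgroup H)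
    (φ : Q →* MulAut T), TwoTransitive H → IrrTw Q φ → (∃ a b : T, a * b ≠ b * a) →
    (∃ (δ : D) (t : T), t ≠ 1 ∧ ∀ q : Q, ((q : H) : Perm D) δ = δ → φ q t = t) →
    ∃ ν : D → H → T, (∀ d, ν d ∈ twBase Q φ) ∧ (∀ (s : H) (d : D), ν ((s : Perm D) d) = tr s (ν d)) ∧
      Function.Injective ν ∧ ∀ d, ν d ≠ 1

/-- Module INN (280 lines): no element of `H` except `1` acts as an inner automorphism.  PROOF.
If `Q = ⊤`: `(tr s f) 1 = f s⁻¹ = φ(s) (f 1)` (`φ` of `s` as an element of `Q`), and every `t` is `f 1` for some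
`f ∈ twBase` (`f h = φ(h)⁻¹ t`), so `φ(s)` is conjugation by `w 1`; `TwPrim.inner` gives `w 1 = 1`, `φ(s) = 1`,
`tr s f = f` for all `f ∈ twBase`, `ν (s d) = ν d`, `s d = d`, `s = 1`.
Let `Q ≠ ⊤`.  `W = {w ∈ twBase | ∃ s, ∀ f ∈ twBase, tr s f = w f w⁻¹}` is an invariant subgroup
(`tr g (w f w⁻¹) = tr g w * tr g f * (tr g w)⁻¹`), so `⊥` or `twBase` (`IrrTw`).  If `W = ⊥` then `w = 1` and
`s = 1` as before.  Let `W = twBase`.  (1) For all `d ≠ d'` some `j : H` acts as an inner automorphism and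
has `j d = d'`: some inner `j₀ ≠ 1` exists (`twBase` is not abelian), `j₀ c ≠ c`, take a conjugate of `j₀`
by 2-transitivity.  Inner `j` do not change `supp f = {x | f x ≠ 1}`; so all `ν d` have the same support,
`supp (ν (s d)) = s supp (ν d)`, so this support is all of `H` (not empty).
(2) `diff f g = {x | f x ≠ g x}`, `diff (tr s f) (tr s g) = s diff f g`; by 2-transitivity the size of
`diff (ν d) (ν d')`, `d ≠ d'`, is a constant `c`.  Fix `d`, `n = ν d`, `x ∉ Q`.  `Z(T) = 1`: there are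
`u, u' ∈ T` with `u (n 1) ≠ (n 1) u`, `u' (n x) ≠ (n x) u'`.  Let `w ∈ twBase` be `1` off `Q`, `w 1 = u`: the
inner automorphism of `w` is some `s`, `ν (s d) = w n w⁻¹` differs from `n` exactly on `Q`, so `c = |Q|`.  With
`w' ∈ twBase`, `w' 1 = u`, `w' x = u'`, `1` off `Q ∪ x Q`: `c = |Q| + |x Q| = 2 |Q|`.  A contradiction. -/
def SpecINN : Prop :=
  ∀ (D T : Type) [Fintype D] [Group T] [Finite T] (H : Subgroup (Perm D)) (Q : Subgroup H)
    (φ : Q →* MulAut T) (ν : D → H → T), TwoTransitive H → TwPrim Q φ → IrrTw Q φ →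
    (∀ d, ν d ∈ twBase Q φ) → (∀ (s : H) (d : D), ν ((s : Perm D) d) = tr s (ν d)) →
    Function.Injective ν → (∀ d, ν d ≠ 1) →
    ∀ (s : H) (w : H → T), w ∈ twBase Q φ → (∀ f ∈ twBase Q φ, tr s f = w * f * w⁻¹) → s = 1

/-- Module NRA (250 lines; model: `BWDM.regular_aff` in the landed `FM/BWD.lean`, `backward2` in
`Bwd2.lean`).  PROOF.  `T_w : v ↦ w v`, `Q_k : v ↦ k • v`, `G = {T_w Q_k}`, `Q_k T_w = T_(k • w) Q_k`.
The stabiliser of `e⁻¹ 1` is `{Q_k}`; a subgroup `L` containing it is given by the invariant subgroup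
`{w | T_w ∈ L}`, so the stabiliser is maximal and `G` is primitive.  `N = {T_w}` is normal and regular.
Let `M ≠ ⊥` be normal.  If `T_w ∈ M` for some `w ≠ 1` then `N ≤ M` (invariant subgroup).  Otherwise `M ⊓ N = ⊥`,
the commutators of elements of `M` and of `N` (in `M ⊓ N`) are `1`, so `T_w Q_k ∈ M` commutes with `N`:
`k • v = w⁻¹ v w` for all `v`, so `k = 1` by hypothesis, and `w` is central; the centre is invariant and
not `⊤`, so `w = 1`, `M = ⊥`. -/
def SpecNRA : Prop :=
  ∀ (X V K : Type) [Group V] [Finite V] [Group K] [MulDistribMulAction K V] (e : X ≃ V)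
    (G : Subgroup (Perm X)), IrrAct K V → (∃ a b : V, a * b ≠ b * a) →
    (∀ (k : K) (w : V), (∀ v, k • v = w * v * w⁻¹) → k = 1) →
    (∀ g : Perm X, g ∈ G ↔ ∃ (k : K) (w : V), ∀ x, e (g x) = w * k • e x) →
    ∃ N : Subgroup G, RegularSocle G N ∧ ∃ a ∈ N, ∃ b ∈ N, a * b ≠ b * a

/-- The left side in the nonabelian case. -/
def HasNonab {X D : Type} (G : Subgroup (Perm X)) (H : Subgroup (Perm D)) : Prop :=
  ∃ (N : Subgroup G) (α : X) (S : Set X), RegularSocle G N ∧ (∃ a ∈ N, ∃ b ∈ N, a * b ≠ b * a) ∧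
    α ∉ S ∧ ActsAs G α S H

/-- Module TWN (from IRB, SUB, INN, NRA; 200 lines).  PROOF.  `V = twBase Q φ` with the action of `K = H` by
`tr` (`MulDistribMulAction H (twBase Q φ)`); IRB gives `IrrAct`, SUB gives `ν`, INN the hypothesis of NRA
(`w` there is `w` here), `V` is not abelian (the functions `f_a`, `f_b` of IRA).  `α = e⁻¹ 1`,
`S = {x | ∃ d, e x = ν d}`, `ι d = e⁻¹ (ν d)`: an element `x ↦ e⁻¹ (w * tr s (e x))` of `G` which fixes `α` has
`w = 1` and acts on `S` as `s` on `D`; conversely every `s ∈ H` occurs. -/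
def SpecTWN : Prop :=
  ∀ (X D : Type) [Finite X] [Fintype D] (G : Subgroup (Perm X)) (H : Subgroup (Perm D)),
    TwoTransitive H → IsTW G H → HasNonab G H

/-- Module TWF (from TWA, TWB, IRA; 350 lines; model: the landed `FM/FWD.lean`, `Fwd4.lean`).  PROOF.
`K` = stabiliser of `α`, acting on `N` by conjugation: faithful and irreducible; `β : N ≃ X`, `β n = n α`.
The set `S' = {n | n α ∈ S}` is invariant under `K`, does not contain `1`, and generates `N`, so `K` is
faithful on it, and `ActsAs` gives an isomorphism `σ : K ≃* H`, `ι' : D ≃ S'` with `k • ι' d = ι' (σ k d)`.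
Let `H` act on `N` through `σ`.  TWA, TWB give `T`, `Q`, `φ`, `e`; `IrrTw` from the irreducibility; IRA gives
`inv`, `ext`.  `δ`, `t`: let `n = ι' δ₀`, `n ≠ 1`, so `t = (e n) x ≠ 1` for some `x`; `δ = x⁻¹ δ₀`.  If `q ∈ Q`,
`q δ = δ`, then `s = x q x⁻¹` fixes `δ₀`, so `s • n = n`, `(e n) (x q) = (e n) (s x) = (e n) x`, and
`(e n) (x q) = φ(q)⁻¹ t`.  `inner`: if `Q = ⊤` and `φ(q)` is conjugation by `t ≠ 1`, let `e n₀` be the function
`h ↦ φ(h)⁻¹ t`; `q` acts on `N` as conjugation by `n₀` (compare `(e ..) h = φ(h)⁻¹ ((e ..) 1)` at `1`).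
So the element `n₀⁻¹ k` of `G` (`σ k = q`) centralises `N`; the centraliser of `N` in `G` is normal, and does
not contain `N`, so it is `1` (`N` is in every normal subgroup `≠ 1`): `k = n₀` fixes `α`, `n₀ = 1`,
`t = 1`.  The last part (form of the elements of `G`) as at the end of `forward2`: `g = n k`,
`β (n (k • m)) = n k (β m)`. -/
def SpecTWF : Prop :=
  ∀ (X D : Type) [Finite X] [Fintype D] (G : Subgroup (Perm X)) (H : Subgroup (Perm D)),
    TwoTransitive H → HasNonab G H → IsTW G H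

end Pool.Agent.Lib.MP_79a223_al.FM
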