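import Pool.Agent.Lib.MP_79a223_al.FM.DefsU
import Pool.Agent.Lib.MP_79a223_al.FM.SpecS

/-!
# Primitive groups with a 2-transitive suborbit and a regular socle: the sporadic suborbits (specification)

THEOREM.  `InfiniteFamilies` (module FI2) holds also for the seven sporadic actions of `DefsU.lean`
(`PSL_2(11)`, `M_11` on 11 points, `A_7` on 15, `M_22`, `M_23`, `HS` on 176, `Co_3` on 276); so, by the
classification of the finite simple groups, for all finite 2-transitive groups.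

PLAN.  As before, everything follows from `Dich H p F`: a nonzero invariant code contains `1` or `F`.  Two
methods: `HasSwap` (module SWP, done), for all primes not dividing the order of a small group `B`; and, for
the few other primes, averaging over a subgroup `A` of the stabiliser of a point `δ`, `p ∤ |A|`, with
`r ≤ 5` orbits (the colours): if `c ∈ C` then the function which is on each orbit the mean of `c` is in `C`,
so the space `L` of the vectors `α : colours → F_p` with `α ∘ col ∈ C` is invariant under the matrices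
`M_g = (|{z ∈ O_i : g z ∈ O_j}| / |O_i|)`, `g ∈ H`, and a finite computation shows that a vector `α ∈ L`
with `α 0 ≠ 0` generates `1` or the vector of `F`.

CONVENTIONS as in `Spec.lean`.  Helper10 proves the seven modules with the data (L11, M11, A7, M22, M23,
HS, CO3) and the assembly FI3; open are the general modules CRD, TRE, HEC, LCK.
-/

open Equiv

namespace Pool.Agent.Lib.MP_79a223_al.FM

/-- All `i < n` satisfy `f`. -/
def allB (n : ℕ) (f : ℕ → Bool) : Bool := Nat.rec true (fun k r => f k && r) n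

/-- The number of the `i < n` which satisfy `f`. -/
def cnt (n : ℕ) (f : ℕ → Bool) : ℕ := Nat.rec 0 (fun k r => bif f k then r + 1 else r) n

/-- The sum of `f i`, `i < n`. -/
def sumN (n : ℕ) (f : ℕ → ℕ) : ℕ := Nat.rec 0 (fun k r => r + f k) n

/-- `s` acts on `0, …, n - 1` as the function `f`. -/
def Acts {n : ℕ} (s : Perm (Fin n)) (f : ℕ → ℕ) : Prop := ∀ i : Fin n, (s i : ℕ) = f i

/-- `l` is a polycyclic sequence (last element first) with factors of order dividing a number prime to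
`p`: each `s` of the list normalises the group generated by the elements `l` after it, and a power
`s ^ m`, `p ∤ m`, is in this group.  The products are written as `ws.prod`, `ws` a list of elements of `l`. -/
inductive PC {G : Type} [Group G] (p : ℕ) : List G → Prop
  | nil : PC p []
  | cons (s : G) (l : List G) (m : ℕ) : PC p l →
      (∀ x ∈ l, ∃ ws : List G, (∀ w ∈ ws, w ∈ l) ∧ s * x = ws.prod * s) →
      (∃ ws : List G, (∀ w ∈ ws, w ∈ l) ∧ s ^ m = ws.prod) → ¬ p ∣ m → PC p (s :: l)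

/-- Module CRD (80 lines).  PROOF.  Induction; `P = closure {x | x ∈ l}`, `P' = closure {x | x ∈ s :: l}`,
`P ≤ P'`.  `s x s⁻¹ ∈ P` for `x ∈ l`, so for all `x ∈ P` (`Subgroup.closure_induction`); the map
`x ↦ s x s⁻¹` from the finite `P` to itself is injective, so onto; `s` is in the normaliser of `P`, `P'` is
too, and `P` is normal in `P'`.  In the quotient `P' / P` (`P.subgroupOf P'`) every element is a power of
the class of `s`, whose order divides `m`; so the order of the quotient (cyclic) divides `m`.  (Or: every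
element of `P'` is `s ^ i * x`, `i < m`, `x ∈ P`, and `|P'| = |P| * [P' : P]`, the index is the order of a
cyclic group generated by an element with `m`-th power `1`.)  `p` prime. -/
def SpecCRD : Prop :=
  ∀ (G : Type) [Group G] [Finite G] (p : ℕ) (l : List G), p.Prime → PC p l →
    ¬ p ∣ Nat.card (Subgroup.closure {x : G | x ∈ l})

/-- Module TRE (50 lines).  PROOF.  First: `Subgroup.closure_induction` (for inverses: `i = s (s⁻¹ i)`).
Second: by strong induction on `dep i` every `i` is `s (root)`, `s ∈ A`, with the root `i₀`,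
`(i₀ : ℕ) = rep (col i₀)`; `col i₀ = col i` by the first part; for `col i = col j` the two roots are equal as
numbers. -/
def SpecTRE : Prop :=
  ∀ (n : ℕ) (l : List (Perm (Fin n))) (col rep dep : ℕ → ℕ),
    (∀ s ∈ l, ∀ i : Fin n, col (s i) = col i) →
    (∀ i : Fin n, (i : ℕ) = rep (col i) ∨ ∃ j : Fin n, dep j < dep i ∧ ∃ s ∈ l, s j = i) →
    (∀ s ∈ Subgroup.closure {x | x ∈ l}, ∀ i : Fin n, col (s i) = col i) ∧
    ∀ i j : Fin n, col i = col j → ∃ s ∈ Subgroup.closure {x | x ∈ l}, s i = j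

/-- Module HEC (180 lines).  PROOF.  `L` is the preimage of `C` under the linear map
`α ↦ (x ↦ α (col x))`.  (0) `cnt n f` is the number of the `z : Fin n` with `f z = true`.  (1) For `c ∈ C` let
`f = ∑_(a ∈ A) c ∘ a ∈ C` (`c ∘ a = rho p a⁻¹ c`); `f (b x) = f x` for `b ∈ A`, so `f` is constant on the
colour classes `O_i = {x | col x = i}`, with value `f_i`; `|O_i| f_i = ∑_(z ∈ O_i) f z = |A| ∑_(z ∈ O_i) c z`
(every `a` maps `O_i` onto itself).  (2) Some `c ∈ C` has `c δ ≠ 0` (`C ≠ 0`, `H` is transitive because it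
is 2-transitive and `D` has two points); `f δ = |A| c δ ≠ 0`, and `α i = f_i` (0 if the class is empty) is in
`L`, `α 0 = f δ`.  (3) Let `α ∈ L`, `c = (α ∘ col) ∘ g = rho p g⁻¹ _ ∈ C`; then
`∑_(z ∈ O_i) c z = ∑_j N_ij α_j`, `N_ij = |{z ∈ O_i | col (g z) = j}|`, and `N_ij = |O_i| M_ij` in `ZMod p` by
the check; so `|O_i| f_i = |A| |O_i| ∑_j M_ij α_j`, `f_i = |A| ∑_j M_ij α_j` (`p ∤ |O_i|`), and
`|A|⁻¹ f ∈ C` is the function of `(∑_j M_ij α_j)_i`. -/
def SpecHEC : Prop :=
  ∀ (n r p : ℕ) [Fact p.Prime] (H A : Subgroup (Perm (Fin n))) (col : ℕ → ℕ) (δ : Fin n),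
    TwoTransitive H → A ≤ H → ¬ p ∣ Nat.card A → (∀ s ∈ A, ∀ i : Fin n, col (s i) = col i) →
    (∀ i j : Fin n, col i = col j → ∃ s ∈ A, s i = j) → (∀ i : Fin n, col i < r) →
    (∀ i : Fin n, col i = 0 ↔ i = δ) → (∀ i < r, ¬ p ∣ cnt n (fun z => col z == i)) →
    ∀ C : Submodule (ZMod p) (Fin n → ZMod p), C ≠ ⊥ → Inv H p C →
    ∃ L : Submodule (ZMod p) (ℕ → ZMod p),
      (∀ α, α ∈ L ↔ (fun x : Fin n => α (col x)) ∈ C) ∧ (∃ α ∈ L, α 0 ≠ 0) ∧
      ∀ g ∈ H, ∀ f : ℕ → ℕ, Acts g f → ∀ M : ℕ → ℕ → ℕ,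
        (∀ i < r, ∀ j < r, (cnt n (fun z => col z == i) * M i j) % p =
          cnt n (fun z => col z == i && col (f z) == j) % p) →
        ∀ α ∈ L, (fun i => ∑ j ∈ Finset.range r, (M i j : ZMod p) * α j) ∈ L

/-- The vector with first entry `1` and then the digits of `t` in base `p`. -/
def vecN (p t : ℕ) : ℕ → ℕ := fun i => if i = 0 then 1 else t / p ^ (i - 1) % p

/-- Matrix times vector, modulo `p`. -/
def mulV (p r : ℕ) (M : ℕ → ℕ → ℕ) (v : ℕ → ℕ) : ℕ → ℕ := fun i => sumN r (fun j => M i j * v j) % p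

/-- The product of the matrices `Ms k`, `k` in the list `u`, applied to `v`. -/
def wordV (p r : ℕ) (Ms : ℕ → ℕ → ℕ → ℕ) (u : List ℕ) (v : ℕ → ℕ) : ℕ → ℕ :=
  u.foldr (fun k x => mulV p r (Ms k) x) v

/-- The linear combination of the words `c`, applied to `v`. -/
def combV (p r : ℕ) (Ms : ℕ → ℕ → ℕ → ℕ) (c : List (List ℕ × ℕ)) (v : ℕ → ℕ) (i : ℕ) : ℕ :=
  (c.map (fun x => x.2 * wordV p r Ms x.1 v i)).sum

/-- The combination `c` maps `v` to `1` or to `w`. -/
def okV (p r : ℕ) (Ms : ℕ → ℕ → ℕ → ℕ) (w : ℕ → ℕ) (c : List (List ℕ × ℕ)) (v : ℕ → ℕ) : Bool :=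
  allB r (fun i => combV p r Ms c v i % p == 1 % p) ||
    allB r (fun i => combV p r Ms c v i % p == w i % p)

/-- All vectors with first entry `1` are mapped to `1` or to `w` by a combination (in the table `tab`) of
words. -/
def chkL (p r : ℕ) (Ms : ℕ → ℕ → ℕ → ℕ) (w : ℕ → ℕ) (tab : ℕ → List (List ℕ × ℕ)) : Bool :=
  allB (p ^ (r - 1)) (fun t => okV p r Ms w (tab t) (vecN p t))

/-- Module LCK (100 lines).  PROOF.  Scale `α` to `α 0 = 1`.  Let `a i = (α i).val`, `i < r` (`a 0 = 1`), and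
`t = ∑_(i ≥ 1) a i p ^ (i - 1) < p ^ (r - 1)` (or prove by induction on `r` that every vector of numbers
`< p` is `vecN p t` on `i < r` for some `t < p ^ (r - 1)`).  By induction on the word `u`, the function
`i ↦ (wordV p r Ms u a i : ZMod p)` is in `L` (for `u = []` by the second hypothesis: `a` and `α` agree for
`i < r`; `mulV` casts to the sum `∑ M i j * _`, `ZMod.natCast_mod`), so the cast of `combV` is in `L`. -/
def SpecLCK : Prop :=
  ∀ (r p K : ℕ) [Fact p.Prime] (Ms : ℕ → ℕ → ℕ → ℕ) (w : ℕ → ℕ) (tab : ℕ → List (List ℕ × ℕ)),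
    0 < r → chkL p r Ms w tab = true → (∀ t, ∀ x ∈ tab t, ∀ k ∈ x.1, k < K) →
    ∀ L : Submodule (ZMod p) (ℕ → ZMod p),
      (∀ α β : ℕ → ZMod p, (∀ i < r, α i = β i) → α ∈ L → β ∈ L) →
      (∀ k < K, ∀ α ∈ L, (fun i => ∑ j ∈ Finset.range r, (Ms k i j : ZMod p) * α j) ∈ L) →
      (∃ α ∈ L, α 0 ≠ 0) → (fun _ => 1) ∈ L ∨ (fun i => (w i : ZMod p)) ∈ L

/-- The set of functions of the special prime. -/
def spF {n : ℕ} (H : Subgroup (Perm (Fin n))) (B : List ℕ) (q p : ℕ) : Set (Fin n → ZMod p) :=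
  if p = q then images H B p else sumZ (Fin n) p

/-- Modules L11, M11, A7, M22, M23, HS, CO3 (helper10; from CRD, TRE, HEC, LCK, SWP). -/
def SpecL11 : Prop :=
  ∀ (H : Subgroup (Perm (Fin 11))) (p : ℕ) [Fact p.Prime], TwoTransitive H →
    (∀ w ∈ psl211, HasCode H w) → Dich H p (spF H [0, 2, 6, 7, 8, 10] 3 p)

def SpecM11 : Prop :=
  ∀ (H : Subgroup (Perm (Fin 11))) (p : ℕ) [Fact p.Prime], TwoTransitive H →
    (∀ w ∈ mathieu11, HasCode H w) → Dich H p (sumZ (Fin 11) p)

def SpecA7 : Prop :=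
  ∀ (H : Subgroup (Perm (Fin 15))) (p : ℕ) [Fact p.Prime], TwoTransitive H →
    (∀ w ∈ alt7, HasCode H w) → Dich H p (spF H [0, 1, 3, 6, 7, 10, 12, 13] 2 p)

def SpecM22 : Prop :=
  ∀ (H : Subgroup (Perm (Fin 22))) (p : ℕ) [Fact p.Prime], TwoTransitive H →
    (∀ w ∈ mathieu22, HasCode H w) → Dich H p (spF H [0, 2, 3, 4, 8, 12, 18, 19] 2 p)

def SpecM23 : Prop :=
  ∀ (H : Subgroup (Perm (Fin 23))) (p : ℕ) [Fact p.Prime], TwoTransitive H →
    (∀ w ∈ mathieu23, HasCode H w) → Dich H p (spF H [0, 1, 2, 3, 4, 6, 8, 9, 12, 13, 16, 18] 2 p)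

def SpecHS : Prop :=
  ∀ (H : Subgroup (Perm (Fin 176))) (p : ℕ) [Fact p.Prime], TwoTransitive H →
    (∀ w ∈ higmanSims, HasCode H w) → Dich H p (spF H (0 :: List.range' 51 125) 3 p)

def SpecCO3 : Prop :=
  ∀ (H : Subgroup (Perm (Fin 276))) (p : ℕ) [Fact p.Prime], TwoTransitive H →
    (∀ w ∈ conway3, HasCode H w) → Dich H p (spF H (0 :: List.range' 151 125) 3 p)

/-- Module FI3 (helper10): the final theorem. -/
def SpecFI3 : Prop :=
  ∀ (X D : Type) [Finite X] [Fintype D] (H : Subgroup (Perm D))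
    (M : ∀ p : ℕ, Submodule (ZMod p) (D → ZMod p)), TwoTransitive H → Complete D H M →
    ∀ G : Subgroup (Perm X),
      (∃ (N : Subgroup G) (α : X) (S : Set X), RegularSocle G N ∧ α ∉ S ∧ ActsAs G α S H) ↔
        (∃ p : ℕ, p.Prime ∧ (∃ f ∈ M p, ∑ x, f x ≠ 0) ∧ IsAff G H p (M p)) ∨ IsTW G H

end Pool.Agent.Lib.MP_79a223_al.FM
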