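import Pool.Agent.Lib.MP_79a223_al.FM.SpecU

/-!
# MP_79a223_al, FM: module TRE (orbits from a spanning forest)
-/

set_option autoImplicit false

open Equiv

namespace Pool.Agent.Lib.MP_79a223_al.FM

namespace TREM

lemma color {n : ℕ} {l : List (Perm (Fin n))} {col : ℕ → ℕ}
    (h : ∀ s ∈ l, ∀ i : Fin n, col (s i) = col i) (s : Perm (Fin n))
    (hs : s ∈ Subgroup.closure {x | x ∈ l}) : ∀ i : Fin n, col (s i) = col i := by
  induction hs using Subgroup.closure_induction with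
  | mem x hx => exact h x hx
  | one => intro i; rfl
  | mul x y _ _ hx hy =>
    intro i
    rw [Perm.mul_apply, hx, hy]
  | inv x _ hx =>
    intro i
    have h1 := hx (x⁻¹ i)
    have e : x (x⁻¹ i) = i := x.apply_symm_apply i
    rw [e] at h1
    exact h1.symm

lemma root {n : ℕ} {l : List (Perm (Fin n))} {col rep dep : ℕ → ℕ}
    (h : ∀ s ∈ l, ∀ i : Fin n, col (s i) = col i)
    (hr : ∀ i : Fin n, (i : ℕ) = rep (col i) ∨ ∃ j : Fin n, dep j < dep i ∧ ∃ s ∈ l, s j = i) :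
    ∀ (N : ℕ) (i : Fin n), dep i < N → ∃ i₀ : Fin n, (i₀ : ℕ) = rep (col i₀) ∧
      ∃ s ∈ Subgroup.closure {x | x ∈ l}, s i₀ = i := by
  intro N
  induction N with
  | zero => intro i hi; exact absurd hi (Nat.not_lt_zero _)
  | succ N ih =>
    intro i hi
    rcases hr i with h1 | ⟨j, hj, s, hs, hsj⟩
    · exact ⟨i, h1, 1, Subgroup.one_mem _, rfl⟩
    · obtain ⟨i₀, h2, t, ht, hti⟩ := ih j (by omega)
      refine ⟨i₀, h2, s * t, Subgroup.mul_mem _ (Subgroup.subset_closure hs) ht, ?_⟩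
      rw [Perm.mul_apply, hti, hsj]

end TREM

open TREM in
theorem specTRE : SpecTRE := by
  intro n l col rep dep h hr
  refine ⟨fun s hs => color h s hs, fun i j hij => ?_⟩
  obtain ⟨i₀, h1, s, hs, hsi⟩ := root h hr (dep i + 1) i (Nat.lt_succ_self _)
  obtain ⟨j₀, h2, t, ht, htj⟩ := root h hr (dep j + 1) j (Nat.lt_succ_self _)
  have c1 := color h s hs i₀
  have c2 := color h t ht j₀
  rw [hsi] at c1
  rw [htj] at c2
  have e : i₀ = j₀ := by
    apply Fin.ext
    rw [h1, h2, ← c1, ← c2, hij]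
  refine ⟨t * s⁻¹, Subgroup.mul_mem _ ht (Subgroup.inv_mem _ hs), ?_⟩
  have e2 : s⁻¹ (s i₀) = i₀ := s.symm_apply_apply i₀
  rw [Perm.mul_apply, ← hsi, e2, e, htj]

end Pool.Agent.Lib.MP_79a223_al.FM
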