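import Pool.Agent.Lib.MP_79a223_al.FM.Spec

/-!
# TRV: groups with an involution of transvection type, odd characteristic
-/

open Equiv

namespace Pool.Agent.Lib.MP_79a223_al.FM

namespace TRVM

lemma two_ne {p : ℕ} [Fact p.Prime] (hp : p ≠ 2) : (2 : ZMod p) ≠ 0 := by
  intro h
  have h1 : ((2 : ℕ) : ZMod p) = 0 := by exact_mod_cast h
  rw [ZMod.natCast_eq_zero_iff] at h1
  exact hp ((Nat.prime_dvd_prime_iff_eq Fact.out Nat.prime_two).1 h1)

lemma self_neg {p : ℕ} [Fact p.Prime] (hp : p ≠ 2) {a : ZMod p} (h : a = -a) : a = 0 := by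
  have h1 : 2 * a = 0 := by
    rw [two_mul]
    nth_rewrite 1 [h]
    rw [neg_add_cancel]
  rcases mul_eq_zero.1 h1 with h2 | h2
  · exact absurd h2 (two_ne hp)
  · exact h2

end TRVM

open TRVM in
theorem specTRV (hDIF : SpecDIF) : SpecTRV := by
  classical
  intro D _ H p _ h2 hp hI C hC0 hinv
  obtain ⟨t, htH, ⟨x0, hx0⟩, htt, hcr⟩ := hI
  have htinv : t⁻¹ = t := by
    ext x
    rw [Perm.inv_eq_iff_eq]
    exact (htt x).symm
  by_cases hfix : ∀ c ∈ C, rho p t c = c
  · left
    have hconst : ∀ c ∈ C, ∀ x y, c x = c y := by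
      intro c hc x y
      by_cases hxy : x = y
      · rw [hxy]
      obtain ⟨s, hs, h1, h3⟩ := h2.2 x0 (t x0) x y (Ne.symm hx0) hxy
      have h4 := hfix _ (hinv s⁻¹ (H.inv_mem hs) c hc)
      have h5 := congrFun h4 x0
      rw [rho_apply, htinv, rho_apply, rho_apply, inv_inv, h1, h3] at h5
      exact h5.symm
    obtain ⟨c, hc, hc0⟩ := (Submodule.ne_bot_iff C).1 hC0
    obtain ⟨z, hz⟩ : ∃ z, c z ≠ 0 := Function.ne_iff.1 hc0
    have h6 : (fun _ => 1 : D → ZMod p) = (c z)⁻¹ • c := by
      funext w
      rw [Pi.smul_apply, smul_eq_mul, hconst c hc w z, inv_mul_cancel₀ hz]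
    rw [h6]
    exact C.smul_mem _ hc
  · right
    push Not at hfix
    obtain ⟨c, hc, hne⟩ := hfix
    have hex : ∃ n, ∃ f ∈ C, f ≠ 0 ∧ (∀ z, f (t z) = - f z) ∧
        (Finset.univ.filter (fun z => f z ≠ 0)).card = n := by
      refine ⟨_, c - rho p t c, C.sub_mem hc (hinv t htH c hc), sub_ne_zero.2 (Ne.symm hne), ?_, rfl⟩
      intro z
      simp only [Pi.sub_apply, rho_apply, htinv, htt]
      ring
    obtain ⟨f, hf, hf0, hft, hcard⟩ := Nat.find_spec hex
    have hmin := fun (m : ℕ) (hm : m < Nat.find hex) => Nat.find_min hex hm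
    obtain ⟨x, hx⟩ : ∃ x, f x ≠ 0 := Function.ne_iff.1 hf0
    have hodd : ∀ z, t z = z → f z = 0 := by
      intro z hz
      have h7 := hft z
      rw [hz] at h7
      exact self_neg hp h7
    have htx : t x ≠ x := fun h => hx (hodd x h)
    have hsupp : ∀ y, y ≠ x → y ≠ t x → f y = 0 := by
      intro y hy1 hy2
      by_contra hy
      have hty : t y ≠ y := fun h => hy (hodd y h)
      obtain ⟨a, ha, haz, hswap⟩ := hcr x y htx hty hy1 hy2
      have hg : f + rho p a f ∈ C := C.add_mem hf (hinv a ha f hf)
      have hcase : ∀ z, t z ≠ z → (a z = z ∧ a (t z) = t z) ∨ (a z = t z ∧ a (t z) = z) := by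
        intro z hz
        have hz' : t (t z) ≠ t z := by
          rw [htt]
          exact Ne.symm hz
        rcases haz z hz with h8 | h8
        · left
          refine ⟨h8, ?_⟩
          rcases haz (t z) hz' with h9 | h9
          · exact h9
          · rw [htt] at h9
            exact absurd (a.injective (h9.trans h8.symm)) hz
        · right
          refine ⟨h8, ?_⟩
          rcases haz (t z) hz' with h9 | h9
          · exact absurd (a.injective (h9.trans h8.symm)) hz
          · rw [htt] at h9
            exact h9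
      have hval0 : ∀ z, t z = z → (f + rho p a f) z = 0 := by
        intro z hz
        rw [Pi.add_apply, rho_apply, hodd z hz, zero_add]
        apply hodd
        by_contra hw
        have h10 : a (a⁻¹ z) = z := pinv' a z
        rcases haz (a⁻¹ z) hw with h11 | h11
        · rw [h10] at h11
          rw [← h11] at hw
          exact hw hz
        · rw [h10] at h11
          have h12 : t z = a⁻¹ z := (congrArg t h11).trans (htt _)
          have h12' : a⁻¹ z = z := h12.symm.trans hz
          rw [h12'] at hw
          exact hw hz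
      have hval1 : ∀ z, a z = z → (f + rho p a f) z = 2 * f z := by
        intro z hz
        have h13 : a⁻¹ z = z := by
          rw [Perm.inv_eq_iff_eq]
          exact hz.symm
        rw [Pi.add_apply, rho_apply, h13, two_mul]
      have hval2 : ∀ z, a (t z) = z → (f + rho p a f) z = 0 := by
        intro z hz
        have h13 : a⁻¹ z = t z := by
          rw [Perm.inv_eq_iff_eq]
          exact hz.symm
        rw [Pi.add_apply, rho_apply, h13, hft, add_neg_cancel]
      have hgt : ∀ z, (f + rho p a f) (t z) = - (f + rho p a f) z := by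
        intro z
        by_cases hz : t z = z
        · rw [hz, hval0 z hz, neg_zero]
        · rcases hcase z hz with ⟨h14, h15⟩ | ⟨h14, h15⟩
          · rw [hval1 _ h14, hval1 _ h15, hft]
            ring
          · rw [hval2 z h15, hval2 (t z) (by rw [htt]; exact h14), neg_zero]
      have hsub : ∀ z, (f + rho p a f) z ≠ 0 → f z ≠ 0 := by
        intro z hz h16
        apply hz
        by_cases hz' : t z = z
        · exact hval0 z hz'
        · rcases hcase z hz' with ⟨h14, h15⟩ | ⟨h14, h15⟩
          · rw [hval1 _ h14, h16, mul_zero]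
          · exact hval2 z h15
      have hcontra : ∀ u w, f u ≠ 0 → f w ≠ 0 → a u = u → a w = t w → False := by
        intro u w hu hw hau haw
        have hgu : (f + rho p a f) u ≠ 0 := by
          rw [hval1 u hau]
          exact mul_ne_zero (two_ne hp) hu
        have htw : t w ≠ w := fun h => hw (hodd w h)
        have hgw : (f + rho p a f) w = 0 := by
          rcases hcase w htw with ⟨h14, _⟩ | ⟨_, h15⟩
          · exact absurd (haw.symm.trans h14) htw
          · exact hval2 w h15
        have hlt : (Finset.univ.filter (fun z => (f + rho p a f) z ≠ 0)).card < Nat.find hex := by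
          rw [← hcard]
          apply Finset.card_lt_card
          rw [Finset.ssubset_iff_of_subset]
          · refine ⟨w, ?_, ?_⟩
            · simp [hw]
            · simp only [Finset.mem_filter, Finset.mem_univ, true_and, not_not]
              exact hgw
          · intro z hz
            rw [Finset.mem_filter] at hz ⊢
            exact ⟨hz.1, hsub z hz.2⟩
        refine hmin _ hlt ⟨f + rho p a f, hg, ?_, hgt, rfl⟩
        intro h0
        apply hgu
        rw [h0]
        rfl
      rcases hswap with ⟨h17, h18⟩ | ⟨h17, h18⟩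
      · exact hcontra x y hx hy h17 h18
      · exact hcontra y x hy hx h18 h17
    have hrep : (Pi.single x 1 - Pi.single (t x) 1 : D → ZMod p) = (f x)⁻¹ • f := by
      funext w
      rw [Pi.sub_apply, Pi.smul_apply, smul_eq_mul]
      by_cases h1 : w = x
      · subst h1
        rw [Pi.single_eq_same, Pi.single_eq_of_ne (Ne.symm htx), sub_zero, inv_mul_cancel₀ hx]
      · by_cases h3 : w = t x
        · subst h3
          rw [Pi.single_eq_same, Pi.single_eq_of_ne htx, hft, mul_neg, inv_mul_cancel₀ hx, zero_sub]
        · rw [Pi.single_eq_of_ne h1, Pi.single_eq_of_ne h3, hsupp w h1 h3, mul_zero, sub_zero]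
    refine hDIF D H p C h2 hinv ⟨x, t x, Ne.symm htx, ?_⟩
    rw [hrep]
    exact C.smul_mem _ hf

end Pool.Agent.Lib.MP_79a223_al.FM
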