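import Pool.Agent.Lib.MP_79a223_al.FM.SpecT

/-!
# TWA: the simple factor of an irreducible nonabelian group
-/

open Equiv

namespace Pool.Agent.Lib.MP_79a223_al.FM

namespace TWAM

open scoped Pointwise

variable {K N : Type} [Group K] [Group N] [MulDistribMulAction K N]

lemma smul_normal (k : K) (T : Subgroup N) [T.Normal] : (k • T).Normal := by
  constructor
  intro x hx n
  rw [Subgroup.mem_pointwise_smul_iff_inv_smul_mem] at hx ⊢
  rw [smul_mul', smul_mul', smul_inv']
  exact Subgroup.Normal.conj_mem inferInstance _ hx _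

lemma center_eq_bot (hirr : IrrAct K N) (hna : ∃ a b : N, a * b ≠ b * a) :
    ∀ z : N, (∀ n, n * z = z * n) → z = 1 := by
  have h : Subgroup.center N = ⊥ := by
    rcases hirr (Subgroup.center N) (by
      intro k m hm
      rw [Subgroup.mem_center_iff] at hm ⊢
      intro g
      have h1 := hm (k⁻¹ • g)
      have h2 := congrArg (fun x => k • x) h1
      simp only [smul_mul', smul_inv_smul] at h2
      exact h2) with h | h
    · exact h
    · exfalso
      obtain ⟨a, b, hab⟩ := hna
      apply hab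
      have h1 : b ∈ Subgroup.center N := by rw [h]; exact Subgroup.mem_top _
      exact Subgroup.mem_center_iff.mp h1 a
  intro z hz
  have h1 : z ∈ Subgroup.center N := Subgroup.mem_center_iff.mpr hz
  rw [h, Subgroup.mem_bot] at h1
  exact h1

lemma exists_min [Finite N] [Nontrivial N] : ∃ T : Subgroup N, T.Normal ∧ T ≠ ⊥ ∧
    ∀ U : Subgroup N, U.Normal → U ≤ T → U = ⊥ ∨ U = T := by
  obtain ⟨T, hT, hmin⟩ := WellFounded.has_min (wellFounded_lt (α := Subgroup N))
    {T : Subgroup N | T.Normal ∧ T ≠ ⊥} ⟨⊤, inferInstance, top_ne_bot⟩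
  refine ⟨T, hT.1, hT.2, fun U hU hUT => ?_⟩
  by_cases h : U = ⊥
  · exact Or.inl h
  · right
    by_contra hne
    exact hmin U ⟨hU, h⟩ (lt_of_le_of_ne hUT hne)

end TWAM

open TWAM in
open scoped Pointwise in
/-- TWA -/
theorem specTWA : SpecTWA := by
  intro K N _ _ _ _ hirr hna
  have hcen := center_eq_bot hirr hna
  have : Nontrivial N := by
    obtain ⟨a, b, hab⟩ := hna
    exact ⟨⟨a * b, b * a, hab⟩⟩
  obtain ⟨T, hTn, hT0, hmin⟩ := exists_min (N := N)
  -- dichotomy
  have htrans : ∀ k : K, (∀ t ∈ T, k • t ∈ T) ∨ ∀ t ∈ T, ∀ u ∈ T, (k • t) * u = u * (k • t) := by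
    intro k
    have hn : (k⁻¹ • T).Normal := smul_normal _ _
    have hinf : ((k⁻¹ • T) ⊓ T).Normal := Subgroup.normal_inf_normal _ _
    rcases hmin ((k⁻¹ • T) ⊓ T) hinf inf_le_right with h | h
    · right
      intro t ht u hu
      have hd : Disjoint (k⁻¹ • T) T := disjoint_iff.mpr h
      have hu' : k⁻¹ • u ∈ k⁻¹ • T := Subgroup.smul_mem_pointwise_smul _ _ _ hu
      have hc : Commute (k⁻¹ • u) t :=
        Subgroup.commute_of_normal_of_disjoint _ _ hn hTn hd _ _ hu' ht
      have h2 := congrArg (fun x => k • x) hc.eq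
      simp only [smul_mul', smul_inv_smul] at h2
      exact h2.symm
    · left
      intro t ht
      have h1 : t ∈ (k⁻¹ • T) ⊓ T := by rw [h]; exact ht
      have h2 : t ∈ k⁻¹ • T := (Subgroup.mem_inf.mp h1).1
      rw [Subgroup.mem_pointwise_smul_iff_inv_smul_mem, inv_inv] at h2
      exact h2
  -- generation
  have hgen : Subgroup.closure {x : N | ∃ k : K, ∃ t ∈ T, x = k • t} = ⊤ := by
    rcases hirr (Subgroup.closure {x : N | ∃ k : K, ∃ t ∈ T, x = k • t}) (by
      intro k m hm
      induction hm using Subgroup.closure_induction with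
      | mem x hx =>
        obtain ⟨k', t, ht, rfl⟩ := hx
        exact Subgroup.subset_closure ⟨k * k', t, ht, (mul_smul k k' t).symm⟩
      | one => rw [smul_one]; exact Subgroup.one_mem _
      | mul x y _ _ hx hy => rw [smul_mul']; exact Subgroup.mul_mem _ hx hy
      | inv x _ hx => rw [smul_inv']; exact Subgroup.inv_mem _ hx) with h | h
    · exfalso
      apply hT0
      rw [eq_bot_iff]
      intro t ht
      have h1 : t ∈ Subgroup.closure {x : N | ∃ k : K, ∃ t ∈ T, x = k • t} :=
        Subgroup.subset_closure ⟨1, t, ht, (one_smul K t).symm⟩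
      rw [h] at h1
      exact h1
    · exact h
  have hcentre : ∀ n : N, (∀ k : K, ∀ t ∈ T, n * (k • t) = (k • t) * n) → n = 1 := by
    intro n hn
    apply hcen
    intro g
    have hg : g ∈ Subgroup.closure {x : N | ∃ k : K, ∃ t ∈ T, x = k • t} := by
      rw [hgen]
      exact Subgroup.mem_top _
    induction hg using Subgroup.closure_induction with
    | mem x hx =>
      obtain ⟨k, t, ht, rfl⟩ := hx
      exact (hn k t ht).symm
    | one => simp
    | mul x y _ _ hx hy => rw [mul_assoc, hy, ← mul_assoc, hx, mul_assoc]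
    | inv x _ hx =>
      have h1 : Commute x n := hx
      exact h1.inv_left.eq
  have hnonab : ∃ a ∈ T, ∃ b ∈ T, a * b ≠ b * a := by
    by_contra hcon
    push Not at hcon
    apply hT0
    rw [eq_bot_iff]
    intro t ht
    rw [Subgroup.mem_bot]
    apply hcentre
    intro k u hu
    rcases htrans k with h | h
    · exact hcon t ht _ (h u hu)
    · exact (h u hu t ht).symm
  have hdec : ∀ n : N, ∃ t ∈ T, ∃ c : N, (∀ u ∈ T, c * u = u * c) ∧ n = t * c := by
    intro n
    have h1 : T ⊔ Subgroup.centralizer (T : Set N) = ⊤ := by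
      rw [eq_top_iff, ← hgen, Subgroup.closure_le]
      rintro _ ⟨k, t, ht, rfl⟩
      rcases htrans k with h | h
      · exact Subgroup.mem_sup_left (h t ht)
      · apply Subgroup.mem_sup_right
        rw [Subgroup.mem_centralizer_iff]
        intro u hu
        exact (h t ht u hu).symm
    have h2 : n ∈ ((T ⊔ Subgroup.centralizer (T : Set N) : Subgroup N) : Set N) := by
      rw [h1]
      exact Subgroup.mem_top _
    rw [Subgroup.normal_mul] at h2
    obtain ⟨t, ht, c, hc, rfl⟩ := Set.mem_mul.mp h2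
    refine ⟨t, ht, c, fun u hu => ?_, rfl⟩
    exact (Subgroup.mem_centralizer_iff.mp hc u hu).symm
  refine ⟨T, ?_, hnonab, hdec, htrans, hcentre, hgen⟩
  -- simplicity
  have : Nontrivial T := (Subgroup.nontrivial_iff_ne_bot T).mpr hT0
  constructor
  intro U hU
  have hUn : (U.map T.subtype).Normal := by
    constructor
    rintro _ ⟨u, hu, rfl⟩ n
    obtain ⟨t, ht, c, hc, rfl⟩ := hdec n
    have h1 : c * (u : N) * c⁻¹ = u := by
      rw [hc u u.2, mul_assoc, mul_inv_cancel, mul_one]
    refine ⟨⟨t, ht⟩ * u * ⟨t, ht⟩⁻¹, hU.conj_mem u hu ⟨t, ht⟩, ?_⟩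
    simp only [map_mul, map_inv, Subgroup.subtype_apply]
    calc t * (u : N) * t⁻¹ = t * (c * (u : N) * c⁻¹) * t⁻¹ := by rw [h1]
      _ = t * c * (u : N) * (t * c)⁻¹ := by group
  have hUT : U.map T.subtype ≤ T := by
    rintro _ ⟨u, _, rfl⟩
    exact u.2
  rcases hmin _ hUn hUT with h | h
  · left
    rw [eq_bot_iff]
    intro u hu
    have h1 : T.subtype u ∈ U.map T.subtype := ⟨u, hu, rfl⟩
    rw [h, Subgroup.mem_bot] at h1
    rw [Subgroup.mem_bot]
    exact Subtype.ext h1
  · right
    rw [eq_top_iff]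
    intro u _
    have h1 : T.subtype u ∈ U.map T.subtype := by rw [h]; exact u.2
    obtain ⟨v, hv, hvu⟩ := h1
    have : v = u := Subtype.ext hvu
    rwa [← this]

end Pool.Agent.Lib.MP_79a223_al.FM
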