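import Pool.Agent.Lib.MP_79a223_al.FM.SpecT

/-!
# TWB: a group with a factor is a twisted base group
-/

open Equiv

namespace Pool.Agent.Lib.MP_79a223_al.FM

namespace TWBM

variable {K N : Type} [Group K] [Group N] [MulDistribMulAction K N] {T : Subgroup N}

/-- only `1` is central in `T` -/
lemma centre_eq_one (hT : Factor K T) {z : N} (hz : z ∈ T) (hc : ∀ u ∈ T, z * u = u * z) :
    z = 1 := by
  have := hT.simple
  rcases Subgroup.Normal.eq_bot_or_eq_top (inferInstance : (Subgroup.center T).Normal) with h | h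
  · have h1 : (⟨z, hz⟩ : T) ∈ Subgroup.center T := by
      rw [Subgroup.mem_center_iff]
      intro g
      apply Subtype.ext
      exact (hc g g.2).symm
    rw [h, Subgroup.mem_bot] at h1
    exact congrArg Subtype.val h1
  · exfalso
    obtain ⟨a, ha, b, hb, hab⟩ := hT.nonab
    have h1 : (⟨a, ha⟩ : T) ∈ Subgroup.center T := by
      rw [h]
      exact Subgroup.mem_top _
    rw [Subgroup.mem_center_iff] at h1
    exact hab (congrArg Subtype.val (h1 ⟨b, hb⟩)).symm

lemma uniq (hT : Factor K T) {t t' c c' : N} (ht : t ∈ T) (ht' : t' ∈ T)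
    (hc : ∀ u ∈ T, c * u = u * c) (hc' : ∀ u ∈ T, c' * u = u * c') (h : t * c = t' * c') :
    t = t' := by
  have h1 : t'⁻¹ * t = c' * c⁻¹ := by
    have : t = t' * c' * c⁻¹ := by rw [← h, mul_inv_cancel_right]
    rw [this]
    group
  have h2 : t'⁻¹ * t = 1 := by
    apply centre_eq_one hT (T.mul_mem (T.inv_mem ht') ht)
    intro u hu
    rw [h1]
    have h3 : c⁻¹ * u = u * c⁻¹ := by
      rw [inv_mul_eq_iff_eq_mul, ← mul_assoc, hc u hu, mul_inv_cancel_right]
    rw [mul_assoc, h3, ← mul_assoc, hc' u hu, mul_assoc]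
  rw [inv_mul_eq_one] at h2
  exact h2.symm

/-- the projection to `T` -/
noncomputable def pr (hT : Factor K T) : N →* T where
  toFun n := ⟨(hT.dec n).choose, (hT.dec n).choose_spec.1⟩
  map_one' := by
    apply Subtype.ext
    obtain ⟨h1, c, hc, h2⟩ := (hT.dec 1).choose_spec
    refine uniq hT h1 T.one_mem hc (c' := 1) (fun u _ => by rw [one_mul, mul_one]) ?_
    rw [← h2]
    exact (mul_one (1 : N)).symm
  map_mul' := by
    intro n m
    apply Subtype.ext
    obtain ⟨h1, c, hc, h2⟩ := (hT.dec (n * m)).choose_spec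
    obtain ⟨k1, d, hd, k2⟩ := (hT.dec n).choose_spec
    obtain ⟨l1, e, he, l2⟩ := (hT.dec m).choose_spec
    refine uniq hT h1 (T.mul_mem k1 l1) hc (c' := d * e) ?_ ?_
    · intro u hu
      rw [mul_assoc, he u hu, ← mul_assoc, hd u hu, mul_assoc]
    · rw [← h2]
      conv_lhs => rw [k2, l2]
      have h3 := hd _ l1
      calc (hT.dec n).choose * d * ((hT.dec m).choose * e)
          = (hT.dec n).choose * (d * (hT.dec m).choose) * e := by group
        _ = (hT.dec n).choose * ((hT.dec m).choose * d) * e := by rw [h3]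
        _ = (hT.dec n).choose * (hT.dec m).choose * (d * e) := by group

lemma pr_eq (hT : Factor K T) {n t c : N} (ht : t ∈ T) (hc : ∀ u ∈ T, c * u = u * c)
    (h : n = t * c) : (pr hT n : N) = t := by
  obtain ⟨h1, d, hd, h2⟩ := (hT.dec n).choose_spec
  exact uniq hT h1 ht hd hc (h2.symm.trans h)

lemma pr_spec (hT : Factor K T) (n : N) :
    ∃ c : N, (∀ u ∈ T, c * u = u * c) ∧ n = (pr hT n : N) * c := by
  obtain ⟨h1, d, hd, h2⟩ := (hT.dec n).choose_spec
  exact ⟨d, hd, h2⟩

lemma pr_self (hT : Factor K T) (t : T) : pr hT (t : N) = t := by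
  apply Subtype.ext
  exact pr_eq hT t.2 (c := 1) (fun u _ => by rw [one_mul, mul_one]) (mul_one _).symm

lemma pr_comm (hT : Factor K T) {c : N} (hc : ∀ u ∈ T, c * u = u * c) : pr hT c = 1 := by
  apply Subtype.ext
  exact pr_eq hT T.one_mem hc (one_mul _).symm

lemma comm_of_pr (hT : Factor K T) {n : N} (h : pr hT n = 1) : ∀ u ∈ T, n * u = u * n := by
  obtain ⟨c, hc, h1⟩ := pr_spec hT n
  rw [h, Subgroup.coe_one, one_mul] at h1
  rw [h1]
  exact hc

/-- the elements which map `T` to itself -/
def QQ (hT : Factor K T) : Subgroup K where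
  carrier := {k | ∀ t ∈ T, k • t ∈ T}
  mul_mem' := by
    intro a b ha hb t ht
    rw [mul_smul]
    exact ha _ (hb _ ht)
  one_mem' := by
    intro t ht
    rw [one_smul]
    exact ht
  inv_mem' := by
    intro a ha
    rcases hT.trans a⁻¹ with h | h
    · exact h
    · exfalso
      obtain ⟨x, hx, y, hy, hxy⟩ := hT.nonab
      have h1 := h (a • x) (ha x hx) y hy
      rw [inv_smul_smul] at h1
      exact hxy h1

lemma mem_QQ (hT : Factor K T) {k : K} : k ∈ QQ hT ↔ ∀ t ∈ T, k • t ∈ T := Iff.rfl

/-- the action of `Q` on `T` -/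
def ph (hT : Factor K T) : QQ hT →* MulAut T where
  toFun q :=
    { toFun := fun t => ⟨(q : K) • (t : N), q.2 t t.2⟩
      invFun := fun t => ⟨((q⁻¹ : QQ hT) : K) • (t : N), (q⁻¹).2 t t.2⟩
      left_inv := by
        intro t
        apply Subtype.ext
        show ((q⁻¹ : QQ hT) : K) • ((q : K) • (t : N)) = t
        rw [Subgroup.coe_inv, inv_smul_smul]
      right_inv := by
        intro t
        apply Subtype.ext
        show (q : K) • (((q⁻¹ : QQ hT) : K) • (t : N)) = t
        rw [Subgroup.coe_inv, smul_inv_smul]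
      map_mul' := by
        intro a b
        apply Subtype.ext
        show (q : K) • ((a : N) * (b : N)) = ((q : K) • (a : N)) * ((q : K) • (b : N))
        rw [smul_mul'] }
  map_one' := by
    ext t
    show ((1 : QQ hT) : K) • (t : N) = t
    rw [Subgroup.coe_one, one_smul]
  map_mul' := by
    intro a b
    ext t
    show ((a * b : QQ hT) : K) • (t : N) = (a : K) • ((b : K) • (t : N))
    rw [Subgroup.coe_mul, mul_smul]

lemma ph_apply (hT : Factor K T) (q : QQ hT) (t : T) : ((ph hT q t : T) : N) = (q : K) • (t : N) :=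
  rfl

lemma pr_smul (hT : Factor K T) (q : QQ hT) (n : N) :
    pr hT ((q : K) • n) = ph hT q (pr hT n) := by
  obtain ⟨c, hc, h⟩ := pr_spec hT n
  apply Subtype.ext
  refine pr_eq hT (ph hT q (pr hT n)).2 (c := (q : K) • c) ?_ ?_
  · intro u hu
    have h1 : ((q⁻¹ : QQ hT) : K) • u ∈ T := (q⁻¹).2 u hu
    rw [Subgroup.coe_inv] at h1
    have h2 := congrArg (fun x => (q : K) • x) (hc _ h1)
    simp only [smul_mul', smul_inv_smul] at h2
    exact h2
  · rw [ph_apply]
    conv_lhs => rw [h]
    rw [smul_mul']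

lemma ph_inv (hT : Factor K T) (q : QQ hT) (t : T) : (ph hT q)⁻¹ t = ph hT q⁻¹ t := by
  rw [map_inv]

/-- the homomorphism to the twisted base group -/
noncomputable def ee (hT : Factor K T) : N →* twBase (QQ hT) (ph hT) where
  toFun n := ⟨fun h => pr hT (h⁻¹ • n), by
    intro h q
    show pr hT ((h * (q : K))⁻¹ • n) = (ph hT q)⁻¹ (pr hT (h⁻¹ • n))
    rw [ph_inv, ← pr_smul, mul_inv_rev, mul_smul, Subgroup.coe_inv]⟩
  map_one' := by
    apply Subtype.ext
    funext h
    show pr hT (h⁻¹ • (1 : N)) = 1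
    rw [smul_one, map_one]
  map_mul' := by
    intro a b
    apply Subtype.ext
    funext h
    show pr hT (h⁻¹ • (a * b)) = pr hT (h⁻¹ • a) * pr hT (h⁻¹ • b)
    rw [smul_mul', map_mul]

lemma ee_apply (hT : Factor K T) (n : N) (h : K) : (ee hT n : K → T) h = pr hT (h⁻¹ • n) := rfl

lemma ee_inj (hT : Factor K T) : Function.Injective (ee hT) := by
  rw [injective_iff_map_eq_one]
  intro n hn
  apply hT.centre
  intro k t ht
  have h1 : pr hT (k⁻¹ • n) = 1 := by
    rw [← ee_apply, hn]
    rfl
  have h2 := congrArg (fun x => k • x) (comm_of_pr hT h1 t ht)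
  simp only [smul_mul', smul_inv_smul] at h2
  exact h2

lemma ee_point (hT : Factor K T) (f : twBase (QQ hT) (ph hT)) (h x : K) :
    (x⁻¹ * h ∈ QQ hT → (ee hT (h • (((f : K → T) h : T) : N)) : K → T) x = (f : K → T) x) ∧
    (x⁻¹ * h ∉ QQ hT → (ee hT (h • (((f : K → T) h : T) : N)) : K → T) x = 1) := by
  rw [ee_apply, ← mul_smul]
  constructor
  · intro hq
    have h1 := pr_smul hT ⟨x⁻¹ * h, hq⟩ (((f : K → T) h : T) : N)
    rw [pr_self] at h1
    have h2 := f.2 x ⟨x⁻¹ * h, hq⟩
    have h3 : x * ((⟨x⁻¹ * h, hq⟩ : QQ hT) : K) = h := by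
      show x * (x⁻¹ * h) = h
      group
    rw [h3] at h2
    refine h1.trans ?_
    rw [h2]
    exact MulEquiv.apply_symm_apply (ph hT ⟨x⁻¹ * h, hq⟩) ((f : K → T) x)
  · intro hq
    apply pr_comm
    rcases hT.trans (x⁻¹ * h) with h1 | h1
    · exact absurd h1 hq
    · exact h1 _ ((f : K → T) h).2

open Classical in
lemma ee_surj [Fintype K] (hT : Factor K T) : Function.Surjective (ee hT) := by
  have key : ∀ (m : ℕ) (f : twBase (QQ hT) (ph hT)),
      (Finset.univ.filter fun x => (f : K → T) x ≠ 1).card ≤ m → ∃ n, ee hT n = f := by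
    intro m
    induction m with
    | zero =>
      intro f hf
      refine ⟨1, ?_⟩
      rw [map_one]
      apply Subtype.ext
      funext x
      have h1 : (Finset.univ.filter fun x => (f : K → T) x ≠ 1) = ∅ :=
        Finset.card_eq_zero.1 (Nat.le_zero.1 hf)
      by_contra h2
      have h3 : x ∈ (Finset.univ.filter fun x => (f : K → T) x ≠ 1) :=
        Finset.mem_filter.2 ⟨Finset.mem_univ _, fun h => h2 h.symm⟩
      rw [h1] at h3
      exact absurd h3 (Finset.notMem_empty x)
    | succ m ih =>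
      intro f hf
      by_cases hz : ∃ h, (f : K → T) h ≠ 1
      · obtain ⟨h, hh⟩ := hz
        obtain ⟨n, hn⟩ := ih (f * (ee hT (h • (((f : K → T) h : T) : N)))⁻¹) (by
          have hlt : (Finset.univ.filter fun x =>
              ((f * (ee hT (h • (((f : K → T) h : T) : N)))⁻¹ :
                twBase (QQ hT) (ph hT)) : K → T) x ≠ 1) ⊂
              (Finset.univ.filter fun x => (f : K → T) x ≠ 1) := by
            rw [Finset.ssubset_iff_of_subset]
            · refine ⟨h, Finset.mem_filter.2 ⟨Finset.mem_univ _, hh⟩, ?_⟩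
              intro h1
              apply (Finset.mem_filter.1 h1).2
              show (f : K → T) h * ((ee hT (h • (((f : K → T) h : T) : N)) : K → T) h)⁻¹ = 1
              rw [(ee_point hT f h h).1 (by rw [inv_mul_cancel]; exact (QQ hT).one_mem),
                mul_inv_cancel]
            · intro x hx
              refine Finset.mem_filter.2 ⟨Finset.mem_univ _, fun h1 => ?_⟩
              apply (Finset.mem_filter.1 hx).2
              show (f : K → T) x * ((ee hT (h • (((f : K → T) h : T) : N)) : K → T) x)⁻¹ = 1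
              by_cases hq : x⁻¹ * h ∈ QQ hT
              · rw [(ee_point hT f h x).1 hq, mul_inv_cancel]
              · rw [(ee_point hT f h x).2 hq, h1, inv_one, mul_one]
          have := Finset.card_lt_card hlt
          omega)
        refine ⟨n * (h • (((f : K → T) h : T) : N)), ?_⟩
        rw [map_mul, hn, inv_mul_cancel_right]
      · push Not at hz
        refine ⟨1, ?_⟩
        rw [map_one]
        apply Subtype.ext
        funext x
        exact (hz x).symm
  intro f
  exact key _ f le_rfl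

end TWBM

open TWBM in
theorem specTWB : SpecTWB := by
  intro K N _ _ _ _ _ T hT
  have := Fintype.ofFinite K
  refine ⟨QQ hT, ph hT, MulEquiv.ofBijective (ee hT) ⟨ee_inj hT, ee_surj hT⟩, ?_⟩
  intro k n h
  show pr hT (h⁻¹ • k • n) = pr hT ((k⁻¹ * h)⁻¹ • n)
  rw [mul_inv_rev, inv_inv, mul_smul]

end Pool.Agent.Lib.MP_79a223_al.FM
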