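import Pool.Agent.Lib.MP_79a223_al.FM.SpecT

/-!
# Module TWF: from the group to the twisted wreath product
-/

open Equiv

namespace Pool.Agent.Lib.MP_79a223_al.FM

namespace TWFM

/-- the twisted base group attached to an irreducible action on a nonabelian group -/
theorem core (hTWA : SpecTWA) (hTWB : SpecTWB) (hIRA : SpecIRA) {H N : Type} [Group H] [Finite H]
    [Group N] [Finite N] [MulDistribMulAction H N] (hirr : IrrAct H N) (hna : ∃ a b : N, a * b ≠ b * a)
    (hinn : ∀ (s : H) (n₀ : N), (∀ n : N, s • n = n₀ * n * n₀⁻¹) → n₀ = 1) :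
    ∃ (T : Type) (_ : Group T) (_ : Finite T) (Q : Subgroup H) (φ : Q →* MulAut T)
      (e : N ≃* twBase Q φ), TwPrim Q φ ∧
      ∀ (k : H) (n : N) (h : H), (e (k • n) : H → T) h = (e n : H → T) (k⁻¹ * h) := by
  classical
  obtain ⟨T, hF⟩ := hTWA H N hirr hna
  obtain ⟨Q, φ, e, he⟩ := hTWB H N T hF
  have hnt : Nontrivial T := hF.simple.toNontrivial
  have hIT : IrrTw Q φ := by
    intro M hM hMi
    have hmem : ∀ n, n ∈ M.comap ((twBase Q φ).subtype.comp e.toMonoidHom) ↔ (e n : H → T) ∈ M :=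
      fun n => Iff.rfl
    rcases hirr (M.comap ((twBase Q φ).subtype.comp e.toMonoidHom)) (by
      intro k m hm
      rw [hmem] at hm ⊢
      have h1 : (e (k • m) : H → T) = tr k (e m : H → T) := funext fun h => he k m h
      rw [h1]
      exact hMi k _ hm) with h | h
    · left
      rw [eq_bot_iff]
      intro f hf
      have h1 : e.symm ⟨f, hM hf⟩ ∈ M.comap ((twBase Q φ).subtype.comp e.toMonoidHom) := by
        rw [hmem, MulEquiv.apply_symm_apply]
        exact hf
      rw [h, Subgroup.mem_bot, MulEquiv.map_eq_one_iff] at h1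
      exact Subgroup.mem_bot.2 (congrArg Subtype.val h1)
    · right
      apply le_antisymm hM
      intro f hf
      have h1 : e.symm ⟨f, hf⟩ ∈ M.comap ((twBase Q φ).subtype.comp e.toMonoidHom) := by
        rw [h]; exact Subgroup.mem_top _
      rw [hmem, MulEquiv.apply_symm_apply] at h1
      exact h1
  obtain ⟨hI1, hI2⟩ := hIRA H T Q φ hIT
  refine ⟨T, inferInstance, inferInstance, Q, φ, e, ⟨hF.simple, ?_, hI1, hI2, ?_⟩, he⟩
  · obtain ⟨a, ha, b, hb, hab⟩ := hF.nonab
    exact ⟨⟨a, ha⟩, ⟨b, hb⟩, fun h => hab (congrArg Subtype.val h)⟩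
  · by_cases hQ : Q = ⊤
    · right
      intro q t hqt
      have hQm : ∀ h : H, h ∈ Q := fun h => by rw [hQ]; exact Subgroup.mem_top h
      -- functions in the twisted base group are determined by the value at one
      have hval : ∀ (f : H → T), f ∈ twBase Q φ → ∀ h, f h = (φ ⟨h, hQm h⟩)⁻¹ (f 1) := by
        intro f hf h
        have := hf 1 ⟨h, hQm h⟩
        rwa [one_mul] at this
      let f₀ : H → T := fun h => (φ ⟨h, hQm h⟩)⁻¹ t
      have hf₀ : f₀ ∈ twBase Q φ := by
        intro h q'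
        have h1 : (⟨h * q', hQm (h * q')⟩ : Q) = ⟨h, hQm h⟩ * q' := rfl
        show (φ ⟨h * q', hQm (h * q')⟩)⁻¹ t = (φ q')⁻¹ ((φ ⟨h, hQm h⟩)⁻¹ t)
        rw [h1, map_mul, mul_inv_rev, MulAut.mul_apply]
      have hf₀1 : f₀ 1 = t := by
        show (φ ⟨1, hQm 1⟩)⁻¹ t = t
        have h1 : (⟨1, hQm 1⟩ : Q) = 1 := rfl
        rw [h1, map_one, inv_one, MulAut.one_apply]
      have h0 : e.symm ⟨f₀, hf₀⟩ = 1 := by
        apply hinn (q : H)
        intro n
        apply e.injective
        apply Subtype.ext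
        have hA : ((e ((q : H) • n) : twBase Q φ) : H → T) 1 = φ q ((e n : H → T) 1) := by
          rw [he, mul_one, hval _ (e n).2]
          have h1 : (⟨(q : H)⁻¹, hQm _⟩ : Q) = q⁻¹ := rfl
          rw [h1, map_inv, inv_inv]
        have hB : ((e (e.symm ⟨f₀, hf₀⟩ * n * (e.symm ⟨f₀, hf₀⟩)⁻¹) : twBase Q φ) : H → T) 1 =
            t * (e n : H → T) 1 * t⁻¹ := by
          rw [map_mul, map_mul, map_inv, MulEquiv.apply_symm_apply]
          show f₀ 1 * (e n : H → T) 1 * (f₀ 1)⁻¹ = _
          rw [hf₀1]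
        funext h
        rw [hval _ (e ((q : H) • n)).2, hval _ (e (e.symm ⟨f₀, hf₀⟩ * n * (e.symm ⟨f₀, hf₀⟩)⁻¹)).2,
          hA, hB, hqt]
      rw [MulEquiv.map_eq_one_iff] at h0
      have h1 : f₀ = 1 := congrArg Subtype.val h0
      rw [← hf₀1, h1]
      rfl
    · left
      exact hQ

end TWFM

open TWFM in
theorem specTWF (hTWA : SpecTWA) (hTWB : SpecTWB) (hIRA : SpecIRA) : SpecTWF := by
  classical
  intro X D _ _ G H h2 hSub
  obtain ⟨N, α, S, hN, hna, hαS, ι, hι1, hι2⟩ := hSub
  obtain ⟨hprim, hNn, hNne, hNmin, hreg⟩ := hN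
  obtain ⟨⟨d0, d1, hd01⟩, h2t⟩ := h2
  have hntX : Nontrivial X := ⟨(ι d0 : X), (ι d1 : X), fun h => hd01 (ι.injective (Subtype.ext h))⟩
  set K := MulAction.stabilizer G α with hK
  have hKmem : ∀ g : G, g ∈ K ↔ (g : Perm X) α = α := fun g => Iff.rfl
  let iA : MulDistribMulAction K N :=
    MulDistribMulAction.compHom N ((MulAut.conjNormal : G →* MulAut N).comp K.subtype)
  have hsm : ∀ (k : K) (n : N), (((k • n : N) : G) : Perm X) = (k : G) * (n : G) * ((k : G) : Perm X)⁻¹ := by
    intro k n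
    rfl
  have hsmG : ∀ (k : K) (n : N), ((k • n : N) : G) = k * n * (k : G)⁻¹ := fun k n => rfl
  have hki : ∀ k : K, ((k : G) : Perm X)⁻¹ α = α := by
    intro k
    rw [Perm.inv_eq_iff_eq]
    exact ((hKmem _).1 k.2).symm
  have hsmα : ∀ (k : K) (n : N), ((k • n : N) : G).1 α = (k : G).1 ((n : G).1 α) := by
    intro k n
    rw [hsm, Perm.mul_apply, Perm.mul_apply, hki]
  have huniq : ∀ m n : N, (m : G).1 α = (n : G).1 α → m = n := by
    intro m n hmn
    obtain ⟨c, -, hc⟩ := hreg α ((n : G).1 α)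
    exact Subtype.ext ((hc m ⟨m.2, hmn⟩).trans (hc n ⟨n.2, rfl⟩).symm)
  have hex : ∀ y, ∃ n : N, (n : G).1 α = y := by
    intro y
    obtain ⟨c, ⟨hc1, hc2⟩, -⟩ := hreg α y
    exact ⟨⟨c, hc1⟩, hc2⟩
  let β : N ≃ X := Equiv.ofBijective (fun n => (n : G).1 α) ⟨fun m n h => huniq m n h, hex⟩
  have hβ : ∀ n, β n = (n : G).1 α := fun n => rfl
  -- decomposition
  have hdec : ∀ g : G, ∃ (n : N) (k : K), g = n * k := by
    intro g
    obtain ⟨n, hn⟩ := hex (g.1 α)
    refine ⟨n, ⟨(n : G)⁻¹ * g, ?_⟩, by simp⟩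
    rw [hKmem, Subgroup.coe_mul, Perm.mul_apply, ← hn, Subgroup.coe_inv, pinv]
  have hirr : ∀ M : Subgroup N, (∀ k : K, ∀ m ∈ M, k • m ∈ M) → M = ⊥ ∨ M = ⊤ := by
    intro M hM
    let L : Subgroup G :=
      { carrier := {g | ∃ m ∈ M, ∃ k : K, g = m * k}
        mul_mem' := by
          rintro _ _ ⟨m, hm, k, rfl⟩ ⟨m', hm', k', rfl⟩
          refine ⟨m * k • m', M.mul_mem hm (hM _ _ hm'), k * k', ?_⟩
          rw [Subgroup.coe_mul, hsmG, Subgroup.coe_mul]
          group
        one_mem' := ⟨1, M.one_mem, 1, by simp⟩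
        inv_mem' := by
          rintro _ ⟨m, hm, k, rfl⟩
          refine ⟨k⁻¹ • m⁻¹, hM _ _ (M.inv_mem hm), k⁻¹, ?_⟩
          rw [hsmG, Subgroup.coe_inv, Subgroup.coe_inv]
          group }
    have hLmem : ∀ g, g ∈ L ↔ ∃ m ∈ M, ∃ k : K, g = m * k := fun g => Iff.rfl
    have hKL : K ≤ L := by
      intro k hk
      exact ⟨1, M.one_mem, ⟨k, hk⟩, by simp⟩
    have hcoat : IsCoatom K := MulAction.IsPreprimitive.isCoatom_stabilizer_of_isPreprimitive G α
    rcases hcoat.le_iff.1 hKL with h | h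
    · right
      rw [eq_top_iff]
      intro n _
      have : (n : G) ∈ L := by rw [h]; exact Subgroup.mem_top _
      obtain ⟨m, hm, k, hk⟩ := this
      have h1 : n = m := by
        apply huniq
        rw [hk, Subgroup.coe_mul, Perm.mul_apply]
        congr 1
        exact (hKmem _).1 k.2
      rw [h1]
      exact hm
    · left
      rw [eq_bot_iff]
      intro m hm
      have : (m : G) ∈ L := ⟨m, hm, 1, by simp⟩
      rw [h, hKmem] at this
      exact Subgroup.mem_bot.2 (huniq m 1 this)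
  have : Finite N := Finite.of_equiv X β.symm
  have hntN : Nontrivial N := β.nontrivial
  -- the action on `D`
  have hσex : ∀ k : K, ∃ s, s ∈ H ∧ ∀ d, (k : G).1 (ι d : X) = ι (s d) := by
    intro k
    obtain ⟨s, hs, hs'⟩ := hι1 (k : G).1 (k : G).2 ((hKmem _).1 k.2)
    exact ⟨s, hs, hs'⟩
  choose s0 hs0 hs0' using hσex
  have hsuniq : ∀ (k : K) (s : Perm D), (∀ d, (k : G).1 (ι d : X) = ι (s d)) → s0 k = s := by
    intro k s hs
    ext d
    apply ι.injective
    apply Subtype.ext
    rw [← hs0', ← hs]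
  let σ : K →* Perm D :=
    { toFun := s0
      map_one' := hsuniq 1 1 (fun d => rfl)
      map_mul' := by
        intro k k'
        apply hsuniq
        intro d
        rw [Perm.mul_apply, ← hs0', ← hs0']
        rfl }
  have hσ : ∀ (k : K) d, (k : G).1 (ι d : X) = ι (σ k d) := hs0'
  have hσr : σ.range = H := by
    ext s
    constructor
    · rintro ⟨k, rfl⟩
      exact hs0 k
    · intro hs
      obtain ⟨g, hg, hgα, hgd⟩ := hι2 s hs
      exact ⟨⟨⟨g, hg⟩, hgα⟩, hsuniq _ _ hgd⟩
  -- generation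
  let ιN : D → N := fun d => β.symm (ι d : X)
  have hιN : ∀ d, ((ιN d : N) : G).1 α = (ι d : X) := fun d => β.apply_symm_apply _
  have hιNs : ∀ (k : K) d, k • ιN d = ιN (σ k d) := by
    intro k d
    apply huniq
    rw [hsmα, hιN, hιN, hσ]
  have hιN1 : ∀ d, ιN d ≠ 1 := by
    intro d h
    have h5 := hιN d
    rw [h] at h5
    apply hαS
    have h6 : (ι d : X) = α := h5.symm
    rw [← h6]
    exact (ι d).2
  have hcl : Subgroup.closure (Set.range ιN) = ⊤ := by
    rcases hirr (Subgroup.closure (Set.range ιN)) (by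
      intro h m hm
      have h3 : (Subgroup.closure (Set.range ιN)) ≤
          (Subgroup.closure (Set.range ιN)).comap (MulDistribMulAction.toMonoidHom N h) := by
        rw [Subgroup.closure_le]
        rintro _ ⟨d, rfl⟩
        exact Subgroup.subset_closure ⟨σ h d, (hιNs h d).symm⟩
      exact h3 hm) with h | h
    · exfalso
      have h4 : ιN d0 ∈ Subgroup.closure (Set.range ιN) := Subgroup.subset_closure ⟨d0, rfl⟩
      rw [h, Subgroup.mem_bot] at h4
      exact hιN1 d0 h4
    · exact h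
  -- faithfulness
  have hσinj : Function.Injective σ := by
    rw [injective_iff_map_eq_one]
    intro k hk
    have h1 : ∀ n : N, k • n = n := by
      intro n
      have h4 : n ∈ Subgroup.closure (Set.range ιN) := by rw [hcl]; exact Subgroup.mem_top _
      induction h4 using Subgroup.closure_induction with
      | mem x hx =>
        obtain ⟨d, rfl⟩ := hx
        rw [hιNs, hk]
        rfl
      | one => exact smul_one k
      | mul x y _ _ hx hy => rw [smul_mul', hx, hy]
      | inv x _ hx => rw [smul_inv', hx]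
    apply Subtype.ext
    apply Subtype.ext
    apply Equiv.ext
    intro x
    obtain ⟨n, rfl⟩ := β.surjective x
    have h2 := hsmα k n
    rw [h1] at h2
    exact h2.symm
  let σ' : K ≃* H := (MonoidHom.ofInjective hσinj).trans (MulEquiv.subgroupCongr hσr)
  have hσ' : ∀ k : K, ((σ' k : H) : Perm D) = σ k := fun k => rfl
  have hτ : ∀ s : H, σ (σ'.symm s) = (s : Perm D) := by
    intro s
    rw [← hσ', MulEquiv.apply_symm_apply]
  let iH : MulDistribMulAction H N := MulDistribMulAction.compHom N (σ'.symm : H →* K)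
  have hsH : ∀ (s : H) (n : N), s • n = σ'.symm s • n := fun s n => rfl
  have hirrH : IrrAct H N := by
    intro M hM
    apply hirr
    intro k m hm
    have := hM (σ' k) m hm
    rwa [hsH, MulEquiv.symm_apply_apply] at this
  have hna' : ∃ a b : N, a * b ≠ b * a := by
    obtain ⟨a, ha, b, hb, hab⟩ := hna
    exact ⟨⟨a, ha⟩, ⟨b, hb⟩, fun h => hab (congrArg Subtype.val h)⟩
  -- the centraliser of `N` is trivial
  have hC : ∀ c : G, (∀ n : N, c * n = n * c) → c = 1 := by
    intro c hc
    have h1 : Subgroup.centralizer (N : Set G) = ⊥ := by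
      by_contra hne
      have h2 : N ≤ Subgroup.centralizer (N : Set G) := hNmin _ inferInstance hne
      obtain ⟨a, b, hab⟩ := hna'
      apply hab
      apply Subtype.ext
      have h3 := (Subgroup.mem_centralizer_iff.1 (h2 b.2)) (a : G) a.2
      exact h3
    have h2 : c ∈ Subgroup.centralizer (N : Set G) := by
      rw [Subgroup.mem_centralizer_iff]
      intro n hn
      exact (hc ⟨n, hn⟩).symm
    rw [h1, Subgroup.mem_bot] at h2
    exact h2
  have hinn : ∀ (s : H) (n₀ : N), (∀ n : N, s • n = n₀ * n * n₀⁻¹) → n₀ = 1 := by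
    intro s n₀ h
    have h1 : (n₀ : G)⁻¹ * (σ'.symm s : K) = 1 := by
      apply hC
      intro n
      have h2 : ((σ'.symm s : K) : G) * n * ((σ'.symm s : K) : G)⁻¹ = n₀ * n * (n₀ : G)⁻¹ := by
        have h3 := congrArg (Subtype.val : N → G) (h n)
        rw [hsH, hsmG] at h3
        exact h3
      have h4 : ((σ'.symm s : K) : G) * n = n₀ * n * (n₀ : G)⁻¹ * ((σ'.symm s : K) : G) := by
        rw [← h2]; group
      rw [mul_assoc, h4]
      group
    have h2 : ((σ'.symm s : K) : G) = n₀ := by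
      rw [inv_mul_eq_one] at h1
      exact h1.symm
    apply huniq
    rw [← h2]
    exact (hKmem _).1 (σ'.symm s).2
  obtain ⟨T, iT, iF, Q, φ, e, hTP, he⟩ := core hTWA hTWB hIRA hirrH hna' hinn
  refine ⟨T, iT, iF, Q, φ, hTP, ?_, β.symm.trans e.toEquiv, ?_⟩
  · -- the fixed element
    obtain ⟨x, hx⟩ : ∃ x, (e (ιN d0) : H → T) x ≠ 1 := by
      by_contra hcon
      push Not at hcon
      apply hιN1 d0
      apply e.injective
      rw [map_one]
      apply Subtype.ext
      funext x
      exact hcon x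
    refine ⟨((x⁻¹ : H) : Perm D) d0, (e (ιN d0) : H → T) x, hx, ?_⟩
    intro q hq
    have h1 : (((x * q * x⁻¹ : H)) : Perm D) d0 = d0 := by
      rw [Subgroup.coe_mul, Subgroup.coe_mul, Perm.mul_apply, Perm.mul_apply, hq, Subgroup.coe_inv,
        pinv']
    have h2 : (x * q * x⁻¹ : H) • ιN d0 = ιN d0 := by
      rw [hsH, hιNs, hτ, h1]
    have h3 := he (x * q * x⁻¹) (ιN d0) (x * q)
    rw [h2] at h3
    have h4 : (x * q * x⁻¹ : H)⁻¹ * (x * q) = x := by group
    rw [h4, (e (ιN d0)).2 x q] at h3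
    have h5 := congrArg (φ q) h3
    rw [MulAut.apply_inv_self] at h5
    exact h5.symm
  · have hcomp : ∀ (n : N) (k : K) (x : X) (h : H),
        ((β.symm.trans e.toEquiv) (((n : G).1 * (k : G).1) x) : H → T) h =
          (e n : H → T) h * ((β.symm.trans e.toEquiv) x : H → T) ((σ' k)⁻¹ * h) := by
      intro n k x h
      obtain ⟨m, rfl⟩ := β.surjective x
      have h1 : ((n : G).1 * (k : G).1) (β m) = β (n * k • m) := by
        rw [hβ, hβ, Subgroup.coe_mul, Subgroup.coe_mul, Perm.mul_apply, Perm.mul_apply, hsmα]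
      rw [h1, Equiv.trans_apply, Equiv.symm_apply_apply, Equiv.trans_apply, Equiv.symm_apply_apply]
      show (e (n * k • m) : H → T) h = (e n : H → T) h * (e m : H → T) ((σ' k)⁻¹ * h)
      rw [map_mul]
      show (e n : H → T) h * (e (k • m) : H → T) h = _
      have h2 := he (σ' k) m h
      rw [hsH, MulEquiv.symm_apply_apply] at h2
      rw [h2]
    intro g
    constructor
    · intro hg
      obtain ⟨n, k, hnk⟩ := hdec ⟨g, hg⟩
      have hg' : g = (n : G).1 * (k : G).1 := congrArg Subtype.val hnk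
      exact ⟨σ' k, e n, fun x h => by rw [hg', hcomp n k x h]⟩
    · rintro ⟨s, w, hw⟩
      have hg' : g = (e.symm w : G).1 * ((σ'.symm s : K) : G).1 := by
        ext x
        apply (β.symm.trans e.toEquiv).injective
        apply Subtype.ext
        funext h
        rw [hw x h, hcomp (e.symm w) (σ'.symm s) x h, MulEquiv.apply_symm_apply,
          MulEquiv.apply_symm_apply]
      rw [hg']
      exact G.mul_mem (Subtype.prop _) (Subtype.prop _)

end Pool.Agent.Lib.MP_79a223_al.FM
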