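import Pool.Agent.Lib.MP_79a223_al.FM.SpecT

/-!
# Module TWN: twisted wreath products are primitive with a nonabelian regular socle and the suborbit
-/

set_option autoImplicit false

open Equiv

namespace Pool.Agent.Lib.MP_79a223_al.FM

namespace TWNM

variable {H T : Type} [Group H] [Group T]

lemma tr_mem (Q : Subgroup H) (φ : Q →* MulAut T) (s : H) {f : H → T} (hf : f ∈ twBase Q φ) :
    tr s f ∈ twBase Q φ := by
  intro h q
  show f (s⁻¹ * (h * q)) = (φ q)⁻¹ (f (s⁻¹ * h))
  rw [← mul_assoc]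
  exact hf (s⁻¹ * h) q

/-- the action of `H` on the twisted base group -/
@[reducible] def twAct (Q : Subgroup H) (φ : Q →* MulAut T) :
    MulDistribMulAction H (twBase Q φ) where
  smul s f := ⟨tr s f, tr_mem Q φ s f.2⟩
  one_smul f := by
    apply Subtype.ext
    funext x
    show (f : H → T) ((1 : H)⁻¹ * x) = (f : H → T) x
    rw [inv_one, one_mul]
  mul_smul s t f := by
    apply Subtype.ext
    funext x
    show (f : H → T) ((s * t)⁻¹ * x) = (f : H → T) (t⁻¹ * (s⁻¹ * x))
    rw [mul_inv_rev, mul_assoc]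
  smul_mul s f g := by
    apply Subtype.ext
    funext x
    rfl
  smul_one s := by
    apply Subtype.ext
    funext x
    rfl

lemma irrAct {Q : Subgroup H} {φ : Q →* MulAut T} (h : IrrTw Q φ) :
    @IrrAct H (twBase Q φ) _ _ (twAct Q φ) := by
  letI := twAct Q φ
  intro M hM
  have hle : M.map (twBase Q φ).subtype ≤ twBase Q φ := by
    rintro f ⟨g, _, rfl⟩
    exact g.2
  have hinv : ∀ s : H, ∀ f ∈ M.map (twBase Q φ).subtype, tr s f ∈ M.map (twBase Q φ).subtype := by
    rintro s f ⟨g, hg, rfl⟩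
    exact ⟨s • g, hM s g hg, rfl⟩
  rcases h _ hle hinv with h1 | h1
  · left
    rw [eq_bot_iff]
    intro m hm
    have h2 : ((twBase Q φ).subtype m) ∈ M.map (twBase Q φ).subtype := ⟨m, hm, rfl⟩
    rw [h1, Subgroup.mem_bot] at h2
    rw [Subgroup.mem_bot]
    exact Subtype.ext h2
  · right
    rw [eq_top_iff]
    intro m _
    have h2 : (m : H → T) ∈ M.map (twBase Q φ).subtype := by
      rw [h1]
      exact m.2
    obtain ⟨g, hg, hgm⟩ := h2
    have h3 : g = m := Subtype.ext hgm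
    rw [← h3]
    exact hg

open Classical in
/-- the function `q ↦ φ(q)⁻¹ t` on `Q`, `1` off `Q` -/
noncomputable def fn (Q : Subgroup H) (φ : Q →* MulAut T) (t : T) : H → T :=
  fun h => if hq : h ∈ Q then (φ ⟨h, hq⟩)⁻¹ t else 1

lemma fn_mem (Q : Subgroup H) (φ : Q →* MulAut T) (t : T) : fn Q φ t ∈ twBase Q φ := by
  intro h q
  unfold fn
  by_cases hq : h ∈ Q
  · have hq2 : h * q ∈ Q := Q.mul_mem hq q.2
    rw [dif_pos hq2, dif_pos hq]
    have h1 : (⟨h * q, hq2⟩ : Q) = ⟨h, hq⟩ * q := rfl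
    rw [h1, map_mul, mul_inv_rev, MulAut.mul_apply]
  · have hq2 : ¬ h * q ∈ Q := by
      intro h2
      apply hq
      have h3 := Q.mul_mem h2 (Q.inv_mem q.2)
      rwa [mul_inv_cancel_right] at h3
    rw [dif_neg hq2, dif_neg hq, map_one]

lemma fn_one (Q : Subgroup H) (φ : Q →* MulAut T) (t : T) : fn Q φ t 1 = t := by
  unfold fn
  rw [dif_pos Q.one_mem]
  have h1 : (⟨1, Q.one_mem⟩ : Q) = 1 := rfl
  rw [h1, map_one, inv_one, MulAut.one_apply]

end TWNM

open TWNM

theorem specTWN (hIRB : SpecIRB) (hSUB : SpecSUB) (hINN : SpecINN) (hNRA : SpecNRA) :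
    SpecTWN := by
  classical
  intro X D _ _ G H h2 hTW
  obtain ⟨T, iT, fT, Q, φ, hprim, hfix, e, hG⟩ := hTW
  have hirr : IrrTw Q φ := hIRB H T Q φ hprim
  obtain ⟨ν, hν1, hν2, hν3, hν4⟩ := hSUB D T H Q φ h2 hirr hprim.nonab hfix
  have hinn := hINN D T H Q φ ν h2 hprim hirr hν1 hν2 hν3 hν4
  letI act := twAct Q φ
  have hab : ∃ a b : twBase Q φ, a * b ≠ b * a := by
    obtain ⟨a, b, hab⟩ := hprim.nonab
    refine ⟨⟨fn Q φ a, fn_mem Q φ a⟩, ⟨fn Q φ b, fn_mem Q φ b⟩, fun h => hab ?_⟩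
    have h1 := congrFun (congrArg Subtype.val h) 1
    have h3 : fn Q φ a 1 * fn Q φ b 1 = fn Q φ b 1 * fn Q φ a 1 := h1
    rwa [fn_one, fn_one] at h3
  have hin : ∀ (k : H) (w : twBase Q φ), (∀ v, k • v = w * v * w⁻¹) → k = 1 := by
    intro k w hkw
    refine hinn k w w.2 fun f hf => ?_
    exact congrArg Subtype.val (hkw ⟨f, hf⟩)
  have hG' : ∀ g : Perm X, g ∈ G ↔ ∃ (k : H) (w : twBase Q φ), ∀ x, e (g x) = w * k • e x := by
    intro g
    rw [hG g]
    constructor
    · rintro ⟨s, w, h⟩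
      refine ⟨s, w, fun x => Subtype.ext (funext fun y => ?_)⟩
      exact h x y
    · rintro ⟨s, w, h⟩
      refine ⟨s, w, fun x y => ?_⟩
      exact congrFun (congrArg Subtype.val (h x)) y
  obtain ⟨N, hN, hNab⟩ := hNRA X (twBase Q φ) H e G (irrAct hirr) hab hin hG'
  let α : X := e.symm 1
  let S : Set X := {x | ∃ d, (e x : H → T) = ν d}
  let f : D → S := fun d => ⟨e.symm ⟨ν d, hν1 d⟩, d, by rw [Equiv.apply_symm_apply]⟩
  have hf : ∀ d, (e (f d : X) : H → T) = ν d := by
    intro d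
    show ((e (e.symm ⟨ν d, hν1 d⟩) : twBase Q φ) : H → T) = ν d
    rw [Equiv.apply_symm_apply]
  have hbij : Function.Bijective f := by
    constructor
    · intro d d' hdd
      apply hν3
      rw [← hf d, ← hf d', hdd]
    · rintro ⟨x, d, hd⟩
      refine ⟨d, Subtype.ext (e.injective (Subtype.ext ?_))⟩
      rw [hf d]
      exact hd.symm
  have hα : (e α : H → T) = 1 := by
    show ((e (e.symm 1) : twBase Q φ) : H → T) = 1
    rw [Equiv.apply_symm_apply]
    rfl
  refine ⟨N, α, S, hN, hNab, ?_, Equiv.ofBijective f hbij, ?_, ?_⟩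
  · rintro ⟨d, hd⟩
    exact hν4 d (hd.symm.trans hα)
  · intro g hg hgα
    obtain ⟨s, w, h⟩ := (hG g).1 hg
    refine ⟨s, s.2, fun d => ?_⟩
    have hw : ∀ y, (w : H → T) y = 1 := by
      intro y
      have h3 := h α y
      rw [hgα, hα] at h3
      simpa using h3.symm
    show g (f d : X) = (f ((s : Perm D) d) : X)
    apply e.injective
    apply Subtype.ext
    rw [hf, hν2]
    funext y
    rw [h, hw, one_mul, hf]
    rfl
  · intro s hs
    let s' : H := ⟨s, hs⟩
    let g : Perm X := (e.trans (MulAction.toPerm s')).trans e.symm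
    have hg : ∀ x, e (g x) = s' • e x := fun x => e.apply_symm_apply _
    have hgG : g ∈ G := by
      rw [hG' g]
      refine ⟨s', 1, fun x => ?_⟩
      rw [hg, one_mul]
    refine ⟨g, hgG, ?_, fun d => ?_⟩
    · apply e.injective
      rw [hg]
      apply Subtype.ext
      show tr s' (e α : H → T) = (e α : H → T)
      rw [hα]
      rfl
    · show g (f d : X) = (f (s d) : X)
      apply e.injective
      apply Subtype.ext
      rw [hg, hf]
      show tr s' (e (f d : X) : H → T) = ν (s d)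
      rw [hf]
      exact (hν2 s' d).symm

end Pool.Agent.Lib.MP_79a223_al.FM
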